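import Pool.Agent.PathMix2.Defs
set_option autoImplicit false

open Finset

namespace PathMix2

/-! ### Complex roots of unity -/

lemma zt_add (n : ℕ) (a b : ℤ) : zt n (a + b) = zt n a * zt n b := by
  unfold zt
  rw [← Complex.exp_add]
  congr 1
  push_cast
  ring

lemma zt_zero (n : ℕ) : zt n 0 = 1 := by
  unfold zt; simp

lemma zt_ne_zero (n : ℕ) (a : ℤ) : zt n a ≠ 0 := Complex.exp_ne_zero _

lemma zt_neg_mul (n : ℕ) (a : ℤ) : zt n (-a) * zt n a = 1 := by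
  rw [← zt_add, neg_add_cancel, zt_zero]

lemma zt_conj (n : ℕ) (a : ℤ) : (starRingEnd ℂ) (zt n a) = zt n (-a) := by
  unfold zt
  rw [← Complex.exp_conj]
  congr 1
  simp only [map_mul, map_div₀, Complex.conj_I, Complex.conj_ofReal, map_ofNat, map_natCast, map_intCast]
  push_cast
  ring

lemma zt_eq_one_iff (n : ℕ) (hn : 0 < n) (a : ℤ) : zt n a = 1 ↔ (n : ℤ) ∣ a := by
  have hnc : (n : ℂ) ≠ 0 := by exact_mod_cast hn.ne'
  unfold zt
  rw [Complex.exp_eq_one_iff]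
  constructor
  · rintro ⟨k, hk⟩
    have hpi : (2 * Real.pi * Complex.I : ℂ) ≠ 0 := by simp [Real.pi_ne_zero]
    have h2 : (a / n : ℂ) = k := by
      apply mul_left_cancel₀ hpi
      rw [hk]; ring
    have h3 : (a : ℂ) = n * k := by
      field_simp at h2
      rw [h2]
    exact ⟨k, by exact_mod_cast h3⟩
  · rintro ⟨k, rfl⟩
    refine ⟨k, ?_⟩
    push_cast
    field_simp

lemma zt_eq_iff (n : ℕ) (hn : 0 < n) (a b : ℤ) : zt n a = zt n b ↔ (n : ℤ) ∣ a - b := by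
  rw [← zt_eq_one_iff n hn, sub_eq_add_neg, zt_add]
  constructor
  · intro h
    rw [h, mul_comm, zt_neg_mul]
  · intro h
    have := congrArg (· * zt n b) h
    simp only [mul_assoc, zt_neg_mul, mul_one, one_mul] at this
    exact this

lemma zt_mul (d n : ℕ) (hd : 0 < d) (a : ℤ) : zt (d * n) (d * a) = zt n a := by
  unfold zt
  congr 2
  push_cast
  have hdc : (d : ℂ) ≠ 0 := by exact_mod_cast hd.ne'
  rw [mul_div_mul_left _ _ hdc]

lemma zt_eq_neg_one_iff (n : ℕ) (hn : 0 < n) (a : ℤ) :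
    zt n a = -1 ↔ (n : ℤ) ∣ 2 * a ∧ ¬ (n : ℤ) ∣ a := by
  rw [← zt_eq_one_iff n hn, ← zt_eq_one_iff n hn a, two_mul, zt_add]
  constructor
  · intro h
    rw [h]
    norm_num
  · rintro ⟨h1, h2⟩
    have h3 : (zt n a - 1) * (zt n a + 1) = 0 := by
      linear_combination h1
    rcases mul_eq_zero.mp h3 with h | h
    · exact absurd (sub_eq_zero.mp h) h2
    · exact eq_neg_of_add_eq_zero_left h

/-! ### The groups `A n` -/

@[simp] lemma coe_z (n : ℕ) (m : ℤ) : ((z n m : A n) : ℂ) = zt n m := rfl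

lemma A.induction {n : ℕ} {p : A n → Prop} (hz : ∀ m, p (z n m)) (h0 : p 0)
    (hadd : ∀ x y, p x → p y → p (x + y)) (hneg : ∀ x, p x → p (-x)) (x : A n) : p x := by
  obtain ⟨x, hx⟩ := x
  induction hx using AddSubgroup.closure_induction with
  | mem x hx =>
    obtain ⟨m, rfl⟩ := hx
    exact hz m
  | zero => exact h0
  | add x y hx hy h1 h2 => exact hadd _ _ h1 h2
  | neg x hx h => exact hneg _ h

/-- homomorphisms from `A n` are determined by the values at the roots of unity -/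
lemma A.hom_ext {n : ℕ} {T : Type*} [AddCommGroup T] {f g : A n →+ T}
    (h : ∀ m, f (z n m) = g (z n m)) : f = g := by
  ext x
  induction x using A.induction with
  | hz m => exact h m
  | h0 => rw [map_zero, map_zero]
  | hadd x y h1 h2 => rw [map_add, map_add, h1, h2]
  | hneg x h => rw [map_neg, map_neg, h]

/-- an additive map of `ℂ` which maps roots of unity of order `n` to `A k` restricts to `A n →+ A k` -/
noncomputable def restr (n k : ℕ) (φ : ℂ →+ ℂ) (h : ∀ m, φ (zt n m) ∈ A k) : A n →+ A k :=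
  (φ.comp (A n).subtype).codRestrict (A k) (by
    intro x
    induction x using A.induction with
    | hz m => exact h m
    | h0 => rw [map_zero]; exact zero_mem _
    | hadd x y h1 h2 => rw [map_add]; exact add_mem h1 h2
    | hneg x h => rw [map_neg]; exact neg_mem h)

lemma coe_restr (n k : ℕ) (φ : ℂ →+ ℂ) (h : ∀ m, φ (zt n m) ∈ A k) (x : A n) :
    ((restr n k φ h x : A k) : ℂ) = φ (x : ℂ) := rfl

/-- multiplication by `ζ_n^k` -/
noncomputable def mulz (n : ℕ) (k : ℤ) : A n →+ A n :=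
  restr n n (AddMonoidHom.mulLeft (zt n k)) (by
    intro m
    rw [AddMonoidHom.coe_mulLeft, ← zt_add]
    exact (z n (k + m)).2)

@[simp] lemma coe_mulz (n : ℕ) (k : ℤ) (x : A n) : ((mulz n k x : A n) : ℂ) = zt n k * x := rfl

@[simp] lemma mulz_z (n : ℕ) (k m : ℤ) : mulz n k (z n m) = z n (k + m) := by
  apply Subtype.ext
  rw [coe_mulz, coe_z, coe_z, zt_add]

lemma mulz_eq_zero (n : ℕ) (k : ℤ) (x : A n) : mulz n k x = 0 ↔ x = 0 := by
  constructor
  · intro h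
    have := congrArg (fun y : A n => (y : ℂ)) h
    simp only [coe_mulz, ZeroMemClass.coe_zero, mul_eq_zero, zt_ne_zero, false_or] at this
    exact Subtype.ext this
  · rintro rfl; exact map_zero _

/-- complex conjugation -/
noncomputable def conjA (n : ℕ) : A n →+ A n :=
  restr n n (starRingEnd ℂ).toAddMonoidHom (by
    intro m
    have : (starRingEnd ℂ).toAddMonoidHom (zt n m) = zt n (-m) := zt_conj n m
    rw [this]
    exact (z n (-m)).2)

@[simp] lemma coe_conjA (n : ℕ) (x : A n) : ((conjA n x : A n) : ℂ) = (starRingEnd ℂ) (x : ℂ) := rfl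

@[simp] lemma conjA_z (n : ℕ) (m : ℤ) : conjA n (z n m) = z n (-m) := by
  apply Subtype.ext
  rw [coe_conjA, coe_z, coe_z, zt_conj]

/-- trace `w + conj w` -/
noncomputable def tr (n : ℕ) : A n →+ A n := AddMonoidHom.id (A n) + conjA n

lemma tr_apply (n : ℕ) (x : A n) : tr n x = x + conjA n x := rfl

@[simp] lemma tr_z (n : ℕ) (m : ℤ) : tr n (z n m) = tt n m := by
  rw [tr_apply, conjA_z]; rfl

/-- `w - conj w` -/
noncomputable def sk (n : ℕ) : A n →+ A n := AddMonoidHom.id (A n) - conjA n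

lemma sk_apply (n : ℕ) (x : A n) : sk n x = x - conjA n x := rfl

lemma sk_eq_zero_iff (n : ℕ) (x : A n) : sk n x = 0 ↔ (x : ℂ).im = 0 := by
  rw [sk_apply, sub_eq_zero]
  constructor
  · intro h
    have := congrArg (fun y : A n => (y : ℂ)) h
    simp only [coe_conjA] at this
    exact Complex.conj_eq_iff_im.mp this.symm
  · intro h
    apply Subtype.ext
    rw [coe_conjA]
    exact (Complex.conj_eq_iff_im.mpr h).symm

lemma z_eq_iff (n : ℕ) (hn : 0 < n) (a b : ℤ) : z n a = z n b ↔ (n : ℤ) ∣ a - b := by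
  rw [← zt_eq_iff n hn, Subtype.ext_iff]; rfl

lemma z_ne_zero (n : ℕ) (a : ℤ) : z n a ≠ 0 := by
  intro h
  exact zt_ne_zero n a (congrArg (fun y : A n => (y : ℂ)) h)

lemma z_add_eq_zero_iff (n : ℕ) (hn : 0 < n) (a b : ℤ) :
    z n a + z n b = 0 ↔ (n : ℤ) ∣ 2 * (a - b) ∧ ¬ (n : ℤ) ∣ a - b := by
  rw [← zt_eq_neg_one_iff n hn, Subtype.ext_iff]
  have h : ((z n a + z n b : A n) : ℂ) = zt n b * (zt n (a - b) + 1) := by
    have : zt n a = zt n b * zt n (a - b) := by rw [← zt_add]; congr 1; ring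
    rw [AddSubgroup.coe_add, coe_z, coe_z, this]
    ring
  rw [h, ZeroMemClass.coe_zero, mul_eq_zero]
  constructor
  · rintro (h | h)
    · exact absurd h (zt_ne_zero n b)
    · exact eq_neg_of_add_eq_zero_left h
  · intro h
    right
    rw [h]; ring

lemma z_add_ne_zero (n : ℕ) (hn : n % 2 = 1) (a b : ℤ) : z n a + z n b ≠ 0 := by
  rw [Ne, z_add_eq_zero_iff n (by omega)]
  rintro ⟨h1, h2⟩
  apply h2
  have hc : IsCoprime (n : ℤ) 2 := by
    rw [Int.isCoprime_iff_gcd_eq_one]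
    have : Nat.Coprime n 2 := by
      rw [Nat.coprime_comm, Nat.coprime_two_left]
      exact Nat.odd_iff.mpr hn
    exact_mod_cast this
  exact hc.dvd_of_dvd_mul_left h1

lemma tt_neg (n : ℕ) (m : ℤ) : tt n (-m) = tt n m := by
  unfold tt
  rw [neg_neg, add_comm]

lemma coe_tt (n : ℕ) (m : ℤ) : ((tt n m : A n) : ℂ) = zt n m + zt n (-m) := rfl

lemma tt_coe_eq (n : ℕ) (m : ℤ) : ((tt n m : A n) : ℂ) = ((2 * Real.cos (2 * Real.pi * (m / n)) : ℝ) : ℂ) := by
  rw [coe_tt]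
  unfold zt
  push_cast
  rw [Complex.two_cos]
  congr 2
  · ring
  · ring

lemma tt_im (n : ℕ) (m : ℤ) : ((tt n m : A n) : ℂ).im = 0 := by
  rw [tt_coe_eq, Complex.ofReal_im]

lemma tt_per (n : ℕ) (hn : 0 < n) (a b : ℤ) (h : (n : ℤ) ∣ a - b) : tt n a = tt n b := by
  have h1 : z n a = z n b := (z_eq_iff n hn a b).mpr h
  have h2 : z n (-a) = z n (-b) := (z_eq_iff n hn _ _).mpr (by
    have : -a - -b = -(a - b) := by ring
    rw [this]; exact (dvd_neg).mpr h)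
  unfold tt
  rw [h1, h2]

lemma tt_sub_factor (n : ℕ) (a b : ℤ) :
    ((tt n a - tt n b : A n) : ℂ) = (zt n a - zt n b) * (1 - zt n (-(a + b))) := by
  have h1 : zt n a * zt n (-(a + b)) = zt n (-b) := by rw [← zt_add]; congr 1; ring
  have h2 : zt n b * zt n (-(a + b)) = zt n (-a) := by rw [← zt_add]; congr 1; ring
  rw [AddSubgroup.coe_sub, coe_tt, coe_tt]
  linear_combination h1 - h2

lemma tt_add_factor (n : ℕ) (a b : ℤ) :
    ((tt n a + tt n b : A n) : ℂ) = (zt n a + zt n b) * (1 + zt n (-(a + b))) := by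
  have h1 : zt n a * zt n (-(a + b)) = zt n (-b) := by rw [← zt_add]; congr 1; ring
  have h2 : zt n b * zt n (-(a + b)) = zt n (-a) := by rw [← zt_add]; congr 1; ring
  rw [AddSubgroup.coe_add, coe_tt, coe_tt]
  linear_combination -h1 - h2

lemma z_sub_conj_factor (n : ℕ) (a b : ℤ) :
    ((z n a - z n b : A n) : ℂ) - (starRingEnd ℂ) ((z n a - z n b : A n) : ℂ) =
      (zt n a - zt n b) * (1 + zt n (-(a + b))) := by
  have h1 : zt n a * zt n (-(a + b)) = zt n (-b) := by rw [← zt_add]; congr 1; ring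
  have h2 : zt n b * zt n (-(a + b)) = zt n (-a) := by rw [← zt_add]; congr 1; ring
  rw [AddSubgroup.coe_sub, map_sub, coe_z, coe_z, zt_conj, zt_conj]
  linear_combination -h1 + h2

lemma z_add_conj_factor (n : ℕ) (a b : ℤ) :
    ((z n a + z n b : A n) : ℂ) - (starRingEnd ℂ) ((z n a + z n b : A n) : ℂ) =
      (zt n a + zt n b) * (1 - zt n (-(a + b))) := by
  have h1 : zt n a * zt n (-(a + b)) = zt n (-b) := by rw [← zt_add]; congr 1; ring
  have h2 : zt n b * zt n (-(a + b)) = zt n (-a) := by rw [← zt_add]; congr 1; ring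
  rw [AddSubgroup.coe_add, map_add, coe_z, coe_z, zt_conj, zt_conj]
  linear_combination h1 + h2

lemma tt_eq_iff (n : ℕ) (hn : 0 < n) (a b : ℤ) :
    tt n a = tt n b ↔ (n : ℤ) ∣ a - b ∨ (n : ℤ) ∣ a + b := by
  rw [← sub_eq_zero, Subtype.ext_iff, tt_sub_factor, ZeroMemClass.coe_zero, mul_eq_zero, sub_eq_zero,
    zt_eq_iff n hn, sub_eq_zero, eq_comm (a := (1 : ℂ)), zt_eq_one_iff n hn, dvd_neg]

lemma tt_add_eq_zero_iff (n : ℕ) (hn : 0 < n) (a b : ℤ) :
    tt n a + tt n b = 0 ↔ ((n : ℤ) ∣ 2 * (a - b) ∧ ¬ (n : ℤ) ∣ a - b) ∨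
      ((n : ℤ) ∣ 2 * (a + b) ∧ ¬ (n : ℤ) ∣ a + b) := by
  rw [Subtype.ext_iff, tt_add_factor, ZeroMemClass.coe_zero, mul_eq_zero]
  have h1 : zt n a + zt n b = 0 ↔ ((n : ℤ) ∣ 2 * (a - b) ∧ ¬ (n : ℤ) ∣ a - b) := by
    rw [← z_add_eq_zero_iff n hn, Subtype.ext_iff]; rfl
  have h2 : 1 + zt n (-(a + b)) = 0 ↔ ((n : ℤ) ∣ 2 * (a + b) ∧ ¬ (n : ℤ) ∣ a + b) := by
    have : 1 + zt n (-(a + b)) = 0 ↔ zt n (-(a + b)) = -1 := by
      constructor
      · intro h; exact eq_neg_of_add_eq_zero_right h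
      · intro h; rw [h]; ring
    rw [this, zt_eq_neg_one_iff n hn, mul_neg, dvd_neg, dvd_neg]
  rw [h1, h2]

lemma two_mul_dvd_of_odd (n : ℕ) (hn : n % 2 = 1) (a : ℤ) : (n : ℤ) ∣ 2 * a ↔ (n : ℤ) ∣ a := by
  constructor
  · intro h1
    have hc : IsCoprime (n : ℤ) 2 := by
      rw [Int.isCoprime_iff_gcd_eq_one]
      have : Nat.Coprime n 2 := by
        rw [Nat.coprime_comm, Nat.coprime_two_left]
        exact Nat.odd_iff.mpr hn
      exact_mod_cast this
    exact hc.dvd_of_dvd_mul_left h1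
  · intro h; exact h.mul_left 2

lemma tt_add_ne_zero (n : ℕ) (hn : n % 2 = 1) (a b : ℤ) : tt n a + tt n b ≠ 0 := by
  rw [Ne, tt_add_eq_zero_iff n (by omega), two_mul_dvd_of_odd n hn, two_mul_dvd_of_odd n hn]
  tauto

lemma tt_eq_zero_iff (n : ℕ) (hn : 0 < n) (a : ℤ) :
    tt n a = 0 ↔ (n : ℤ) ∣ 4 * a ∧ ¬ (n : ℤ) ∣ 2 * a := by
  unfold tt
  rw [z_add_eq_zero_iff n hn]
  have h1 : 2 * (a - -a) = 4 * a := by ring
  have h2 : a - -a = 2 * a := by ring
  rw [h1, h2]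

/-- if `4 ∤ n` then `2 cos (2πa/n) ≠ 0` -/
lemma tt_ne_zero (n : ℕ) (hn : n % 4 ≠ 0) (a : ℤ) : tt n a ≠ 0 := by
  rw [Ne, tt_eq_zero_iff n (by omega)]
  rintro ⟨h1, h2⟩
  apply h2
  rcases Nat.even_or_odd n with he | ho
  · obtain ⟨k, hk⟩ := he
    have hk2 : k % 2 = 1 := by omega
    have h3 : ((k + k : ℕ) : ℤ) = 2 * (k : ℤ) := by push_cast; ring
    rw [hk, h3] at h1 ⊢
    have h4 : (k : ℤ) ∣ 2 * a := by
      obtain ⟨c, hc⟩ := h1
      refine ⟨c, ?_⟩
      linarith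
    have h5 := (two_mul_dvd_of_odd k hk2 a).mp h4
    exact mul_dvd_mul_left 2 h5
  · have hn2 : n % 2 = 1 := Nat.odd_iff.mp ho
    have h3 : 4 * a = 2 * (2 * a) := by ring
    rw [h3] at h1
    exact (two_mul_dvd_of_odd n hn2 _).mp h1

lemma sub_real_iff (n : ℕ) (hn : 0 < n) (a b : ℤ) :
    ((z n a - z n b : A n) : ℂ).im = 0 ↔
      (n : ℤ) ∣ a - b ∨ ((n : ℤ) ∣ 2 * (a + b) ∧ ¬ (n : ℤ) ∣ a + b) := by
  rw [← Complex.conj_eq_iff_im, eq_comm, ← sub_eq_zero, z_sub_conj_factor, mul_eq_zero, sub_eq_zero,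
    zt_eq_iff n hn]
  have h2 : 1 + zt n (-(a + b)) = 0 ↔ ((n : ℤ) ∣ 2 * (a + b) ∧ ¬ (n : ℤ) ∣ a + b) := by
    have : 1 + zt n (-(a + b)) = 0 ↔ zt n (-(a + b)) = -1 := by
      constructor
      · intro h; exact eq_neg_of_add_eq_zero_right h
      · intro h; rw [h]; ring
    rw [this, zt_eq_neg_one_iff n hn, mul_neg, dvd_neg, dvd_neg]
  rw [h2]

lemma add_real_iff (n : ℕ) (hn : 0 < n) (a b : ℤ) :
    ((z n a + z n b : A n) : ℂ).im = 0 ↔
      ((n : ℤ) ∣ 2 * (a - b) ∧ ¬ (n : ℤ) ∣ a - b) ∨ (n : ℤ) ∣ a + b := by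
  rw [← Complex.conj_eq_iff_im, eq_comm, ← sub_eq_zero, z_add_conj_factor, mul_eq_zero]
  have h1 : zt n a + zt n b = 0 ↔ ((n : ℤ) ∣ 2 * (a - b) ∧ ¬ (n : ℤ) ∣ a - b) := by
    rw [← z_add_eq_zero_iff n hn, Subtype.ext_iff]; rfl
  rw [h1, sub_eq_zero, eq_comm (a := (1 : ℂ)), zt_eq_one_iff n hn, dvd_neg]

lemma z_real_iff (n : ℕ) (hn : 0 < n) (a : ℤ) : ((z n a : A n) : ℂ).im = 0 ↔ (n : ℤ) ∣ 2 * a := by
  rw [← Complex.conj_eq_iff_im, coe_z, zt_conj, zt_eq_iff n hn]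
  have : -a - a = -(2 * a) := by ring
  rw [this, dvd_neg]

end PathMix2
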