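import Pool.Agent.PathMix2.PD
import Pool.Agent.PathMix2.Roots
set_option autoImplicit false

open Finset

namespace PathMix2

variable {n g : ℕ}

/-! ### Cone structure of `Vals` and `Kill` -/

lemma Vals.add {F F' : SG n g → ℝ} {w w' c0 c0' c1 c1' c2 c2' : ℝ} {c3 c3' : ℤ → ℝ}
    (h : Vals n g F w c0 c1 c2 c3) (h' : Vals n g F' w' c0' c1' c2' c3') :
    Vals n g (fun x => F x + F' x) (w + w') (c0 + c0') (c1 + c1') (c2 + c2') (fun l => c3 l + c3' l) where
  pd := h.pd.add h'.pd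
  zero := by rw [h.zero, h'.zero]
  rr m m' h1 h2 h3 h4 := by rw [h.rr m m' h1 h2 h3 h4, h'.rr m m' h1 h2 h3 h4]; ring
  rs m i m' h1 := by rw [h.rs m i m' h1, h'.rs m i m' h1]; ring
  ss i j hij m m' := by rw [h.ss i j hij, h'.ss i j hij]; ring
  s1 i m m' h1 := by rw [h.s1 i m m' h1, h'.s1 i m m' h1]; ring
  orr hn m m' h1 h2 := by rw [h.orr hn m m' h1 h2, h'.orr hn m m' h1 h2]; ring
  ors hn m i m' h1 := by rw [h.ors hn m i m' h1, h'.ors hn m i m' h1]; ring
  oss hn i j m m' := by rw [h.oss hn, h'.oss hn]; ring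
  er hn m h1 := by rw [h.er hn m h1, h'.er hn m h1]; ring
  es hn i m := by rw [h.es hn, h'.es hn]; ring

lemma Vals.smul {F : SG n g → ℝ} {w c0 c1 c2 : ℝ} {c3 : ℤ → ℝ}
    (h : Vals n g F w c0 c1 c2 c3) (a : ℝ) (ha : 0 ≤ a) :
    Vals n g (fun x => a * F x) (a * w) (a * c0) (a * c1) (a * c2) (fun l => a * c3 l) where
  pd := h.pd.smul a ha
  zero := by rw [h.zero]
  rr m m' h1 h2 h3 h4 := by rw [h.rr m m' h1 h2 h3 h4]; ring
  rs m i m' h1 := by rw [h.rs m i m' h1]; ring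
  ss i j hij m m' := by rw [h.ss i j hij]; ring
  s1 i m m' h1 := by rw [h.s1 i m m' h1]; ring
  orr hn m m' h1 h2 := by rw [h.orr hn m m' h1 h2]; ring
  ors hn m i m' h1 := by rw [h.ors hn m i m' h1]; ring
  oss hn i j m m' := by rw [h.oss hn]; ring
  er hn m h1 := by rw [h.er hn m h1]; ring
  es hn i m := by rw [h.es hn]; ring

lemma Kill.add {F F' : SG n g → ℝ} (h : Kill n g F) (h' : Kill n g F') :
    Kill n g (fun x => F x + F' x) where
  kr m m' h1 h2 := by rw [h.kr m m' h1 h2, h'.kr m m' h1 h2]; ring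
  ks m i m' h1 := by rw [h.ks m i m' h1, h'.ks m i m' h1]; ring
  kk m m' h1 h2 := by rw [h.kk m m' h1 h2, h'.kk m m' h1 h2]; ring
  okr hn m m' h1 h2 := by rw [h.okr hn m m' h1 h2, h'.okr hn m m' h1 h2]; ring
  oks hn m i m' h1 := by rw [h.oks hn m i m' h1, h'.oks hn m i m' h1]; ring
  okk hn m m' h1 := by rw [h.okk hn m m' h1, h'.okk hn m m' h1]; ring
  ek hn m h1 := by rw [h.ek hn m h1, h'.ek hn m h1]; ring

lemma Kill.smul {F : SG n g → ℝ} (h : Kill n g F) (a : ℝ) : Kill n g (fun x => a * F x) where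
  kr m m' h1 h2 := by rw [h.kr m m' h1 h2]; ring
  ks m i m' h1 := by rw [h.ks m i m' h1]; ring
  kk m m' h1 h2 := by rw [h.kk m m' h1 h2]; ring
  okr hn m m' h1 h2 := by rw [h.okr hn m m' h1 h2]; ring
  oks hn m i m' h1 := by rw [h.oks hn m i m' h1]; ring
  okk hn m m' h1 := by rw [h.okk hn m m' h1]; ring
  ek hn m h1 := by rw [h.ek hn m h1]; ring

/-! ### the relevant vectors are nonzero -/

lemma rv_sub_sv_ne (m : ℤ) (i : Fin g) (m' : ℤ) : rv n g m - sv n g i m' ≠ 0 := by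
  intro h
  have h1 := congrFun (congrArg Prod.snd h) i
  simp only [rv, sv, Prod.snd_sub, Pi.sub_apply, Pi.zero_apply, Pi.single_eq_same, Prod.snd_zero, zero_sub,
    neg_eq_zero] at h1
  exact z_ne_zero n m' h1

lemma sv_ne (i : Fin g) (m : ℤ) : sv n g i m ≠ 0 := by
  intro h
  have h1 := congrFun (congrArg Prod.snd h) i
  simp only [sv, Pi.zero_apply, Pi.single_eq_same, Prod.snd_zero] at h1
  exact z_ne_zero n m h1

open Classical in
/-- the indicator of `0` -/
lemma vals_delta (n g : ℕ) (hn : 0 < n) :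
    Vals n g (fun x => if x = 0 then (1 : ℝ) else 0) 1 0 0 0 (fun _ => 0) where
  pd := PD.ind0
  zero := by simp
  rr m m' h1 h2 h3 h4 := by
    rw [if_neg, neg_zero]
    intro h
    have h1 := congrArg Prod.fst h
    simp only [rv, Prod.fst_sub, Prod.fst_zero, sub_eq_zero] at h1
    rcases (tt_eq_iff n hn m m').mp h1 with h | h
    · exact h3 h
    · exact h4 h
  rs m i m' h1 := by rw [if_neg (rv_sub_sv_ne m i m'), neg_zero]
  ss i j hij m m' := by
    rw [if_neg, neg_zero]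
    intro h
    have h1 := congrFun (congrArg Prod.snd h) i
    simp only [sv, Prod.snd_sub, Pi.sub_apply, Pi.zero_apply, Pi.single_eq_same, Prod.snd_zero,
      Pi.single_eq_of_ne hij, sub_zero] at h1
    exact z_ne_zero n m h1
  s1 i m m' h1 := by
    rw [if_neg, neg_zero]
    intro h
    have h2 := congrFun (congrArg Prod.snd h) i
    simp only [sv, Prod.snd_sub, Pi.sub_apply, Pi.zero_apply, Pi.single_eq_same, Prod.snd_zero, sub_eq_zero] at h2
    exact h1 ((z_eq_iff n hn m m').mp h2)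
  orr ho m m' h1 h2 := by
    rw [if_neg]
    intro h
    have h1 := congrArg Prod.fst h
    simp only [rv, Prod.fst_add, Prod.fst_zero] at h1
    exact tt_add_ne_zero n ho m m' h1
  ors ho m i m' h1 := by
    rw [if_neg]
    intro h
    have h1 := congrFun (congrArg Prod.snd h) i
    simp only [rv, sv, Prod.snd_add, Pi.add_apply, Pi.zero_apply, Pi.single_eq_same, Prod.snd_zero, zero_add] at h1
    exact z_ne_zero n m' h1
  oss ho i j m m' := by
    rw [if_neg]
    intro h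
    have h1 := congrFun (congrArg Prod.snd h) i
    by_cases hij : i = j
    · subst hij
      simp only [sv, Prod.snd_add, Pi.add_apply, Pi.zero_apply, Pi.single_eq_same, Prod.snd_zero] at h1
      exact z_add_ne_zero n ho m m' h1
    · simp only [sv, Prod.snd_add, Pi.add_apply, Pi.zero_apply, Pi.single_eq_same, Prod.snd_zero,
        Pi.single_eq_of_ne hij, add_zero] at h1
      exact z_ne_zero n m h1
  er he m h1 := by
    rw [if_neg]
    intro h
    have h1 := congrArg Prod.fst h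
    simp only [rv, Prod.fst_zero] at h1
    exact tt_ne_zero n (by omega) m h1
  es he i m := by rw [if_neg (sv_ne i m)]

open Classical in
lemma kill_delta (n g : ℕ) (hn : 0 < n) (hg : 1 ≤ g) :
    Kill n g (fun x => if x = 0 then (1 : ℝ) else 0) where
  kr m m' h1 h2 := by
    rw [if_neg]
    intro h
    have h1 := congrFun (congrArg Prod.snd h) ⟨0, hg⟩
    simp only [rv, dl, Prod.snd_sub, Pi.sub_apply, Pi.zero_apply, Prod.snd_zero, sub_zero, neg_eq_zero] at h1
    exact z_ne_zero n m h1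
  ks m i m' h1 := by
    rw [if_neg]
    intro h
    have h1 := congrArg Prod.fst h
    simp only [sv, dl, Prod.fst_sub, Prod.fst_zero, sub_zero, neg_eq_zero] at h1
    exact z_ne_zero n m h1
  kk m m' h1 h2 := by
    rw [if_neg]
    intro h
    have h3 := congrArg Prod.fst h
    simp only [dl, Prod.fst_zero, neg_eq_zero, sub_eq_zero] at h3
    exact h1 ((z_eq_iff n hn m m').mp h3)
  okr ho m m' h1 h2 := by
    rw [if_neg]
    intro h
    have h1 := congrFun (congrArg Prod.snd h) ⟨0, hg⟩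
    simp only [rv, dl, Prod.snd_add, Pi.add_apply, Pi.zero_apply, Prod.snd_zero, add_zero, neg_eq_zero] at h1
    exact z_ne_zero n m h1
  oks ho m i m' h1 := by
    rw [if_neg]
    intro h
    have h1 := congrArg Prod.fst h
    simp only [sv, dl, Prod.fst_add, Prod.fst_zero, add_zero, neg_eq_zero] at h1
    exact z_ne_zero n m h1
  okk ho m m' h1 := by
    rw [if_neg]
    intro h
    have h3 := congrArg Prod.fst h
    simp only [dl, Prod.fst_zero, neg_eq_zero] at h3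
    exact z_add_ne_zero n ho m m' h3
  ek he m h1 := by
    rw [if_neg]
    intro h
    have h3 := congrArg Prod.fst h
    simp only [dl, Prod.fst_zero, neg_eq_zero] at h3
    exact z_ne_zero n m h3

/-- existence form of `Vals` -/
def VE (n g : ℕ) (w c0 c1 c2 : ℝ) (c3 : ℤ → ℝ) : Prop := ∃ F, Vals n g F w c0 c1 c2 c3

/-- existence form of `Vals` and `Kill` -/
def VK (n g : ℕ) (w c0 c1 c2 : ℝ) (c3 : ℤ → ℝ) : Prop := ∃ F, Vals n g F w c0 c1 c2 c3 ∧ Kill n g F

lemma VE.add {w w' c0 c0' c1 c1' c2 c2' : ℝ} {c3 c3' : ℤ → ℝ}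
    (h : VE n g w c0 c1 c2 c3) (h' : VE n g w' c0' c1' c2' c3') :
    VE n g (w + w') (c0 + c0') (c1 + c1') (c2 + c2') (fun l => c3 l + c3' l) := by
  obtain ⟨F, hF⟩ := h
  obtain ⟨F', hF'⟩ := h'
  exact ⟨_, hF.add hF'⟩

lemma VK.add {w w' c0 c0' c1 c1' c2 c2' : ℝ} {c3 c3' : ℤ → ℝ}
    (h : VK n g w c0 c1 c2 c3) (h' : VK n g w' c0' c1' c2' c3') :
    VK n g (w + w') (c0 + c0') (c1 + c1') (c2 + c2') (fun l => c3 l + c3' l) := by
  obtain ⟨F, hF, hK⟩ := h
  obtain ⟨F', hF', hK'⟩ := h'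
  exact ⟨_, hF.add hF', hK.add hK'⟩

lemma VE.smul {w c0 c1 c2 : ℝ} {c3 : ℤ → ℝ} (h : VE n g w c0 c1 c2 c3) (a : ℝ) (ha : 0 ≤ a) :
    VE n g (a * w) (a * c0) (a * c1) (a * c2) (fun l => a * c3 l) := by
  obtain ⟨F, hF⟩ := h
  exact ⟨_, hF.smul a ha⟩

lemma VK.smul {w c0 c1 c2 : ℝ} {c3 : ℤ → ℝ} (h : VK n g w c0 c1 c2 c3) (a : ℝ) (ha : 0 ≤ a) :
    VK n g (a * w) (a * c0) (a * c1) (a * c2) (fun l => a * c3 l) := by
  obtain ⟨F, hF, hK⟩ := h
  exact ⟨_, hF.smul a ha, hK.smul a⟩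

/-- the total mass may be increased -/
lemma VE.pad {w w' c0 c1 c2 : ℝ} {c3 : ℤ → ℝ} (hn : 0 < n) (h : VE n g w c0 c1 c2 c3) (hw : w ≤ w') :
    VE n g w' c0 c1 c2 c3 := by
  have h1 : VE n g 1 0 0 0 (fun _ => 0) := ⟨_, vals_delta n g hn⟩
  have h2 := h.add (h1.smul (w' - w) (sub_nonneg.mpr hw))
  simpa using h2

lemma VK.pad {w w' c0 c1 c2 : ℝ} {c3 : ℤ → ℝ} (hn : 0 < n) (hg : 1 ≤ g) (h : VK n g w c0 c1 c2 c3)
    (hw : w ≤ w') : VK n g w' c0 c1 c2 c3 := by
  have h1 : VK n g 1 0 0 0 (fun _ => 0) := ⟨_, vals_delta n g hn, kill_delta n g hn hg⟩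
  have h2 := h.add (h1.smul (w' - w) (sub_nonneg.mpr hw))
  simpa using h2

lemma VK.toVE {w c0 c1 c2 : ℝ} {c3 : ℤ → ℝ} (h : VK n g w c0 c1 c2 c3) : VE n g w c0 c1 c2 c3 := by
  obtain ⟨F, hF, _⟩ := h
  exact ⟨F, hF⟩

open Classical in
lemma PP.mono {n : ℕ} (hn : 0 < n) {w w' : ℝ} (h : PP n w) (hw : w ≤ w') : PP n w' := by
  obtain ⟨F, hF, h0, h1, h2, h3⟩ := h
  refine ⟨fun x => F x + (w' - w) * (if x = 0 then 1 else 0), hF.add (PD.ind0.smul _ (sub_nonneg.mpr hw)), ?_, ?_, ?_, ?_⟩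
  · beta_reduce
    rw [h0]; simp
  · intro m m' a b c d
    beta_reduce
    rw [h1 m m' a b c d, if_neg]
    · ring
    · rw [sub_eq_zero, tt_eq_iff n hn]
      tauto
  · intro ho m m' a b
    beta_reduce
    rw [h2 ho m m' a b, if_neg (tt_add_ne_zero n ho m m')]
    ring
  · intro he m a
    beta_reduce
    rw [h3 he m a, if_neg (tt_ne_zero n (by omega) m)]
    ring

end PathMix2
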