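import Pool.Agent.PathMix2.Stmts
import Pool.Agent.PathMix.Indep
set_option autoImplicit false

/-! Assembly of the classification from the module statements. -/

open Finset

namespace PathMix2

/-- admissible pairs `(s, Q)` -/
def Adm (s Q : ℕ) : Prop := Q % 2 = 1 ∧ 3 ≤ Q ∧ (s = 0 → ¬ 15 ∣ Q ∧ ¬ 21 ∣ Q) ∧ (1 ≤ s → ¬ 3 ∣ Q)

lemma exists_big_prime (Q : ℕ) (hQ : Q % 2 = 1) (hQ3 : 3 ≤ Q) (hsq : ∀ p, p.Prime → ¬ p * p ∣ Q)
    (hnp : ¬ Q.Prime) (h15 : ¬ 15 ∣ Q) (h21 : ¬ 21 ∣ Q) (h35 : Q ≠ 35) (h39 : Q ≠ 39) :
    ∃ p, p.Prime ∧ p ∣ Q ∧ 11 ≤ p ∧ (3 ∣ Q → p ≠ 13) := by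
  by_contra hcon
  push Not at hcon
  have hsf : Squarefree Q := by
    rw [Nat.squarefree_iff_prime_squarefree]
    exact hsq
  have h1 : ∀ p, p.Prime → p ∣ Q → p = 3 ∨ p = 5 ∨ p = 7 ∨ p = 13 := by
    intro p hp hpQ
    by_cases h : 11 ≤ p
    · have := hcon p hp hpQ h
      tauto
    · interval_cases p
      all_goals first
        | (exfalso; revert hp; norm_num; done)
        | (exfalso; omega)
        | omega
  have h13 : 13 ∣ Q → 3 ∣ Q := by
    intro h
    have := hcon 13 (by norm_num) h (by norm_num)
    exact this.1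
  have hprod : Q = ∏ p ∈ Q.primeFactors, p := (Nat.prod_primeFactors_of_squarefree hsf).symm
  have hsub : Q.primeFactors ⊆ ({3, 5, 7, 13} : Finset ℕ) := by
    intro p hp
    have hp1 := Nat.prime_of_mem_primeFactors hp
    have hp2 := Nat.dvd_of_mem_primeFactors hp
    have := h1 p hp1 hp2
    simp only [Finset.mem_insert, Finset.mem_singleton]
    exact this
  have hdvd : Q ∣ 3 * 5 * 7 * 13 := by
    rw [hprod]
    have h2 : ∏ p ∈ ({3, 5, 7, 13} : Finset ℕ), p = 3 * 5 * 7 * 13 := by decide
    rw [← h2]
    exact Finset.prod_dvd_prod_of_subset _ _ _ hsub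
  have hle : Q ∈ Nat.divisors (3 * 5 * 7 * 13) := by
    rw [Nat.mem_divisors]
    exact ⟨hdvd, by norm_num⟩
  have hdiv : Nat.divisors (3 * 5 * 7 * 13) = {1, 3, 5, 7, 13, 15, 21, 35, 39, 65, 91, 105, 195, 273, 455, 1365} := by
    decide +kernel
  rw [hdiv] at hle
  simp only [Finset.mem_insert, Finset.mem_singleton] at hle
  rcases hle with h | h | h | h | h | h | h | h | h | h | h | h | h | h | h | h
  all_goals subst h
  all_goals first
    | omega
    | (exfalso; apply hnp; norm_num; done)
    | (exfalso; revert h13; norm_num; done)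
    | (exfalso; apply h15; norm_num; done)
    | (exfalso; apply h21; norm_num; done)

theorem pp_small (hD13 : S_DES1_3) (hD10 : S_DES1_0) (hD11 : S_DES1_1) (hD12 : S_DES1_2)
    (hD20 : S_DES2_0) (hD23 : S_DES2_3) (hD239 : S_DES2_39) (hD21 : S_DES2_1) (hD22 : S_DES2_2)
    (hB3 : S_BASE3) (hB1 : S_BASE1) (hB2 : S_BASE2) (hB4 : S_BASE4) (h35 : S_35) (h70 : S_70)
    (h140 : S_140) (Q : ℕ) :
    ∀ s : ℕ, s ≤ 2 → Adm s Q → PP (2 ^ s * Q) (2 ^ s * Q - 2) := by
  induction Q using Nat.strong_induction_on with
  | _ Q ih =>
    intro s hs hA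
    obtain ⟨hodd, hQ3, hA0, hA1⟩ := hA
    by_cases hp : Q.Prime
    · -- base cases
      by_cases h3 : Q = 3
      · subst h3
        have hs0 : s = 0 := by
          by_contra h
          exact hA1 (by omega) (by norm_num)
        subst hs0
        have := hB3
        unfold S_BASE3 at this
        norm_num
        exact this
      · have h5 : 5 ≤ Q := by
          have : Q ≠ 4 := by omega
          omega
        interval_cases s
        · have := hB1 Q hp h5
          simpa using this
        · have := hB2 Q hp h5
          simpa using this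
        · have := hB4 Q hp h5
          norm_num
          exact this
    · by_cases hsq : ∃ p, p.Prime ∧ p * p ∣ Q
      · -- case I
        obtain ⟨p, hp', hpQ⟩ := hsq
        obtain ⟨k, hk⟩ := hpQ
        set M := p * k with hM
        have hQM : Q = p * M := by rw [hk, hM]; ring
        have hpM : p ∣ M := ⟨k, hM⟩
        have hp2 := hp'.two_le
        have hM1 : M % 2 = 1 := by
          have h := hodd
          rw [hQM, Nat.mul_mod] at h
          rcases Nat.mod_two_eq_zero_or_one M with h2 | h2
          · rw [h2] at h; simp at h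
          · exact h2
        have hpodd : p % 2 = 1 := by
          have h := hodd
          rw [hQM, Nat.mul_mod] at h
          rcases Nat.mod_two_eq_zero_or_one p with h2 | h2
          · rw [h2] at h; simp at h
          · exact h2
        have hM0 : 0 < M := by omega
        have hMlt : M < Q := by
          rw [hQM]
          nlinarith
        have hple : p ≤ M := Nat.le_of_dvd hM0 hpM
        have hM3 : 3 ≤ M := by omega
        have hdvd : M ∣ Q := ⟨p, by rw [hQM]; ring⟩
        have hAM : Adm s M := by
          refine ⟨hM1, hM3, ?_, ?_⟩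
          · intro h
            obtain ⟨a, b⟩ := hA0 h
            exact ⟨fun h => a (h.trans hdvd), fun h => b (h.trans hdvd)⟩
          · intro h h3
            exact hA1 h (h3.trans hdvd)
        have hPM := ih M hMlt s hs hAM
        by_cases hp3 : p = 3
        · subst hp3
          have hs0 : s = 0 := by
            by_contra h
            exact hA1 (by omega) ⟨M, hQM⟩
          subst hs0
          have h1 := hD13 M hM1 hpM (by simpa using hPM)
          rw [hQM]
          simpa using h1
        · have hp5 : 5 ≤ p := by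
            omega
          interval_cases s
          · have h1 := hD10 p M hp' hp5 hM1 hpM (by simpa using hPM)
            rw [hQM]
            simpa using h1
          · have h3 : ¬ 3 ∣ M := fun h => hA1 (by norm_num) (h.trans hdvd)
            have h1 := hD11 p M hp' hp5 hM1 h3 hpM (by simpa using hPM)
            rw [hQM]
            have e1 : 2 ^ 1 * (p * M) = p * (2 * M) := by ring
            have e2 : (2 : ℝ) ^ 1 * ((p * M : ℕ) : ℝ) - 2 = (p : ℝ) * (2 * M) - 2 := by push_cast; ring
            rw [e1, e2]
            exact h1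
          · have h3 : ¬ 3 ∣ M := fun h => hA1 (by norm_num) (h.trans hdvd)
            have hPM' : PP (4 * M) (4 * M - 2) := by
              have e1 : 2 ^ 2 * M = 4 * M := by ring
              have e2 : (2 : ℝ) ^ 2 * (M : ℝ) - 2 = 4 * M - 2 := by ring
              rw [e1, e2] at hPM
              exact hPM
            have h1 := hD12 p M hp' hp5 hM1 h3 hpM hPM'
            rw [hQM]
            have e1 : 2 ^ 2 * (p * M) = p * (4 * M) := by ring
            have e2 : (2 : ℝ) ^ 2 * ((p * M : ℕ) : ℝ) - 2 = (p : ℝ) * (4 * M) - 2 := by push_cast; ring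
            rw [e1, e2]
            exact h1
      · push Not at hsq
        by_cases h35' : Q = 35
        · subst h35'
          interval_cases s
          · have := h35
            unfold S_35 at this
            norm_num
            exact this
          · have := h70
            unfold S_70 at this
            norm_num
            exact this
          · have := h140
            unfold S_140 at this
            norm_num
            exact this
        · have h1521 : ¬ 15 ∣ Q ∧ ¬ 21 ∣ Q := by
            by_cases h : s = 0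
            · exact hA0 h
            · have h3 := hA1 (by omega)
              exact ⟨fun h => h3 (Dvd.dvd.trans (by norm_num) h), fun h => h3 (Dvd.dvd.trans (by norm_num) h)⟩
          by_cases h39' : Q = 39
          · subst h39'
            have hs0 : s = 0 := by
              by_contra h
              exact hA1 (by omega) (by norm_num)
            subst hs0
            have := hD239 hB3
            norm_num
            exact this
          · obtain ⟨p, hp', hpQ, hp11, hp13⟩ := exists_big_prime Q hodd hQ3 hsq hp h1521.1 h1521.2 h35' h39'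
            obtain ⟨M, hQM⟩ := hpQ
            have hp2 := hp'.two_le
            have hM1 : M % 2 = 1 := by
              have h := hodd
              rw [hQM, Nat.mul_mod] at h
              rcases Nat.mod_two_eq_zero_or_one M with h2 | h2
              · rw [h2] at h; simp at h
              · exact h2
            have hMne : M ≠ 1 := by
              rintro rfl
              rw [mul_one] at hQM
              rw [hQM] at hp
              exact hp hp'
            have hM3 : 3 ≤ M := by omega
            have hMlt : M < Q := by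
              rw [hQM]
              nlinarith
            have hdvd : M ∣ Q := ⟨p, by rw [hQM]; ring⟩
            have hpM : ¬ p ∣ M := by
              intro h
              apply hsq p hp'
              rw [hQM]
              exact mul_dvd_mul_left p h
            have hAM : Adm s M := by
              refine ⟨hM1, hM3, ?_, ?_⟩
              · intro h
                obtain ⟨a, b⟩ := hA0 h
                exact ⟨fun h => a (h.trans hdvd), fun h => b (h.trans hdvd)⟩
              · intro h h3
                exact hA1 h (h3.trans hdvd)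
            have hPM := ih M hMlt s hs hAM
            interval_cases s
            · by_cases h3 : 3 ∣ M
              · have h1 := hD23 p M hp' hp11 (hp13 (h3.trans hdvd)) hM1 h3 hpM (by simpa using hPM)
                rw [hQM]
                simpa using h1
              · have h1 := hD20 p M hp' hp11 hM1 hM3 h3 hpM (by simpa using hPM)
                rw [hQM]
                simpa using h1
            · have h3 : ¬ 3 ∣ M := fun h => hA1 (by norm_num) (h.trans hdvd)
              have h1 := hD21 p M hp' hp11 hM1 hM3 h3 hpM (by simpa using hPM)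
              rw [hQM]
              have e1 : 2 ^ 1 * (p * M) = p * (2 * M) := by ring
              have e2 : (2 : ℝ) ^ 1 * ((p * M : ℕ) : ℝ) - 2 = (p : ℝ) * (2 * M) - 2 := by push_cast; ring
              rw [e1, e2]
              exact h1
            · have h3 : ¬ 3 ∣ M := fun h => hA1 (by norm_num) (h.trans hdvd)
              have hPM' : PP (4 * M) (4 * M - 2) := by
                have e1 : 2 ^ 2 * M = 4 * M := by ring
                have e2 : (2 : ℝ) ^ 2 * (M : ℝ) - 2 = 4 * M - 2 := by ring
                rw [e1, e2] at hPM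
                exact hPM
              have h1 := hD22 p M hp' hp11 hM1 hM3 h3 hpM hPM'
              rw [hQM]
              have e1 : 2 ^ 2 * (p * M) = p * (4 * M) := by ring
              have e2 : (2 : ℝ) ^ 2 * ((p * M : ℕ) : ℝ) - 2 = (p : ℝ) * (4 * M) - 2 := by push_cast; ring
              rw [e1, e2]
              exact h1

/-- existence part of the classification, given `PP` for admissible pairs -/
theorem fin2_of_pp (hpp : ∀ Q s : ℕ, s ≤ 2 → Adm s Q → PP (2 ^ s * Q) (2 ^ s * Q - 2))
    (hPB : S_PARTB) (hT0 : S_TOP0) (hT1 : S_TOP1) (hT2 : S_TOP2)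
    (N : ℕ) (hN : 6 ≤ N) (h6 : ¬ (6 ∣ N ∧ N ≠ 6)) (h15 : ¬ 15 ∣ N) (h21 : ¬ 21 ∣ N) :
    N = 6 ∨ (∃ k, N = 2 ^ k) ∨ Fin2 N := by
  obtain ⟨a, Q, hQ, rfl⟩ := Nat.exists_eq_two_pow_mul_odd (n := N) (by omega)
  have hQ2 : Q % 2 = 1 := Nat.odd_iff.mp hQ
  by_cases hQ1 : Q = 1
  · right; left
    exact ⟨a, by rw [hQ1]; ring⟩
  have hQ3 : 3 ≤ Q := by omega
  rcases Nat.lt_or_ge a 1 with ha | ha
  · have ha0 : a = 0 := by omega
    subst ha0
    right; right
    have h1 := hpp Q 0 (by norm_num) ⟨hQ2, hQ3, fun _ => ⟨by simpa using h15, by simpa using h21⟩, fun h => by omega⟩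
    have h2 := hT0 Q hQ2 hQ3 (by simpa using h1)
    simpa using h2
  · by_cases hN6 : 2 ^ a * Q = 6
    · left; exact hN6
    · have h3 : ¬ 3 ∣ Q := by
        intro h
        apply h6
        refine ⟨?_, hN6⟩
        have h2 : 2 ∣ 2 ^ a := dvd_pow_self 2 (by omega)
        exact mul_dvd_mul h2 h
      have hQ5 : 5 ≤ Q := by
        have : Q ≠ 3 := by rintro rfl; exact h3 (by norm_num)
        omega
      right; right
      rcases Nat.lt_or_ge a 2 with ha2 | ha2
      · have ha1 : a = 1 := by omega
        subst ha1
        have h1 := hpp Q 1 (by norm_num) ⟨hQ2, hQ3, fun h => by omega, fun _ => h3⟩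
        have h2 := hT1 Q hQ2 hQ3 (by simpa using h1)
        simpa using h2
      · apply hT2 a Q ha2 hQ2 hQ5 h3
        have h4 : PP (4 * Q) (4 * Q - 2) := by
          have h1 := hpp Q 2 (by norm_num) ⟨hQ2, hQ3, fun h => by omega, fun _ => h3⟩
          have e1 : 2 ^ 2 * Q = 4 * Q := by ring
          have e2 : (2 : ℝ) ^ 2 * (Q : ℝ) - 2 = 4 * Q - 2 := by ring
          rw [e1, e2] at h1
          exact h1
        rcases Nat.lt_or_ge a 3 with ha3 | ha3
        · have ha2' : a = 2 := by omega
          subst ha2'
          have e1 : 2 ^ 2 * Q = 4 * Q := by ring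
          have e2 : (2 : ℝ) ^ 2 * (Q : ℝ) - 2 = 4 * Q - 2 := by ring
          rw [e1, e2]
          exact h4
        · exact hPB a Q ha3 hQ2 hQ5 h3 h4

/-- the classification from the existence part -/
theorem classification_of (hF : ∀ N : ℕ, 6 ≤ N → ¬ (6 ∣ N ∧ N ≠ 6) → ¬ 15 ∣ N → ¬ 21 ∣ N →
    N = 6 ∨ (∃ k, N = 2 ^ k) ∨ Fin2 N) (hFIN : S_FIN) (n : ℕ) (hn : 5 ≤ n) :
    (∃ f : ℝ → ℝ, PathMix.IsDensity f ∧ (PathMix.Mavg n f).rank = 1) ↔
      ¬ (6 ∣ n + 1 ∧ n + 1 ≠ 6) ∧ ¬ 15 ∣ n + 1 ∧ ¬ 21 ∣ n + 1 := by
  constructor
  · rintro ⟨f, hf, hr⟩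
    have hc := (PathMix.criterion n (by omega) f hf).mp hr
    refine ⟨?_, ?_, ?_⟩
    · rintro ⟨h, h6⟩
      refine PathMix.no6 n h ?_ (PathMix.mom f) hc
      obtain ⟨k, hk⟩ := h
      omega
    · intro h
      exact PathMix.no15 n h (PathMix.mom f) hc
    · intro h
      exact PathMix.no21 n h (PathMix.mom f) hc
  · rintro ⟨h6, h15, h21⟩
    rcases hF (n + 1) (by omega) h6 h15 h21 with h | ⟨k, hk⟩ | h
    · have hind : ∀ a : Fin (n / 2) → ℤ, ∑ r, (a r : ℝ) * PathMix.th n ((r : ℕ) + 1) = 0 → a = 0 :=
        fun a ha => PathMix.ind_two_prime n 3 (by norm_num) (by omega) (by omega) a ha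
      obtain ⟨f, hf, hm⟩ := PathMix.yes_of_ind n (by omega) hind
      exact ⟨f, hf, (PathMix.criterion n (by omega) f hf).mpr hm⟩
    · have hind : ∀ a : Fin (n / 2) → ℤ, ∑ r, (a r : ℝ) * PathMix.th n ((r : ℕ) + 1) = 0 → a = 0 :=
        fun a ha => PathMix.ind_two_pow n k (by omega) hk a ha
      obtain ⟨f, hf, hm⟩ := PathMix.yes_of_ind n (by omega) hind
      exact ⟨f, hf, (PathMix.criterion n (by omega) f hf).mpr hm⟩
    · exact hFIN n (by omega) h

end PathMix2
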