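import Pool.Agent.PathMix2.Stmts
set_option autoImplicit false

open Finset

namespace PathMix2

/-! ### Base cases (module PM_BASE) -/

/-- an additive real functional with integer values at the roots of unity gives a homomorphism
to `ℤ` -/
lemma exists_int_hom (n : ℕ) (L : ℂ →+ ℝ) (h : ∀ m, ∃ k : ℤ, L (zt n m) = k) :
    ∃ χ : A n →+ ℤ, ∀ x : A n, ((χ x : ℤ) : ℝ) = L (x : ℂ) := by
  have key : ∀ x : A n, ∃ k : ℤ, L (x : ℂ) = k := by
    intro x
    induction x using A.induction with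
    | hz m => exact h m
    | h0 => exact ⟨0, by simp⟩
    | hadd x y h1 h2 =>
      obtain ⟨a, ha⟩ := h1
      obtain ⟨b, hb⟩ := h2
      exact ⟨a + b, by rw [AddSubgroup.coe_add, map_add, ha, hb]; push_cast; rfl⟩
    | hneg x h =>
      obtain ⟨a, ha⟩ := h
      exact ⟨-a, by rw [AddSubgroup.coe_neg, map_neg, ha]; push_cast; rfl⟩
  choose k hk using key
  refine ⟨AddMonoidHom.mk' k ?_, ?_⟩
  · intro x y
    have : ((k (x + y) : ℤ) : ℝ) = ((k x + k y : ℤ) : ℝ) := by
      rw [← hk, AddSubgroup.coe_add, map_add, hk, hk]; push_cast; rfl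
    exact_mod_cast this
  · intro x; rw [AddMonoidHom.mk'_apply]; exact (hk x).symm

/-- a linear form on `ℤ^h` -/
noncomputable def lf {h : ℕ} {T : Type} [CommRing T] (c : Fin h → T) : (Fin h → ℤ) →+ T :=
  AddMonoidHom.mk' (fun v => ∑ i, c i * (v i : T)) (by
    intro v w
    simp [mul_add, Finset.sum_add_distrib])

lemma lf_single {h : ℕ} {T : Type} [CommRing T] (c : Fin h → T) (i : Fin h) (a : ℤ) :
    lf c (Pi.single i a) = c i * (a : T) := by
  unfold lf
  rw [AddMonoidHom.mk'_apply, Finset.sum_eq_single i]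
  · rw [Pi.single_eq_same]
  · intro j _ hj
    rw [Pi.single_eq_of_ne hj]; simp
  · intro h; exact absurd (Finset.mem_univ i) h

lemma compLeft_single {n h : ℕ} (χ : A n →+ ℤ) (i : Fin h) (x : A n) :
    (χ.compLeft (Fin h)) (Pi.single i x) = Pi.single i (χ x) := by
  funext j
  by_cases hj : j = i
  · subst hj; simp
  · simp [Pi.single_eq_of_ne hj]

lemma fin_sub_ne {h : ℕ} (i j : Fin h) (hij : i ≠ j) : ((i : ℕ) : ZMod h) - ((j : ℕ) : ZMod h) ≠ 0 := by
  intro h0
  rw [sub_eq_zero, ZMod.natCast_eq_natCast_iff'] at h0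
  rw [Nat.mod_eq_of_lt i.2, Nat.mod_eq_of_lt j.2] at h0
  exact hij (Fin.ext h0)

open Classical in
/-- the function of `base1` -/
lemma vec1 (h : ℕ) (hh : 2 ≤ h) : ∃ G : (Fin h → ℤ) → ℝ, PD G ∧ G 0 = (h : ℝ) - 1 ∧
    (∀ i j, i ≠ j → G (Pi.single i 1 - Pi.single j 1) = -1) ∧
    (∀ i j, G (Pi.single i 1 + Pi.single j 1) = 0) := by
  have : NeZero h := ⟨by omega⟩
  have hc : Fintype.card (ZMod h) = h := ZMod.card h
  have hR : (0 : ℝ) < (h : ℝ) - 1 := by
    have : (2 : ℝ) ≤ h := by exact_mod_cast hh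
    linarith
  set L1 : (Fin h → ℤ) →+ ℤ := lf (fun _ => (1 : ℤ)) with hL1
  set L2 : (Fin h → ℤ) →+ ZMod h := lf (fun i => ((i : ℕ) : ZMod h)) with hL2
  refine ⟨fun v => ((h : ℝ) - 1) * ((if L1 v = 0 then 1 else 0) * FB L2 v), ?_, ?_, ?_, ?_⟩
  · exact ((PD.ind L1).mul (PD.FB (by rw [hc]; exact hh) L2)).smul _ hR.le
  · beta_reduce
    rw [map_zero, if_pos rfl, FB_zero L2 (map_zero _)]; ring
  · intro i j hij
    beta_reduce
    have e1 : L1 (Pi.single i 1 - Pi.single j 1) = 0 := by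
      rw [map_sub, hL1, lf_single, lf_single]; simp
    have e2 : L2 (Pi.single i 1 - Pi.single j 1) ≠ 0 := by
      rw [map_sub, hL2, lf_single, lf_single]
      simpa using fin_sub_ne i j hij
    rw [if_pos e1, FB_ne L2 e2, hc]
    field_simp
  · intro i j
    beta_reduce
    have e1 : L1 (Pi.single i 1 + Pi.single j 1) ≠ 0 := by
      rw [map_add, hL1, lf_single, lf_single]; simp
    rw [if_neg e1]; ring

lemma cos_half (a : ℤ) (ha : a = 1 ∨ a = -1) : Real.cos (Real.pi / 2 * (a : ℝ)) = 0 := by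
  rcases ha with rfl | rfl
  · simp
  · simp

lemma cos_full (a : ℤ) (ha : a = 1 ∨ a = -1) : Real.cos (Real.pi / 2 * ((2 * a : ℤ) : ℝ)) = -1 := by
  rcases ha with rfl | rfl
  · have : Real.pi / 2 * ((2 * 1 : ℤ) : ℝ) = Real.pi := by push_cast; ring
    rw [this, Real.cos_pi]
  · have : Real.pi / 2 * ((2 * -1 : ℤ) : ℝ) = -Real.pi := by push_cast; ring
    rw [this, Real.cos_neg, Real.cos_pi]

open Classical in
/-- the function of `base2` -/
lemma vec2 (h : ℕ) (hh : 2 ≤ h) : ∃ G : (Fin h → ℤ) → ℝ, PD G ∧ G 0 = 2 * (h : ℝ) - 1 ∧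
    (∀ i j (a b : ℤ), i ≠ j → (a = 1 ∨ a = -1) → (b = 1 ∨ b = -1) →
      G (Pi.single i a - Pi.single j b) = -1) ∧
    (∀ i (a : ℤ), (a = 1 ∨ a = -1) → G (Pi.single i (2 * a)) = -1) ∧
    (∀ i (a : ℤ), (a = 1 ∨ a = -1) → G (Pi.single i a) = 0) := by
  have : NeZero h := ⟨by omega⟩
  have hc : Fintype.card (ZMod h) = h := ZMod.card h
  have hR : (0 : ℝ) < (h : ℝ) - 1 := by
    have : (2 : ℝ) ≤ h := by exact_mod_cast hh
    linarith
  set N : ℝ := (Fintype.card (Fin h → ℤˣ) : ℝ) with hN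
  have hN0 : 0 < N := by
    rw [hN]; exact_mod_cast Fintype.card_pos
  set L1 : (Fin h → ℤˣ) → (Fin h → ℤ) →+ ℤ := fun s => lf (fun i => ((s i : ℤˣ) : ℤ)) with hL1
  set L2 : (Fin h → ℤˣ) → (Fin h → ℤ) →+ ZMod h := fun s =>
    lf (fun i => (((s i : ℤˣ) : ℤ) : ZMod h) * ((i : ℕ) : ZMod h)) with hL2
  set T : (Fin h → ℤˣ) → (Fin h → ℤ) → ℝ := fun s v => (if L1 s v = 0 then 1 else 0) * FB (L2 s) v
    with hT
  set C : Fin h → (Fin h → ℤ) →+ ℝ := fun i =>
    ((AddMonoidHom.mulLeft (Real.pi / 2)).comp (Int.castAddHom ℝ)).comp (Pi.evalAddMonoidHom _ i) with hC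
  have hCa : ∀ i v, C i v = Real.pi / 2 * ((v i : ℤ) : ℝ) := fun i v => rfl
  refine ⟨fun v => (2 * ((h : ℝ) - 1) * N⁻¹) * (∑ s, T s v) + ∏ i, Real.cos (C i v), ?_, ?_, ?_, ?_, ?_⟩
  · refine PD.add ((PD.sum univ T ?_).smul _ ?_) (PD.prod univ _ ?_)
    · intro s _
      exact (PD.ind (L1 s)).mul (PD.FB (by rw [hc]; exact hh) (L2 s))
    · positivity
    · intro i _
      exact PD.cos (C i)
  · have h1 : ∀ s, T s 0 = 1 := by
      intro s
      rw [hT]; beta_reduce
      rw [map_zero, if_pos rfl, FB_zero _ (map_zero _), one_mul]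
    beta_reduce
    rw [Finset.sum_congr rfl (fun s _ => h1 s), Finset.prod_congr rfl (fun i _ => by rw [map_zero, Real.cos_zero])]
    rw [Finset.sum_const, Finset.card_univ, nsmul_eq_mul, ← hN, Finset.prod_const_one]
    field_simp
    ring
  · intro i j a b hij ha hb
    beta_reduce
    set v : Fin h → ℤ := Pi.single i a - Pi.single j b with hv
    have e0 : ∏ i, Real.cos (C i v) = 0 := by
      apply Finset.prod_eq_zero (Finset.mem_univ i)
      rw [hCa, hv, Pi.sub_apply, Pi.single_eq_same, Pi.single_eq_of_ne hij, sub_zero]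
      exact cos_half a ha
    set t : Fin h → ℤˣ := Pi.mulSingle i (-1) with ht
    have e1 : ∀ s, T s v + T (s * t) v = -1 / ((h : ℝ) - 1) := by
      intro s
      have l1 : L1 s v = ((s i : ℤˣ) : ℤ) * a - ((s j : ℤˣ) : ℤ) * b := by
        rw [hv, map_sub, hL1]; beta_reduce
        rw [lf_single, lf_single]; simp
      have l1' : L1 (s * t) v = -(((s i : ℤˣ) : ℤ) * a) - ((s j : ℤˣ) : ℤ) * b := by
        rw [hv, map_sub, hL1]; beta_reduce
        rw [lf_single, lf_single, ht]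
        simp [Pi.mulSingle_eq_of_ne hij.symm]
      have l2 : L2 s v = ((((s i : ℤˣ) : ℤ) * a : ℤ) : ZMod h) * ((i : ℕ) : ZMod h) -
          ((((s j : ℤˣ) : ℤ) * b : ℤ) : ZMod h) * ((j : ℕ) : ZMod h) := by
        rw [hv, map_sub, hL2]; beta_reduce
        rw [lf_single, lf_single]; push_cast; ring
      have l2' : L2 (s * t) v = ((-(((s i : ℤˣ) : ℤ) * a) : ℤ) : ZMod h) * ((i : ℕ) : ZMod h) -
          ((((s j : ℤˣ) : ℤ) * b : ℤ) : ZMod h) * ((j : ℕ) : ZMod h) := by
        rw [hv, map_sub, hL2]; beta_reduce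
        rw [lf_single, lf_single, ht]
        simp [Pi.mulSingle_eq_of_ne hij.symm]
        ring
      have hx : ((s i : ℤˣ) : ℤ) * a = 1 ∨ ((s i : ℤˣ) : ℤ) * a = -1 := by
        rcases Int.units_eq_one_or (s i) with h | h <;> rcases ha with h' | h' <;> simp [h, h']
      have hy : ((s j : ℤˣ) : ℤ) * b = 1 ∨ ((s j : ℤˣ) : ℤ) * b = -1 := by
        rcases Int.units_eq_one_or (s j) with h | h <;> rcases hb with h' | h' <;> simp [h, h']
      generalize ((s i : ℤˣ) : ℤ) * a = x at l1 l1' l2 l2' hx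
      generalize ((s j : ℤˣ) : ℤ) * b = y at l1 l1' l2 l2' hy
      have hne := fin_sub_ne i j hij
      have hne2 : -((i : ℕ) : ZMod h) + ((j : ℕ) : ZMod h) ≠ 0 := by
        intro h0; apply hne; rw [← neg_eq_zero]; rw [← h0]; ring
      rw [hT]
      beta_reduce
      rcases hx with rfl | rfl <;> rcases hy with rfl | rfl
      · rw [if_pos (by rw [l1]; norm_num), if_neg (by rw [l1']; norm_num),
          FB_ne (L2 s) (by rw [l2]; simpa using hne), hc]
        ring
      · rw [if_neg (by rw [l1]; norm_num), if_pos (by rw [l1']; norm_num),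
          FB_ne (L2 (s * t)) (by rw [l2']; simpa using hne2), hc]
        ring
      · rw [if_neg (by rw [l1]; norm_num), if_pos (by rw [l1']; norm_num),
          FB_ne (L2 (s * t)) (by rw [l2']; simpa using hne), hc]
        ring
      · rw [if_pos (by rw [l1]; norm_num), if_neg (by rw [l1']; norm_num),
          FB_ne (L2 s) (by rw [l2]; simpa using hne2), hc]
        ring
    have e2 : 2 * ∑ s, T s v = N * (-1 / ((h : ℝ) - 1)) := by
      have e4 : ∑ s, T (s * t) v = ∑ s, T s v := Equiv.sum_comp (Equiv.mulRight t) (fun s => T s v)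
      have e5 : ∑ s, T s v + ∑ s, T (s * t) v = ∑ _s : Fin h → ℤˣ, (-1 / ((h : ℝ) - 1)) := by
        rw [← Finset.sum_add_distrib]
        exact Finset.sum_congr rfl (fun s _ => e1 s)
      rw [e4, Finset.sum_const, Finset.card_univ, nsmul_eq_mul, ← hN] at e5
      rw [two_mul]; exact e5
    have e3 : (2 * ((h : ℝ) - 1) * N⁻¹) * (∑ s, T s v) = ((h : ℝ) - 1) * N⁻¹ * (2 * ∑ s, T s v) := by ring
    rw [e0, e3, e2]
    field_simp
    ring
  · intro i a ha
    beta_reduce
    have e0 : ∏ k, Real.cos (C k (Pi.single i (2 * a))) = -1 := by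
      rw [Finset.prod_eq_single i]
      · rw [hCa, Pi.single_eq_same]
        exact cos_full a ha
      · intro k _ hk
        rw [hCa, Pi.single_eq_of_ne hk]; simp
      · intro hk; exact absurd (Finset.mem_univ i) hk
    have e1 : ∀ s, T s (Pi.single i (2 * a)) = 0 := by
      intro s
      rw [hT]; beta_reduce
      rw [if_neg, zero_mul]
      rw [hL1]; beta_reduce
      rw [lf_single]
      rcases Int.units_eq_one_or (s i) with h | h <;> rcases ha with h' | h' <;> simp [h, h']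
    rw [Finset.sum_congr rfl (fun s _ => e1 s), Finset.sum_const_zero, e0]
    ring
  · intro i a ha
    beta_reduce
    have e0 : ∏ k, Real.cos (C k (Pi.single i a)) = 0 := by
      apply Finset.prod_eq_zero (Finset.mem_univ i)
      rw [hCa, Pi.single_eq_same]
      exact cos_half a ha
    have e1 : ∀ s, T s (Pi.single i a) = 0 := by
      intro s
      rw [hT]; beta_reduce
      rw [if_neg, zero_mul]
      rw [hL1]; beta_reduce
      rw [lf_single]
      rcases Int.units_eq_one_or (s i) with h | h <;> rcases ha with h' | h' <;> simp [h, h']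
    rw [Finset.sum_congr rfl (fun s _ => e1 s), Finset.sum_const_zero, e0]
    ring

/-! ### the base cases -/

lemma zt_one (m : ℤ) : zt 1 m = 1 := (zt_eq_one_iff 1 one_pos m).mpr (by simp)

lemma zt_two (m : ℤ) : zt 2 m = 1 ∨ zt 2 m = -1 := by
  by_cases h : (2 : ℤ) ∣ m
  · left; exact (zt_eq_one_iff 2 two_pos m).mpr (by exact_mod_cast h)
  · right; exact (zt_eq_neg_one_iff 2 two_pos m).mpr ⟨by exact_mod_cast dvd_mul_right 2 m, by exact_mod_cast h⟩

lemma zt_four_one : zt 4 1 = Complex.I := by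
  unfold zt
  have : (2 * Real.pi * Complex.I * ((1 : ℤ) / (4 : ℕ)) : ℂ) = Real.pi / 2 * Complex.I := by
    push_cast; ring
  rw [this, Complex.exp_pi_div_two_mul_I]

lemma zt_four (m : ℤ) : zt 4 m = 1 ∨ zt 4 m = Complex.I ∨ zt 4 m = -1 ∨ zt 4 m = -Complex.I := by
  have h : ∀ r : ℤ, m % 4 = r → zt 4 m = zt 4 r := by
    intro r hr
    rw [zt_eq_iff 4 (by norm_num)]
    push_cast
    omega
  have h2 : zt 4 2 = -1 := by
    have : (2 : ℤ) = 1 + 1 := rfl
    rw [this, zt_add, zt_four_one, Complex.I_mul_I]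
  have h3 : zt 4 3 = -Complex.I := by
    have : (3 : ℤ) = 2 + 1 := rfl
    rw [this, zt_add, zt_four_one, h2]; ring
  have h5 : m % 4 = 0 ∨ m % 4 = 1 ∨ m % 4 = 2 ∨ m % 4 = 3 := by omega
  rcases h5 with h5 | h5 | h5 | h5
  · left; rw [h 0 h5, zt_zero]
  · right; left; rw [h 1 h5, zt_four_one]
  · right; right; left; rw [h 2 h5, h2]
  · right; right; right; rw [h 3 h5, h3]

open Classical in
theorem base3 : S_BASE3 := by
  refine ⟨fun x => if x = 0 then 1 else 0, PD.ind0, by simp, ?_, ?_, ?_⟩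
  · intro m m' h1 h2 h3 h4
    exfalso
    unfold ok at h1 h2
    push_cast at h1 h2 h3 h4
    have e1 : m % 3 = 1 ∨ m % 3 = 2 := by omega
    have e2 : m' % 3 = 1 ∨ m' % 3 = 2 := by omega
    rcases e1 with e1 | e1 <;> rcases e2 with e2 | e2 <;> omega
  · intro _ m m' _ _
    beta_reduce
    rw [if_neg (tt_add_ne_zero 3 (by norm_num) m m')]
  · intro h; omega

theorem base1 (hP : S_PSI2) : S_BASE1 := by
  intro p hp h5
  have hodd : p % 2 = 1 := by
    rcases hp.eq_two_or_odd with h | h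
    · omega
    · exact h
  obtain ⟨h, hph⟩ : ∃ h, p = 2 * h + 1 := ⟨p / 2, by omega⟩
  obtain ⟨Ψ, hΨ, hinj⟩ := hP p 1 h hp h5 hph one_pos (by
    intro hd; have := Nat.dvd_one.mp hd; omega)
  obtain ⟨G, hG, hG0, hG1, hG2⟩ := vec1 h (by omega)
  obtain ⟨χ, hχ⟩ := exists_int_hom 1 Complex.reAddGroupHom (fun m => ⟨1, by rw [zt_one]; simp⟩)
  have hχ1 : ∀ a, χ (z 1 a) = 1 := by
    intro a
    have := hχ (z 1 a)
    rw [coe_z, zt_one] at this
    have h2 : ((χ (z 1 a) : ℤ) : ℝ) = ((1 : ℤ) : ℝ) := by rw [this]; simp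
    exact_mod_cast h2
  have key : ∀ m, ok (p * 1) m → ∃ i a, Ψ (tt (p * 1) m) = Pi.single i (z 1 a) := by
    intro m hm
    rcases hΨ m hm with ⟨a, ha, _⟩ | h
    · exfalso; apply ha; simp
    · exact h
  have hz : ∀ a b, z 1 a = z 1 b := fun a b => (z_eq_iff 1 one_pos a b).mpr (by simp)
  have main : PP (p * 1) ((h : ℝ) - 1) := by
    refine ⟨fun x => G ((χ.compLeft (Fin h)) (Ψ x)), hG.comp ((χ.compLeft (Fin h)).comp Ψ), ?_, ?_, ?_, ?_⟩
    · beta_reduce
      rw [map_zero, map_zero, hG0]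
    · intro m m' h1 h2 h3 h4
      obtain ⟨i, a, ha⟩ := key m h1
      obtain ⟨j, b, hb⟩ := key m' h2
      beta_reduce
      rw [map_sub, map_sub, ha, hb, compLeft_single, compLeft_single, hχ1, hχ1]
      apply hG1
      intro hij
      subst hij
      have : tt (p * 1) m = tt (p * 1) m' := hinj m m' (by rw [ha, hb, hz a b])
      rcases (tt_eq_iff (p * 1) (by omega) m m').mp this with h | h
      · exact h3 h
      · exact h4 h
    · intro _ m m' h1 h2
      obtain ⟨i, a, ha⟩ := key m h1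
      obtain ⟨j, b, hb⟩ := key m' h2
      beta_reduce
      rw [map_add, map_add, ha, hb, compLeft_single, compLeft_single, hχ1, hχ1]
      exact hG2 i j
    · intro h2; omega
  rw [mul_one] at main
  refine main.mono (by omega) ?_
  have : (p : ℝ) = 2 * h + 1 := by rw [hph]; push_cast; ring
  have h2 : (0 : ℝ) ≤ h := by positivity
  linarith

theorem base2 (hP : S_PSI2) : S_BASE2 := by
  intro p hp h5
  have hodd : p % 2 = 1 := by
    rcases hp.eq_two_or_odd with h | h
    · omega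
    · exact h
  obtain ⟨h, hph⟩ : ∃ h, p = 2 * h + 1 := ⟨p / 2, by omega⟩
  obtain ⟨Ψ, hΨ, hinj⟩ := hP p 2 h hp h5 hph two_pos (by
    intro hd; have := Nat.le_of_dvd two_pos hd; omega)
  obtain ⟨G, hG, hG0, hG1, hG2, hG3⟩ := vec2 h (by omega)
  obtain ⟨χ, hχ⟩ := exists_int_hom 2 Complex.reAddGroupHom (fun m => by
    rcases zt_two m with h | h
    · exact ⟨1, by rw [h]; simp⟩
    · exact ⟨-1, by rw [h]; simp⟩)
  have hχ1 : ∀ a, (χ (z 2 a) = 1 ∧ zt 2 a = 1) ∨ (χ (z 2 a) = -1 ∧ zt 2 a = -1) := by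
    intro a
    have := hχ (z 2 a)
    rw [coe_z] at this
    rcases zt_two a with h | h
    · left
      refine ⟨?_, h⟩
      rw [h] at this
      have h2 : ((χ (z 2 a) : ℤ) : ℝ) = ((1 : ℤ) : ℝ) := by rw [this]; simp
      exact_mod_cast h2
    · right
      refine ⟨?_, h⟩
      rw [h] at this
      have h2 : ((χ (z 2 a) : ℤ) : ℝ) = ((-1 : ℤ) : ℝ) := by rw [this]; simp
      exact_mod_cast h2
  have hχ2 : ∀ a, χ (z 2 a) = 1 ∨ χ (z 2 a) = -1 := by
    intro a
    rcases hχ1 a with h | h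
    · exact Or.inl h.1
    · exact Or.inr h.1
  have key : ∀ m, ok (p * 2) m → ∃ i a, Ψ (tt (p * 2) m) = Pi.single i (z 2 a) := by
    intro m hm
    rcases hΨ m hm with ⟨a, ha, _⟩ | h
    · exfalso; apply ha
      exact_mod_cast dvd_mul_right 2 a
    · exact h
  have main : PP (p * 2) (2 * (h : ℝ) - 1) := by
    refine ⟨fun x => G ((χ.compLeft (Fin h)) (Ψ x)), hG.comp ((χ.compLeft (Fin h)).comp Ψ), ?_, ?_, ?_, ?_⟩
    · beta_reduce
      rw [map_zero, map_zero, hG0]
    · intro m m' h1 h2 h3 h4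
      obtain ⟨i, a, ha⟩ := key m h1
      obtain ⟨j, b, hb⟩ := key m' h2
      beta_reduce
      rw [map_sub, map_sub, ha, hb, compLeft_single, compLeft_single]
      by_cases hij : i = j
      · subst hij
        have hne : zt 2 a ≠ zt 2 b := by
          intro hab
          have : z 2 a = z 2 b := Subtype.ext hab
          have : tt (p * 2) m = tt (p * 2) m' := hinj m m' (by rw [ha, hb, this])
          rcases (tt_eq_iff (p * 2) (by omega) m m').mp this with h | h
          · exact h3 h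
          · exact h4 h
        have e : (Pi.single i (χ (z 2 a)) - Pi.single i (χ (z 2 b)) : Fin h → ℤ) =
            Pi.single i (2 * χ (z 2 a)) := by
          rw [← Pi.single_sub]
          congr 1
          rcases hχ1 a with ⟨h1, h2⟩ | ⟨h1, h2⟩ <;> rcases hχ1 b with ⟨h3, h4⟩ | ⟨h3, h4⟩
          · exact absurd (h2.trans h4.symm) hne
          · rw [h1, h3]; norm_num
          · rw [h1, h3]; norm_num
          · exact absurd (h2.trans h4.symm) hne
        rw [e]
        exact hG2 i _ (hχ2 a)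
      · exact hG1 i j _ _ hij (hχ2 a) (hχ2 b)
    · intro h2; omega
    · intro _ m h1
      obtain ⟨i, a, ha⟩ := key m h1
      beta_reduce
      rw [ha, compLeft_single]
      exact hG3 i _ (hχ2 a)
  rw [mul_comm] at main
  refine main.mono (by omega) ?_
  have : (p : ℝ) = 2 * h + 1 := by rw [hph]; push_cast; ring
  have h2 : (0 : ℝ) ≤ h := by positivity
  linarith

theorem base4 (hP : S_PSI2) : S_BASE4 := by
  intro p hp h5
  have hodd : p % 2 = 1 := by
    rcases hp.eq_two_or_odd with h | h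
    · omega
    · exact h
  obtain ⟨h, hph⟩ : ∃ h, p = 2 * h + 1 := ⟨p / 2, by omega⟩
  obtain ⟨Ψ, hΨ, hinj⟩ := hP p 4 h hp h5 hph (by norm_num) (by
    intro hd; have := Nat.le_of_dvd (by norm_num) hd; omega)
  obtain ⟨χ, hχ⟩ := exists_int_hom 4 Complex.reAddGroupHom (fun m => by
    rcases zt_four m with h | h | h | h
    · exact ⟨1, by rw [h]; simp⟩
    · exact ⟨0, by rw [h]; simp⟩
    · exact ⟨-1, by rw [h]; simp⟩
    · exact ⟨0, by rw [h]; simp⟩)
  obtain ⟨η, hη⟩ := exists_int_hom 4 Complex.imAddGroupHom (fun m => by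
    rcases zt_four m with h | h | h | h
    · exact ⟨0, by rw [h]; simp⟩
    · exact ⟨1, by rw [h]; simp⟩
    · exact ⟨0, by rw [h]; simp⟩
    · exact ⟨-1, by rw [h]; simp⟩)
  have hv : ∀ a, (χ (z 4 a) = 1 ∧ η (z 4 a) = 0 ∧ zt 4 a = 1) ∨
      (χ (z 4 a) = 0 ∧ η (z 4 a) = 1 ∧ zt 4 a = Complex.I) ∨
      (χ (z 4 a) = -1 ∧ η (z 4 a) = 0 ∧ zt 4 a = -1) ∨
      (χ (z 4 a) = 0 ∧ η (z 4 a) = -1 ∧ zt 4 a = -Complex.I) := by
    intro a
    have h1 := hχ (z 4 a)
    have h2 := hη (z 4 a)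
    rw [coe_z] at h1 h2
    rcases zt_four a with h | h | h | h
    · left
      rw [h] at h1 h2
      refine ⟨?_, ?_, h⟩
      · have h3 : ((χ (z 4 a) : ℤ) : ℝ) = ((1 : ℤ) : ℝ) := by rw [h1]; simp
        exact_mod_cast h3
      · have h3 : ((η (z 4 a) : ℤ) : ℝ) = ((0 : ℤ) : ℝ) := by rw [h2]; simp
        exact_mod_cast h3
    · right; left
      rw [h] at h1 h2
      refine ⟨?_, ?_, h⟩
      · have h3 : ((χ (z 4 a) : ℤ) : ℝ) = ((0 : ℤ) : ℝ) := by rw [h1]; simp
        exact_mod_cast h3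
      · have h3 : ((η (z 4 a) : ℤ) : ℝ) = ((1 : ℤ) : ℝ) := by rw [h2]; simp
        exact_mod_cast h3
    · right; right; left
      rw [h] at h1 h2
      refine ⟨?_, ?_, h⟩
      · have h3 : ((χ (z 4 a) : ℤ) : ℝ) = ((-1 : ℤ) : ℝ) := by rw [h1]; simp
        exact_mod_cast h3
      · have h3 : ((η (z 4 a) : ℤ) : ℝ) = ((0 : ℤ) : ℝ) := by rw [h2]; simp
        exact_mod_cast h3
    · right; right; right
      rw [h] at h1 h2
      refine ⟨?_, ?_, h⟩
      · have h3 : ((χ (z 4 a) : ℤ) : ℝ) = ((0 : ℤ) : ℝ) := by rw [h1]; simp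
        exact_mod_cast h3
      · have h3 : ((η (z 4 a) : ℤ) : ℝ) = ((-1 : ℤ) : ℝ) := by rw [h2]; simp
        exact_mod_cast h3
  set f : (Fin h → A 4) →+ ℤ := (lf (fun i : Fin h => (2 * ((i : ℕ) : ℤ) + 1 : ℤ))).comp (χ.compLeft (Fin h)) +
    (lf (fun i : Fin h => (2 * ((i : ℕ) : ℤ) + 2 : ℤ))).comp (η.compLeft (Fin h)) with hf
  have hfs : ∀ i a, f (Pi.single i (z 4 a)) = (2 * ((i : ℕ) : ℤ) + 1) * χ (z 4 a) +
      (2 * ((i : ℕ) : ℤ) + 2) * η (z 4 a) := by
    intro i a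
    rw [hf, AddMonoidHom.add_apply, AddMonoidHom.comp_apply, AddMonoidHom.comp_apply, compLeft_single,
      compLeft_single, lf_single, lf_single]
    simp
  have key : ∀ m, ok (p * 4) m → Ψ (tt (p * 4) m) = 0 ∨ ∃ i a, Ψ (tt (p * 4) m) = Pi.single i (z 4 a) := by
    intro m hm
    rcases hΨ m hm with ⟨a, ha, h⟩ | h
    · left
      have h0 : tt 4 a = 0 := by
        rw [tt_eq_zero_iff 4 (by norm_num)]
        refine ⟨by exact_mod_cast dvd_mul_right 4 a, ha⟩
      rw [h, h0]; funext i; simp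
    · right; exact h
  -- the values of `f` on the relevant vectors
  have hb : ∀ w : Fin h → A 4, (w = 0 ∨ ∃ i a, w = Pi.single i (z 4 a)) → -(2 * (h : ℤ)) ≤ f w ∧ f w ≤ 2 * (h : ℤ) := by
    intro w hw
    rcases hw with rfl | ⟨i, a, rfl⟩
    · rw [map_zero]; constructor <;> omega
    · rw [hfs]
      have := i.2
      rcases hv a with ⟨h1, h2, _⟩ | ⟨h1, h2, _⟩ | ⟨h1, h2, _⟩ | ⟨h1, h2, _⟩ <;> rw [h1, h2] <;>
        constructor <;> omega
  have hi : ∀ w w' : Fin h → A 4, (w = 0 ∨ ∃ i a, w = Pi.single i (z 4 a)) →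
      (w' = 0 ∨ ∃ i a, w' = Pi.single i (z 4 a)) → f w = f w' → w = w' := by
    intro w w' hw hw' he
    rcases hw with rfl | ⟨i, a, rfl⟩ <;> rcases hw' with rfl | ⟨j, b, rfl⟩
    · rfl
    · exfalso
      rw [map_zero, hfs] at he
      rcases hv b with ⟨h1, h2, _⟩ | ⟨h1, h2, _⟩ | ⟨h1, h2, _⟩ | ⟨h1, h2, _⟩ <;> rw [h1, h2] at he <;> omega
    · exfalso
      rw [map_zero, hfs] at he
      rcases hv a with ⟨h1, h2, _⟩ | ⟨h1, h2, _⟩ | ⟨h1, h2, _⟩ | ⟨h1, h2, _⟩ <;> rw [h1, h2] at he <;> omega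
    · rw [hfs, hfs] at he
      have : i = j ∧ zt 4 a = zt 4 b := by
        rcases hv a with ⟨h1, h2, h3⟩ | ⟨h1, h2, h3⟩ | ⟨h1, h2, h3⟩ | ⟨h1, h2, h3⟩ <;>
          rcases hv b with ⟨h4, h5, h6⟩ | ⟨h4, h5, h6⟩ | ⟨h4, h5, h6⟩ | ⟨h4, h5, h6⟩ <;>
          rw [h1, h2, h4, h5] at he <;>
          first
            | (exfalso; omega)
            | (refine ⟨Fin.ext (by omega), by rw [h3, h6]⟩)
      obtain ⟨hij, hab⟩ := this
      have hz : z 4 a = z 4 b := Subtype.ext hab
      rw [hij, hz]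
  have hcard : Fintype.card (ZMod (4 * h + 1)) = 4 * h + 1 := ZMod.card _
  set φ : A (p * 4) →+ ZMod (4 * h + 1) := (Int.castAddHom (ZMod (4 * h + 1))).comp (f.comp Ψ) with hφ
  have hR : (0 : ℝ) < 4 * (h : ℝ) := by
    have : (0 : ℝ) < h := by exact_mod_cast (by omega : 0 < h)
    linarith
  have main : PP (p * 4) (4 * (h : ℝ)) := by
    refine ⟨fun x => (4 * (h : ℝ)) * FB φ x, (PD.FB (by rw [hcard]; omega) φ).smul _ hR.le, ?_, ?_, ?_, ?_⟩
    · beta_reduce
      rw [FB_zero φ (map_zero _), mul_one]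
    · intro m m' h1 h2 h3 h4
      beta_reduce
      have hne : tt (p * 4) m ≠ tt (p * 4) m' := by
        intro he
        rcases (tt_eq_iff (p * 4) (by omega) m m').mp he with h | h
        · exact h3 h
        · exact h4 h
      have k1 := key m h1
      have k2 := key m' h2
      have e1 : f (Ψ (tt (p * 4) m)) ≠ f (Ψ (tt (p * 4) m')) := fun he =>
        hne (hinj m m' (hi _ _ k1 k2 he))
      have b1 := hb _ k1
      have b2 := hb _ k2
      have e2 : φ (tt (p * 4) m - tt (p * 4) m') ≠ 0 := by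
        rw [hφ, AddMonoidHom.comp_apply, AddMonoidHom.comp_apply, map_sub, map_sub, Int.coe_castAddHom]
        intro h0
        rw [ZMod.intCast_zmod_eq_zero_iff_dvd] at h0
        obtain ⟨c, hc⟩ := h0
        push_cast at hc
        have hc0 : c ≠ 0 := by
          rintro rfl
          apply e1; linarith
        rcases lt_or_gt_of_ne hc0 with hlt | hgt
        · have : c ≤ -1 := by omega
          nlinarith
        · have : 1 ≤ c := by omega
          nlinarith
      rw [FB_ne φ e2, hcard]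
      push_cast
      have hh0 : (h : ℝ) ≠ 0 := by
        intro h0; rw [h0] at hR; norm_num at hR
      rw [add_sub_cancel_right]
      field_simp
    · intro h2; omega
    · intro h2; omega
  rw [mul_comm] at main
  refine main.mono (by omega) ?_
  have : (p : ℝ) = 2 * h + 1 := by rw [hph]; push_cast; ring
  have h2 : (0 : ℝ) ≤ h := by positivity
  linarith

end PathMix2
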