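import Pool.Agent.PathMix2.Stmts
set_option autoImplicit false

/-! The component C1. -/

open Finset

namespace PathMix2

namespace C1

/-! ### Counting -/

lemma cnt (n : ℕ) (hn : 0 < n) (c : ℤ) :
    ∃ b0 ∈ range n, ∀ b ∈ range n, ((n : ℤ) ∣ c - (b : ℤ)) ↔ b = b0 := by
  have hn' : (0 : ℤ) < n := by exact_mod_cast hn
  have h0 := Int.emod_nonneg c hn'.ne'
  have h1 := Int.emod_lt_of_pos c hn'
  refine ⟨(c % n).toNat, ?_, ?_⟩
  · rw [mem_range]
    omega
  · intro b hb
    rw [mem_range] at hb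
    have hcn : (n : ℤ) ∣ c - c % n := by
      refine ⟨c / n, ?_⟩
      have := Int.mul_ediv_add_emod c n
      linarith
    constructor
    · intro h
      have h2 : (n : ℤ) ∣ (b : ℤ) - c % n := by
        have := dvd_sub hcn h
        have e : c - c % n - (c - b) = b - c % n := by ring
        rwa [e] at this
      have h3 : (b : ℤ) - c % n = 0 := by
        apply Int.eq_zero_of_abs_lt_dvd h2
        rw [abs_lt]
        constructor <;> omega
      omega
    · rintro rfl
      have : (((c % n).toNat : ℕ) : ℤ) = c % n := Int.toNat_of_nonneg h0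
      rw [this]
      exact hcn

lemma sum_cnt (n : ℕ) (hn : 0 < n) (c : ℤ) (v : ℝ) :
    ∑ b ∈ range n, (if (n : ℤ) ∣ c - (b : ℤ) then v else 0) = v := by
  obtain ⟨b0, hb0, h⟩ := cnt n hn c
  rw [Finset.sum_eq_single_of_mem b0 hb0]
  · rw [if_pos ((h b0 hb0).2 rfl)]
  · intro b hb hne
    rw [if_neg]
    intro h'
    exact hne ((h b hb).1 h')

lemma sum_two (n : ℕ) (hn : 0 < n) (c : ℤ) (h4 : ¬ 4 ∣ n) :
    ∑ b ∈ range n, (if (n : ℤ) ∣ c - 2 * (b : ℤ) then (1 : ℝ) else 0) = ind n c := by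
  unfold ind
  rcases Nat.mod_two_eq_zero_or_one n with h2 | h2
  · have h42 : n % 4 = 2 := by omega
    obtain ⟨k, hk⟩ : ∃ k, n = k + k := ⟨n / 2, by omega⟩
    have hk2 : k % 2 = 1 := by omega
    have hk0 : 0 < k := by omega
    rw [if_neg (by omega), if_pos h42]
    by_cases hc : c % 2 = 0
    · rw [if_pos hc]
      obtain ⟨c', hc'⟩ : ∃ c', c = 2 * c' := ⟨c / 2, by omega⟩
      have e : ∀ b : ℤ, ((n : ℤ) ∣ c - 2 * b) ↔ ((k : ℤ) ∣ c' - b) := by
        intro b
        have e1 : c - 2 * b = 2 * (c' - b) := by rw [hc']; ring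
        have e2 : (n : ℤ) = 2 * k := by rw [hk]; push_cast; ring
        rw [e1, e2]
        exact mul_dvd_mul_iff_left (by norm_num)
      simp only [e]
      rw [hk, Finset.sum_range_add, sum_cnt k hk0]
      have e3 : ∀ b : ℕ, (k : ℤ) ∣ c' - ((k + b : ℕ) : ℤ) ↔ (k : ℤ) ∣ c' - (b : ℤ) := by
        intro b
        have : c' - ((k + b : ℕ) : ℤ) = (c' - b) - k := by push_cast; ring
        rw [this]
        exact dvd_sub_self_right
      simp only [e3]
      rw [sum_cnt k hk0]
      norm_num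
    · rw [if_neg hc]
      apply Finset.sum_eq_zero
      intro b _
      rw [if_neg]
      intro h
      have : (2 : ℤ) ∣ c - 2 * b := dvd_trans ⟨(k : ℤ), by rw [hk]; push_cast; ring⟩ h
      omega
  · rw [if_pos h2]
    have e : ∀ b : ℤ, ((n : ℤ) ∣ c - 2 * b) ↔ ((n : ℤ) ∣ ((n : ℤ) + 1) / 2 * c - b) := by
      intro b
      obtain ⟨h, hh⟩ : ∃ h : ℤ, (n : ℤ) + 1 = 2 * h := ⟨((n : ℤ) + 1) / 2, by omega⟩
      have e1 : ((n : ℤ) + 1) / 2 = h := by omega
      rw [e1]
      constructor
      · intro h1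
        have h3 := h1.mul_left h
        have e2 : h * (c - 2 * b) = (h * c - b) - n * b := by
          have : 2 * h = n + 1 := hh.symm
          linear_combination (-b) * this
        rw [e2] at h3
        exact (dvd_sub_left (dvd_mul_right _ _)).1 h3
      · intro h1
        have h3 := h1.mul_left 2
        have e2 : 2 * (h * c - b) = (c - 2 * b) + n * c := by
          have : 2 * h = n + 1 := hh.symm
          linear_combination c * this
        rw [e2] at h3
        exact (dvd_add_left (dvd_mul_right _ _)).1 h3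
    simp only [e]
    exact sum_cnt n hn _ 1

/-! ### The function -/

variable {n g : ℕ}

/-- the coordinate of a slice -/
noncomputable def ev (n g : ℕ) (i : Fin g) : SG n g →+ A n :=
  (Pi.evalAddMonoidHom (fun _ : Fin g => A n) i).comp (AddMonoidHom.snd _ _)

lemma ev_apply (i : Fin g) (x : SG n g) : ev n g i x = x.2 i := rfl

noncomputable def phi (n g : ℕ) (i : Fin g) (b : ℕ) : SG n g →+ A n :=
  AddMonoidHom.fst _ _ + (tr n).comp ((mulz n (-(b : ℤ))).comp (ev n g i))

lemma phi_apply (i : Fin g) (b : ℕ) (x : SG n g) :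
    phi n g i b x = x.1 + tr n (mulz n (-(b : ℤ)) (x.2 i)) := rfl

noncomputable def psi (ρ : A n →+ ℤ) (g : ℕ) (i : Fin g) (b : ℕ) : SG n g →+ ZMod 3 :=
  (Int.castAddHom (ZMod 3)).comp (ρ.comp ((mulz n (-(b : ℤ))).comp (ev n g i)))

lemma psi_apply (ρ : A n →+ ℤ) (i : Fin g) (b : ℕ) (x : SG n g) :
    psi ρ g i b x = ((ρ (mulz n (-(b : ℤ)) (x.2 i)) : ℤ) : ZMod 3) := rfl

open Classical in
/-- one summand -/
noncomputable def T (ρ : A n →+ ℤ) (g : ℕ) (i : Fin g) (b : ℕ) (x : SG n g) : ℝ :=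
  (if phi n g i b x = 0 then (1 : ℝ) else 0) * FB (psi ρ g i b) x *
    ∏ k ∈ univ.erase i, (if ev n g k x = 0 then (1 : ℝ) else 0)

noncomputable def F (ρ : A n →+ ℤ) (g : ℕ) (x : SG n g) : ℝ :=
  ∑ i : Fin g, ∑ b ∈ range n, T ρ g i b x

lemma pd (ρ : A n →+ ℤ) (g : ℕ) : PD (F ρ g) := by
  classical
  refine PD.sum univ _ fun i _ => PD.sum (range n) _ fun b _ => ?_
  have h1 : PD (fun x : SG n g => if phi n g i b x = 0 then (1 : ℝ) else 0) := PD.ind _
  have h2 : PD (FB (psi ρ g i b)) := PD.FB (by rw [ZMod.card]; norm_num) _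
  have h3 : PD (fun x : SG n g => ∏ k ∈ univ.erase i, (if ev n g k x = 0 then (1 : ℝ) else 0)) :=
    PD.prod _ _ fun k _ => PD.ind _
  refine ((h1.mul h2).mul h3).congr fun x => ?_
  unfold T
  congr! 2

lemma T_zero_of_slice (ρ : A n →+ ℤ) {i k : Fin g} (hk : k ≠ i) (b : ℕ) {x : SG n g}
    (h : x.2 k ≠ 0) : T ρ g i b x = 0 := by
  unfold T
  rw [Finset.prod_eq_zero (Finset.mem_erase.2 ⟨hk, mem_univ _⟩), mul_zero]
  rw [ev_apply, if_neg h]

lemma T_zero_of_phi (ρ : A n →+ ℤ) {i : Fin g} {b : ℕ} {x : SG n g}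
    (h : x.1 + tr n (mulz n (-(b : ℤ)) (x.2 i)) ≠ 0) : T ρ g i b x = 0 := by
  unfold T
  rw [phi_apply, if_neg h, zero_mul, zero_mul]

lemma T_eq (ρ : A n →+ ℤ) {i : Fin g} {b : ℕ} {x : SG n g}
    (h : x.1 + tr n (mulz n (-(b : ℤ)) (x.2 i)) = 0) (h' : ∀ k, k ≠ i → x.2 k = 0) :
    T ρ g i b x = FB (psi ρ g i b) x := by
  unfold T
  rw [phi_apply, if_pos h, one_mul, Finset.prod_eq_one, mul_one]
  intro k hk
  rw [ev_apply, if_pos (h' k (Finset.mem_erase.1 hk).1)]

/-- only the slice `i` contributes -/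
lemma F_single (ρ : A n →+ ℤ) {i : Fin g} {x : SG n g} (h : x.2 i ≠ 0) :
    F ρ g x = ∑ b ∈ range n, T ρ g i b x := by
  unfold F
  rw [Finset.sum_eq_single_of_mem i (mem_univ _)]
  intro j _ hj
  exact Finset.sum_eq_zero fun b _ => T_zero_of_slice ρ (Ne.symm hj) b h

lemma F_zero_two (ρ : A n →+ ℤ) {i j : Fin g} (hij : i ≠ j) {x : SG n g} (h : x.2 i ≠ 0)
    (h' : x.2 j ≠ 0) : F ρ g x = 0 := by
  rw [F_single ρ h]
  exact Finset.sum_eq_zero fun b _ => T_zero_of_slice ρ (Ne.symm hij) b h'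

lemma F_zero_real (ρ : A n →+ ℤ) {x : SG n g} (h : x.1 ≠ 0) (h' : x.2 = 0) : F ρ g x = 0 := by
  unfold F
  refine Finset.sum_eq_zero fun i _ => Finset.sum_eq_zero fun b _ => T_zero_of_phi ρ ?_
  rw [h']
  simpa using h

lemma pow_ne (k : ℕ) : ((2 : ZMod 3)) ^ k ≠ 0 := pow_ne_zero k (by decide)

lemma rho_ne {ρ : A n →+ ℤ} (hρ : Rho n ρ) (m : ℤ) : ((ρ (z n m) : ℤ) : ZMod 3) ≠ 0 := by
  obtain ⟨k, h | h⟩ := hρ.unit m
  · rw [h]
    push_cast
    exact pow_ne k
  · rw [h]
    push_cast
    exact neg_ne_zero.2 (pow_ne k)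

lemma rho_even {ρ : A n →+ ℤ} (hρ : Rho n ρ) (h4 : ¬ 4 ∣ n) (m : ℤ) :
    ρ (z n (-m)) = ρ (z n m) := by
  rw [hρ.refl, if_neg]
  omega

end C1

open C1

theorem c1 (h : S_RHO) : S_C1 := by
  intro n g hn h4 hg
  obtain ⟨ρ, hρ⟩ := h n hn (fun h8 => h4 (dvd_trans (by norm_num) h8))
  have hev : ∀ m, ρ (z n (-m)) = ρ (z n m) := rho_even hρ h4
  refine ⟨F ρ g, ?_⟩
  refine ⟨pd ρ g, ?_, ?_, ?_, ?_, ?_, ?_, ?_, ?_, ?_, ?_⟩
  · -- zero
    unfold F
    have : ∀ i : Fin g, ∀ b ∈ range n, T ρ g i b (0 : SG n g) = 1 := by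
      intro i b _
      rw [T_eq ρ (by simp) (by simp)]
      exact FB_zero _ (map_zero _)
    rw [Finset.sum_congr rfl fun i _ => Finset.sum_congr rfl (this i)]
    simp
  · -- rr
    intro m m' _ _ h3 h4'
    rw [neg_zero]
    apply F_zero_real
    · show tt n m - tt n m' ≠ 0
      rw [sub_ne_zero, Ne, tt_eq_iff n hn]
      tauto
    · simp [rv]
  · -- rs
    intro m i m' hm
    have e1 : (rv n g m - sv n g i m').1 = tt n m := by simp [rv, sv]
    have e2 : (rv n g m - sv n g i m').2 i = -z n m' := by simp [rv, sv]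
    have e3 : ∀ k, k ≠ i → (rv n g m - sv n g i m').2 k = 0 := by
      intro k hk
      simp [rv, sv, hk]
    rw [F_single ρ (i := i) (by rw [e2]; exact neg_ne_zero.2 (z_ne_zero n m'))]
    have key : ∀ b ∈ range n, T ρ g i b (rv n g m - sv n g i m') =
        (if (n : ℤ) ∣ (m' - m) - (b : ℤ) then (-1 / 2 : ℝ) else 0) +
          (if (n : ℤ) ∣ (m' + m) - (b : ℤ) then (-1 / 2 : ℝ) else 0) := by
      intro b _
      have e4 : (rv n g m - sv n g i m').1 +
          tr n (mulz n (-(b : ℤ)) ((rv n g m - sv n g i m').2 i)) = tt n m - tt n (m' - b) := by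
        rw [e1, e2, map_neg, map_neg, mulz_z, tr_z, sub_eq_add_neg]
        congr 3
        ring
      by_cases hb : tt n m - tt n (m' - b) = 0
      · rw [T_eq ρ (by rw [e4]; exact hb) e3, FB_ne]
        · rw [sub_eq_zero, tt_eq_iff n hn] at hb
          have c1 : (n : ℤ) ∣ m - (m' - b) ↔ (n : ℤ) ∣ (m' - m) - (b : ℤ) := by
            rw [← dvd_neg]
            have : -(m - (m' - b)) = (m' - m) - (b : ℤ) := by ring
            rw [this]
          have c2 : (n : ℤ) ∣ m + (m' - b) ↔ (n : ℤ) ∣ (m' + m) - (b : ℤ) := by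
            have : m + (m' - b) = (m' + m) - (b : ℤ) := by ring
            rw [this]
          rw [c1, c2] at hb
          have hnot : ¬ ((n : ℤ) ∣ (m' - m) - (b : ℤ) ∧ (n : ℤ) ∣ (m' + m) - (b : ℤ)) := by
            rintro ⟨h1, h2⟩
            apply hm
            have := dvd_sub h2 h1
            have e : (m' + m) - (b : ℤ) - ((m' - m) - (b : ℤ)) = 2 * m := by ring
            rwa [e] at this
          have hcard : (-1 : ℝ) / ((Fintype.card (ZMod 3) : ℝ) - 1) = -1 / 2 := by
            rw [ZMod.card]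
            norm_num
          rw [hcard]
          by_cases h1 : (n : ℤ) ∣ (m' - m) - (b : ℤ)
          · have h2 : ¬ (n : ℤ) ∣ (m' + m) - (b : ℤ) := fun h2 => hnot ⟨h1, h2⟩
            rw [if_pos h1, if_neg h2, add_zero]
          · have h2 : (n : ℤ) ∣ (m' + m) - (b : ℤ) := hb.resolve_left h1
            rw [if_neg h1, if_pos h2, zero_add]
        · rw [psi_apply, e2, map_neg, map_neg, mulz_z]
          push_cast
          exact neg_ne_zero.2 (rho_ne hρ _)
      · rw [T_zero_of_phi ρ (by rw [e4]; exact hb)]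
        rw [sub_eq_zero, tt_eq_iff n hn, not_or] at hb
        have h1 : ¬ (n : ℤ) ∣ (m' - m) - (b : ℤ) := by
          intro h
          apply hb.1
          rw [← dvd_neg]
          have : -(m - (m' - b)) = (m' - m) - (b : ℤ) := by ring
          rw [this]
          exact h
        have h2 : ¬ (n : ℤ) ∣ (m' + m) - (b : ℤ) := by
          intro h
          apply hb.2
          have : m + (m' - b) = (m' + m) - (b : ℤ) := by ring
          rw [this]
          exact h
        rw [if_neg h1, if_neg h2, add_zero]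
    rw [Finset.sum_congr rfl key, Finset.sum_add_distrib, sum_cnt n hn, sum_cnt n hn]
    norm_num
  · -- ss
    intro i j hij m m'
    rw [neg_zero]
    apply F_zero_two ρ hij
    · have : (sv n g i m - sv n g j m').2 i = z n m := by simp [sv, hij]
      rw [this]
      exact z_ne_zero n m
    · have : (sv n g i m - sv n g j m').2 j = -z n m' := by simp [sv, hij.symm]
      rw [this]
      exact neg_ne_zero.2 (z_ne_zero n m')
  · -- s1
    intro i m m' hmm
    have e1 : (sv n g i m - sv n g i m').1 = 0 := by simp [sv]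
    have e2 : (sv n g i m - sv n g i m').2 i = z n m - z n m' := by simp [sv]
    have e3 : ∀ k, k ≠ i → (sv n g i m - sv n g i m').2 k = 0 := by
      intro k hk
      simp [sv, hk]
    rw [F_single ρ (i := i) (by
      rw [e2, sub_ne_zero, Ne, z_eq_iff n hn]
      exact hmm)]
    have key : ∀ b ∈ range n, T ρ g i b (sv n g i m - sv n g i m') =
        (if (n : ℤ) ∣ (m + m') - 2 * (b : ℤ) then (1 : ℝ) else 0) := by
      intro b _
      have e4 : (sv n g i m - sv n g i m').1 +
          tr n (mulz n (-(b : ℤ)) ((sv n g i m - sv n g i m').2 i)) =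
            tt n (m - b) - tt n (m' - b) := by
        rw [e1, e2, map_sub, map_sub, mulz_z, mulz_z, tr_z, tr_z, zero_add]
        congr 2 <;> ring
      have c2 : (m - b) + (m' - b) = (m + m') - 2 * (b : ℤ) := by ring
      have c1 : (m - b) - (m' - b) = m - m' := by ring
      by_cases hb : (n : ℤ) ∣ (m + m') - 2 * (b : ℤ)
      · rw [if_pos hb, T_eq ρ _ e3, FB_zero]
        · rw [psi_apply, e2, map_sub, map_sub, mulz_z, mulz_z]
          have h1 : z n (-(b : ℤ) + m') = z n (-(-(b : ℤ) + m)) := by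
            rw [z_eq_iff n hn]
            have : -(b : ℤ) + m' - -(-(b : ℤ) + m) = (m + m') - 2 * (b : ℤ) := by ring
            rw [this]
            exact hb
          rw [h1, hev, sub_self]
          simp
        · rw [e4, sub_eq_zero, tt_eq_iff n hn, c1, c2]
          exact Or.inr hb
      · rw [if_neg hb, T_zero_of_phi ρ]
        rw [e4, sub_ne_zero, Ne, tt_eq_iff n hn, c1, c2]
        tauto
    rw [Finset.sum_congr rfl key, sum_two n hn _ h4, neg_neg]
    unfold ind
    have : (m + m') % 2 = (m - m') % 2 := by omega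
    rw [this]
    rcases Nat.mod_two_eq_zero_or_one n with h2 | h2
    · have h3 : ¬ n % 2 = 1 := by omega
      have h42 : n % 4 = 2 := by omega
      simp only [h3, h42, if_false, if_true]
    · simp only [h2, if_true]
  · -- orr
    intro ho m m' _ _
    apply F_zero_real
    · show tt n m + tt n m' ≠ 0
      exact tt_add_ne_zero n ho m m'
    · simp [rv]
  · -- ors
    intro ho m i m' _
    have e1 : (rv n g m + sv n g i m').1 = tt n m := by simp [rv, sv]
    have e2 : (rv n g m + sv n g i m').2 i = z n m' := by simp [rv, sv]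
    rw [F_single ρ (i := i) (by rw [e2]; exact z_ne_zero n m')]
    refine Finset.sum_eq_zero fun b _ => T_zero_of_phi ρ ?_
    rw [e1, e2, mulz_z, tr_z]
    exact tt_add_ne_zero n ho _ _
  · -- oss
    intro ho i j m m'
    by_cases hij : i = j
    · subst hij
      have e1 : (sv n g i m + sv n g i m').1 = 0 := by simp [sv]
      have e2 : (sv n g i m + sv n g i m').2 i = z n m + z n m' := by simp [sv]
      rw [F_single ρ (i := i) (by rw [e2]; exact z_add_ne_zero n ho m m')]
      refine Finset.sum_eq_zero fun b _ => T_zero_of_phi ρ ?_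
      rw [e1, e2, map_add, map_add, mulz_z, mulz_z, tr_z, tr_z, zero_add]
      exact tt_add_ne_zero n ho _ _
    · apply F_zero_two ρ hij
      · have : (sv n g i m + sv n g j m').2 i = z n m := by simp [sv, hij]
        rw [this]
        exact z_ne_zero n m
      · have : (sv n g i m + sv n g j m').2 j = z n m' := by simp [sv, Ne.symm hij]
        rw [this]
        exact z_ne_zero n m'
  · -- er
    intro he m _
    apply F_zero_real
    · show tt n m ≠ 0
      exact tt_ne_zero n (by omega) m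
    · rfl
  · -- es
    intro he i m
    have e1 : (sv n g i m).1 = 0 := rfl
    have e2 : (sv n g i m).2 i = z n m := by simp [sv]
    rw [F_single ρ (i := i) (by rw [e2]; exact z_ne_zero n m)]
    refine Finset.sum_eq_zero fun b _ => T_zero_of_phi ρ ?_
    rw [e1, e2, mulz_z, tr_z, zero_add]
    exact tt_ne_zero n (by omega) _

end PathMix2
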