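import Pool.Agent.PathMix2.Stmts
set_option autoImplicit false
set_option linter.unusedSectionVars false

/-! Module PM_C2: the component C2 of the designs (MP_261efc_co). -/

open Finset

namespace PathMix2

namespace C2

/-! ### sums over ordered pairs of different indices -/

noncomputable def D {g : ℕ} (f : Fin g → Fin g → ℝ) : ℝ := ∑ a, ∑ b, if a = b then 0 else f a b

lemma D_const {g : ℕ} {f : Fin g → Fin g → ℝ} {V : ℝ} (h : ∀ a b, a ≠ b → f a b = V) :
    D f = g * (g - 1) * V := by
  unfold D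
  have h1 : ∀ a b : Fin g, (if a = b then 0 else f a b) = V - (if a = b then V else 0) := by
    intro a b
    split_ifs with hab
    · ring
    · rw [h a b hab]; ring
  simp_rw [h1, Finset.sum_sub_distrib, Finset.sum_ite_eq, Finset.mem_univ, if_true, Finset.sum_const,
    Finset.card_univ, Fintype.card_fin, nsmul_eq_mul]
  ring

lemma D_zero {g : ℕ} {f : Fin g → Fin g → ℝ} (h : ∀ a b, a ≠ b → f a b = 0) : D f = 0 := by
  rw [D_const h, mul_zero]

lemma D_star {g : ℕ} {f : Fin g → Fin g → ℝ} (i : Fin g) {V : ℝ}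
    (h0 : ∀ a b, a ≠ b → a ≠ i → b ≠ i → f a b = 0)
    (h1 : ∀ b, b ≠ i → f i b = V) (h2 : ∀ a, a ≠ i → f a i = V) :
    D f = 2 * (g - 1) * V := by
  unfold D
  have h3 : ∀ a b : Fin g, (if a = b then 0 else f a b) =
      ((if a = i then V else 0) - (if a = i then (if b = i then V else 0) else 0)) +
      ((if b = i then V else 0) - (if b = i then (if a = i then V else 0) else 0)) := by
    intro a b
    by_cases ha : a = i <;> by_cases hb : b = i
    · subst ha; subst hb; simp
    · subst ha
      rw [if_neg (fun h => hb h.symm), h1 b hb]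
      simp [hb]
    · subst hb
      rw [if_neg ha, h2 a ha]
      simp [ha]
    · by_cases hab : a = b
      · simp [hab, hb]
      · rw [if_neg hab, h0 a b hab ha hb]
        simp [ha, hb]
  simp_rw [h3]
  have hg : ∀ c : ℝ, ∑ x : Fin g, c = g * c := by
    intro c; simp
  simp_rw [Finset.sum_add_distrib, Finset.sum_sub_distrib]
  have e1 : ∑ x : Fin g, ∑ y : Fin g, (if x = i then V else 0) = g * V := by
    simp_rw [hg]
    rw [← Finset.mul_sum]
    simp
  have e2 : ∑ x : Fin g, ∑ y : Fin g, (if x = i then (if y = i then V else 0) else 0) = V := by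
    have : ∀ x : Fin g, ∑ y : Fin g, (if x = i then (if y = i then V else 0) else 0) =
        if x = i then V else 0 := by
      intro x
      split_ifs with hx
      · simp
      · simp
    simp_rw [this]
    simp
  have e3 : ∑ x : Fin g, ∑ y : Fin g, (if y = i then V else 0) = g * V := by
    rw [Finset.sum_comm]; exact e1
  have e4 : ∑ x : Fin g, ∑ y : Fin g, (if y = i then (if x = i then V else 0) else 0) = V := by
    rw [Finset.sum_comm]; exact e2
  rw [e1, e2, e3, e4]
  ring

lemma D_pair {g : ℕ} {f : Fin g → Fin g → ℝ} (i j : Fin g) (hij : i ≠ j)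
    (h0 : ∀ a b, a ≠ b → ¬ (a = i ∧ b = j) → ¬ (a = j ∧ b = i) → f a b = 0) :
    D f = f i j + f j i := by
  unfold D
  have h3 : ∀ a b : Fin g, (if a = b then 0 else f a b) =
      (if a = i then (if b = j then f i j else 0) else 0) +
      (if a = j then (if b = i then f j i else 0) else 0) := by
    intro a b
    by_cases h1 : a = i ∧ b = j
    · obtain ⟨rfl, rfl⟩ := h1
      simp [hij]
    · by_cases h2 : a = j ∧ b = i
      · obtain ⟨rfl, rfl⟩ := h2
        simp [hij.symm]
      · have e1 : (if a = i then (if b = j then f i j else 0) else 0) = 0 := by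
          split_ifs with h3 h4
          · exact absurd ⟨h3, h4⟩ h1
          · rfl
          · rfl
        have e2 : (if a = j then (if b = i then f j i else 0) else 0) = 0 := by
          split_ifs with h3 h4
          · exact absurd ⟨h3, h4⟩ h2
          · rfl
          · rfl
        rw [e1, e2]
        split_ifs with hab
        · ring
        · rw [h0 a b hab h1 h2]; ring
  simp_rw [h3, Finset.sum_add_distrib]
  have e : ∀ (p q : Fin g) (V : ℝ), ∑ x : Fin g, ∑ y : Fin g, (if x = p then (if y = q then V else 0) else 0) = V := by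
    intro p q V
    have : ∀ x : Fin g, ∑ y : Fin g, (if x = p then (if y = q then V else 0) else 0) =
        if x = p then V else 0 := by
      intro x
      split_ifs with hx
      · simp
      · simp
    simp_rw [this]
    simp
  rw [e, e]

/-! ### roots of unity indexed by `ZMod n` -/

variable (n : ℕ) [NeZero n]

noncomputable def zq (a : ZMod n) : A n := z n (a.val : ℤ)

noncomputable def tq (a : ZMod n) : A n := tt n (a.val : ℤ)

lemma dvd_sub_val (m : ℤ) : (n : ℤ) ∣ m - (((m : ZMod n).val : ℕ) : ℤ) := by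
  rw [ZMod.val_intCast]
  exact Int.dvd_self_sub_emod

lemma z_eq_zq (m : ℤ) : z n m = zq n (m : ZMod n) := by
  unfold zq
  rw [z_eq_iff n (NeZero.pos n)]
  exact dvd_sub_val n m

lemma tt_eq_tq (m : ℤ) : tt n m = tq n (m : ZMod n) := by
  unfold tq
  exact tt_per n (NeZero.pos n) _ _ (dvd_sub_val n m)

noncomputable def W (b : ZMod n) : A n →+ A n := mulz n (-(b.val : ℤ))

lemma W_z (b : ZMod n) (m : ℤ) : W n b (z n m) = zq n ((m : ZMod n) - b) := by
  unfold W
  rw [mulz_z, z_eq_zq]
  congr 1
  push_cast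
  rw [ZMod.natCast_zmod_val]
  ring

lemma tr_zq (a : ZMod n) : tr n (zq n a) = tq n a := by
  unfold zq tq
  exact tr_z n _

lemma dvd_iff (m : ℤ) : (n : ℤ) ∣ m ↔ (m : ZMod n) = 0 := (ZMod.intCast_zmod_eq_zero_iff_dvd m n).symm

lemma tq_eq_iff (a b : ZMod n) : tq n a = tq n b ↔ a = b ∨ a = -b := by
  unfold tq
  rw [tt_eq_iff n (NeZero.pos n), dvd_iff, dvd_iff]
  push_cast
  rw [ZMod.natCast_zmod_val, ZMod.natCast_zmod_val, sub_eq_zero, ← sub_neg_eq_add a b, sub_eq_zero]

/-! ### the homomorphisms and the function -/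

variable {g : ℕ} (ρ : A n →+ ℤ)

noncomputable def al (i j : Fin g) (b b' : ZMod n) : SG n g →+ A n × (Fin g → A n) :=
  AddMonoidHom.mk' (fun x => (x.1 + tr n (W n b (x.2 i)) + tr n (W n b' (x.2 j)),
    fun k => if k = i ∨ k = j then 0 else x.2 k)) (by
    intro x y
    apply Prod.ext
    · simp only [Prod.fst_add, Prod.snd_add, Pi.add_apply, map_add]
      abel
    · funext k
      simp only [Prod.snd_add, Pi.add_apply]
      split_ifs
      · simp
      · rfl)

lemma al_eq_zero_iff (i j : Fin g) (b b' : ZMod n) (x : SG n g) : al n i j b b' x = 0 ↔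
    x.1 + tr n (W n b (x.2 i)) + tr n (W n b' (x.2 j)) = 0 ∧ ∀ k, k ≠ i → k ≠ j → x.2 k = 0 := by
  have h : al n i j b b' x = (x.1 + tr n (W n b (x.2 i)) + tr n (W n b' (x.2 j)),
    fun k => if k = i ∨ k = j then 0 else x.2 k) := rfl
  rw [h, Prod.mk_eq_zero]
  apply and_congr Iff.rfl
  constructor
  · intro h1 k hi hj
    have h2 := congrFun h1 k
    simpa [hi, hj] using h2
  · intro h1
    funext k
    by_cases hk : k = i ∨ k = j
    · simp [hk]
    · push Not at hk
      simp [hk.1, hk.2, h1 k hk.1 hk.2]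

noncomputable def be (i j : Fin g) (b b' : ZMod n) : SG n g →+ ZMod 3 :=
  AddMonoidHom.mk' (fun x => ((ρ (W n b (x.2 i)) - ρ (W n b' (x.2 j)) : ℤ) : ZMod 3)) (by
    intro x y
    simp only [Prod.snd_add, Pi.add_apply, map_add]
    push_cast
    ring)

lemma be_apply (i j : Fin g) (b b' : ZMod n) (x : SG n g) :
    be n ρ i j b b' x = ((ρ (W n b (x.2 i)) - ρ (W n b' (x.2 j)) : ℤ) : ZMod 3) := rfl

/-- value of the uniform function of `ℤ/3` -/
noncomputable def v3 (a : ZMod 3) : ℝ := if a = 0 then 1 else -1 / 2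

lemma FB_eq {G : Type*} [AddCommGroup G] (φ : G →+ ZMod 3) (x : G) : FB φ x = v3 (φ x) := by
  unfold FB v3
  rw [ZMod.card]
  norm_num

open Classical in
noncomputable def T (i j : Fin g) (b b' : ZMod n) (x : SG n g) : ℝ :=
  (if al n i j b b' x = 0 then (1 : ℝ) else 0) * FB (be n ρ i j b b') x

noncomputable def P (i j : Fin g) (x : SG n g) : ℝ := ∑ b, ∑ b', T n ρ i j b b' x

noncomputable def F (x : SG n g) : ℝ := 1 / (2 * ((g : ℝ) - 1) * n) * D (fun i j => P n ρ i j x)

lemma pd_T (i j : Fin g) (b b' : ZMod n) : PD (T n ρ i j b b') := by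
  classical
  refine PD.congr ((PD.ind (al n i j b b')).mul (PD.FB (by rw [ZMod.card]; norm_num) (be n ρ i j b b'))) ?_
  intro x
  unfold T
  congr

lemma pd_F (hg : 2 ≤ g) : PD (F n ρ : SG n g → ℝ) := by
  unfold F D
  have hg' : (2 : ℝ) ≤ g := by exact_mod_cast hg
  refine PD.smul ?_ _ ?_
  · apply PD.sum
    intro i _
    apply PD.sum
    intro j _
    by_cases hij : i = j
    · simp only [hij, if_true]
      exact PD.zero
    · simp only [hij, if_false]
      unfold P
      apply PD.sum
      intro b _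
      apply PD.sum
      intro b' _
      exact pd_T n ρ i j b b'
  · have h1 : 0 < (g : ℝ) - 1 := by linarith
    have h2 : (0 : ℝ) < n := by exact_mod_cast NeZero.pos n
    positivity

lemma T_val (i j : Fin g) (b b' : ZMod n) (x : SG n g) (h : ∀ k, k ≠ i → k ≠ j → x.2 k = 0) :
    T n ρ i j b b' x = (open Classical in if x.1 + tr n (W n b (x.2 i)) + tr n (W n b' (x.2 j)) = 0 then
      v3 ((ρ (W n b (x.2 i)) - ρ (W n b' (x.2 j)) : ℤ) : ZMod 3) else 0) := by
  unfold T
  rw [FB_eq, be_apply]
  by_cases h1 : x.1 + tr n (W n b (x.2 i)) + tr n (W n b' (x.2 j)) = 0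
  · rw [if_pos ((al_eq_zero_iff n i j b b' x).mpr ⟨h1, h⟩), if_pos h1, one_mul]
  · rw [if_neg (fun h2 => h1 ((al_eq_zero_iff n i j b b' x).mp h2).1), if_neg h1, zero_mul]

lemma T_zero (i j : Fin g) (b b' : ZMod n) (x : SG n g)
    (h : x.1 + tr n (W n b (x.2 i)) + tr n (W n b' (x.2 j)) ≠ 0) : T n ρ i j b b' x = 0 := by
  unfold T
  rw [if_neg (fun h2 => h ((al_eq_zero_iff n i j b b' x).mp h2).1), zero_mul]

lemma T_zero' (i j : Fin g) (b b' : ZMod n) (x : SG n g) (k : Fin g) (hi : k ≠ i) (hj : k ≠ j)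
    (h : x.2 k ≠ 0) : T n ρ i j b b' x = 0 := by
  unfold T
  rw [if_neg (fun h2 => h (((al_eq_zero_iff n i j b b' x).mp h2).2 k hi hj)), zero_mul]

lemma P_zero (i j : Fin g) (x : SG n g)
    (h : ∀ b b', x.1 + tr n (W n b (x.2 i)) + tr n (W n b' (x.2 j)) ≠ 0) : P n ρ i j x = 0 := by
  unfold P
  apply Finset.sum_eq_zero
  intro b _
  apply Finset.sum_eq_zero
  intro b' _
  exact T_zero n ρ i j b b' x (h b b')

lemma P_zero' (i j : Fin g) (x : SG n g) (k : Fin g) (hi : k ≠ i) (hj : k ≠ j)
    (h : x.2 k ≠ 0) : P n ρ i j x = 0 := by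
  unfold P
  apply Finset.sum_eq_zero
  intro b _
  apply Finset.sum_eq_zero
  intro b' _
  exact T_zero' n ρ i j b b' x k hi hj h

lemma v3_neg (a : ZMod 3) : v3 (-a) = v3 a := by
  unfold v3; simp

lemma T_symm (i j : Fin g) (b b' : ZMod n) (x : SG n g) : T n ρ i j b b' x = T n ρ j i b' b x := by
  by_cases h : ∀ k, k ≠ i → k ≠ j → x.2 k = 0
  · rw [T_val n ρ i j b b' x h, T_val n ρ j i b' b x (fun k h1 h2 => h k h2 h1)]
    have h1 : x.1 + tr n (W n b (x.2 i)) + tr n (W n b' (x.2 j)) =
        x.1 + tr n (W n b' (x.2 j)) + tr n (W n b (x.2 i)) := by abel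
    have h2 : ((ρ (W n b (x.2 i)) - ρ (W n b' (x.2 j)) : ℤ) : ZMod 3) =
        -((ρ (W n b' (x.2 j)) - ρ (W n b (x.2 i)) : ℤ) : ZMod 3) := by
      push_cast; ring
    rw [h1, h2, v3_neg]
  · push Not at h
    obtain ⟨k, h1, h2, h3⟩ := h
    rw [T_zero' n ρ i j b b' x k h1 h2 h3, T_zero' n ρ j i b' b x k h2 h1 h3]

lemma P_symm (i j : Fin g) (x : SG n g) : P n ρ i j x = P n ρ j i x := by
  unfold P
  rw [Finset.sum_comm]
  apply Finset.sum_congr rfl
  intro b' _
  apply Finset.sum_congr rfl
  intro b _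
  exact T_symm n ρ i j b b' x

open Classical in
/-- only one slice is nonzero -/
lemma P_one (i j : Fin g) (x : SG n g) (hj : x.2 j = 0) (h : ∀ k, k ≠ i → k ≠ j → x.2 k = 0) :
    P n ρ i j x = n * ∑ b, if x.1 + tr n (W n b (x.2 i)) = 0 then
      v3 ((ρ (W n b (x.2 i)) : ℤ) : ZMod 3) else 0 := by
  unfold P
  rw [Finset.mul_sum]
  apply Finset.sum_congr rfl
  intro b _
  have h1 : ∀ b', T n ρ i j b b' x = if x.1 + tr n (W n b (x.2 i)) = 0 then
      v3 ((ρ (W n b (x.2 i)) : ℤ) : ZMod 3) else 0 := by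
    intro b'
    rw [T_val n ρ i j b b' x h, hj]
    simp only [map_zero, add_zero, sub_zero]
  simp_rw [h1, Finset.sum_const, Finset.card_univ, ZMod.card, nsmul_eq_mul]

/-! ### Number theory -/

lemma sum_val (f : ℕ → ℝ) : ∑ y : ZMod n, f y.val = ∑ k ∈ range n, f k := by
  cases n with
  | zero => exact absurd rfl (NeZero.ne 0)
  | succ k => exact Fin.sum_univ_eq_sum_range f (k + 1)

lemma zq_neg (a : ZMod n) : zq n (-a) = z n (-(a.val : ℤ)) := by
  rw [z_eq_zq]
  congr 1
  push_cast
  rw [ZMod.natCast_zmod_val]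

lemma tq_neg (a : ZMod n) : tq n (-a) = tq n a := (tq_eq_iff n _ _).mpr (Or.inr rfl)

lemma self_neg_iff (y : ZMod n) : y = -y ↔ y.val = 0 ∨ 2 * y.val = n := by
  have h1 : y = -y ↔ (n : ℤ) ∣ 2 * (y.val : ℤ) := by
    rw [dvd_iff]
    push_cast
    rw [ZMod.natCast_zmod_val, eq_neg_iff_add_eq_zero, two_mul]
  rw [h1]
  have hlt := ZMod.val_lt y
  constructor
  · rintro ⟨c, hc⟩
    have hn : 0 < n := NeZero.pos n
    have hc0 : 0 ≤ c := by
      by_contra hneg
      push Not at hneg
      have : (n : ℤ) * c < 0 := mul_neg_of_pos_of_neg (by exact_mod_cast hn) hneg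
      omega
    have hc2 : c < 2 := by
      by_contra hge
      push Not at hge
      have : (n : ℤ) * 2 ≤ n * c := mul_le_mul_of_nonneg_left hge (by positivity)
      omega
    have : c = 0 ∨ c = 1 := by omega
    rcases this with rfl | rfl
    · left; omega
    · right; omega
  · rintro (h | h)
    · rw [h]; simp
    · refine ⟨1, ?_⟩
      omega

variable {n ρ}

lemma h23 : ((2 : ℤ) : ZMod 3) ≠ 0 := by decide

lemma h23' : (2 : ZMod 3) ≠ 0 := by decide

lemma rho_ne (hρ : Rho n ρ) (a : ZMod n) : ((ρ (zq n a) : ℤ) : ZMod 3) ≠ 0 := by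
  have : Fact (Nat.Prime 3) := ⟨by norm_num⟩
  have h2 := h23
  obtain ⟨k, hk⟩ := hρ.unit (a.val : ℤ)
  unfold zq
  rcases hk with hk | hk
  · rw [hk, Int.cast_pow]
    exact pow_ne_zero k h2
  · rw [hk, Int.cast_neg, Int.cast_pow]
    exact neg_ne_zero.mpr (pow_ne_zero k h2)

lemma v3_ne {a : ZMod 3} (h : a ≠ 0) : v3 a = -1 / 2 := by
  unfold v3; rw [if_neg h]

lemma rho_refl (hρ : Rho n ρ) (a : ZMod n) :
    ρ (zq n (-a)) = if n % 8 = 4 ∧ a.val % 2 = 1 then -ρ (zq n a) else ρ (zq n a) := by
  rw [zq_neg, hρ.refl]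
  have h : ((a.val : ℤ) % 2 = 1) ↔ a.val % 2 = 1 := by omega
  simp only [h]
  rfl

lemma two_rho_ne (hρ : Rho n ρ) (a : ZMod n) : ((ρ (zq n a) + ρ (zq n a) : ℤ) : ZMod 3) ≠ 0 := by
  have : Fact (Nat.Prime 3) := ⟨by norm_num⟩
  have h := rho_ne hρ a
  have h2 := h23'
  have : ((ρ (zq n a) + ρ (zq n a) : ℤ) : ZMod 3) = 2 * ((ρ (zq n a) : ℤ) : ZMod 3) := by
    push_cast; ring
  rw [this]
  exact mul_ne_zero h2 h

lemma v3_sum (hρ : Rho n ρ) (a : ZMod n) : v3 ((ρ (zq n a) + ρ (zq n (-a)) : ℤ) : ZMod 3) =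
    if n % 8 = 4 ∧ a.val % 2 = 1 then 1 else -1 / 2 := by
  rw [rho_refl hρ]
  split_ifs with h
  · unfold v3; simp
  · exact v3_ne (two_rho_ne hρ a)

lemma v3_diff (hρ : Rho n ρ) (a : ZMod n) : v3 ((ρ (zq n a) - ρ (zq n (-a)) : ℤ) : ZMod 3) =
    if n % 8 = 4 ∧ a.val % 2 = 1 then -1 / 2 else 1 := by
  rw [rho_refl hρ]
  split_ifs with h
  · rw [sub_neg_eq_add]
    exact v3_ne (two_rho_ne hρ a)
  · unfold v3; simp

lemma sum_two (f : ZMod n → ℝ) (m : ZMod n) :
    ∑ y, (if y = m ∨ y = -m then f y else 0) = f m + if m = -m then 0 else f (-m) := by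
  have h : ∀ y, (if y = m ∨ y = -m then f y else 0) =
      (if y = m then f m else 0) + (if y = -m then (if m = -m then 0 else f (-m)) else 0) := by
    intro y
    by_cases h1 : y = m
    · subst h1
      by_cases h2 : y = -y
      · simp [← h2]
      · simp [h2]
    · by_cases h2 : y = -m
      · have h3 : m ≠ -m := fun h => h1 (h2.trans h.symm)
        subst h2
        simp [h3, h1]
      · simp [h1, h2]
  simp_rw [h, Finset.sum_add_distrib, Finset.sum_ite_eq', Finset.mem_univ, if_true]

open Classical in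
lemma sum_rs (hρ : Rho n ρ) (m m' : ZMod n) (hm : m ≠ -m) :
    ∑ b, (if tq n m - tq n (m' - b) = 0 then v3 ((-ρ (zq n (m' - b)) : ℤ) : ZMod 3) else 0) = -1 := by
  have h := Equiv.sum_comp (Equiv.subLeft m')
    (fun y => if tq n m - tq n y = 0 then v3 ((-ρ (zq n y) : ℤ) : ZMod 3) else 0)
  simp only [Equiv.subLeft_apply] at h
  rw [h]
  have h2 : ∀ y, (if tq n m - tq n y = 0 then v3 ((-ρ (zq n y) : ℤ) : ZMod 3) else 0) =
      if y = m ∨ y = -m then (-1 / 2 : ℝ) else 0 := by
    intro y
    have h3 : tq n m - tq n y = 0 ↔ y = m ∨ y = -m := by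
      rw [sub_eq_zero, eq_comm, tq_eq_iff]
    have h4 : v3 ((-ρ (zq n y) : ℤ) : ZMod 3) = -1 / 2 := by
      rw [Int.cast_neg, v3_neg, v3_ne (rho_ne hρ y)]
    rw [h4]
    by_cases h5 : y = m ∨ y = -m
    · rw [if_pos h5, if_pos (h3.mpr h5)]
    · rw [if_neg h5, if_neg (fun h => h5 (h3.mp h))]
  simp_rw [h2]
  rw [sum_two (fun _ => (-1 / 2 : ℝ)), if_neg hm]
  norm_num

lemma count_odd (K : ℕ) : ∑ k ∈ range (2 * K), (if k % 2 = 1 then (1 : ℝ) else -1 / 2) = K / 2 := by
  induction K with
  | zero => simp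
  | succ K ih =>
    have : 2 * (K + 1) = 2 * K + 1 + 1 := by ring
    rw [this, Finset.sum_range_succ, Finset.sum_range_succ, ih, if_neg (by omega), if_pos (by omega)]
    push_cast
    ring

lemma count_ss (hn8 : ¬ 8 ∣ n) : ∑ y : ZMod n, (-1 / 2 + if y = -y then 0 else
    (if n % 8 = 4 ∧ y.val % 2 = 1 then (1 : ℝ) else -1 / 2)) = -SS n := by
  have hn : 0 < n := NeZero.pos n
  have h1 : ∀ y : ZMod n, (-1 / 2 + if y = -y then 0 else
      (if n % 8 = 4 ∧ y.val % 2 = 1 then (1 : ℝ) else -1 / 2)) =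
      (fun k : ℕ => (-1 / 2 + if k = 0 ∨ 2 * k = n then 0 else
      (if n % 8 = 4 ∧ k % 2 = 1 then (1 : ℝ) else -1 / 2))) y.val := by
    intro y
    beta_reduce
    by_cases h : y = -y
    · rw [if_pos h, if_pos ((self_neg_iff n y).mp h)]
    · rw [if_neg h, if_neg (fun h2 => h ((self_neg_iff n y).mpr h2))]
  rw [Finset.sum_congr rfl (fun y _ => h1 y),
    sum_val n (fun k : ℕ => (-1 / 2 + if k = 0 ∨ 2 * k = n then 0 else
      (if n % 8 = 4 ∧ k % 2 = 1 then (1 : ℝ) else -1 / 2)))]
  unfold SS
  by_cases ho : n % 2 = 1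
  · rw [if_pos ho]
    have h2 : ∀ k ∈ range n, (-1 / 2 + if k = 0 ∨ 2 * k = n then 0 else
      (if n % 8 = 4 ∧ k % 2 = 1 then (1 : ℝ) else -1 / 2)) = -1 + (if k = 0 then 1 / 2 else 0) := by
      intro k _
      have h3 : ¬ (2 * k = n) := by omega
      have h4 : ¬ (n % 8 = 4 ∧ k % 2 = 1) := by omega
      by_cases hk : k = 0
      · simp only [hk, true_or, if_true]; norm_num
      · rw [if_neg (by tauto), if_neg h4, if_neg hk]; norm_num
    rw [Finset.sum_congr rfl h2, Finset.sum_add_distrib, Finset.sum_ite_eq', if_pos (Finset.mem_range.mpr hn)]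
    simp only [Finset.sum_const, Finset.card_range, nsmul_eq_mul]
    ring
  · rw [if_neg ho]
    obtain ⟨K, hK⟩ : ∃ K, n = 2 * K := ⟨n / 2, by omega⟩
    by_cases h42 : n % 4 = 2
    · rw [if_pos h42]
      have h2 : ∀ k ∈ range n, (-1 / 2 + if k = 0 ∨ 2 * k = n then 0 else
        (if n % 8 = 4 ∧ k % 2 = 1 then (1 : ℝ) else -1 / 2)) =
          -1 + (if k = 0 then 1 / 2 else 0) + (if k = K then 1 / 2 else 0) := by
        intro k _
        have h4 : ¬ (n % 8 = 4 ∧ k % 2 = 1) := by omega
        rw [if_neg h4]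
        by_cases hk : k = 0
        · rw [if_pos (Or.inl hk), if_pos hk, if_neg (by omega)]; norm_num
        · by_cases hk2 : k = K
          · rw [if_pos (Or.inr (by omega)), if_neg hk, if_pos hk2]; norm_num
          · rw [if_neg (by omega), if_neg hk, if_neg hk2]; norm_num
      rw [Finset.sum_congr rfl h2, Finset.sum_add_distrib, Finset.sum_add_distrib, Finset.sum_ite_eq',
        Finset.sum_ite_eq', if_pos (Finset.mem_range.mpr hn), if_pos (Finset.mem_range.mpr (by omega))]
      simp only [Finset.sum_const, Finset.card_range, nsmul_eq_mul]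
      ring
    · rw [if_neg h42]
      have h84 : n % 8 = 4 := by omega
      have h2 : ∀ k ∈ range n, (-1 / 2 + if k = 0 ∨ 2 * k = n then 0 else
        (if n % 8 = 4 ∧ k % 2 = 1 then (1 : ℝ) else -1 / 2)) =
          -1 / 2 + (if k % 2 = 1 then (1 : ℝ) else -1 / 2) + (if k = 0 then 1 / 2 else 0) +
          (if k = K then 1 / 2 else 0) := by
        intro k _
        by_cases hk : k = 0
        · rw [if_pos (Or.inl hk), if_pos hk, if_neg (by omega), if_neg (by omega)]; norm_num
        · by_cases hk2 : k = K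
          · rw [if_pos (Or.inr (by omega)), if_neg hk, if_pos hk2, if_neg (by omega)]; norm_num
          · rw [if_neg (by omega), if_neg hk, if_neg hk2]
            simp only [h84, true_and]
            ring
      rw [Finset.sum_congr rfl h2, Finset.sum_add_distrib, Finset.sum_add_distrib, Finset.sum_add_distrib,
        Finset.sum_ite_eq', Finset.sum_ite_eq', if_pos (Finset.mem_range.mpr hn),
        if_pos (Finset.mem_range.mpr (by omega))]
      have h5 := count_odd K
      rw [← hK] at h5
      rw [h5]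
      simp only [Finset.sum_const, Finset.card_range, nsmul_eq_mul]
      have h6 : (n : ℝ) = 2 * K := by rw [hK]; push_cast; ring
      rw [h6]
      ring

open Classical in
lemma sum_ss (hρ : Rho n ρ) (hn8 : ¬ 8 ∣ n) (m m' : ZMod n) :
    ∑ b, ∑ b', (if tq n (m - b) - tq n (m' - b') = 0 then
      v3 ((ρ (zq n (m - b)) + ρ (zq n (m' - b')) : ℤ) : ZMod 3) else 0) = -SS n := by
  have h1 : ∀ b, ∑ b', (if tq n (m - b) - tq n (m' - b') = 0 then
      v3 ((ρ (zq n (m - b)) + ρ (zq n (m' - b')) : ℤ) : ZMod 3) else 0) =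
      (fun y => ∑ y', (if tq n y - tq n y' = 0 then
      v3 ((ρ (zq n y) + ρ (zq n y') : ℤ) : ZMod 3) else 0)) (m - b) := by
    intro b
    have h := Equiv.sum_comp (Equiv.subLeft m')
      (fun y' => (if tq n (m - b) - tq n y' = 0 then
      v3 ((ρ (zq n (m - b)) + ρ (zq n y') : ℤ) : ZMod 3) else 0))
    simp only [Equiv.subLeft_apply] at h
    exact h
  simp_rw [h1]
  have h := Equiv.sum_comp (Equiv.subLeft m) (fun y => ∑ y', (if tq n y - tq n y' = 0 then
      v3 ((ρ (zq n y) + ρ (zq n y') : ℤ) : ZMod 3) else 0))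
  simp only [Equiv.subLeft_apply] at h
  rw [h, ← count_ss hn8]
  apply Finset.sum_congr rfl
  intro y _
  have h2 : ∀ y', (if tq n y - tq n y' = 0 then
      v3 ((ρ (zq n y) + ρ (zq n y') : ℤ) : ZMod 3) else 0) =
      if y' = y ∨ y' = -y then v3 ((ρ (zq n y) + ρ (zq n y') : ℤ) : ZMod 3) else 0 := by
    intro y'
    have h3 : tq n y - tq n y' = 0 ↔ y' = y ∨ y' = -y := by
      rw [sub_eq_zero, eq_comm, tq_eq_iff]
    by_cases h5 : y' = y ∨ y' = -y
    · rw [if_pos h5, if_pos (h3.mpr h5)]
    · rw [if_neg h5, if_neg (fun h => h5 (h3.mp h))]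
  simp_rw [h2]
  rw [sum_two (fun y' => v3 ((ρ (zq n y) + ρ (zq n y') : ℤ) : ZMod 3)) y, v3_ne (two_rho_ne hρ y), v3_sum hρ y]

lemma count_s1 (hn8 : ¬ 8 ∣ n) (l : ℤ) : ∑ u : ZMod n, (if u + u = (l : ZMod n) then
    (if n % 8 = 4 ∧ u.val % 2 = 1 then (-1 / 2 : ℝ) else 1) else 0) = ind n l := by
  have hn : 0 < n := NeZero.pos n
  unfold ind
  by_cases ho : n % 2 = 1
  · rw [if_pos ho]
    set c : ZMod n := (((n + 1) / 2 : ℕ) : ZMod n) with hc
    have hc2 : c + c = 1 := by
      rw [hc, ← Nat.cast_add]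
      have : (n + 1) / 2 + (n + 1) / 2 = n + 1 := by omega
      rw [this]
      push_cast
      rw [ZMod.natCast_self, zero_add]
    have h1 : ∀ u : ZMod n, (if u + u = (l : ZMod n) then
      (if n % 8 = 4 ∧ u.val % 2 = 1 then (-1 / 2 : ℝ) else 1) else 0) = if u = c * l then 1 else 0 := by
      intro u
      have h2 : ¬ (n % 8 = 4 ∧ u.val % 2 = 1) := by omega
      rw [if_neg h2]
      have h3 : u + u = (l : ZMod n) ↔ u = c * l := by
        constructor
        · intro h
          rw [← h]
          linear_combination (-u) * hc2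
        · intro h
          rw [h]
          linear_combination (l : ZMod n) * hc2
      by_cases h4 : u = c * l
      · rw [if_pos h4, if_pos (h3.mpr h4)]
      · rw [if_neg h4, if_neg (fun h => h4 (h3.mp h))]
    simp_rw [h1, Finset.sum_ite_eq', Finset.mem_univ, if_true]
  · rw [if_neg ho]
    obtain ⟨K, hK⟩ : ∃ K, n = 2 * K := ⟨n / 2, by omega⟩
    by_cases hl : l % 2 = 0
    · obtain ⟨k, hk⟩ : ∃ k, l = 2 * k := ⟨l / 2, by omega⟩
      have h3 : ∀ u : ZMod n, u + u = (l : ZMod n) ↔ u = (k : ZMod n) ∨ u = ((k + K : ℤ) : ZMod n) := by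
        intro u
        have h4 : u + u = (l : ZMod n) ↔ (u - (k : ZMod n)) = -(u - (k : ZMod n)) := by
          rw [hk]
          push_cast
          constructor
          · intro h; linear_combination h
          · intro h; linear_combination h
        rw [h4, self_neg_iff]
        apply or_congr
        · rw [ZMod.val_eq_zero, sub_eq_zero]
        · constructor
          · intro h
            have h5 : (u - (k : ZMod n)).val = K := by omega
            have h6 : u - (k : ZMod n) = ((K : ℕ) : ZMod n) := by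
              rw [← h5, ZMod.natCast_zmod_val]
            push_cast
            linear_combination h6
          · intro h
            have h6 : u - (k : ZMod n) = ((K : ℕ) : ZMod n) := by
              rw [h]; push_cast; ring
            rw [h6, ZMod.val_natCast, Nat.mod_eq_of_lt (by omega)]
            omega
      have hne : (k : ZMod n) ≠ ((k + K : ℤ) : ZMod n) := by
        intro h
        have h1 : ((K : ℤ) : ZMod n) = 0 := by
          push_cast at h ⊢
          linear_combination -h
        rw [← dvd_iff] at h1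
        have := Int.le_of_dvd (by omega) h1
        omega
      have h1 : ∀ u : ZMod n, (if u + u = (l : ZMod n) then
          (if n % 8 = 4 ∧ u.val % 2 = 1 then (-1 / 2 : ℝ) else 1) else 0) =
          (if u = (k : ZMod n) then
            (if n % 8 = 4 ∧ ((k : ZMod n)).val % 2 = 1 then (-1 / 2 : ℝ) else 1) else 0) +
          (if u = ((k + K : ℤ) : ZMod n) then
            (if n % 8 = 4 ∧ (((k + K : ℤ) : ZMod n)).val % 2 = 1 then (-1 / 2 : ℝ) else 1) else 0) := by
        intro u
        by_cases h4 : u = (k : ZMod n)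
        · rw [if_pos ((h3 u).mpr (Or.inl h4)), if_pos h4, h4, if_neg hne, add_zero]
        · by_cases h5 : u = ((k + K : ℤ) : ZMod n)
          · rw [if_pos ((h3 u).mpr (Or.inr h5)), if_neg h4, if_pos h5, zero_add, h5]
          · rw [if_neg (fun h => ((h3 u).mp h).elim h4 h5), if_neg h4, if_neg h5, add_zero]
      simp_rw [h1, Finset.sum_add_distrib, Finset.sum_ite_eq', Finset.mem_univ, if_true]
      have hpar : ∀ a : ℤ, (((a : ZMod n).val : ℕ) : ℤ) % 2 = a % 2 := by
        intro a
        rw [ZMod.val_intCast, hK]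
        push_cast
        exact Int.emod_emod_of_dvd a ⟨K, rfl⟩
      have hp1 := hpar k
      have hp2 := hpar (k + K)
      by_cases h42 : n % 4 = 2
      · rw [if_pos h42, if_pos hl, if_neg (by omega), if_neg (by omega)]
        norm_num
      · have h84 : n % 8 = 4 := by omega
        rw [if_neg h42]
        by_cases hl4 : l % 4 = 0
        · rw [if_pos hl4, if_neg (by omega), if_neg (by omega)]
          norm_num
        · rw [if_neg hl4, if_pos (by omega), if_pos (by omega), if_pos (by omega)]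
          norm_num
    · have h1 : ∀ u : ZMod n, (if u + u = (l : ZMod n) then
          (if n % 8 = 4 ∧ u.val % 2 = 1 then (-1 / 2 : ℝ) else 1) else 0) = 0 := by
        intro u
        rw [if_neg]
        intro h
        have h2 : (n : ℤ) ∣ (u.val : ℤ) + u.val - l := by
          rw [dvd_iff]
          push_cast
          rw [ZMod.natCast_zmod_val, h, sub_self]
        obtain ⟨c, hc⟩ := h2
        have h3 : (n : ℤ) = 2 * K := by rw [hK]; push_cast; ring
        rw [h3] at hc
        have h4 : (2 : ℤ) * K * c = 2 * (K * c) := by ring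
        rw [h4] at hc
        omega
      simp_rw [h1, Finset.sum_const_zero]
      split_ifs <;> first | rfl | omega

open Classical in
lemma sum_s1 (hρ : Rho n ρ) (hn8 : ¬ 8 ∣ n) (m m' : ℤ) (h : ¬ (n : ℤ) ∣ m - m') :
    ∑ b, (if tq n ((m : ZMod n) - b) - tq n ((m' : ZMod n) - b) = 0 then
      v3 ((ρ (zq n ((m : ZMod n) - b)) - ρ (zq n ((m' : ZMod n) - b)) : ℤ) : ZMod 3) else 0) =
      ind n (m - m') := by
  have h1 : ∀ b, (if tq n ((m : ZMod n) - b) - tq n ((m' : ZMod n) - b) = 0 then
      v3 ((ρ (zq n ((m : ZMod n) - b)) - ρ (zq n ((m' : ZMod n) - b)) : ℤ) : ZMod 3) else 0) =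
      (fun u => if u + u = ((m - m' : ℤ) : ZMod n) then
    (if n % 8 = 4 ∧ u.val % 2 = 1 then (-1 / 2 : ℝ) else 1) else 0) ((m : ZMod n) - b) := by
    intro b
    beta_reduce
    have hne : (m : ZMod n) - b ≠ (m' : ZMod n) - b := by
      intro h2
      apply h
      rw [dvd_iff]
      push_cast
      linear_combination h2
    have h3 : tq n ((m : ZMod n) - b) - tq n ((m' : ZMod n) - b) = 0 ↔
        ((m : ZMod n) - b) + ((m : ZMod n) - b) = ((m - m' : ℤ) : ZMod n) := by
      rw [sub_eq_zero, tq_eq_iff]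
      push_cast
      constructor
      · rintro (h2 | h2)
        · exact absurd h2 hne
        · linear_combination h2
      · intro h2
        right
        linear_combination h2
    by_cases h4 : ((m : ZMod n) - b) + ((m : ZMod n) - b) = ((m - m' : ℤ) : ZMod n)
    · rw [if_pos h4, if_pos (h3.mpr h4), ← v3_diff hρ]
      have h5 : (m' : ZMod n) - b = -((m : ZMod n) - b) := by
        push_cast at h4
        linear_combination h4
      rw [h5]
    · rw [if_neg h4, if_neg (fun h => h4 (h3.mp h))]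
  simp_rw [h1]
  have h2 := Equiv.sum_comp (Equiv.subLeft (m : ZMod n)) (fun u => if u + u = ((m - m' : ℤ) : ZMod n) then
    (if n % 8 = 4 ∧ u.val % 2 = 1 then (-1 / 2 : ℝ) else 1) else 0)
  simp only [Equiv.subLeft_apply] at h2
  rw [h2]
  exact count_s1 hn8 (m - m')

/-! ### Values -/

lemma P_of_ne {g : ℕ} (x : SG n g) (i : Fin g) (h : x.2 i ≠ 0) (a b : Fin g) (ha : a ≠ i) (hb : b ≠ i) :
    P n ρ a b x = 0 := P_zero' n ρ a b x i ha.symm hb.symm h

lemma F_zero_of {g : ℕ} (x : SG n g) (h : ∀ a b, a ≠ b → P n ρ a b x = 0) : F n ρ x = 0 := by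
  unfold F
  rw [D_zero h, mul_zero]

lemma card_pos_real : (0 : ℝ) < n := by exact_mod_cast NeZero.pos n

lemma F_star {g : ℕ} (hg : 2 ≤ g) (x : SG n g) (i : Fin g) (hi : x.2 i ≠ 0) (V : ℝ)
    (h : ∀ b, b ≠ i → P n ρ i b x = n * V) : F n ρ x = V := by
  unfold F
  have hg' : (2 : ℝ) ≤ g := by exact_mod_cast hg
  have hn : (0 : ℝ) < n := card_pos_real
  rw [D_star i (V := n * V) (fun a b _ ha hb => P_of_ne x i hi a b ha hb) h
    (fun a ha => by rw [P_symm]; exact h a ha)]
  have h1 : (g : ℝ) - 1 ≠ 0 := by linarith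
  field_simp

lemma F_kill {g : ℕ} (hg : 4 ≤ g) (x : SG n g) (i : Fin g) (h : ∀ k, k ≠ i → x.2 k ≠ 0) :
    F n ρ x = 0 := by
  apply F_zero_of
  intro a b _
  obtain ⟨k, hk⟩ : ∃ k : Fin g, k ∉ ({i, a, b} : Finset (Fin g)) := by
    by_contra hc
    push Not at hc
    have h1 : (Finset.univ : Finset (Fin g)) ⊆ {i, a, b} := fun k _ => hc k
    have h2 := Finset.card_le_card h1
    have h3 : ({i, a, b} : Finset (Fin g)).card ≤ 3 := Finset.card_le_three
    rw [Finset.card_univ, Fintype.card_fin] at h2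
    omega
  simp only [Finset.mem_insert, Finset.mem_singleton, not_or] at hk
  exact P_zero' n ρ a b x k hk.2.1 hk.2.2 (h k hk.1)



theorem vals {g : ℕ} (hg : 2 ≤ g) (hn8 : ¬ 8 ∣ n) (hρ : Rho n ρ) :
    Vals n g (F n ρ) ((g : ℝ) * n / 2) 0 1 (SS n / (((g : ℝ) - 1) * n)) (fun l => -ind n l) := by
  classical
  have hg' : (2 : ℝ) ≤ g := by exact_mod_cast hg
  have hn : (0 : ℝ) < n := card_pos_real
  have hn0 : 0 < n := NeZero.pos n
  have hg1 : (g : ℝ) - 1 ≠ 0 := by linarith
  refine ⟨pd_F n ρ hg, ?_, ?_, ?_, ?_, ?_, ?_, ?_, ?_, ?_, ?_⟩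
  · -- zero
    have h1 : ∀ i j : Fin g, i ≠ j → P n ρ i j 0 = n * n := by
      intro i j _
      rw [P_one n ρ i j 0 rfl (fun _ _ _ => rfl)]
      have h2 : ∀ b : ZMod n, (if (0 : SG n g).1 + tr n (W n b ((0 : SG n g).2 i)) = 0 then
          v3 ((ρ (W n b ((0 : SG n g).2 i)) : ℤ) : ZMod 3) else 0) = 1 := by
        intro b
        simp only [Prod.fst_zero, Prod.snd_zero, Pi.zero_apply, map_zero, add_zero, if_true, Int.cast_zero]
        unfold v3
        simp
      simp_rw [h2]
      simp
    unfold F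
    rw [D_const h1]
    field_simp
  · -- rr
    intro m m' h1 h2 h3 h4
    rw [neg_zero]
    apply F_zero_of
    intro a b _
    apply P_zero
    intro c c'
    simp only [rv, Prod.fst_sub, Prod.snd_sub, sub_zero, Pi.zero_apply, map_zero, add_zero]
    rw [sub_ne_zero, Ne, tt_eq_iff n hn0]
    tauto
  · -- rs
    intro m i m' h1
    apply F_star hg _ i
    · simp only [rv, sv, Prod.snd_sub, Pi.sub_apply, Pi.zero_apply, Pi.single_eq_same, zero_sub]
      exact neg_ne_zero.mpr (z_ne_zero n m')
    · intro b hb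
      rw [P_one n ρ i b]
      · have hm : (m : ZMod n) ≠ -(m : ZMod n) := by
          intro h2
          apply h1
          rw [dvd_iff]
          push_cast
          linear_combination h2
        have h2 := sum_rs hρ (m : ZMod n) (m' : ZMod n) hm
        rw [← h2]
        congr 1
        apply Finset.sum_congr rfl
        intro c _
        simp only [rv, sv, Prod.fst_sub, Prod.snd_sub, Pi.sub_apply, Pi.zero_apply, Pi.single_eq_same,
          zero_sub, sub_zero, map_neg, W_z, tr_zq, tt_eq_tq, ← sub_eq_add_neg]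
      · simp only [rv, sv, Prod.snd_sub, Pi.sub_apply, Pi.zero_apply, Pi.single_eq_of_ne hb, sub_zero]
      · intro k hk _
        simp only [rv, sv, Prod.snd_sub, Pi.sub_apply, Pi.zero_apply, Pi.single_eq_of_ne hk, sub_zero]
  · -- ss
    intro i j hij m m'
    have hP : P n ρ i j (sv n g i m - sv n g j m') = -SS n := by
      rw [← sum_ss hρ hn8 (m : ZMod n) (m' : ZMod n)]
      unfold P
      apply Finset.sum_congr rfl
      intro b _
      apply Finset.sum_congr rfl
      intro b' _
      rw [T_val]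
      · simp only [sv, Prod.fst_sub, Prod.snd_sub, Pi.sub_apply, Pi.single_eq_same, Pi.single_eq_of_ne hij,
          Pi.single_eq_of_ne hij.symm, sub_zero, zero_sub, zero_add, map_neg, W_z, tr_zq, ← sub_eq_add_neg,
          sub_neg_eq_add]
      · intro k h1 h2
        simp only [sv, Prod.snd_sub, Pi.sub_apply, Pi.single_eq_of_ne h1, Pi.single_eq_of_ne h2, sub_zero]
    have hxi : (sv n g i m - sv n g j m').2 i ≠ 0 := by
      simp only [sv, Prod.snd_sub, Pi.sub_apply, Pi.single_eq_same, Pi.single_eq_of_ne hij, sub_zero]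
      exact z_ne_zero n m
    have hxj : (sv n g i m - sv n g j m').2 j ≠ 0 := by
      simp only [sv, Prod.snd_sub, Pi.sub_apply, Pi.single_eq_same, Pi.single_eq_of_ne hij.symm, zero_sub]
      exact neg_ne_zero.mpr (z_ne_zero n m')
    unfold F
    rw [D_pair i j hij, P_symm n ρ j i, hP]
    · field_simp
      ring
    · intro a b hab h1 h2
      by_cases hi : i = a ∨ i = b
      · have hj : ¬ (j = a ∨ j = b) := by
          rintro (h3 | h3) <;> rcases hi with h4 | h4
          · exact hij (h4.trans h3.symm)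
          · exact h2 ⟨h3.symm, h4.symm⟩
          · exact h1 ⟨h4.symm, h3.symm⟩
          · exact hij (h4.trans h3.symm)
        push Not at hj
        exact P_zero' n ρ a b _ j hj.1 hj.2 hxj
      · push Not at hi
        exact P_zero' n ρ a b _ i hi.1 hi.2 hxi
  · -- s1
    intro i m m' h1
    rw [neg_neg]
    apply F_star hg _ i
    · simp only [sv, Prod.snd_sub, Pi.sub_apply, Pi.single_eq_same]
      rw [sub_ne_zero, Ne, z_eq_iff n hn0]
      exact h1
    · intro b hb
      rw [P_one n ρ i b]
      · rw [← sum_s1 hρ hn8 m m' h1]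
        congr 1
        apply Finset.sum_congr rfl
        intro c _
        simp only [sv, Prod.fst_sub, Prod.snd_sub, Pi.sub_apply, Pi.single_eq_same,
          sub_zero, zero_add, map_sub, W_z, tr_zq]
      · simp only [sv, Prod.snd_sub, Pi.sub_apply, Pi.single_eq_of_ne hb, sub_zero]
      · intro k hk _
        simp only [sv, Prod.snd_sub, Pi.sub_apply, Pi.single_eq_of_ne hk, sub_zero]
  · -- orr
    intro ho m m' h1 h2
    apply F_zero_of
    intro a b _
    apply P_zero
    intro c c'
    simp only [rv, Prod.fst_add, Prod.snd_add, add_zero, Pi.zero_apply, map_zero]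
    exact tt_add_ne_zero n ho m m'
  · -- ors
    intro ho m i m' h1
    apply F_zero_of
    intro a b hab
    by_cases hi : i = a ∨ i = b
    · apply P_zero
      intro c c'
      rcases hi with rfl | rfl
      · simp only [rv, sv, Prod.fst_add, Prod.snd_add, Pi.add_apply, Pi.zero_apply, Pi.single_eq_same,
          Pi.single_eq_of_ne hab.symm, zero_add, add_zero, map_zero, W_z, tr_zq]
        unfold tq
        exact tt_add_ne_zero n ho _ _
      · simp only [rv, sv, Prod.fst_add, Prod.snd_add, Pi.add_apply, Pi.zero_apply, Pi.single_eq_same,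
          Pi.single_eq_of_ne hab, zero_add, add_zero, map_zero, W_z, tr_zq]
        unfold tq
        exact tt_add_ne_zero n ho _ _
    · push Not at hi
      apply P_zero' n ρ a b _ i hi.1 hi.2
      simp only [rv, sv, Prod.snd_add, Pi.add_apply, Pi.zero_apply, Pi.single_eq_same, zero_add]
      exact z_ne_zero n m'
  · -- oss
    intro ho i j m m'
    apply F_zero_of
    intro a b hab
    by_cases hij : i = j
    · subst hij
      by_cases hi : i = a ∨ i = b
      · apply P_zero
        intro c c'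
        rcases hi with rfl | rfl
        · simp only [sv, Prod.fst_add, Prod.snd_add, Pi.add_apply, Pi.single_eq_same,
            Pi.single_eq_of_ne hab.symm, zero_add, add_zero, map_zero, map_add, W_z, tr_zq]
          unfold tq
          exact tt_add_ne_zero n ho _ _
        · simp only [sv, Prod.fst_add, Prod.snd_add, Pi.add_apply, Pi.single_eq_same,
            Pi.single_eq_of_ne hab, zero_add, add_zero, map_zero, map_add, W_z, tr_zq]
          unfold tq
          exact tt_add_ne_zero n ho _ _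
      · push Not at hi
        apply P_zero' n ρ a b _ i hi.1 hi.2
        simp only [sv, Prod.snd_add, Pi.add_apply, Pi.single_eq_same]
        exact z_add_ne_zero n ho m m'
    · by_cases hi : i = a ∨ i = b
      · by_cases hj : j = a ∨ j = b
        · apply P_zero
          intro c c'
          rcases hi with rfl | rfl <;> rcases hj with h3 | h3
          · exact absurd h3.symm hij
          · subst h3
            simp only [sv, Prod.fst_add, Prod.snd_add, Pi.add_apply, Pi.single_eq_same,
              Pi.single_eq_of_ne hij, Pi.single_eq_of_ne hab.symm, zero_add, add_zero, W_z, tr_zq]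
            unfold tq
            exact tt_add_ne_zero n ho _ _
          · subst h3
            simp only [sv, Prod.fst_add, Prod.snd_add, Pi.add_apply, Pi.single_eq_same,
              Pi.single_eq_of_ne hij, Pi.single_eq_of_ne hab, zero_add, add_zero, W_z, tr_zq]
            unfold tq
            exact tt_add_ne_zero n ho _ _
          · exact absurd h3.symm hij
        · push Not at hj
          apply P_zero' n ρ a b _ j hj.1 hj.2
          simp only [sv, Prod.snd_add, Pi.add_apply, Pi.single_eq_same,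
            Pi.single_eq_of_ne (Ne.symm hij), zero_add]
          exact z_ne_zero n m'
      · push Not at hi
        apply P_zero' n ρ a b _ i hi.1 hi.2
        simp only [sv, Prod.snd_add, Pi.add_apply, Pi.single_eq_same,
          Pi.single_eq_of_ne hij, add_zero]
        exact z_ne_zero n m
  · -- er
    intro he m h1
    apply F_zero_of
    intro a b _
    apply P_zero
    intro c c'
    simp only [rv, Pi.zero_apply, map_zero, add_zero]
    exact tt_ne_zero n (by omega) m
  · -- es
    intro he i m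
    apply F_zero_of
    intro a b hab
    by_cases hi : i = a ∨ i = b
    · apply P_zero
      intro c c'
      rcases hi with rfl | rfl
      · simp only [sv, Pi.single_eq_same, Pi.single_eq_of_ne hab.symm, zero_add, add_zero, map_zero,
          W_z, tr_zq]
        unfold tq
        exact tt_ne_zero n (by omega) _
      · simp only [sv, Pi.single_eq_same, Pi.single_eq_of_ne hab, zero_add, add_zero, map_zero,
          W_z, tr_zq]
        unfold tq
        exact tt_ne_zero n (by omega) _
    · push Not at hi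
      apply P_zero' n ρ a b _ i hi.1 hi.2
      simp only [sv, Pi.single_eq_same]
      exact z_ne_zero n m

theorem kill {g : ℕ} (hg : 4 ≤ g) : Kill n g (F n ρ) := by
  have hn0 : 0 < n := NeZero.pos n
  have i0 : Fin g := ⟨0, by omega⟩
  refine ⟨?_, ?_, ?_, ?_, ?_, ?_, ?_⟩
  · intro m m' _ _
    apply F_kill hg _ i0
    intro k _
    simp only [dl, rv, Prod.snd_sub, Pi.sub_apply, Pi.zero_apply, sub_zero]
    exact neg_ne_zero.mpr (z_ne_zero n m)
  · intro m i m' _
    apply F_kill hg _ i
    intro k hk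
    simp only [dl, sv, Prod.snd_sub, Pi.sub_apply, Pi.single_eq_of_ne hk, sub_zero]
    exact neg_ne_zero.mpr (z_ne_zero n m)
  · intro m m' h _
    apply F_kill hg _ i0
    intro k _
    simp only [dl]
    rw [neg_ne_zero, sub_ne_zero, Ne, z_eq_iff n hn0]
    exact h
  · intro ho m m' _ _
    apply F_kill hg _ i0
    intro k _
    simp only [dl, rv, Prod.snd_add, Pi.add_apply, Pi.zero_apply, add_zero]
    exact neg_ne_zero.mpr (z_ne_zero n m)
  · intro ho m i m' _
    apply F_kill hg _ i
    intro k hk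
    simp only [dl, sv, Prod.snd_add, Pi.add_apply, Pi.single_eq_of_ne hk, add_zero]
    exact neg_ne_zero.mpr (z_ne_zero n m)
  · intro ho m m' _
    apply F_kill hg _ i0
    intro k _
    simp only [dl]
    exact neg_ne_zero.mpr (z_add_ne_zero n ho m m')
  · intro he m _
    apply F_kill hg _ i0
    intro k _
    simp only [dl]
    exact neg_ne_zero.mpr (z_ne_zero n m)

end C2

theorem c2 (h : S_RHO) : S_C2 := by
  intro n g hn hn8 hg
  have : NeZero n := ⟨hn.ne'⟩
  obtain ⟨ρ, hρ⟩ := h n hn hn8
  exact ⟨C2.F n ρ, C2.vals hg hn8 hρ, fun h4 => C2.kill h4⟩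

end PathMix2
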