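import Pool.Agent.PathMix2.Stmts
set_option autoImplicit false

/-! The two reductions `S_CASE1`, `S_CASE2` (MP_261efc_co). -/

open Finset

namespace PathMix2

lemma odd_of_mul (p n h : ℕ) (hp : p = 2 * h + 1) : (p * n) % 2 = 1 → n % 2 = 1 := by
  intro h1
  rw [Nat.mul_mod] at h1
  have : p % 2 = 1 := by omega
  rw [this, one_mul, Nat.mod_mod] at h1
  exact h1

lemma two_of_mul (p n h : ℕ) (hp : p = 2 * h + 1) : (p * n) % 4 = 2 → n % 4 = 2 := by
  intro h1
  rw [Nat.mul_mod] at h1
  have h2 : p % 4 = 1 ∨ p % 4 = 3 := by omega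
  have h3 : n % 4 < 4 := Nat.mod_lt _ (by norm_num)
  rcases h2 with h2 | h2 <;> rw [h2] at h1 <;> omega

lemma psi_ne {N : ℕ} (hN : 0 < N) {T : Type*} [AddCommGroup T] (Ψ : A N →+ T)
    (h2 : ∀ m m', Ψ (tt N m) = Ψ (tt N m') → tt N m = tt N m') (m m' : ℤ)
    (h3 : ¬ (N : ℤ) ∣ m - m') (h4 : ¬ (N : ℤ) ∣ m + m') : Ψ (tt N m) ≠ Ψ (tt N m') := by
  intro h5
  have := (tt_eq_iff _ hN m m').mp (h2 m m' h5)
  tauto

theorem case1 (h : S_PSI1) : S_CASE1 := by
  intro p n hh F w hp hph hn hpn hF
  obtain ⟨Ψ, h1, h2⟩ := h p n hh hp hph hn hpn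
  have hN : 0 < p * n := Nat.mul_pos hp.pos hn
  refine ⟨fun x => F (Ψ x), hF.pd.comp Ψ, by simp [hF.zero], ?_, ?_, ?_⟩
  · intro m m' hm hm' h3 h4
    have hne := psi_ne hN Ψ h2 m m' h3 h4
    beta_reduce
    rw [map_sub]
    rcases h1 m hm with ⟨a, ha, e⟩ | ⟨i, a, e⟩ <;> rcases h1 m' hm' with ⟨b, hb, e'⟩ | ⟨j, b, e'⟩ <;>
      rw [e, e'] at hne ⊢
    · refine hF.rr a b ha hb ?_ ?_
      · intro hd
        exact hne (by rw [rv, rv, (tt_eq_iff n hn a b).mpr (Or.inl hd)])
      · intro hd
        exact hne (by rw [rv, rv, (tt_eq_iff n hn a b).mpr (Or.inr hd)])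
    · exact hF.rs a j b ha
    · rw [← neg_sub, hF.pd.even]
      exact hF.rs b i a hb
    · by_cases hij : i = j
      · subst hij
        refine hF.s1 i a b ?_
        intro hd
        exact hne (by rw [sv, sv, (z_eq_iff n hn a b).mpr hd])
      · exact hF.ss i j hij a b
  · intro ho m m' hm hm'
    have hno := odd_of_mul p n hh hph ho
    beta_reduce
    rw [map_add]
    rcases h1 m hm with ⟨a, ha, e⟩ | ⟨i, a, e⟩ <;> rcases h1 m' hm' with ⟨b, hb, e'⟩ | ⟨j, b, e'⟩ <;>
      rw [e, e']
    · exact hF.orr hno a b ha hb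
    · exact hF.ors hno a j b ha
    · rw [add_comm]
      exact hF.ors hno b i a hb
    · exact hF.oss hno i j a b
  · intro he m hm
    have hne := two_of_mul p n hh hph he
    beta_reduce
    rcases h1 m hm with ⟨a, ha, e⟩ | ⟨i, a, e⟩ <;> rw [e]
    · exact hF.er hne a ha
    · exact hF.es hne i a

/-! ### Case II -/

/-- the change of coordinates that makes the slice `k` the exceptional one -/
noncomputable def ph (n g : ℕ) (k : Fin (g + 1)) : (Fin (g + 1) → A n) →+ SG n g where
  toFun v := (-v k, fun j => v (k.succAbove j) - v k)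
  map_zero' := by
    ext j
    · simp
    · simp
  map_add' v v' := by
    apply Prod.ext
    · simp only [Pi.add_apply, Prod.mk_add_mk]
      abel
    · funext j
      simp only [Pi.add_apply, Prod.mk_add_mk]
      abel

lemma ph_apply (n g : ℕ) (k : Fin (g + 1)) (v : Fin (g + 1) → A n) :
    ph n g k v = (-v k, fun j => v (k.succAbove j) - v k) := rfl

lemma ph_const (n g : ℕ) (k : Fin (g + 1)) (a : ℤ) : ph n g k (fun _ => -tt n a) = rv n g a := by
  rw [ph_apply, rv]
  apply Prod.ext
  · simp
  · funext j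
    simp

lemma ph_single_self (n g : ℕ) (k : Fin (g + 1)) (a : ℤ) :
    ph n g k (Pi.single k (z n a)) = dl n g (z n a) := by
  rw [ph_apply, dl]
  apply Prod.ext
  · simp
  · funext j
    simp [Fin.succAbove_ne]

lemma ph_single_ne (n g : ℕ) (k i : Fin (g + 1)) (i' : Fin g) (h : k.succAbove i' = i) (a : ℤ) :
    ph n g k (Pi.single i (z n a)) = sv n g i' a := by
  subst h
  rw [ph_apply, sv]
  apply Prod.ext
  · simp [(Fin.succAbove_ne k i').symm]
  · funext j
    simp only [Pi.single_eq_of_ne (Fin.succAbove_ne k i').symm, sub_zero]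
    by_cases hj : j = i'
    · subst hj
      simp
    · rw [Pi.single_eq_of_ne hj, Pi.single_eq_of_ne]
      exact fun h => hj (Fin.succAbove_right_injective h)

open Classical in
/-- the averaged function -/
noncomputable def Ft (n g : ℕ) (F : SG n g → ℝ) (v : Fin (g + 1) → A n) : ℝ :=
  1 / ((g : ℝ) + 1) * ∑ k, (if sk n (v k) = 0 then (1 : ℝ) else 0) * F (ph n g k v)

lemma Ft_pd (n g : ℕ) (F : SG n g → ℝ) (hF : PD F) : PD (Ft n g F) := by
  classical
  have h : PD (fun v : Fin (g + 1) → A n =>
      ∑ k, (if sk n (v k) = 0 then (1 : ℝ) else 0) * F (ph n g k v)) := by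
    refine PD.sum univ _ (fun k _ => ?_)
    refine PD.mul ?_ (hF.comp (ph n g k))
    exact PD.ind ((sk n).comp (Pi.evalAddMonoidHom (fun _ => A n) k))
  refine (h.smul (1 / ((g : ℝ) + 1)) (by positivity)).congr ?_
  intro v
  unfold Ft
  congr 1

lemma Ft_zero (n g : ℕ) (F : SG n g → ℝ) : Ft n g F 0 = F 0 := by
  unfold Ft
  simp only [Pi.zero_apply, map_zero, if_true, one_mul, Finset.sum_const, Finset.card_univ,
    Fintype.card_fin, nsmul_eq_mul]
  have : (g : ℝ) + 1 ≠ 0 := by positivity
  push_cast
  field_simp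

/-- all `k` alike -/
lemma Ft_all (n g : ℕ) (F : SG n g → ℝ) (v : Fin (g + 1) → A n) (c : ℝ)
    (h : ∀ k, sk n (v k) = 0 ∧ F (ph n g k v) = c) : Ft n g F v = c := by
  unfold Ft
  have h1 : ∀ k, (if sk n (v k) = 0 then (1 : ℝ) else 0) * F (ph n g k v) = c := by
    intro k
    rw [if_pos (h k).1, (h k).2, one_mul]
  rw [Finset.sum_congr rfl fun k _ => h1 k]
  simp only [Finset.sum_const, Finset.card_univ, Fintype.card_fin, nsmul_eq_mul]
  have : (g : ℝ) + 1 ≠ 0 := by positivity
  push_cast
  field_simp

/-- one exceptional `k` -/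
lemma Ft_one (n g : ℕ) (F : SG n g → ℝ) (v : Fin (g + 1) → A n) (c : ℝ) (i : Fin (g + 1))
    (h : ∀ k, k ≠ i → sk n (v k) = 0 ∧ F (ph n g k v) = c)
    (h' : sk n (v i) = 0 → F (ph n g i v) = 0) :
    Ft n g F v = g / ((g : ℝ) + 1) * c := by
  unfold Ft
  have h1 : ∀ k, (if sk n (v k) = 0 then (1 : ℝ) else 0) * F (ph n g k v) =
      c - (if k = i then c else 0) := by
    intro k
    by_cases hk : k = i
    · subst hk
      rw [if_pos rfl, sub_self]
      split_ifs with h2
      · rw [h' h2, mul_zero]
      · rw [zero_mul]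
    · rw [if_pos (h k hk).1, (h k hk).2, one_mul, if_neg hk, sub_zero]
  rw [Finset.sum_congr rfl fun k _ => h1 k, Finset.sum_sub_distrib, Finset.sum_ite_eq' univ i]
  simp only [Finset.mem_univ, if_true, Finset.sum_const, Finset.card_univ, Fintype.card_fin,
    nsmul_eq_mul]
  have : (g : ℝ) + 1 ≠ 0 := by positivity
  push_cast
  field_simp
  ring

/-- two exceptional `k` -/
lemma Ft_two (n g : ℕ) (F : SG n g → ℝ) (v : Fin (g + 1) → A n) (c : ℝ) (i j : Fin (g + 1))
    (hij : i ≠ j) (h : ∀ k, k ≠ i → k ≠ j → sk n (v k) = 0 ∧ F (ph n g k v) = c)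
    (h' : sk n (v i) = 0 → F (ph n g i v) = 0) (h'' : sk n (v j) = 0 → F (ph n g j v) = 0) :
    Ft n g F v = ((g : ℝ) - 1) / ((g : ℝ) + 1) * c := by
  unfold Ft
  have h1 : ∀ k, (if sk n (v k) = 0 then (1 : ℝ) else 0) * F (ph n g k v) =
      c - (if k = i then c else 0) - (if k = j then c else 0) := by
    intro k
    by_cases hk : k = i
    · subst hk
      rw [if_pos rfl, if_neg hij, sub_self, sub_zero]
      split_ifs with h2
      · rw [h' h2, mul_zero]
      · rw [zero_mul]
    · by_cases hk' : k = j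
      · subst hk'
        rw [if_pos rfl, if_neg hk, sub_zero, sub_self]
        split_ifs with h2
        · rw [h'' h2, mul_zero]
        · rw [zero_mul]
      · rw [if_pos (h k hk hk').1, (h k hk hk').2, one_mul, if_neg hk, if_neg hk', sub_zero,
          sub_zero]
  rw [Finset.sum_congr rfl fun k _ => h1 k, Finset.sum_sub_distrib, Finset.sum_sub_distrib,
    Finset.sum_ite_eq' univ i, Finset.sum_ite_eq' univ j]
  simp only [Finset.mem_univ, if_true, Finset.sum_const, Finset.card_univ, Fintype.card_fin,
    nsmul_eq_mul]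
  have : (g : ℝ) + 1 ≠ 0 := by positivity
  push_cast
  field_simp
  ring

lemma sk_tt (n : ℕ) (a : ℤ) : sk n (tt n a) = 0 := (sk_eq_zero_iff n _).mpr (tt_im n a)

lemma dl_add (n g : ℕ) (x y : A n) : dl n g (x + y) = dl n g x + dl n g y := by
  rw [dl, dl, dl]
  apply Prod.ext
  · simp only [Prod.mk_add_mk]
    abel
  · funext j
    simp only [Prod.mk_add_mk, Pi.add_apply]
    abel

lemma dl_sub (n g : ℕ) (x y : A n) : dl n g (x - y) = dl n g x - dl n g y := by
  rw [dl, dl, dl]
  apply Prod.ext
  · simp only [Prod.mk_sub_mk]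
    abel
  · funext j
    simp only [Prod.mk_sub_mk, Pi.sub_apply]
    abel

theorem case2 (h : S_PSI2) : S_CASE2 := by
  intro p n g F w hp hpg hg hn hpn hF hK
  obtain ⟨Ψ, h1, h2⟩ := h p n (g + 1) hp (by omega) (by omega) hn hpn
  have hN : 0 < p * n := Nat.mul_pos hp.pos hn
  have hg0 : (g : ℝ) ≠ 0 := by
    have : 0 < g := by omega
    positivity
  have hg1 : (g : ℝ) - 1 ≠ 0 := by
    have : (2 : ℝ) ≤ g := by exact_mod_cast hg
    intro h
    linarith
  have hg2 : (g : ℝ) + 1 ≠ 0 := by positivity
  have hz : ∀ b, sk n (z n b) = 0 → (n : ℤ) ∣ 2 * b := by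
    intro b hb
    exact (z_real_iff n hn b).mp ((sk_eq_zero_iff n _).mp hb)
  refine ⟨fun x => Ft n g F (Ψ x), (Ft_pd n g F hF.pd).comp Ψ, ?_, ?_, ?_, ?_⟩
  · beta_reduce
    rw [map_zero, Ft_zero, hF.zero]
  · intro m m' hm hm' h3 h4
    have hne := psi_ne hN Ψ h2 m m' h3 h4
    beta_reduce
    rw [map_sub]
    rcases h1 m hm with ⟨a, ha, e⟩ | ⟨i, a, e⟩ <;> rcases h1 m' hm' with ⟨b, hb, e'⟩ | ⟨j, b, e'⟩ <;>
      rw [e, e'] at hne ⊢
    · refine Ft_all n g F _ (-1) fun k => ⟨?_, ?_⟩
      · simp only [Pi.sub_apply, map_sub, map_neg, sk_tt, neg_zero, sub_zero]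
      · rw [map_sub, ph_const, ph_const]
        refine hF.rr a b ha hb ?_ ?_
        · intro hd
          exact hne (by rw [(tt_eq_iff n hn a b).mpr (Or.inl hd)])
        · intro hd
          exact hne (by rw [(tt_eq_iff n hn a b).mpr (Or.inr hd)])
    · rw [Ft_one n g F _ (-(((g : ℝ) + 1) / g)) j]
      · field_simp
      · intro k hk
        obtain ⟨j', hj'⟩ := Fin.exists_succAbove_eq hk.symm
        refine ⟨?_, ?_⟩
        · simp only [Pi.sub_apply, Pi.single_eq_of_ne hk, map_sub, map_neg, sk_tt, neg_zero,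
            map_zero, sub_zero]
        · rw [map_sub, ph_const, ph_single_ne n g k j j' hj']
          exact hF.rs a j' b ha
      · intro hs
        simp only [Pi.sub_apply, Pi.single_eq_same, map_sub, map_neg, sk_tt, neg_zero, zero_sub,
          neg_eq_zero] at hs
        rw [map_sub, ph_const, ph_single_self, ← neg_sub, hF.pd.even]
        exact hK.kr b a ha (hz b hs)
    · rw [Ft_one n g F _ (-(((g : ℝ) + 1) / g)) i]
      · field_simp
      · intro k hk
        obtain ⟨i', hi'⟩ := Fin.exists_succAbove_eq hk.symm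
        refine ⟨?_, ?_⟩
        · simp only [Pi.sub_apply, Pi.single_eq_of_ne hk, map_sub, map_neg, sk_tt, neg_zero,
            map_zero, sub_zero]
        · rw [map_sub, ph_const, ph_single_ne n g k i i' hi', ← neg_sub, hF.pd.even]
          exact hF.rs b i' a hb
      · intro hs
        simp only [Pi.sub_apply, Pi.single_eq_same, map_sub, map_neg, sk_tt, neg_zero,
          sub_zero] at hs
        rw [map_sub, ph_const, ph_single_self]
        exact hK.kr a b hb (hz a hs)
    · by_cases hij : i = j
      · subst hij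
        have hab : ¬ (n : ℤ) ∣ a - b := by
          intro hd
          exact hne (by rw [(z_eq_iff n hn a b).mpr hd])
        rw [Ft_one n g F _ (-(((g : ℝ) + 1) / g)) i]
        · field_simp
        · intro k hk
          obtain ⟨i', hi'⟩ := Fin.exists_succAbove_eq hk.symm
          refine ⟨?_, ?_⟩
          · simp only [Pi.sub_apply, Pi.single_eq_of_ne hk, map_sub, map_zero, sub_zero]
          · rw [map_sub, ph_single_ne n g k i i' hi', ph_single_ne n g k i i' hi']
            exact hF.s1 i' a b hab
        · intro hs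
          simp only [Pi.sub_apply, Pi.single_eq_same] at hs
          rw [map_sub, ph_single_self, ph_single_self, ← dl_sub]
          exact hK.kk a b hab ((sk_eq_zero_iff n _).mp hs)
      · rw [Ft_two n g F _ (-(((g : ℝ) + 1) / (g - 1))) i j hij]
        · field_simp
        · intro k hk hk'
          obtain ⟨i', hi'⟩ := Fin.exists_succAbove_eq hk.symm
          obtain ⟨j', hj'⟩ := Fin.exists_succAbove_eq hk'.symm
          refine ⟨?_, ?_⟩
          · simp only [Pi.sub_apply, Pi.single_eq_of_ne hk, Pi.single_eq_of_ne hk', map_sub,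
              map_zero, sub_zero]
          · rw [map_sub, ph_single_ne n g k i i' hi', ph_single_ne n g k j j' hj']
            refine hF.ss i' j' ?_ a b
            rintro rfl
            exact hij (hi'.symm.trans hj')
        · intro hs
          obtain ⟨j', hj'⟩ := Fin.exists_succAbove_eq (Ne.symm hij)
          simp only [Pi.sub_apply, Pi.single_eq_same, Pi.single_eq_of_ne hij, sub_zero] at hs
          rw [map_sub, ph_single_self, ph_single_ne n g i j j' hj']
          exact hK.ks a j' b (hz a hs)
        · intro hs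
          obtain ⟨i', hi'⟩ := Fin.exists_succAbove_eq hij
          simp only [Pi.sub_apply, Pi.single_eq_same, Pi.single_eq_of_ne (Ne.symm hij), zero_sub,
            map_neg, neg_eq_zero] at hs
          rw [map_sub, ph_single_self, ph_single_ne n g j i i' hi', ← neg_sub, hF.pd.even]
          exact hK.ks b i' a (hz b hs)
  · intro ho m m' hm hm'
    have hno := odd_of_mul p n (g + 1) (by omega) ho
    beta_reduce
    rw [map_add]
    rcases h1 m hm with ⟨a, ha, e⟩ | ⟨i, a, e⟩ <;> rcases h1 m' hm' with ⟨b, hb, e'⟩ | ⟨j, b, e'⟩ <;>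
      rw [e, e']
    · refine Ft_all n g F _ 0 fun k => ⟨?_, ?_⟩
      · simp only [Pi.add_apply, map_add, map_neg, sk_tt, neg_zero, add_zero]
      · rw [map_add, ph_const, ph_const]
        exact hF.orr hno a b ha hb
    · rw [Ft_one n g F _ 0 j, mul_zero]
      · intro k hk
        obtain ⟨j', hj'⟩ := Fin.exists_succAbove_eq hk.symm
        refine ⟨?_, ?_⟩
        · simp only [Pi.add_apply, Pi.single_eq_of_ne hk, map_add, map_neg, sk_tt, neg_zero,
            map_zero, add_zero]
        · rw [map_add, ph_const, ph_single_ne n g k j j' hj']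
          exact hF.ors hno a j' b ha
      · intro hs
        simp only [Pi.add_apply, Pi.single_eq_same, map_add, map_neg, sk_tt, neg_zero,
          zero_add] at hs
        rw [map_add, ph_const, ph_single_self, add_comm]
        exact hK.okr hno b a ha (hz b hs)
    · rw [Ft_one n g F _ 0 i, mul_zero]
      · intro k hk
        obtain ⟨i', hi'⟩ := Fin.exists_succAbove_eq hk.symm
        refine ⟨?_, ?_⟩
        · simp only [Pi.add_apply, Pi.single_eq_of_ne hk, map_add, map_neg, sk_tt, neg_zero,
            map_zero, add_zero]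
        · rw [map_add, ph_const, ph_single_ne n g k i i' hi', add_comm]
          exact hF.ors hno b i' a hb
      · intro hs
        simp only [Pi.add_apply, Pi.single_eq_same, map_add, map_neg, sk_tt, neg_zero,
          add_zero] at hs
        rw [map_add, ph_const, ph_single_self]
        exact hK.okr hno a b hb (hz a hs)
    · by_cases hij : i = j
      · subst hij
        rw [Ft_one n g F _ 0 i, mul_zero]
        · intro k hk
          obtain ⟨i', hi'⟩ := Fin.exists_succAbove_eq hk.symm
          refine ⟨?_, ?_⟩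
          · simp only [Pi.add_apply, Pi.single_eq_of_ne hk, map_add, map_zero, add_zero]
          · rw [map_add, ph_single_ne n g k i i' hi', ph_single_ne n g k i i' hi']
            exact hF.oss hno i' i' a b
        · intro hs
          simp only [Pi.add_apply, Pi.single_eq_same] at hs
          rw [map_add, ph_single_self, ph_single_self, ← dl_add]
          exact hK.okk hno a b ((sk_eq_zero_iff n _).mp hs)
      · rw [Ft_two n g F _ 0 i j hij, mul_zero]
        · intro k hk hk'
          obtain ⟨i', hi'⟩ := Fin.exists_succAbove_eq hk.symm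
          obtain ⟨j', hj'⟩ := Fin.exists_succAbove_eq hk'.symm
          refine ⟨?_, ?_⟩
          · simp only [Pi.add_apply, Pi.single_eq_of_ne hk, Pi.single_eq_of_ne hk', map_add,
              map_zero, add_zero]
          · rw [map_add, ph_single_ne n g k i i' hi', ph_single_ne n g k j j' hj']
            exact hF.oss hno i' j' a b
        · intro hs
          obtain ⟨j', hj'⟩ := Fin.exists_succAbove_eq (Ne.symm hij)
          simp only [Pi.add_apply, Pi.single_eq_same, Pi.single_eq_of_ne hij, add_zero] at hs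
          rw [map_add, ph_single_self, ph_single_ne n g i j j' hj']
          exact hK.oks hno a j' b (hz a hs)
        · intro hs
          obtain ⟨i', hi'⟩ := Fin.exists_succAbove_eq hij
          simp only [Pi.add_apply, Pi.single_eq_same, Pi.single_eq_of_ne (Ne.symm hij),
            zero_add] at hs
          rw [map_add, ph_single_self, ph_single_ne n g j i i' hi', add_comm]
          exact hK.oks hno b i' a (hz b hs)
  · intro he m hm
    have hne := two_of_mul p n (g + 1) (by omega) he
    beta_reduce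
    rcases h1 m hm with ⟨a, ha, e⟩ | ⟨i, a, e⟩ <;> rw [e]
    · refine Ft_all n g F _ 0 fun k => ⟨?_, ?_⟩
      · simp only [map_neg, sk_tt, neg_zero]
      · rw [ph_const]
        exact hF.er hne a ha
    · rw [Ft_one n g F _ 0 i, mul_zero]
      · intro k hk
        obtain ⟨i', hi'⟩ := Fin.exists_succAbove_eq hk.symm
        refine ⟨?_, ?_⟩
        · simp only [Pi.single_eq_of_ne hk, map_zero]
        · rw [ph_single_ne n g k i i' hi']
          exact hF.es hne i' a
      · intro hs
        rw [Pi.single_eq_same] at hs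
        rw [ph_single_self]
        exact hK.ek hne a (hz a hs)

end PathMix2
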