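import Pool.Agent.PathMix2.Stmts
set_option autoImplicit false

/-! The functions on a slice that are built from the uniform functions (MP_261efc_co). -/

open Finset

namespace PathMix2

/-- a sum over `range M` of a two-valued function with exactly one exceptional argument -/
lemma sum_one_exc {M : ℕ} (c : ℝ) (p : ℕ → Prop) [DecidablePred p] {t0 : ℕ} (ht : t0 < M)
    (h : ∀ t < M, p t ↔ t = t0) :
    ∑ t ∈ range M, (if p t then (1 : ℝ) else c) = 1 + ((M : ℝ) - 1) * c := by
  have h1 : ∀ t ∈ range M, (if p t then (1 : ℝ) else c) = c + (if t = t0 then 1 - c else 0) := by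
    intro t ht
    have := h t (mem_range.mp ht)
    by_cases hp : p t
    · rw [if_pos hp, if_pos (this.mp hp)]; ring
    · rw [if_neg hp, if_neg (fun e => hp (this.mpr e))]; ring
  rw [Finset.sum_congr rfl h1, Finset.sum_add_distrib, Finset.sum_ite_eq' (range M) t0,
    if_pos (mem_range.mpr ht), Finset.sum_const, card_range, nsmul_eq_mul]
  ring

lemma int_eq_of_dvd_sub {M a b : ℕ} (ha : a < M) (hb : b < M) (h : (M : ℤ) ∣ (a : ℤ) - b) :
    a = b := by
  obtain ⟨k, hk⟩ := h
  have h1 : k = 0 := by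
    by_contra hne
    rcases lt_or_gt_of_ne hne with h | h
    · have : (M : ℤ) * k ≤ (M : ℤ) * (-1) := mul_le_mul_of_nonneg_left (by omega) (by omega)
      omega
    · have : (M : ℤ) * 1 ≤ (M : ℤ) * k := mul_le_mul_of_nonneg_left (by omega) (by omega)
      omega
  rw [h1, mul_zero] at hk
  omega

theorem dm0 (h : S_GG) : S_DM0 := by
  classical
  intro M hM hM3
  obtain ⟨B, _, _, G, hcard, hinj, hneg⟩ := h M hM
  have hMr : (3 : ℝ) ≤ M := by exact_mod_cast hM3
  have hM1 : (M : ℝ) - 1 ≠ 0 := by linarith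
  have hM0 : (M : ℝ) ≠ 0 := by linarith
  have hfb : ∀ x, FB G x = if G x = 0 then (1 : ℝ) else -1 / ((M : ℝ) - 1) := by
    intro x
    unfold FB
    rw [hcard]
  -- exactly one zero among the rotations
  have hz : ∀ m : ℤ, ∑ t ∈ range M, FB G (mulz M t (z M m)) = 0 := by
    intro m
    have hbij : Function.Bijective (fun t : Fin M => G (z M ((t : ℕ) + m))) := by
      rw [Fintype.bijective_iff_injective_and_card]
      refine ⟨fun a b hab => ?_, by rw [Fintype.card_fin, hcard]⟩
      have h1 := hinj _ _ hab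
      have h2 : ((a : ℕ) : ℤ) + m - (((b : ℕ) : ℤ) + m) = ((a : ℕ) : ℤ) - ((b : ℕ) : ℤ) := by ring
      rw [h2] at h1
      exact Fin.ext (int_eq_of_dvd_sub a.2 b.2 h1)
    obtain ⟨t0, ht0⟩ := hbij.2 0
    have h1 : ∀ t < M, G (mulz M t (z M m)) = 0 ↔ t = t0 := by
      intro t ht
      rw [mulz_z]
      constructor
      · intro h
        have := @hbij.1 ⟨t, ht⟩ t0 (by
          show G (z M ((t : ℕ) + m)) = G (z M ((t0 : ℕ) + m))
          rw [h]
          exact ht0.symm)
        rw [← this]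
      · rintro rfl
        exact ht0
    simp_rw [hfb]
    rw [sum_one_exc _ (fun t => G (mulz M t (z M m)) = 0) t0.2 h1]
    field_simp
    ring
  have hsum : ∀ m m' : ℤ, ∑ t ∈ range M, FB G (mulz M t (z M m + z M m')) = 0 := by
    intro m m'
    have h1 : ∀ t : ℕ, G (mulz M t (z M m + z M m')) = 0 ↔ (M : ℤ) ∣ m + m' + 2 * t := by
      intro t
      rw [map_add, map_add, mulz_z, mulz_z]
      have h2 : G (z M (t + m')) = - G (z M (-(t + m'))) := by
        rw [hneg, neg_neg]
      rw [h2, ← sub_eq_add_neg, sub_eq_zero]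
      constructor
      · intro h
        have := hinj _ _ h
        have e : (t : ℤ) + m - -(t + m') = m + m' + 2 * t := by ring
        rwa [e] at this
      · intro h
        have e : (t : ℤ) + m - -(t + m') = m + m' + 2 * t := by ring
        rw [← e] at h
        rw [(z_eq_iff M (by omega) _ _).mpr h]
    obtain ⟨k, hk⟩ : ∃ k : ℤ, (M : ℤ) = 2 * k + 1 := ⟨(M : ℤ) / 2, by omega⟩
    set s : ℤ := (-(m + m') * (k + 1)) % M with hs
    have hs0 : 0 ≤ s := Int.emod_nonneg _ (by omega)
    have hs1 : s < M := Int.emod_lt_of_pos _ (by omega)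
    have hs2 : (M : ℤ) ∣ m + m' + 2 * s := by
      have e1 : (M : ℤ) ∣ -(m + m') * (k + 1) - s := Int.dvd_self_sub_emod
      obtain ⟨c, hc⟩ := e1
      refine ⟨-(m + m') - 2 * c, ?_⟩
      have : s = -(m + m') * (k + 1) - M * c := by linarith
      rw [this, hk]
      ring
    have h2 : ∀ t < M, G (mulz M t (z M m + z M m')) = 0 ↔ t = s.toNat := by
      intro t ht
      rw [h1]
      constructor
      · intro h
        have h3 : (M : ℤ) ∣ 2 * ((t : ℤ) - s) := by
          have := dvd_sub h hs2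
          have e : m + m' + 2 * (t : ℤ) - (m + m' + 2 * s) = 2 * ((t : ℤ) - s) := by ring
          rwa [e] at this
        have h4 := (two_mul_dvd_of_odd M hM _).mp h3
        refine int_eq_of_dvd_sub ht (by omega) ?_
        rwa [Int.toNat_of_nonneg hs0]
      · rintro rfl
        rwa [Int.toNat_of_nonneg hs0]
    simp_rw [hfb]
    rw [sum_one_exc _ (fun t => G (mulz M t (z M m + z M m')) = 0) (by omega) h2]
    field_simp
    ring
  refine ⟨fun w => 1 / (M : ℝ) * ∑ t ∈ range M, FB G (mulz M t w), ⟨?_, ?_, ?_, ?_, ?_⟩, ?_⟩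
  · refine (PD.sum (range M) (fun (t : ℕ) w => FB G (mulz M t w)) (fun t _ => ?_)).smul _ (by positivity)
    exact (PD.FB (by omega) G).comp (mulz M t)
  · have : ∀ t ∈ range M, FB G (mulz M t 0) = 1 := fun t _ => FB_zero G (by rw [map_zero, map_zero])
    rw [Finset.sum_congr rfl this, Finset.sum_const, card_range, nsmul_eq_mul]
    field_simp
  · intro m
    rw [hz, mul_zero]
  · intro m m' hmm
    have : ∀ t ∈ range M, FB G (mulz M t (z M m - z M m')) = -1 / ((M : ℝ) - 1) := by
      intro t _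
      rw [FB_ne, hcard]
      rw [map_sub, map_sub, mulz_z, mulz_z, sub_ne_zero]
      intro h
      apply hmm
      have := hinj _ _ h
      have e : (t : ℤ) + m - (t + m') = m - m' := by ring
      rwa [e] at this
    rw [Finset.sum_congr rfl this, Finset.sum_const, card_range, nsmul_eq_mul]
    field_simp
  · intro _ m m'
    rw [hsum, mul_zero]
  · intro m m' h1 h2
    rw [sub_real_iff M (by omega)] at h2
    rcases h2 with h2 | ⟨h2, h3⟩
    · exact absurd h2 h1
    · exact absurd ((two_mul_dvd_of_odd M hM _).mp h2) h3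

/-- divisibility by twice a number, for even numbers -/
lemma two_mul_dvd_iff {M : ℕ} {a b c : ℤ} (h : a - b = 2 * c) : ((2 * M : ℕ) : ℤ) ∣ a - b ↔ (M : ℤ) ∣ c := by
  rw [h]
  push_cast
  exact mul_dvd_mul_iff_left (by norm_num)

theorem dm1 (h0 : S_DM0) (h2 : S_E2) : S_DM1 := by
  intro M hM hM3
  obtain ⟨H, hH, _⟩ := h0 M hM hM3
  obtain ⟨X, hX⟩ := h2 M hM
  have hsum := hH.sum hM
  have hdiff : ∀ m m', ¬ ((2 * M : ℕ) : ℤ) ∣ m - m' → H (X (z (2 * M) m - z (2 * M) m')) =
      -(if (m - m') % 2 = 0 then 1 / ((M : ℝ) - 1) else 0) := by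
    intro m m' hmm
    rw [map_sub, hX, hX]
    by_cases hm : m % 2 = 0 <;> by_cases hm' : m' % 2 = 0
    · rw [if_pos hm, if_pos hm', if_pos (by omega), hH.diff]
      rwa [← two_mul_dvd_iff (a := m) (b := m') (by omega)]
    · rw [if_pos hm, if_neg hm', if_neg (by omega), sub_neg_eq_add, hsum, neg_zero]
    · rw [if_neg hm, if_pos hm', if_neg (by omega), ← neg_add', hH.pd.even, hsum, neg_zero]
    · rw [if_neg hm, if_neg hm', if_pos (by omega), ← hH.pd.even, neg_sub, neg_sub_neg, hH.diff]
      rwa [← two_mul_dvd_iff (a := m) (b := m') (by omega)]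
  refine ⟨fun w => H (X w), ⟨hH.pd.comp X, ?_, ?_, hdiff, ?_⟩, ?_⟩
  · rw [map_zero, hH.zero]
  · intro m
    rw [hX]
    split_ifs
    · exact hH.one _
    · rw [hH.pd.even]; exact hH.one _
  · intro h
    omega
  · intro m m' h1 h2
    beta_reduce
    rw [hdiff m m' h1, if_neg, neg_zero]
    rw [sub_real_iff (2 * M) (by omega)] at h2
    rcases h2 with h2 | ⟨h2, h3⟩
    · exact absurd h2 h1
    · intro hpar
      apply h3
      obtain ⟨c, hc⟩ : ∃ c, m + m' = 2 * c := ⟨(m + m') / 2, by omega⟩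
      have e : m + m' = m - -m' := by ring
      rw [e, two_mul_dvd_iff (c := c) (by omega)]
      have h4 : (M : ℤ) ∣ 2 * c := by
        rw [hc] at h2
        push_cast at h2
        exact (mul_dvd_mul_iff_left (by norm_num)).mp h2
      exact (two_mul_dvd_of_odd M hM c).mp h4

theorem dm2 (h1 : S_DM1) (h4 : S_D4) : S_DM2 := by
  intro M hM hM3
  obtain ⟨H, hH, _⟩ := h1 M hM hM3
  obtain ⟨X, Y, hXY⟩ := h4 M hM
  have hX := fun m => (hXY m).1
  have hY := fun m => (hXY m).2
  refine ⟨fun w => H (X w) * H (Y w), ⟨(hH.pd.comp X).mul (hH.pd.comp Y), ?_, ?_, ?_, ?_⟩⟩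
  · rw [map_zero, map_zero, hH.zero, one_mul]
  · intro m
    rw [hX, hY]
    split_ifs
    · rw [hH.one, zero_mul]
    · rw [hH.one, mul_zero]
  · intro m m' hmm
    rw [map_sub, map_sub, hX, hX, hY, hY]
    have e4 : (4 * M : ℕ) = 2 * (2 * M) := by ring
    rw [e4] at hmm
    by_cases hm : m % 2 = 0 <;> by_cases hm' : m' % 2 = 0
    · rw [if_pos hm, if_pos hm', if_pos hm, if_pos hm', sub_zero, hH.zero, mul_one, hH.diff]
      · by_cases h : (m - m') % 4 = 0
        · rw [if_pos h, if_pos (by omega)]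
        · rw [if_neg h, if_neg (by omega)]
      · rwa [← two_mul_dvd_iff (a := m) (b := m') (by omega)]
    · rw [if_pos hm, if_neg hm', if_pos hm, if_neg hm', if_neg (by omega), sub_zero, hH.one, zero_mul,
        neg_zero]
    · rw [if_neg hm, if_pos hm', if_neg hm, if_pos hm', if_neg (by omega), sub_zero, hH.one, mul_zero,
        neg_zero]
    · rw [if_neg hm, if_neg hm', if_neg hm, if_neg hm', sub_zero, hH.zero, one_mul, hH.diff]
      · by_cases h : (m - m') % 4 = 0
        · rw [if_pos h, if_pos (by omega)]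
        · rw [if_neg h, if_neg (by omega)]
      · rwa [← two_mul_dvd_iff (a := m) (b := m') (by omega)]
  · intro h
    omega

end PathMix2
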