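import Pool.Agent.PathMix2.Stmts
set_option autoImplicit false

/-! Module PM_DPX: the functions `D_P` (level `2M`) and `D_X` (level `4M`) on a single slice. -/

open Finset

namespace PathMix2

namespace DPX

/-- exactly one solution `t` in `range K` of `K ∣ c - q t` -/
lemma cnt (K : ℕ) (hK : 0 < K) (q : ℤ) (hq : IsCoprime q (K : ℤ)) (c : ℤ) :
    ∑ t ∈ range K, (if (K : ℤ) ∣ c - q * (t : ℤ) then (1 : ℝ) else 0) = 1 := by
  obtain ⟨x, y, hxy⟩ := hq
  have hK' : (0 : ℤ) < K := by exact_mod_cast hK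
  set t0 : ℤ := (x * c) % (K : ℤ) with ht0
  have h0 : 0 ≤ t0 := Int.emod_nonneg _ hK'.ne'
  have h1 : t0 < K := Int.emod_lt_of_pos _ hK'
  have hdvd : (K : ℤ) ∣ x * c - t0 := Int.dvd_self_sub_emod
  have key : ∀ t ∈ range K, ((K : ℤ) ∣ c - q * (t : ℤ) ↔ t = t0.toNat) := by
    intro t ht
    have ht' : (t : ℤ) < K := by exact_mod_cast Finset.mem_range.mp ht
    have ht0' : (0 : ℤ) ≤ t := by positivity
    have e1 : (K : ℤ) ∣ c - q * (t : ℤ) ↔ (K : ℤ) ∣ t0 - t := by
      constructor
      · intro h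
        have e : t0 - t = x * (c - q * t) - (x * c - t0) + (x * q - 1) * t := by ring
        rw [e]
        have hx : x * q - 1 = K * (-y) := by linear_combination hxy
        rw [hx]
        exact dvd_add (dvd_sub (h.mul_left x) hdvd) ((Dvd.intro _ rfl).mul_right _)
      · intro h
        have e : c - q * t = q * (t0 - t) + q * (x * c - t0) + (1 - x * q) * c := by ring
        rw [e]
        have hx : 1 - x * q = K * y := by linear_combination -hxy
        rw [hx]
        exact dvd_add (dvd_add (h.mul_left q) (hdvd.mul_left q)) ((Dvd.intro _ rfl).mul_right _)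
    rw [e1]
    constructor
    · rintro ⟨k, hk⟩
      have hk0 : k = 0 := by
        by_contra hne
        rcases lt_or_gt_of_ne hne with h | h
        · have : (K : ℤ) * k ≤ -K := by nlinarith
          linarith
        · have : (K : ℤ) ≤ K * k := by nlinarith
          linarith
      rw [hk0, mul_zero] at hk
      omega
    · intro h
      have : (t : ℤ) = t0 := by omega
      rw [this, sub_self]
      exact dvd_zero _
  rw [Finset.sum_congr rfl (fun t ht => by rw [show (if (K : ℤ) ∣ c - q * (t : ℤ) then (1 : ℝ) else 0) =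
    if t = t0.toNat then 1 else 0 from if_congr (key t ht) rfl rfl])]
  rw [Finset.sum_ite_eq', if_pos]
  rw [Finset.mem_range]
  omega

lemma v0_one {x : ZMod 5} (h : x = 1 ∨ x = -1) : v0 x = 0 := by
  unfold v0
  rcases h with rfl | rfl
  · rw [if_neg (by decide), if_neg (by decide)]
  · rw [if_neg (by decide), if_neg (by decide)]

lemma v0_two {x : ZMod 5} (h : x = 1 ∨ x = -1) : v0 (x + x) = -1 / 2 := by
  unfold v0
  rcases h with rfl | rfl
  · rw [if_neg (by decide), if_pos (by decide)]
  · rw [if_neg (by decide), if_pos (by decide)]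

lemma v0_zero : v0 0 = 1 := by unfold v0; rw [if_pos rfl]

end DPX

open DPX

open Classical in
theorem dp (h : S_SIG) : S_DP := by
  intro M hM h3
  have hM0 : 0 < M := by omega
  have hn : 0 < 2 * M := by omega
  obtain ⟨σ, hσ1, hσ2⟩ := h (2 * M) hn (by
      intro h
      apply h3
      exact (Nat.Coprime.dvd_mul_left (by norm_num)).mp h) (by omega)
  have hMR : (M : ℝ) ≠ 0 := by exact_mod_cast hM0.ne'
  set H : A (2 * M) → ℝ := fun w => (1 / (M : ℝ)) * ∑ t ∈ range M,
    (if ((sk (2 * M)).comp (mulz (2 * M) (-2 * (t : ℤ)))) w = 0 then (1 : ℝ) else 0) *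
      v0 ((σ.comp (mulz (2 * M) (-2 * (t : ℤ)))) w) with hH
  refine ⟨H, ?_, ?_, ?_, ?_, ?_⟩
  · rw [hH]
    exact PD.smul (PD.sum _ _ (fun t _ => (PD.ind _).mul (PD.v0 _))) _ (by positivity)
  · rw [hH]
    simp only [map_zero, if_true, v0_zero, mul_one, Finset.sum_const, Finset.card_range, nsmul_eq_mul]
    field_simp
  · intro m
    rw [hH]
    beta_reduce
    rw [Finset.sum_eq_zero, mul_zero]
    intro t _
    have : v0 ((σ.comp (mulz (2 * M) (-2 * (t : ℤ)))) (z (2 * M) m)) = 0 := by
      rw [AddMonoidHom.comp_apply, mulz_z]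
      exact v0_one (hσ1 _)
    rw [this, mul_zero]
  · intro m m' hmm
    rw [hH]
    beta_reduce
    have hev : ∀ t : ℕ, ((sk (2 * M)).comp (mulz (2 * M) (-2 * (t : ℤ)))) (z (2 * M) m - z (2 * M) m') = 0 ↔
        (((2 * M : ℕ) : ℤ) ∣ 2 * ((-2 * (t : ℤ) + m) + (-2 * (t : ℤ) + m')) ∧
          ¬ ((2 * M : ℕ) : ℤ) ∣ (-2 * (t : ℤ) + m) + (-2 * (t : ℤ) + m')) := by
      intro t
      rw [AddMonoidHom.comp_apply, map_sub, mulz_z, mulz_z, sk_eq_zero_iff, sub_real_iff _ hn]
      have e : -2 * (t : ℤ) + m - (-2 * (t : ℤ) + m') = m - m' := by ring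
      rw [e]
      simp only [hmm, false_or]
    have hcast : ((2 * M : ℕ) : ℤ) = 2 * (M : ℤ) := by push_cast; ring
    by_cases hpar : (m - m') % 2 = 0
    · simp only [if_pos hpar, neg_zero]
      rw [Finset.sum_eq_zero, mul_zero]
      intro t _
      rw [if_neg, zero_mul]
      rw [hev t]
      rintro ⟨h1, h2⟩
      apply h2
      rw [hcast] at h1 ⊢
      have h4 : (M : ℤ) ∣ (-2 * (t : ℤ) + m) + (-2 * (t : ℤ) + m') := by
        obtain ⟨k, hk⟩ := h1
        exact ⟨k, by linarith⟩
      have h5 : (2 : ℤ) ∣ (-2 * (t : ℤ) + m) + (-2 * (t : ℤ) + m') := by omega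
      have hc : IsCoprime (2 : ℤ) (M : ℤ) := by
        rw [Int.isCoprime_iff_gcd_eq_one]
        have : Nat.Coprime 2 M := by
          rw [Nat.coprime_two_left]
          exact Nat.odd_iff.mpr hM
        exact_mod_cast this
      exact hc.mul_dvd h5 h4
    · simp only [if_neg hpar]
      have hterm : ∀ t ∈ range M,
          (if ((sk (2 * M)).comp (mulz (2 * M) (-2 * (t : ℤ)))) (z (2 * M) m - z (2 * M) m') = 0
            then (1 : ℝ) else 0) *
          v0 ((σ.comp (mulz (2 * M) (-2 * (t : ℤ)))) (z (2 * M) m - z (2 * M) m')) =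
          (if (M : ℤ) ∣ (m + m') - 4 * (t : ℤ) then (1 : ℝ) else 0) * (-1 / 2) := by
        intro t _
        have hiff : ((sk (2 * M)).comp (mulz (2 * M) (-2 * (t : ℤ)))) (z (2 * M) m - z (2 * M) m') = 0 ↔
            (M : ℤ) ∣ (m + m') - 4 * (t : ℤ) := by
          rw [hev t, hcast]
          constructor
          · rintro ⟨⟨k, hk⟩, _⟩
            exact ⟨k, by linarith⟩
          · rintro ⟨k, hk⟩
            refine ⟨⟨k, by linarith⟩, ?_⟩
            rintro ⟨j, hj⟩
            have hj' : m + m' - 4 * (t : ℤ) = 2 * ((M : ℤ) * j) := by linarith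
            generalize (M : ℤ) * j = q at hj'
            omega
        by_cases hd : (M : ℤ) ∣ (m + m') - 4 * (t : ℤ)
        · rw [if_pos (hiff.mpr hd), if_pos hd, one_mul, one_mul]
          rw [AddMonoidHom.comp_apply, map_sub, mulz_z, mulz_z]
          set a : ℤ := -2 * (t : ℤ) + m with ha
          set b : ℤ := -2 * (t : ℤ) + m' with hb
          have hsum : z (2 * M) (-a) + z (2 * M) b = 0 := by
            rw [z_add_eq_zero_iff _ hn, hcast]
            obtain ⟨k, hk⟩ := hd
            constructor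
            · exact ⟨-k, by rw [ha, hb]; linarith⟩
            · rintro ⟨j, hj⟩
              have hj' : -(m + m' - 4 * (t : ℤ)) = 2 * ((M : ℤ) * j) := by rw [ha, hb] at hj; linarith
              generalize (M : ℤ) * j = q at hj'
              omega
          have hb2 : z (2 * M) b = - z (2 * M) (-a) := eq_neg_of_add_eq_zero_right hsum
          rw [hb2, sub_neg_eq_add, map_add, hσ2]
          exact v0_two (hσ1 a)
        · rw [if_neg (fun h => hd (hiff.mp h)), if_neg hd, zero_mul, zero_mul]
      rw [Finset.sum_congr rfl hterm, ← Finset.sum_mul, cnt M hM0 4 (by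
        rw [Int.isCoprime_iff_gcd_eq_one]
        have : Nat.Coprime 4 M := by
          have h2 : Nat.Coprime 2 M := by
            rw [Nat.coprime_two_left]
            exact Nat.odd_iff.mpr hM
          exact Nat.Coprime.mul_left (m := 2) (n := 2) h2 h2
        exact_mod_cast this)]
      field_simp
  · intro h; omega

open Classical in
theorem dx (h : S_RHO) (h4 : S_D4) : S_DX := by
  intro M hM
  have hM0 : 0 < M := by omega
  have hn : 0 < 2 * M := by omega
  obtain ⟨ρ, hρ⟩ := h (2 * M) hn (by omega)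
  obtain ⟨X, Y, hXY⟩ := h4 M hM
  have hMR : (M : ℝ) ≠ 0 := by exact_mod_cast hM0.ne'
  have hXe : ∀ m : ℤ, m % 2 = 0 → X (z (4 * M) m) = z (2 * M) (m / 2) := fun m hm => by
    rw [(hXY m).1, if_pos hm]
  have hXo : ∀ m : ℤ, ¬ m % 2 = 0 → X (z (4 * M) m) = 0 := fun m hm => by
    rw [(hXY m).1, if_neg hm]
  have hYe : ∀ m : ℤ, m % 2 = 0 → Y (z (4 * M) m) = 0 := fun m hm => by
    rw [(hXY m).2, if_pos hm]
  have hYo : ∀ m : ℤ, ¬ m % 2 = 0 → Y (z (4 * M) m) = z (2 * M) ((m - M) / 2) := fun m hm => by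
    rw [(hXY m).2, if_neg hm]
  set U : ℕ → A (4 * M) →+ A (2 * M) := fun t => X + (mulz (2 * M) (t : ℤ)).comp Y with hU
  set W : ℕ → A (4 * M) →+ ZMod 3 := fun t => (Int.castAddHom (ZMod 3)).comp
    (ρ.comp X - ρ.comp ((mulz (2 * M) (t : ℤ)).comp Y)) with hW
  have hUap : ∀ t w, U t w = X w + mulz (2 * M) (t : ℤ) (Y w) := fun t w => rfl
  have hWap : ∀ t w, W t w = ((ρ (X w) - ρ (mulz (2 * M) (t : ℤ) (Y w)) : ℤ) : ZMod 3) := fun t w => rfl
  set H : A (4 * M) → ℝ := fun w => (1 / (2 * (M : ℝ))) * ∑ t ∈ range (2 * M),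
    (if U t w = 0 then (1 : ℝ) else 0) * FB (W t) w with hH
  have hPD : PD H := by
    rw [hH]
    exact PD.smul (PD.sum _ _ (fun t _ => (PD.ind _).mul (PD.FB (by rw [ZMod.card]; norm_num) _))) _
      (by positivity)
  have hcast2 : ((2 * M : ℕ) : ℤ) = 2 * (M : ℤ) := by push_cast; ring
  have hcast4 : ((4 * M : ℕ) : ℤ) = 4 * (M : ℤ) := by push_cast; ring
  -- the main computation
  have hmix : ∀ m m' : ℤ, m % 2 = 0 → ¬ m' % 2 = 0 →
      H (z (4 * M) m - z (4 * M) m') = -(1 / (4 * (M : ℝ))) := by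
    intro m m' hm hm'
    have hterm : ∀ t ∈ range (2 * M),
        (if U t (z (4 * M) m - z (4 * M) m') = 0 then (1 : ℝ) else 0) *
          FB (W t) (z (4 * M) m - z (4 * M) m') =
        (if ((2 * M : ℕ) : ℤ) ∣ (m / 2 - (m' - M) / 2) - 1 * (t : ℤ) then (1 : ℝ) else 0) * (-1 / 2) := by
      intro t _
      have hXw : X (z (4 * M) m - z (4 * M) m') = z (2 * M) (m / 2) := by
        rw [map_sub, hXe m hm, hXo m' hm', sub_zero]
      have hYw : mulz (2 * M) (t : ℤ) (Y (z (4 * M) m - z (4 * M) m')) =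
          - z (2 * M) ((t : ℤ) + (m' - M) / 2) := by
        rw [map_sub, hYe m hm, hYo m' hm', zero_sub, map_neg, mulz_z]
      have hUv : U t (z (4 * M) m - z (4 * M) m') =
          z (2 * M) (m / 2) - z (2 * M) ((t : ℤ) + (m' - M) / 2) := by
        rw [hUap, hXw, hYw]
        exact (sub_eq_add_neg _ _).symm
      have hiff : U t (z (4 * M) m - z (4 * M) m') = 0 ↔
          ((2 * M : ℕ) : ℤ) ∣ (m / 2 - (m' - M) / 2) - 1 * (t : ℤ) := by
        rw [hUv, sub_eq_zero, z_eq_iff _ hn]
        have e : m / 2 - ((t : ℤ) + (m' - M) / 2) = (m / 2 - (m' - M) / 2) - 1 * (t : ℤ) := by ring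
        rw [e]
      by_cases hd : ((2 * M : ℕ) : ℤ) ∣ (m / 2 - (m' - M) / 2) - 1 * (t : ℤ)
      · rw [if_pos (hiff.mpr hd), if_pos hd, one_mul, one_mul]
        have hz0 : z (2 * M) (m / 2) = z (2 * M) ((t : ℤ) + (m' - M) / 2) := by
          have := hiff.mpr hd
          rw [hUv, sub_eq_zero] at this
          exact this
        rw [FB_ne]
        · rw [ZMod.card]; norm_num
        · rw [hWap, hXw, hYw, map_neg, ← hz0, sub_neg_eq_add]
          obtain ⟨k, hk⟩ := hρ.unit (m / 2)
          intro h0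
          have h3 : (3 : ℤ) ∣ ρ (z (2 * M) (m / 2)) + ρ (z (2 * M) (m / 2)) := by
            have := (ZMod.intCast_zmod_eq_zero_iff_dvd _ 3).mp h0
            exact_mod_cast this
          have h3' : (3 : ℤ) ∣ 2 ^ (k + 1) := by
            rcases hk with hk | hk
            · rw [hk] at h3
              have e : (2 : ℤ) ^ (k + 1) = 2 ^ k + 2 ^ k := by ring
              rw [e]
              exact h3
            · rw [hk] at h3
              have e : (2 : ℤ) ^ (k + 1) = -(-2 ^ k + -2 ^ k) := by ring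
              rw [e]
              exact (dvd_neg).mpr h3
          have h3'' := Int.Prime.dvd_pow' Nat.prime_three h3'
          norm_num at h3''
      · rw [if_neg (fun h => hd (hiff.mp h)), if_neg hd, zero_mul, zero_mul]
    rw [hH]
    beta_reduce
    rw [Finset.sum_congr rfl hterm, ← Finset.sum_mul, cnt (2 * M) hn 1 isCoprime_one_left]
    field_simp
    norm_num
  refine ⟨H, hPD, ?_, ?_, ?_, ?_⟩
  · rw [hH]
    simp only [map_zero, if_true, one_mul]
    rw [Finset.sum_congr rfl (fun t _ => FB_zero (W t) (map_zero (W t)))]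
    simp only [Finset.sum_const, Finset.card_range, nsmul_eq_mul, mul_one]
    push_cast
    field_simp
  · intro m
    rw [hH]
    beta_reduce
    rw [Finset.sum_eq_zero, mul_zero]
    intro t _
    rw [if_neg, zero_mul]
    rw [hUap]
    by_cases hm : m % 2 = 0
    · rw [hXe m hm, hYe m hm, map_zero, add_zero]
      exact z_ne_zero _ _
    · rw [hXo m hm, hYo m hm, zero_add, mulz_z]
      exact z_ne_zero _ _
  · intro m m' hmm
    rw [hcast4] at hmm
    by_cases hm : m % 2 = 0
    · by_cases hm' : m' % 2 = 0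
      · have hpar : (m - m') % 2 = 0 := by omega
        rw [if_pos hpar, neg_zero, hH]
        beta_reduce
        rw [Finset.sum_eq_zero, mul_zero]
        intro t _
        rw [if_neg, zero_mul]
        rw [hUap, map_sub, map_sub, hXe m hm, hXe m' hm', hYe m hm, hYe m' hm', sub_zero, map_zero,
          add_zero, sub_eq_zero, z_eq_iff _ hn, hcast2]
        rintro ⟨k, hk⟩
        apply hmm
        refine ⟨k, ?_⟩
        have e1 : 2 * (m / 2) = m := by omega
        have e2 : 2 * (m' / 2) = m' := by omega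
        linear_combination 2 * hk - e1 + e2
      · have hpar : ¬ (m - m') % 2 = 0 := by omega
        rw [if_neg hpar]
        exact hmix m m' hm hm'
    · by_cases hm' : m' % 2 = 0
      · have hpar : ¬ (m - m') % 2 = 0 := by omega
        rw [if_neg hpar, ← hPD.even, neg_sub]
        exact hmix m' m hm' hm
      · have hpar : (m - m') % 2 = 0 := by omega
        rw [if_pos hpar, neg_zero, hH]
        beta_reduce
        rw [Finset.sum_eq_zero, mul_zero]
        intro t _
        rw [if_neg, zero_mul]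
        rw [hUap, map_sub, map_sub, hXo m hm, hXo m' hm', hYo m hm, hYo m' hm', sub_zero, zero_add,
          mulz_eq_zero, sub_eq_zero, z_eq_iff _ hn, hcast2]
        rintro ⟨k, hk⟩
        apply hmm
        refine ⟨k, ?_⟩
        have e1 : 2 * ((m - M) / 2) = m - M := by omega
        have e2 : 2 * ((m' - M) / 2) = m' - M := by omega
        linear_combination 2 * hk - e1 + e2
  · intro h; omega

end PathMix2
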