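import Mathlib
set_option autoImplicit false

/-! Definitions for the classification of the paths with a rank one averaged mixing matrix
(MP_261efc_co).  Everything lives on the additive groups `A n` generated by the `n`-th roots of
unity; the targets are positive definite functions on `A n` with prescribed values. -/

open Finset

namespace PathMix2

/-! ### Positive definite functions -/

/-- (real, even) positive definite functions on an additive commutative group -/
structure PD {G : Type*} [AddCommGroup G] (f : G → ℝ) : Prop where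
  even : ∀ x, f (-x) = f x
  pos : ∀ (k : ℕ) (x : Fin k → G) (c : Fin k → ℝ), 0 ≤ ∑ i, ∑ j, c i * c j * f (x i - x j)

/-! ### Roots of unity and the groups they generate -/

/-- `ζ_n^m` -/
noncomputable def zt (n : ℕ) (m : ℤ) : ℂ := Complex.exp (2 * Real.pi * Complex.I * (m / n))

/-- the additive group generated by the `n`-th roots of unity (as a subgroup of `ℂ`) -/
noncomputable def A (n : ℕ) : AddSubgroup ℂ := AddSubgroup.closure (Set.range (zt n))

/-- `ζ_n^m` as an element of `A n` -/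
noncomputable def z (n : ℕ) (m : ℤ) : A n := ⟨zt n m, AddSubgroup.subset_closure ⟨m, rfl⟩⟩

/-- `ζ_n^m + ζ_n^(-m) = 2 cos (2 π m / n)` -/
noncomputable def tt (n : ℕ) (m : ℤ) : A n := z n m + z n (-m)

/-- `ζ_n^m` is not real -/
def ok (n : ℕ) (m : ℤ) : Prop := ¬ ((n : ℤ) ∣ 2 * m)

/-- a periodic function on `ℤ` (period `n`) all of whose sums over the cosets of the subgroups of
prime order `q ∣ n` of `ℤ/n` vanish -/
structure ZL (n : ℕ) {T : Type} [AddCommGroup T] (f : ℤ → T) : Prop where
  per : ∀ m, f (m + n) = f m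
  line : ∀ q : ℕ, q.Prime → q ∣ n → ∀ m, ∑ j ∈ range q, f (m + (j : ℤ) * ((n / q : ℕ) : ℤ)) = 0

/-- The main target: a positive definite function on `A n` of total mass `w` with value `-1` at the
differences of the different numbers `2 cos (2 π m / n)` (`ζ_n^m` not real). -/
def PP (n : ℕ) (w : ℝ) : Prop := ∃ F : A n → ℝ, PD F ∧ F 0 = w ∧
  (∀ m m', ok n m → ok n m' → ¬ (n : ℤ) ∣ m - m' → ¬ (n : ℤ) ∣ m + m' →
    F (tt n m - tt n m') = -1) ∧
  (n % 2 = 1 → ∀ m m', ok n m → ok n m' → F (tt n m + tt n m') = 0) ∧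
  (n % 4 = 2 → ∀ m, ok n m → F (tt n m) = 0)

/-! ### The model groups -/

/-- one copy of `A n` carrying the real numbers `tt n m` and `g` copies (slices) carrying the
roots of unity `z n m` -/
abbrev SG (n g : ℕ) : Type := A n × (Fin g → A n)

noncomputable def rv (n g : ℕ) (m : ℤ) : SG n g := (tt n m, 0)
noncomputable def sv (n g : ℕ) (i : Fin g) (m : ℤ) : SG n g := (0, Pi.single i (z n m))
noncomputable def dl (n g : ℕ) (a : A n) : SG n g := (-a, fun _ => -a)

/-- The values of a positive definite function `F` of total mass `w` on the model group: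
`-c0` on differences real-real, `-c1` on differences real-slice, `-c2` on differences between two
slices, `-c3 l` on differences inside a slice (`l` = difference of the exponents);
for odd `n` the sums get value `0`; for `n = 2 mod 4` the vectors themselves get value `0`. -/
structure Vals (n g : ℕ) (F : SG n g → ℝ) (w c0 c1 c2 : ℝ) (c3 : ℤ → ℝ) : Prop where
  pd : PD F
  zero : F 0 = w
  rr : ∀ m m', ok n m → ok n m' → ¬ (n : ℤ) ∣ m - m' → ¬ (n : ℤ) ∣ m + m' →
    F (rv n g m - rv n g m') = -c0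
  rs : ∀ m i m', ok n m → F (rv n g m - sv n g i m') = -c1
  ss : ∀ i j, i ≠ j → ∀ m m', F (sv n g i m - sv n g j m') = -c2
  s1 : ∀ i m m', ¬ (n : ℤ) ∣ m - m' → F (sv n g i m - sv n g i m') = -c3 (m - m')
  orr : n % 2 = 1 → ∀ m m', ok n m → ok n m' → F (rv n g m + rv n g m') = 0
  ors : n % 2 = 1 → ∀ m i m', ok n m → F (rv n g m + sv n g i m') = 0
  oss : n % 2 = 1 → ∀ i j m m', F (sv n g i m + sv n g j m') = 0
  er : n % 4 = 2 → ∀ m, ok n m → F (rv n g m) = 0
  es : n % 4 = 2 → ∀ i m, F (sv n g i m) = 0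

/-- additional zero values, needed in case II -/
structure Kill (n g : ℕ) (F : SG n g → ℝ) : Prop where
  kr : ∀ m m', ok n m' → (n : ℤ) ∣ 2 * m → F (dl n g (z n m) - rv n g m') = 0
  ks : ∀ m i m', (n : ℤ) ∣ 2 * m → F (dl n g (z n m) - sv n g i m') = 0
  kk : ∀ m m', ¬ (n : ℤ) ∣ m - m' → ((z n m - z n m' : A n) : ℂ).im = 0 →
    F (dl n g (z n m - z n m')) = 0
  okr : n % 2 = 1 → ∀ m m', ok n m' → (n : ℤ) ∣ 2 * m → F (dl n g (z n m) + rv n g m') = 0
  oks : n % 2 = 1 → ∀ m i m', (n : ℤ) ∣ 2 * m → F (dl n g (z n m) + sv n g i m') = 0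
  okk : n % 2 = 1 → ∀ m m', ((z n m + z n m' : A n) : ℂ).im = 0 →
    F (dl n g (z n m + z n m')) = 0
  ek : n % 4 = 2 → ∀ m, (n : ℤ) ∣ 2 * m → F (dl n g (z n m)) = 0

/-- the functions on a single slice -/
structure InSl (n : ℕ) (H : A n → ℝ) (h3 : ℤ → ℝ) : Prop where
  pd : PD H
  zero : H 0 = 1
  one : ∀ m, H (z n m) = 0
  diff : ∀ m m', ¬ (n : ℤ) ∣ m - m' → H (z n m - z n m') = -h3 (m - m')
  sum : n % 2 = 1 → ∀ m m', H (z n m + z n m') = 0

/-- zero values at the real differences -/
def RK (n : ℕ) (H : A n → ℝ) : Prop :=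
  ∀ m m', ¬ (n : ℤ) ∣ m - m' → ((z n m - z n m' : A n) : ℂ).im = 0 → H (z n m - z n m') = 0

/-! ### Arrays -/

/-- a homomorphism to `ℤ` taking values `± 2^k` at the roots of unity -/
structure Rho (n : ℕ) (ρ : A n →+ ℤ) : Prop where
  unit : ∀ m, ∃ k : ℕ, ρ (z n m) = 2 ^ k ∨ ρ (z n m) = -2 ^ k
  refl : ∀ m : ℤ, ρ (z n (-m)) = if n % 8 = 4 ∧ m % 2 = 1 then -ρ (z n m) else ρ (z n m)

/-- same-slice value of the component C2 -/
noncomputable def ind (n : ℕ) (l : ℤ) : ℝ :=
  if n % 2 = 1 then 1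
  else if n % 4 = 2 then (if l % 2 = 0 then 2 else 0)
  else (if l % 4 = 0 then 2 else if l % 4 = 2 then -1 else 0)

/-- slice-slice value of the component C2 -/
noncomputable def SS (n : ℕ) : ℝ :=
  if n % 2 = 1 then n - 1 / 2 else if n % 4 = 2 then n - 1 else n / 4 - 1

end PathMix2
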