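import Pool.Agent.PathMix2.DesAux
set_option autoImplicit false

/-! Designs, case I. -/

open Finset

namespace PathMix2

/-- the odd number in `{h, h+1}` -/
lemma exists_n0 (h : ℕ) (hh : 2 ≤ h) : ∃ n0 : ℕ, n0 % 2 = 1 ∧ 3 ≤ n0 ∧ h ≤ n0 ∧ (n0 : ℝ) - 1 ≤ h := by
  rcases Nat.mod_two_eq_zero_or_one h with h2 | h2
  · refine ⟨h + 1, by omega, by omega, by omega, ?_⟩
    push_cast; linarith
  · refine ⟨h, h2, by omega, le_refl _, by linarith⟩

/-- bound for the weight of X0 -/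
lemma x0_bound (h N S m : ℝ) (hh : 2 ≤ h) (hN : 0 < N) (hS : 0 ≤ S) (hS2 : S ≤ (h - 1) * N) (hm : m ≤ h) :
    (1 - S / ((h - 1) * N)) * (m * N) ≤ h * N - S := by
  have h1 : 0 < (h - 1) * N := by
    apply mul_pos _ hN
    linarith
  have h2 : 0 ≤ 1 - S / ((h - 1) * N) := by
    rw [sub_nonneg, div_le_one h1]
    exact hS2
  calc (1 - S / ((h - 1) * N)) * (m * N) ≤ (1 - S / ((h - 1) * N)) * (h * N) := by
        apply mul_le_mul_of_nonneg_left _ h2
        exact mul_le_mul_of_nonneg_right hm hN.le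
    _ = h * N - S * (h / (h - 1)) := by
        have : h - 1 ≠ 0 := by linarith
        field_simp
    _ ≤ h * N - S := by
        have h3 : 1 ≤ h / (h - 1) := by
          rw [le_div_iff₀ (by linarith)]
          linarith
        nlinarith

lemma des_x0_t (h N S : ℝ) (hh : 2 ≤ h) (hN : 0 < N) (hS2 : S ≤ (h - 1) * N) :
    0 ≤ 1 - S / ((h - 1) * N) := by
  have h1 : 0 < (h - 1) * N := by
    apply mul_pos _ hN
    linarith
  rw [sub_nonneg, div_le_one h1]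
  exact hS2

theorem des1_3 (hC1 : S_C1) (hP : S_PROD) (hDM0 : S_DM0) (hc : S_CASE1) : S_DES1_3 := by
  intro M hM h3 hPP
  have hM3 : 3 ≤ M := Nat.le_of_dvd (by omega) h3
  have hMr : (3 : ℝ) ≤ M := by exact_mod_cast hM3
  obtain ⟨F1, hF1⟩ := hC1 M 1 (by omega) (by omega) le_rfl
  obtain ⟨H, hH, hRK⟩ := hDM0 M hM hM3
  obtain ⟨F2, hF2, _⟩ := hP M 1 (2 * ((M : ℝ) - 1)) H _ (by omega) le_rfl
    (hPP.mono (by omega) (by linarith)) hH
  have h1 : VE M 1 _ _ _ _ _ := ⟨F1, hF1⟩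
  have h2 : VE M 1 _ _ _ _ _ := ⟨F2, hF2⟩
  have h3' := ((h1.add h2).c2_one 1).cast (w' := 3 * M - 2) (c0' := 1) (c1' := 1) (c2' := 1) (c3' := fun _ => 1)
    (by push_cast; ring) (by ring) (by ring) rfl (by
      intro l
      have : (M : ℝ) - 1 ≠ 0 := by linarith
      unfold ind
      rw [if_pos hM]
      field_simp
      ring)
  obtain ⟨F, hF⟩ := h3'
  exact hc 3 M 1 F _ (by norm_num) (by norm_num) (by omega) h3 hF

theorem des1_0 (hX0 : S_X0) (hC2 : S_C2) (hP : S_PROD) (hDM0 : S_DM0) (hc : S_CASE1) : S_DES1_0 := by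
  intro p M hp hp5 hM hpM hPP
  obtain ⟨h, hh⟩ : ∃ h, p = 2 * h + 1 := by
    have := hp.eq_two_or_odd
    exact ⟨p / 2, by omega⟩
  have hh2 : 2 ≤ h := by omega
  have hhr : (2 : ℝ) ≤ h := by exact_mod_cast hh2
  have hM3 : 5 ≤ M := le_trans hp5 (Nat.le_of_dvd (by omega) hpM)
  have hMr : (5 : ℝ) ≤ M := by exact_mod_cast hM3
  obtain ⟨n0, hn0, hn3, hhn, hnr⟩ := exists_n0 h hh2
  obtain ⟨F1, hF1, _⟩ := hC2 M h (by omega) (by omega) hh2
  obtain ⟨H, hH, hRK⟩ := hDM0 M hM (by omega)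
  obtain ⟨F2, hF2, _⟩ := hP M h (2 * ((M : ℝ) - 1)) H _ (by omega) (by omega)
    (hPP.mono (by omega) (by linarith)) hH
  have h1 : VE M h _ _ _ _ _ := ⟨F1, hF1⟩
  have h2 : VE M h _ _ _ _ _ := ⟨F2, hF2⟩
  have hSS : SS M = M - 1 / 2 := by unfold SS; rw [if_pos hM]
  have hS2 : SS M ≤ ((h : ℝ) - 1) * M := by
    rw [hSS]; nlinarith
  have ht := des_x0_t h M (SS M) hhr (by linarith) hS2
  have h3 := x0_VE hX0 M h n0 (by omega) (by omega) (by omega) hn0 hn3 hhn _ ht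
  have hb := x0_bound h M (SS M) ((n0 : ℝ) - 1) hhr (by linarith) (by rw [hSS]; linarith) hS2 hnr
  have h4 := ((h1.add h3).add h2).pad (w' := (p : ℝ) * M - 2) (by omega) (by
    rw [hSS] at hb ⊢
    have hpr : (p : ℝ) = 2 * h + 1 := by rw [hh]; push_cast; ring
    rw [hpr]
    nlinarith)
  have h5 := h4.cast (w' := (p : ℝ) * M - 2) (c0' := 1) (c1' := 1) (c2' := 1) (c3' := fun _ => 1)
    rfl (by ring) (by ring) (by ring) (by
      intro l
      have : (M : ℝ) - 1 ≠ 0 := by linarith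
      unfold ind
      rw [if_pos hM]
      field_simp
      ring)
  obtain ⟨F, hF⟩ := h5
  exact hc p M h F _ hp hh (by omega) hpM hF

theorem des1_1 (hX0 : S_X0) (hC2 : S_C2) (hP : S_PROD) (hP0 : S_PROD0) (hDM1 : S_DM1) (hDP : S_DP)
    (hc : S_CASE1) : S_DES1_1 := by
  intro p M hp hp5 hM h3M hpM hPP
  obtain ⟨h, hh⟩ : ∃ h, p = 2 * h + 1 := by
    have := hp.eq_two_or_odd
    exact ⟨p / 2, by omega⟩
  have hh2 : 2 ≤ h := by omega
  have hhr : (2 : ℝ) ≤ h := by exact_mod_cast hh2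
  have hM3 : 5 ≤ M := le_trans hp5 (Nat.le_of_dvd (by omega) hpM)
  have hMr : (5 : ℝ) ≤ M := by exact_mod_cast hM3
  obtain ⟨n0, hn0, hn3, hhn, hnr⟩ := exists_n0 h hh2
  obtain ⟨F1, hF1, _⟩ := hC2 (2 * M) h (by omega) (by omega) hh2
  obtain ⟨H, hH, hRK⟩ := hDM1 M hM (by omega)
  obtain ⟨H', hH'⟩ := hDP M hM h3M
  obtain ⟨F2, hF2, _⟩ := hP (2 * M) h (3 * ((M : ℝ) - 1)) H _ (by omega) (by omega)
    (hPP.mono (by omega) (by linarith)) hH
  obtain ⟨F3, hF3, _⟩ := hP0 (2 * M) h H' _ (by omega) (by omega) hH'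
  have h1 : VE (2 * M) h _ _ _ _ _ := ⟨F1, hF1⟩
  have h2 : VE (2 * M) h _ _ _ _ _ := ⟨F2, hF2⟩
  have h2' : VE (2 * M) h _ _ _ _ _ := ⟨F3, hF3⟩
  have hc2 : ((2 * M : ℕ) : ℝ) = 2 * M := by push_cast; ring
  have hSS : SS (2 * M) = 2 * M - 1 := by
    unfold SS; rw [if_neg (by omega), if_pos (by omega), hc2]
  have hN : (0 : ℝ) < ((2 * M : ℕ) : ℝ) := by rw [hc2]; linarith
  have hS2 : SS (2 * M) ≤ ((h : ℝ) - 1) * ((2 * M : ℕ) : ℝ) := by
    rw [hSS, hc2]; nlinarith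
  have ht := des_x0_t h _ (SS (2 * M)) hhr hN hS2
  have h3 := x0_VE hX0 (2 * M) h n0 (by omega) (by omega) (by omega) hn0 hn3 hhn _ ht
  have hb := x0_bound h _ (SS (2 * M)) ((n0 : ℝ) - 1) hhr hN (by rw [hSS]; linarith) hS2 hnr
  have h4 := (((h1.add h3).add h2).add (h2'.smul (2 * M) (by linarith))).pad
    (w' := (p : ℝ) * (2 * M) - 2) (by omega) (by
    rw [hSS, hc2] at hb ⊢
    have hpr : (p : ℝ) = 2 * h + 1 := by rw [hh]; push_cast; ring
    rw [hpr]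
    nlinarith)
  have h5 := h4.cast (w' := (p : ℝ) * (2 * M) - 2) (c0' := 1) (c1' := 1) (c2' := 1) (c3' := fun _ => 1)
    rfl (by ring) (by ring) (by ring) (by
      intro l
      have : (M : ℝ) - 1 ≠ 0 := by linarith
      have : (M : ℝ) ≠ 0 := by linarith
      unfold ind
      rw [if_neg (by omega), if_pos (by omega)]
      by_cases hl : l % 2 = 0
      · simp only [hl, if_true]
        field_simp
        ring
      · simp only [hl, if_false]
        field_simp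
        ring)
  obtain ⟨F, hF⟩ := h5
  exact hc p (2 * M) h F _ hp hh (by omega) (hpM.mul_left 2) hF

theorem des1_2 (hX0 : S_X0) (hC2 : S_C2) (hP : S_PROD) (hP0 : S_PROD0) (hDM2 : S_DM2) (hDX : S_DX)
    (hc : S_CASE1) : S_DES1_2 := by
  intro p M hp hp5 hM h3M hpM hPP
  obtain ⟨h, hh⟩ : ∃ h, p = 2 * h + 1 := by
    have := hp.eq_two_or_odd
    exact ⟨p / 2, by omega⟩
  have hh2 : 2 ≤ h := by omega
  have hhr : (2 : ℝ) ≤ h := by exact_mod_cast hh2
  have hM3 : 5 ≤ M := le_trans hp5 (Nat.le_of_dvd (by omega) hpM)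
  have hMr : (5 : ℝ) ≤ M := by exact_mod_cast hM3
  obtain ⟨n0, hn0, hn3, hhn, hnr⟩ := exists_n0 h hh2
  obtain ⟨F1, hF1, _⟩ := hC2 (4 * M) h (by omega) (by omega) hh2
  obtain ⟨H0, hH0⟩ := hDM2 M hM (by omega)
  obtain ⟨H, hH⟩ := hH0.scale (by omega) (3 * ((M : ℝ) - 1) / (4 * M - 2))
    (div_nonneg (by linarith) (by linarith)) (by rw [div_le_one (by linarith)]; linarith)
  obtain ⟨H', hH'⟩ := hDX M hM
  obtain ⟨F2, hF2, _⟩ := hP (4 * M) h (4 * M - 2) H _ (by omega) (by omega) hPP hH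
  obtain ⟨F3, hF3, _⟩ := hP0 (4 * M) h H' _ (by omega) (by omega) hH'
  have h1 : VE (4 * M) h _ _ _ _ _ := ⟨F1, hF1⟩
  have h2 : VE (4 * M) h _ _ _ _ _ := ⟨F2, hF2⟩
  have h2' : VE (4 * M) h _ _ _ _ _ := ⟨F3, hF3⟩
  have hc2 : ((4 * M : ℕ) : ℝ) = 4 * M := by push_cast; ring
  have hSS : SS (4 * M) = M - 1 := by
    unfold SS; rw [if_neg (by omega), if_neg (by omega), hc2]; ring
  have hN : (0 : ℝ) < ((4 * M : ℕ) : ℝ) := by rw [hc2]; linarith
  have hS2 : SS (4 * M) ≤ ((h : ℝ) - 1) * ((4 * M : ℕ) : ℝ) := by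
    rw [hSS, hc2]; nlinarith
  have ht := des_x0_t h _ (SS (4 * M)) hhr hN hS2
  have h3 := x0_VE hX0 (4 * M) h n0 (by omega) (by omega) (by omega) hn0 hn3 hhn _ ht
  have hb := x0_bound h _ (SS (4 * M)) ((n0 : ℝ) - 1) hhr hN (by rw [hSS]; linarith) hS2 hnr
  have h4 := (((h1.add h3).add h2).add (h2'.smul (4 * M) (by linarith))).pad
    (w' := (p : ℝ) * (4 * M) - 2) (by omega) (by
    rw [hSS, hc2] at hb ⊢
    have hpr : (p : ℝ) = 2 * h + 1 := by rw [hh]; push_cast; ring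
    rw [hpr]
    nlinarith)
  have h5 := h4.cast (w' := (p : ℝ) * (4 * M) - 2) (c0' := 1) (c1' := 1) (c2' := 1) (c3' := fun _ => 1)
    rfl (by ring) (by ring) (by ring) (by
      intro l
      have e1 : (M : ℝ) - 1 ≠ 0 := by linarith
      have e2 : (M : ℝ) ≠ 0 := by linarith
      have e3 : (4 : ℝ) * M - 2 ≠ 0 := by linarith
      have e4 : (4 : ℝ) * M - 2 = 2 * (2 * M - 1) := by ring
      have e5 : (2 : ℝ) * M - 1 ≠ 0 := by linarith
      unfold ind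
      rw [if_neg (by omega), if_neg (by omega)]
      by_cases hl : l % 4 = 0
      · have hl2 : l % 2 = 0 := by omega
        simp only [hl, hl2, if_true]
        rw [e4]
        field_simp
        ring
      · by_cases hl4 : l % 4 = 2
        · have hl2 : l % 2 = 0 := by omega
          simp only [hl4, hl2, if_true]
          norm_num
        · have hl2 : ¬ l % 2 = 0 := by omega
          simp only [hl, hl4, hl2, if_false]
          field_simp
          ring)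
  obtain ⟨F, hF⟩ := h5
  exact hc p (4 * M) h F _ hp hh (by omega) (hpM.mul_left 4) hF

end PathMix2
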