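import Pool.Agent.PathMix2.Des1
set_option autoImplicit false

/-! Designs, case II, odd level. -/

open Finset

namespace PathMix2

/-- the rest for X0 in case II is nonnegative -/
lemma des2_t (G N S : ℝ) (hG : 4 ≤ G) (hN : 0 < N) (hS : 0 ≤ S) (hS2 : S ≤ N) :
    (G + 1) / G ≤ (G + 1) / (G - 1) - (G + 1) / G * (S / ((G - 1) * N)) := by
  have h1 : 0 < G - 1 := by linarith
  have h2 : 0 < G := by linarith
  have e : (G + 1) / (G - 1) - (G + 1) / G * (S / ((G - 1) * N)) - (G + 1) / G =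
      (G + 1) / (G * (G - 1)) * ((N - S) / N) := by
    field_simp
    ring
  have h3 : 0 ≤ (G + 1) / (G * (G - 1)) * ((N - S) / N) := by
    apply mul_nonneg
    · positivity
    · exact div_nonneg (by linarith) hN.le
  linarith

/-- bound for the weight of X0 in case II -/
lemma x0_bound2 (G N S m : ℝ) (hG : 4 ≤ G) (hN : 0 < N) (hS : 0 ≤ S) (hS2 : S ≤ N) (hm : m ≤ G) :
    ((G + 1) / (G - 1) - (G + 1) / G * (S / ((G - 1) * N))) * (m * N) ≤ (G + 1) / (G - 1) * (G * N - S) := by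
  have h0 := des2_t G N S hG hN hS hS2
  have h1 : 0 < G - 1 := by linarith
  have h2 : 0 < G := by linarith
  have h3 : 0 ≤ (G + 1) / (G - 1) - (G + 1) / G * (S / ((G - 1) * N)) := by
    have : 0 ≤ (G + 1) / G := by positivity
    linarith
  calc ((G + 1) / (G - 1) - (G + 1) / G * (S / ((G - 1) * N))) * (m * N)
      ≤ ((G + 1) / (G - 1) - (G + 1) / G * (S / ((G - 1) * N))) * (G * N) := by
        apply mul_le_mul_of_nonneg_left _ h3
        exact mul_le_mul_of_nonneg_right hm hN.le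
    _ = (G + 1) / (G - 1) * (G * N - S) := by
        field_simp

lemma r_le (G : ℝ) (hG : 4 ≤ G) : (G + 1) / G ≤ 5 / 4 := by
  rw [div_le_iff₀ (by linarith)]; linarith

lemma one_le_r (G : ℝ) (hG : 4 ≤ G) : 1 ≤ (G + 1) / G := by
  rw [le_div_iff₀ (by linarith)]; linarith

lemma q_le (G : ℝ) (hG : 4 ≤ G) : (G + 1) / (G - 1) ≤ 5 / 3 := by
  rw [div_le_iff₀ (by linarith)]; linarith

theorem des2_0 (hX0 : S_X0) (hC2 : S_C2) (hP : S_PROD) (hDM0 : S_DM0) (hc : S_CASE2) : S_DES2_0 := by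
  intro p M hp hp11 hM hM3 h3M hpM hPP
  obtain ⟨g, hg⟩ : ∃ g, p = 2 * g + 3 := by
    have := hp.eq_two_or_odd
    exact ⟨(p - 3) / 2, by omega⟩
  have hg4 : 4 ≤ g := by omega
  have hG : (4 : ℝ) ≤ g := by exact_mod_cast hg4
  have hM5 : 5 ≤ M := by
    have : M ≠ 3 := by rintro rfl; exact h3M (by norm_num)
    omega
  have hMr : (5 : ℝ) ≤ M := by exact_mod_cast hM5
  obtain ⟨n0, hn0, hn3, hhn, hnr⟩ := exists_n0 g (by omega)
  obtain ⟨F1, hF1, hK1⟩ := hC2 M g (by omega) (by omega) (by omega)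
  obtain ⟨H, hH, hRK⟩ := hDM0 M hM (by omega)
  have hr1 := one_le_r g hG
  have hr2 := r_le g hG
  have hq2 := q_le g hG
  obtain ⟨F2, hF2, hK2⟩ := hP M g (2 * ((M : ℝ) - 1) * (((g : ℝ) + 1) / g)) H _ (by omega) (by omega)
    (hPP.mono (by omega) (by nlinarith)) hH
  have h1 : VK M g _ _ _ _ _ := ⟨F1, hF1, hK1 hg4⟩
  have h2 : VK M g _ _ _ _ _ := ⟨F2, hF2, hK2 (by omega) hRK⟩
  have hSS : SS M = M - 1 / 2 := by unfold SS; rw [if_pos hM]
  have ht := des2_t g M (SS M) hG (by linarith) (by rw [hSS]; linarith) (by rw [hSS]; linarith)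
  have h3 := x0_VK hX0 M g n0 (by omega) (by omega) (by omega) hn0 hn3 hhn (Or.inl h3M) _
    (le_trans (by linarith) ht)
  have hb := x0_bound2 g M (SS M) ((n0 : ℝ) - 1) hG (by linarith) (by rw [hSS]; linarith)
    (by rw [hSS]; linarith) hnr
  have hg0 : (g : ℝ) ≠ 0 := by linarith
  have hg1 : (g : ℝ) - 1 ≠ 0 := by linarith
  have h4 := (((h1.smul (((g : ℝ) + 1) / g) (by linarith)).add h3).add h2).pad
    (w' := (p : ℝ) * M - 2) (by omega) (by omega) (by
    have e1 : ((g : ℝ) + 1) / g * ((g : ℝ) * M / 2) = (g + 1) * M / 2 := by field_simp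
    have e2 : ((g : ℝ) + 1) / (g - 1) * (g * M - SS M) = (g + 1) * M + (g + 1) / (g - 1) * (1 / 2) := by
      rw [hSS]; field_simp; ring
    have e3 : 2 * ((M : ℝ) - 1) * (((g : ℝ) + 1) / g) ≤ 2 * (M - 1) * (5 / 4) :=
      mul_le_mul_of_nonneg_left hr2 (by linarith)
    have hpr : (p : ℝ) = 2 * g + 3 := by rw [hg]; push_cast; ring
    rw [hpr, e1]
    nlinarith)
  have h5 := h4.cast (w' := (p : ℝ) * M - 2) (c0' := 1) (c1' := ((g : ℝ) + 1) / g)
    (c2' := ((g : ℝ) + 1) / (g - 1)) (c3' := fun _ => ((g : ℝ) + 1) / g)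
    rfl (by ring) (by ring) (by ring) (by
      intro l
      have : (M : ℝ) - 1 ≠ 0 := by linarith
      unfold ind
      rw [if_pos hM]
      field_simp
      ring)
  obtain ⟨F, hF, hK⟩ := h5
  exact hc p M g F _ hp hg (by omega) (by omega) hpM hF hK

theorem des2_3 (hX1 : S_X1) (hC2 : S_C2) (hP : S_PROD) (hDM0 : S_DM0) (hc : S_CASE2) : S_DES2_3 := by
  intro p M hp hp11 hp13 hM h3M hpM hPP
  obtain ⟨g, hg⟩ : ∃ g, p = 2 * g + 3 := by
    have := hp.eq_two_or_odd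
    exact ⟨(p - 3) / 2, by omega⟩
  have hg4 : 4 ≤ g := by omega
  have hG : (4 : ℝ) ≤ g := by exact_mod_cast hg4
  have hM3 : 3 ≤ M := Nat.le_of_dvd (by omega) h3M
  have hMr : (3 : ℝ) ≤ M := by exact_mod_cast hM3
  obtain ⟨F1, hF1, hK1⟩ := hC2 M g (by omega) (by omega) (by omega)
  obtain ⟨H, hH, hRK⟩ := hDM0 M hM (by omega)
  have hr1 := one_le_r g hG
  have hr2 := r_le g hG
  have hq2 := q_le g hG
  obtain ⟨F2, hF2, hK2⟩ := hP M g (2 * ((M : ℝ) - 1) * (((g : ℝ) + 1) / g)) H _ (by omega) (by omega)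
    (hPP.mono (by omega) (by nlinarith)) hH
  have h1 : VK M g _ _ _ _ _ := ⟨F1, hF1, hK1 hg4⟩
  have h2 : VK M g _ _ _ _ _ := ⟨F2, hF2, hK2 (by omega) hRK⟩
  have hSS : SS M = M - 1 / 2 := by unfold SS; rw [if_pos hM]
  have ht := des2_t g M (SS M) hG (by linarith) (by rw [hSS]; linarith) (by rw [hSS]; linarith)
  -- X1
  obtain ⟨n0, hn0, hn3, hhn, hcase⟩ : ∃ n0 : ℕ, n0 % 2 = 1 ∧ 3 ≤ n0 ∧ g - 1 ≤ n0 ∧
      ((g = 4 ∧ n0 = 3) ∨ (7 ≤ g ∧ (n0 : ℝ) - 1 ≤ g - 1)) := by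
    have hpg : g = 4 ∨ 7 ≤ g := by
      by_contra hcon
      push Not at hcon
      have h5 : g = 5 ∨ g = 6 := by omega
      rcases h5 with rfl | rfl
      · omega
      · rw [hg] at hp; revert hp; norm_num
    rcases hpg with rfl | hg7
    · exact ⟨3, by norm_num, le_rfl, by norm_num, Or.inl ⟨rfl, rfl⟩⟩
    · rcases Nat.mod_two_eq_zero_or_one g with h2 | h2
      · refine ⟨g - 1, by omega, by omega, le_rfl, Or.inr ⟨hg7, ?_⟩⟩
        rw [Nat.cast_sub (by omega)]; push_cast; linarith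
      · exact ⟨g, h2, by omega, by omega, Or.inr ⟨hg7, le_rfl⟩⟩
  obtain ⟨F3, hF3, hK3⟩ := hX1 M g n0 _ _ (by omega) (by omega) (by omega) hn0 hn3 hhn (insl_delta M (by omega))
  have h3 : VK M g _ _ _ _ _ := ⟨F3, hF3, hK3⟩
  have hg0 : (g : ℝ) ≠ 0 := by linarith
  have hg1 : (g : ℝ) - 1 ≠ 0 := by linarith
  have hg2 : (0 : ℝ) < (g : ℝ) - 2 := by linarith
  have hn0r : (3 : ℝ) ≤ n0 := by exact_mod_cast hn3
  set t : ℝ := ((g : ℝ) + 1) / (g - 1) - (g + 1) / g * (SS M / ((g - 1) * M)) with htdef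
  have ht0 : 0 ≤ t := by linarith
  have htG : t * (g * M) = (g + 1) * M + (g + 1) / (g - 1) * (1 / 2) := by
    rw [htdef, hSS]
    have : (M : ℝ) ≠ 0 := by linarith
    field_simp
    ring
  have hX : t / ((g : ℝ) - 2) * ((g : ℝ) * ((n0 : ℝ) - 1) * M) + ((g : ℝ) + 1) * M / 2 + 2 * (M - 1) * (((g : ℝ) + 1) / g)
      ≤ (2 * (g : ℝ) + 3) * M - 2 := by
    have e0 : t / ((g : ℝ) - 2) * ((g : ℝ) * ((n0 : ℝ) - 1) * M) = (t * (g * M)) * (((n0 : ℝ) - 1) / (g - 2)) := by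
      field_simp
    have e3 : 2 * ((M : ℝ) - 1) * (((g : ℝ) + 1) / g) ≤ 2 * (M - 1) * (5 / 4) :=
      mul_le_mul_of_nonneg_left hr2 (by linarith)
    rw [e0, htG]
    rcases hcase with ⟨hg', hn'⟩ | ⟨hg7, hn'⟩
    · subst hg' hn'
      norm_num
      linarith
    · have hG7 : (7 : ℝ) ≤ g := by exact_mod_cast hg7
      have e4 : ((n0 : ℝ) - 1) / (g - 2) ≤ 6 / 5 := by
        rw [div_le_iff₀ hg2]
        linarith
      have e5 : (g + 1) / ((g : ℝ) - 1) ≤ 4 / 3 := by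
        rw [div_le_iff₀ (by linarith)]; linarith
      have e6 : (g + 1) / (g : ℝ) ≤ 8 / 7 := by
        rw [div_le_iff₀ (by linarith)]; linarith
      have e7 : 2 * ((M : ℝ) - 1) * (((g : ℝ) + 1) / g) ≤ 2 * (M - 1) * (8 / 7) :=
        mul_le_mul_of_nonneg_left e6 (by linarith)
      have e8 : (((g : ℝ) + 1) * M + (g + 1) / (g - 1) * (1 / 2)) * (((n0 : ℝ) - 1) / (g - 2)) ≤
          ((g + 1) * M + 4 / 3 * (1 / 2)) * (6 / 5) := by
        apply mul_le_mul _ e4 (div_nonneg (by linarith) hg2.le) (by positivity)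
        linarith
      nlinarith
  have h4 := (((h1.smul (((g : ℝ) + 1) / g) (by linarith)).add (h3.smul (t / (g - 2)) (div_nonneg ht0 hg2.le))).add h2).pad
    (w' := (p : ℝ) * M - 2) (by omega) (by omega) (by
    have e1 : ((g : ℝ) + 1) / g * ((g : ℝ) * M / 2) = (g + 1) * M / 2 := by field_simp
    have hpr : (p : ℝ) = 2 * g + 3 := by rw [hg]; push_cast; ring
    rw [hpr, e1]
    linarith)
  have h5 := h4.cast (w' := (p : ℝ) * M - 2) (c0' := 1) (c1' := ((g : ℝ) + 1) / g)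
    (c2' := ((g : ℝ) + 1) / (g - 1)) (c3' := fun _ => ((g : ℝ) + 1) / g)
    rfl (by ring) (by ring) (by rw [htdef]; field_simp; ring) (by
      intro l
      have : (M : ℝ) - 1 ≠ 0 := by linarith
      unfold ind
      rw [if_pos hM]
      field_simp
      ring)
  obtain ⟨F, hF, hK⟩ := h5
  exact hc p M g F _ hp hg (by omega) (by omega) hpM hF hK

/-- five cube roots of unity never sum to zero -/
lemma five_cube (a : Fin 5 → ℤ) : ∑ i, z 3 (a i) ≠ 0 := by
  intro h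
  -- use the homomorphism `x ↦ x` with real and imaginary parts
  have hre : ∀ m : ℤ, ((z 3 m : A 3) : ℂ).re = if (3 : ℤ) ∣ m then 1 else -1 / 2 := by
    intro m
    rw [coe_z]
    have h1 : (zt 3 m).re = Real.cos (2 * Real.pi * (m / 3)) := by
      unfold zt
      have : (2 * Real.pi * Complex.I * ((m : ℂ) / (3 : ℕ)) : ℂ) = ((2 * Real.pi * (m / 3) : ℝ) : ℂ) * Complex.I := by
        push_cast; ring
      rw [this, Complex.exp_ofReal_mul_I_re]
    rw [h1]
    split_ifs with hm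
    · obtain ⟨k, rfl⟩ := hm
      have : 2 * Real.pi * (((3 * k : ℤ) : ℝ) / 3) = k * (2 * Real.pi) := by push_cast; ring
      rw [this, Real.cos_int_mul_two_pi]
    · have h13 : Real.cos (2 * Real.pi / 3) = -1 / 2 := by
        have : 2 * Real.pi / 3 = Real.pi - Real.pi / 3 := by ring
        rw [this, Real.cos_pi_sub, Real.cos_pi_div_three]; norm_num
      have h2 : m % 3 = 1 ∨ m % 3 = 2 := by omega
      rcases h2 with h2 | h2
      · obtain ⟨k, hk⟩ : ∃ k, m = 3 * k + 1 := ⟨m / 3, by omega⟩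
        subst hk
        have : 2 * Real.pi * (((3 * k + 1 : ℤ) : ℝ) / 3) = 2 * Real.pi / 3 + k * (2 * Real.pi) := by push_cast; ring
        rw [this, Real.cos_add_int_mul_two_pi, h13]
      · obtain ⟨k, hk⟩ : ∃ k, m = 3 * k - 1 := ⟨(m + 1) / 3, by omega⟩
        subst hk
        have : 2 * Real.pi * (((3 * k - 1 : ℤ) : ℝ) / 3) = -(2 * Real.pi / 3) + k * (2 * Real.pi) := by push_cast; ring
        rw [this, Real.cos_add_int_mul_two_pi, Real.cos_neg, h13]
  have h1 := congrArg (fun x : A 3 => (x : ℂ).re) h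
  simp only [AddSubgroup.val_finsetSum, Complex.re_sum, hre, ZeroMemClass.coe_zero, Complex.zero_re] at h1
  have h2 : ∑ i : Fin 5, (if (3 : ℤ) ∣ a i then (1 : ℝ) else -1 / 2) =
      (3 / 2) * ((Finset.univ.filter (fun i : Fin 5 => (3 : ℤ) ∣ a i)).card : ℝ) - 5 / 2 := by
    have : ∀ i : Fin 5, (if (3 : ℤ) ∣ a i then (1 : ℝ) else -1 / 2) = (3 / 2) * (if (3 : ℤ) ∣ a i then 1 else 0) - 1 / 2 := by
      intro i; split_ifs <;> norm_num
    rw [Finset.sum_congr rfl (fun i _ => this i), Finset.sum_sub_distrib, ← Finset.mul_sum, Finset.sum_boole]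
    simp
    norm_num
  rw [h2] at h1
  have h3 : (3 : ℝ) * ((Finset.univ.filter (fun i : Fin 5 => (3 : ℤ) ∣ a i)).card : ℝ) = 5 := by linarith
  have h4 : 3 * (Finset.univ.filter (fun i : Fin 5 => (3 : ℤ) ∣ a i)).card = 5 := by exact_mod_cast h3
  omega

theorem des2_39 (hX0 : S_X0) (hC2 : S_C2) (hP : S_PROD) (hDM0 : S_DM0) (hc : S_CASE2) : S_DES2_39 := by
  intro hPP
  obtain ⟨F1, hF1, hK1⟩ := hC2 3 5 (by norm_num) (by norm_num) (by norm_num)
  obtain ⟨H, hH, hRK⟩ := hDM0 3 (by norm_num) (by norm_num)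
  obtain ⟨F2, hF2, hK2⟩ := hP 3 5 (24 / 5) H _ (by norm_num) (by norm_num)
    (hPP.mono (by norm_num) (by norm_num)) hH
  have h1 : VK 3 5 _ _ _ _ _ := ⟨F1, hF1, hK1 (by norm_num)⟩
  have h2 : VK 3 5 _ _ _ _ _ := ⟨F2, hF2, hK2 (by norm_num) hRK⟩
  have h3 := x0_VK hX0 3 5 5 (by norm_num) (by norm_num) (by norm_num) (by norm_num) (by norm_num) le_rfl
    (Or.inr five_cube) (5 / 4) (by norm_num)
  have hSS : SS 3 = 5 / 2 := by unfold SS; norm_num
  have h4 := (((h1.smul (6 / 5) (by norm_num)).add h3).add h2).pad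
    (w' := 37) (by norm_num) (by norm_num) (by norm_num)
  have h5 := h4.cast (w' := 37) (c0' := 1) (c1' := (((5 : ℕ) : ℝ) + 1) / (5 : ℕ))
    (c2' := (((5 : ℕ) : ℝ) + 1) / ((5 : ℕ) - 1)) (c3' := fun _ => (((5 : ℕ) : ℝ) + 1) / (5 : ℕ))
    rfl (by norm_num) (by norm_num) (by rw [hSS]; norm_num) (by
      intro l
      unfold ind
      norm_num)
  obtain ⟨F, hF, hK⟩ := h5
  have := hc 13 3 5 F _ (by norm_num) (by norm_num) (by norm_num) (by norm_num) (by norm_num) hF hK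
  norm_num at this
  exact this

end PathMix2
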