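import Pool.Agent.PathMix2.Des2a
set_option autoImplicit false

/-! Designs, case II, even level. -/

open Finset

namespace PathMix2

theorem des2_1 (hX0 : S_X0) (hC2 : S_C2) (hP : S_PROD) (hP0 : S_PROD0) (hDM1 : S_DM1) (hDP : S_DP)
    (hc : S_CASE2) : S_DES2_1 := by
  intro p M hp hp11 hM hM3 h3M hpM hPP
  obtain ⟨g, hg⟩ : ∃ g, p = 2 * g + 3 := by
    have := hp.eq_two_or_odd
    exact ⟨(p - 3) / 2, by omega⟩
  have hg4 : 4 ≤ g := by omega
  have hG : (4 : ℝ) ≤ g := by exact_mod_cast hg4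
  have hM5 : 5 ≤ M := by
    have : M ≠ 3 := by rintro rfl; exact h3M (by norm_num)
    omega
  have hMr : (5 : ℝ) ≤ M := by exact_mod_cast hM5
  obtain ⟨n0, hn0, hn3, hhn, hnr⟩ := exists_n0 g (by omega)
  obtain ⟨F1, hF1, hK1⟩ := hC2 (2 * M) g (by omega) (by omega) (by omega)
  obtain ⟨H, hH, hRK⟩ := hDM1 M hM (by omega)
  obtain ⟨H', hH'⟩ := hDP M hM h3M
  have hr1 := one_le_r g hG
  have hr2 := r_le g hG
  have hq2 := q_le g hG
  obtain ⟨F2, hF2, hK2⟩ := hP (2 * M) g (3 * ((M : ℝ) - 1) * (((g : ℝ) + 1) / g)) H _ (by omega) (by omega)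
    (hPP.mono (by omega) (by nlinarith)) hH
  obtain ⟨F3, hF3, hK3⟩ := hP0 (2 * M) g H' _ (by omega) (by omega) hH'
  have h1 : VK (2 * M) g _ _ _ _ _ := ⟨F1, hF1, hK1 hg4⟩
  have h2 : VK (2 * M) g _ _ _ _ _ := ⟨F2, hF2, hK2 (by omega) hRK⟩
  have h2' : VK (2 * M) g _ _ _ _ _ := ⟨F3, hF3, hK3 (by omega)⟩
  have hc2 : ((2 * M : ℕ) : ℝ) = 2 * M := by push_cast; ring
  have hSS : SS (2 * M) = 2 * M - 1 := by
    unfold SS; rw [if_neg (by omega), if_pos (by omega), hc2]
  have hN : (0 : ℝ) < ((2 * M : ℕ) : ℝ) := by rw [hc2]; linarith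
  have ht := des2_t g _ (SS (2 * M)) hG hN (by rw [hSS]; linarith) (by rw [hSS, hc2]; linarith)
  have h3 := x0_VK hX0 (2 * M) g n0 (by omega) (by omega) (by omega) hn0 hn3 hhn
    (Or.inl (fun h => h3M ((Nat.Coprime.dvd_mul_left (by norm_num : Nat.Coprime 3 2)).mp h))) _
    (le_trans (by linarith) ht)
  have hb := x0_bound2 g _ (SS (2 * M)) ((n0 : ℝ) - 1) hG hN (by rw [hSS]; linarith)
    (by rw [hSS, hc2]; linarith) hnr
  have hg0 : (g : ℝ) ≠ 0 := by linarith
  have hg1 : (g : ℝ) - 1 ≠ 0 := by linarith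
  have h4 := ((((h1.smul (((g : ℝ) + 1) / g) (by linarith)).add h3).add h2).add
    (h2'.smul (2 * M * (((g : ℝ) + 1) / g)) (by nlinarith))).pad
    (w' := (p : ℝ) * (2 * M) - 2) (by omega) (by omega) (by
    rw [hSS, hc2] at hb ⊢
    have e1 : ((g : ℝ) + 1) / g * ((g : ℝ) * (2 * M) / 2) = (g + 1) * M := by field_simp
    have e2 : ((g : ℝ) + 1) / (g - 1) * (g * (2 * M) - (2 * M - 1)) = 2 * (g + 1) * M + (g + 1) / (g - 1) := by
      field_simp; ring
    have e3 : 3 * ((M : ℝ) - 1) * (((g : ℝ) + 1) / g) ≤ 3 * (M - 1) * (5 / 4) :=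
      mul_le_mul_of_nonneg_left hr2 (by linarith)
    have e4 : 2 * (M : ℝ) * (((g : ℝ) + 1) / g) * 1 ≤ 2 * M * (5 / 4) := by
      rw [mul_one]
      exact mul_le_mul_of_nonneg_left hr2 (by linarith)
    have hpr : (p : ℝ) = 2 * g + 3 := by rw [hg]; push_cast; ring
    rw [hpr, e1]
    nlinarith)
  have h5 := h4.cast (w' := (p : ℝ) * (2 * M) - 2) (c0' := 1) (c1' := ((g : ℝ) + 1) / g)
    (c2' := ((g : ℝ) + 1) / (g - 1)) (c3' := fun _ => ((g : ℝ) + 1) / g)
    rfl (by ring) (by ring) (by ring) (by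
      intro l
      have : (M : ℝ) - 1 ≠ 0 := by linarith
      have : (M : ℝ) ≠ 0 := by linarith
      unfold ind
      rw [if_neg (by omega), if_pos (by omega)]
      by_cases hl : l % 2 = 0
      · simp only [hl, if_true]
        field_simp
        ring
      · simp only [hl, if_false]
        field_simp
        ring)
  obtain ⟨F, hF, hK⟩ := h5
  refine hc p (2 * M) g F _ hp hg (by omega) (by omega) ?_ hF hK
  intro h
  rcases (Nat.Prime.dvd_mul hp).mp h with h | h
  · have := Nat.le_of_dvd (by norm_num) h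
    omega
  · exact hpM h

theorem des2_2 (hX0 : S_X0) (hX1 : S_X1) (hC2 : S_C2) (hP0 : S_PROD0) (hPT : S_PRODT) (hDM2 : S_DM2)
    (hDX : S_DX) (hc : S_CASE2) : S_DES2_2 := by
  intro p M hp hp11 hM hM3 h3M hpM hPP
  obtain ⟨g, hg⟩ : ∃ g, p = 2 * g + 3 := by
    have := hp.eq_two_or_odd
    exact ⟨(p - 3) / 2, by omega⟩
  have hg4 : 4 ≤ g := by omega
  have hG : (4 : ℝ) ≤ g := by exact_mod_cast hg4
  have hM5 : 5 ≤ M := by
    have : M ≠ 3 := by rintro rfl; exact h3M (by norm_num)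
    omega
  have hMr : (5 : ℝ) ≤ M := by exact_mod_cast hM5
  obtain ⟨F1, hF1, hK1⟩ := hC2 (4 * M) g (by omega) (by omega) (by omega)
  obtain ⟨H0, hH0⟩ := hDM2 M hM (by omega)
  obtain ⟨H', hH'⟩ := hDX M hM
  have hr1 := one_le_r g hG
  have hr2 := r_le g hG
  have hq2 := q_le g hG
  have hg0 : (g : ℝ) ≠ 0 := by linarith
  have hg1 : (g : ℝ) - 1 ≠ 0 := by linarith
  have hq0 : 0 < ((g : ℝ) + 1) / (g - 1) := by
    apply div_pos <;> linarith
  -- the weight of PRODT
  set W0 : ℝ := 3 * ((M : ℝ) - 1) * (((g : ℝ) + 1) / (g - 1)) with hW0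
  set W : ℝ := max W0 (4 * M - 2) with hW
  have hW0pos : 0 ≤ W0 := by
    rw [hW0]
    apply mul_nonneg _ hq0.le
    linarith
  have hWpos : 0 < W := lt_of_lt_of_le (by linarith) (le_max_right _ _)
  have hlam : W0 / W ≤ 1 := by
    rw [div_le_one hWpos]; exact le_max_left _ _
  obtain ⟨H, hH⟩ := hH0.scale (by omega) (W0 / W) (div_nonneg hW0pos hWpos.le) hlam
  obtain ⟨F2, hF2, hK2⟩ := hPT (4 * M) g W H _ (by omega) (by omega)
    (hPP.mono (by omega) (le_max_right _ _)) hH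
  have h1 : VK (4 * M) g _ _ _ _ _ := ⟨F1, hF1, hK1 hg4⟩
  have h2 : VK (4 * M) g _ _ _ _ _ := ⟨F2, hF2, hK2⟩
  have hc2 : ((4 * M : ℕ) : ℝ) = 4 * M := by push_cast; ring
  have hSS : SS (4 * M) = M - 1 := by
    unfold SS; rw [if_neg (by omega), if_neg (by omega), hc2]; ring
  have hN : (0 : ℝ) < ((4 * M : ℕ) : ℝ) := by rw [hc2]; linarith
  have ht := des2_t g _ (SS (4 * M)) hG hN (by rw [hSS]; linarith) (by rw [hSS, hc2]; linarith)
  set t : ℝ := ((g : ℝ) + 1) / (g - 1) - (g + 1) / g * (SS (4 * M) / ((g - 1) * ((4 * M : ℕ) : ℝ))) with htdef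
  have ht0 : 0 < t := by linarith
  have htG : t * (g * (4 * M)) = 4 * (g + 1) * M + (g + 1) / (g - 1) * (3 * M + 1) := by
    rw [htdef, hSS, hc2]
    have : (M : ℝ) ≠ 0 := by linarith
    field_simp
    ring
  have hpr : (p : ℝ) = 2 * g + 3 := by rw [hg]; push_cast; ring
  have hp4 : ¬ p ∣ 4 * M := by
    intro h
    rcases (Nat.Prime.dvd_mul hp).mp h with h | h
    · have := Nat.le_of_dvd (by norm_num) h
      omega
    · exact hpM h
  have hc3 : ∀ l : ℤ, ((g : ℝ) + 1) / g * -ind (4 * M) l +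
      ((g : ℝ) - 1) / g * W * (W0 / W * (if l % 4 = 0 then 1 / ((M : ℝ) - 1) else 0)) +
      (if l % 2 = 0 then 0 else ((g : ℝ) + 1) / g) = ((g : ℝ) + 1) / g := by
    intro l
    have e1 : (M : ℝ) - 1 ≠ 0 := by linarith
    have e2 : W ≠ 0 := hWpos.ne'
    unfold ind
    rw [if_neg (by omega), if_neg (by omega)]
    by_cases hl : l % 4 = 0
    · have hl2 : l % 2 = 0 := by omega
      simp only [hl, hl2, if_true]
      have e3 : ((g : ℝ) - 1) / g * W * (W0 / W * (1 / ((M : ℝ) - 1))) = 3 * (g + 1) / g := by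
        rw [hW0]
        field_simp
      rw [e3]
      field_simp
      ring
    · by_cases hl4 : l % 4 = 2
      · have hl2 : l % 2 = 0 := by omega
        simp only [hl4, hl2, if_true]
        norm_num
      · have hl2 : ¬ l % 2 = 0 := by omega
        simp only [hl, hl4, hl2, if_false]
        ring
  rcases Nat.mod_two_eq_zero_or_one g with hg2 | hg2
  · -- g even, h odd: X1
    set lam : ℝ := (((g : ℝ) + 1) / g) / t with hlamdef
    obtain ⟨H'', hH''⟩ := hH'.scale (by omega) lam (div_nonneg (by linarith) ht0.le)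
      (by rw [hlamdef, div_le_one ht0]; exact ht)
    obtain ⟨F3, hF3, hK3⟩ := hX1 (4 * M) g (g - 1) H'' _ (by omega) (by omega) (by omega) (by omega)
      (by omega) le_rfl hH''
    have h3 : VK (4 * M) g _ _ _ _ _ := ⟨F3, hF3, hK3⟩
    have hg3 : (0 : ℝ) < (g : ℝ) - 2 := by linarith
    have hcg : ((g - 1 : ℕ) : ℝ) = g - 1 := by rw [Nat.cast_sub (by omega)]; norm_num
    have hWle : W ≤ 5 * M - 2 := by
      apply max_le
      · rw [hW0]
        nlinarith
      · linarith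
    have h4 := (((h1.smul (((g : ℝ) + 1) / g) (by linarith)).add (h3.smul (t / (g - 2)) (div_nonneg ht0.le hg3.le))).add h2).pad
      (w' := (p : ℝ) * (4 * M) - 2) (by omega) (by omega) (by
      rw [hc2]
      have e1 : ((g : ℝ) + 1) / g * ((g : ℝ) * (4 * M) / 2) = 2 * (g + 1) * M := by field_simp; ring
      have e2 : t / ((g : ℝ) - 2) * ((g : ℝ) * (((g - 1 : ℕ) : ℝ) - 1) * (4 * M)) = t * (g * (4 * M)) := by
        rw [hcg]
        have : (g : ℝ) - 2 ≠ 0 := hg3.ne'
        have e : (g : ℝ) - 1 - 1 = g - 2 := by ring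
        rw [e]
        field_simp
      rw [hpr, e1, e2, htG]
      have e3 : ((g : ℝ) + 1) / (g - 1) * (3 * M + 1) ≤ 5 / 3 * (3 * M + 1) :=
        mul_le_mul_of_nonneg_right hq2 (by linarith)
      nlinarith)
    have h5 := h4.cast (w' := (p : ℝ) * (4 * M) - 2) (c0' := 1) (c1' := ((g : ℝ) + 1) / g)
      (c2' := ((g : ℝ) + 1) / (g - 1)) (c3' := fun _ => ((g : ℝ) + 1) / g)
      rfl (by ring) (by ring) (by
        have : (g : ℝ) - 2 ≠ 0 := hg3.ne'
        have e1 : t / ((g : ℝ) - 2) * (g - 2) = t := by field_simp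
        rw [e1, htdef]
        ring) (by
        intro l
        refine Eq.trans ?_ (hc3 l)
        have e1 : t / ((g : ℝ) - 2) * ((((g - 1 : ℕ) : ℝ) - 1) * ((4 * M : ℕ) : ℝ) *
            (lam * (if l % 2 = 0 then 0 else 1 / (4 * (M : ℝ))))) = (if l % 2 = 0 then 0 else ((g : ℝ) + 1) / g) := by
          rw [hcg, hc2]
          split_ifs
          · ring
          · have : (g : ℝ) - 2 ≠ 0 := hg3.ne'
            have e : (g : ℝ) - 1 - 1 = g - 2 := by ring
            have e' : (M : ℝ) ≠ 0 := by linarith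
            have e'' : t ≠ 0 := ht0.ne'
            rw [e, hlamdef]
            field_simp
        rw [e1]
        ring)
    obtain ⟨F, hF, hK⟩ := h5
    exact hc p (4 * M) g F _ hp hg (by omega) (by omega) hp4 hF hK
  · -- g odd, h even: X0
    have hg5 : 5 ≤ g := by omega
    have hG5 : (5 : ℝ) ≤ g := by exact_mod_cast hg5
    obtain ⟨F3, hF3, hK3⟩ := hP0 (4 * M) g H' _ (by omega) (by omega) hH'
    have h2' : VK (4 * M) g _ _ _ _ _ := ⟨F3, hF3, hK3 (by omega)⟩
    have h3 := x0_VK hX0 (4 * M) g g (by omega) (by omega) (by omega) hg2 (by omega) le_rfl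
      (Or.inl (fun h => h3M ((Nat.Coprime.dvd_mul_left (by norm_num : Nat.Coprime 3 4)).mp h))) t ht0.le
    have hWle : W ≤ 9 / 2 * M - 2 := by
      have e1 : ((g : ℝ) + 1) / (g - 1) ≤ 3 / 2 := by
        rw [div_le_iff₀ (by linarith)]; linarith
      apply max_le
      · rw [hW0]
        nlinarith
      · linarith
    have h4 := ((((h1.smul (((g : ℝ) + 1) / g) (by linarith)).add h3).add h2).add
      (h2'.smul (4 * M * (((g : ℝ) + 1) / g)) (by nlinarith))).pad
      (w' := (p : ℝ) * (4 * M) - 2) (by omega) (by omega) (by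
      rw [hc2]
      have e1 : ((g : ℝ) + 1) / g * ((g : ℝ) * (4 * M) / 2) = 2 * (g + 1) * M := by field_simp; ring
      have e2 : t * (((g : ℝ) - 1) * (4 * M)) = 4 * (g + 1) * M - (g + 1) / g * (M - 1) := by
        rw [htdef, hSS, hc2]
        have : (M : ℝ) ≠ 0 := by linarith
        field_simp
      have e3 : ((g : ℝ) + 1) / g ≤ 6 / 5 := by
        rw [div_le_iff₀ (by linarith)]; linarith
      have e4 : 4 * (M : ℝ) * (((g : ℝ) + 1) / g) * 1 ≤ 4 * M * (6 / 5) := by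
        rw [mul_one]
        exact mul_le_mul_of_nonneg_left e3 (by linarith)
      have e5 : (M : ℝ) - 1 ≤ ((g : ℝ) + 1) / g * (M - 1) :=
        le_mul_of_one_le_left (by linarith) hr1
      have e6 : (5 : ℝ) * M ≤ g * M := mul_le_mul_of_nonneg_right hG5 (by linarith)
      rw [hpr, e1, e2]
      linarith)
    have h5 := h4.cast (w' := (p : ℝ) * (4 * M) - 2) (c0' := 1) (c1' := ((g : ℝ) + 1) / g)
      (c2' := ((g : ℝ) + 1) / (g - 1)) (c3' := fun _ => ((g : ℝ) + 1) / g)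
      rfl (by ring) (by ring) (by rw [htdef]; ring) (by
        intro l
        refine Eq.trans ?_ (hc3 l)
        have e1 : 4 * (M : ℝ) * (((g : ℝ) + 1) / g) * (if l % 2 = 0 then 0 else 1 / (4 * (M : ℝ))) =
            (if l % 2 = 0 then 0 else ((g : ℝ) + 1) / g) := by
          split_ifs
          · ring
          · have e' : (M : ℝ) ≠ 0 := by linarith
            field_simp
        rw [e1]
        ring)
    obtain ⟨F, hF, hK⟩ := h5
    exact hc p (4 * M) g F _ hp hg (by omega) (by omega) hp4 hF hK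

end PathMix2
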