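import Pool.Agent.PathMix2.Stmts
set_option autoImplicit false

/-! Auxiliary lemmas for the design modules. -/

open Finset

namespace PathMix2

variable {n g : ℕ}

lemma VE.cast {w w' c0 c0' c1 c1' c2 c2' : ℝ} {c3 c3' : ℤ → ℝ} (h : VE n g w c0 c1 c2 c3)
    (hw : w = w') (h0 : c0 = c0') (h1 : c1 = c1') (h2 : c2 = c2') (h3 : ∀ l, c3 l = c3' l) :
    VE n g w' c0' c1' c2' c3' := by
  have : c3 = c3' := funext h3
  subst hw h0 h1 h2 this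
  exact h

lemma VK.cast {w w' c0 c0' c1 c1' c2 c2' : ℝ} {c3 c3' : ℤ → ℝ} (h : VK n g w c0 c1 c2 c3)
    (hw : w = w') (h0 : c0 = c0') (h1 : c1 = c1') (h2 : c2 = c2') (h3 : ∀ l, c3 l = c3' l) :
    VK n g w' c0' c1' c2' c3' := by
  have : c3 = c3' := funext h3
  subst hw h0 h1 h2 this
  exact h

open Classical in
lemma insl_delta (n : ℕ) (hn : 0 < n) : InSl n (fun x => if x = 0 then (1 : ℝ) else 0) (fun _ => 0) where
  pd := PD.ind0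
  zero := by simp
  one m := by rw [if_neg (z_ne_zero n m)]
  diff m m' h := by
    rw [if_neg, neg_zero]
    rw [sub_eq_zero, z_eq_iff n hn]
    exact h
  sum ho m m' := by rw [if_neg (z_add_ne_zero n ho m m')]

lemma InSl.mix {H H' : A n → ℝ} {h3 h3' : ℤ → ℝ} (h : InSl n H h3) (h' : InSl n H' h3') (a : ℝ)
    (ha : 0 ≤ a) (ha1 : a ≤ 1) :
    InSl n (fun x => a * H x + (1 - a) * H' x) (fun l => a * h3 l + (1 - a) * h3' l) where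
  pd := (h.pd.smul a ha).add (h'.pd.smul (1 - a) (sub_nonneg.mpr ha1))
  zero := by rw [h.zero, h'.zero]; ring
  one m := by rw [h.one, h'.one]; ring
  diff m m' hm := by rw [h.diff m m' hm, h'.diff m m' hm]; ring
  sum ho m m' := by rw [h.sum ho, h'.sum ho]; ring

/-- scaling down the values of a slice function -/
lemma InSl.scale (hn : 0 < n) {H : A n → ℝ} {h3 : ℤ → ℝ} (h : InSl n H h3) (a : ℝ)
    (ha : 0 ≤ a) (ha1 : a ≤ 1) : ∃ H', InSl n H' (fun l => a * h3 l) := by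
  have h1 := h.mix (insl_delta n hn) a ha ha1
  have e : (fun l => a * h3 l + (1 - a) * 0) = fun l => a * h3 l := by
    funext l; ring
  rw [e] at h1
  exact ⟨_, h1⟩

/-- for `g = 1` the value `c2` is irrelevant -/
lemma VE.c2_one {w c0 c1 c2 : ℝ} {c3 : ℤ → ℝ} (h : VE n 1 w c0 c1 c2 c3) (c2' : ℝ) :
    VE n 1 w c0 c1 c2' c3 := by
  obtain ⟨F, hF⟩ := h
  refine ⟨F, ?_⟩
  exact ⟨hF.pd, hF.zero, hF.rr, hF.rs, fun i j hij => absurd (Subsingleton.elim i j) hij, hF.s1, hF.orr,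
    hF.ors, hF.oss, hF.er, hF.es⟩

lemma x0_VE (hX0 : S_X0) (n g n0 : ℕ) (hn : 0 < n) (h8 : ¬ 8 ∣ n) (hg : 1 ≤ g) (ho : n0 % 2 = 1)
    (h3 : 3 ≤ n0) (hgn : g ≤ n0) (t : ℝ) (ht : 0 ≤ t) :
    VE n g (t * (((n0 : ℝ) - 1) * n)) 0 0 t (fun _ => 0) := by
  obtain ⟨F, hF, _⟩ := hX0 n g n0 hn h8 hg ho h3 hgn
  have h1 : VE n g _ _ _ _ _ := ⟨F, hF⟩
  refine (h1.smul t ht).cast rfl ?_ ?_ ?_ ?_
  · ring
  · ring
  · ring
  · intro l; ring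

lemma x0_VK (hX0 : S_X0) (n g n0 : ℕ) (hn : 0 < n) (h8 : ¬ 8 ∣ n) (hg : 1 ≤ g) (ho : n0 % 2 = 1)
    (h3 : 3 ≤ n0) (hgn : g ≤ n0) (hk : ¬ 3 ∣ n ∨ ∀ a : Fin g → ℤ, ∑ i, z n (a i) ≠ 0)
    (t : ℝ) (ht : 0 ≤ t) :
    VK n g (t * (((n0 : ℝ) - 1) * n)) 0 0 t (fun _ => 0) := by
  obtain ⟨F, hF, hK⟩ := hX0 n g n0 hn h8 hg ho h3 hgn
  have h1 : VK n g _ _ _ _ _ := ⟨F, hF, hK hk⟩
  refine (h1.smul t ht).cast rfl ?_ ?_ ?_ ?_
  · ring
  · ring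
  · ring
  · intro l; ring

end PathMix2
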