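import Pool.Agent.PathMix2.Stmts
set_option autoImplicit false

/-! The extension theorem: the relations between the `n`-th roots of unity are generated by the
sums over the cosets of the subgroups of prime order. -/

open Finset Polynomial

namespace PathMix2

namespace ExtAux

/-- a geometric sum in `X ^ d` is divisible by the cyclotomic polynomial of index `d * k` -/
lemma dvd_geom {d k : ℕ} (hd : 0 < d) (hk : 1 < k) :
    cyclotomic (d * k) ℤ ∣ ∑ i ∈ range k, ((X : ℤ[X]) ^ d) ^ i := by
  have h1 : (X ^ d - 1 : ℤ[X]) * cyclotomic (d * k) ℤ ∣ X ^ (d * k) - 1 :=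
    X_pow_sub_one_mul_cyclotomic_dvd_X_pow_sub_one_of_dvd ℤ
      (Nat.mem_properDivisors.2 ⟨dvd_mul_right d k, by nlinarith⟩)
  have h2 : (X ^ (d * k) - 1 : ℤ[X]) = (X ^ d - 1) * ∑ i ∈ range k, ((X : ℤ[X]) ^ d) ^ i := by
    rw [mul_comm (X ^ d - 1 : ℤ[X]), geom_sum_mul, ← pow_mul]
  rw [h2] at h1
  have h3 : (X ^ d - 1 : ℤ[X]) ≠ 0 := (monic_X_pow_sub_C (1 : ℤ) hd.ne').ne_zero
  exact (mul_dvd_mul_iff_left h3).1 h1

/-- two cyclotomic polynomials are comaximal over `ℤ` -/
lemma coprime_aux {d k p : ℕ} (hd : 0 < d) (hk : 1 < k) (hp : p.Prime) (hpk : ¬ p ∣ k) :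
    IsCoprime (cyclotomic (d * k) ℤ) (cyclotomic (d * p) ℤ) := by
  set J : Ideal ℤ[X] := Ideal.span {cyclotomic (d * k) ℤ, cyclotomic (d * p) ℤ} with hJ
  have hm1 : ∀ P : ℤ[X], cyclotomic (d * k) ℤ ∣ P → Ideal.Quotient.mk J P = 0 := by
    intro P hP
    rw [Ideal.Quotient.eq_zero_iff_mem]
    exact J.mem_of_dvd hP (Ideal.subset_span (by simp))
  have hm2 : ∀ P : ℤ[X], cyclotomic (d * p) ℤ ∣ P → Ideal.Quotient.mk J P = 0 := by
    intro P hP
    rw [Ideal.Quotient.eq_zero_iff_mem]
    exact J.mem_of_dvd hP (Ideal.subset_span (by simp))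
  set β := Ideal.Quotient.mk J (X ^ d) with hβ
  have h1 : β ^ k = 1 := by
    have := hm1 _ (cyclotomic.dvd_X_pow_sub_one (d * k) ℤ)
    rw [map_sub, map_one, pow_mul, map_pow, sub_eq_zero] at this
    exact this
  have h2 : β ^ p = 1 := by
    have := hm2 _ (cyclotomic.dvd_X_pow_sub_one (d * p) ℤ)
    rw [map_sub, map_one, pow_mul, map_pow, sub_eq_zero] at this
    exact this
  have hc : Nat.gcd k p = 1 := ((Nat.Prime.coprime_iff_not_dvd hp).2 hpk).symm
  have h3 : β = 1 := by
    have := pow_gcd_eq_one.2 ⟨h1, h2⟩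
    rwa [hc, pow_one] at this
  have h4 : ((k : ℤ) : ℤ[X] ⧸ J) = 0 := by
    have := hm1 _ (dvd_geom hd hk)
    rw [map_sum] at this
    simp only [map_pow _ (X ^ d), ← hβ, h3, one_pow] at this
    simpa using this
  have h5 : ((p : ℤ) : ℤ[X] ⧸ J) = 0 := by
    have := hm2 _ (dvd_geom hd hp.one_lt)
    rw [map_sum] at this
    simp only [map_pow _ (X ^ d), ← hβ, h3, one_pow] at this
    simpa using this
  obtain ⟨a, b, hab⟩ := (Nat.isCoprime_iff_coprime.2 (Nat.coprime_iff_gcd_eq_one.2 hc) :
    IsCoprime (k : ℤ) (p : ℤ))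
  have h6 : (Ideal.Quotient.mk J 1 : ℤ[X] ⧸ J) = 0 := by
    have := congrArg (fun x : ℤ => (x : ℤ[X] ⧸ J)) hab
    simp only [Int.cast_add, Int.cast_mul, h4, h5, mul_zero, add_zero, Int.cast_one] at this
    rw [map_one, ← this]
  rw [Ideal.Quotient.eq_zero_iff_mem, hJ, Ideal.mem_span_pair] at h6
  exact h6

/-- the ideal generated by the prime line sums -/
noncomputable def I (n : ℕ) : Ideal ℤ[X] := Ideal.span ({X ^ n - 1} ∪
  {P | ∃ q : ℕ, q.Prime ∧ q ∣ n ∧ P = ∑ j ∈ range q, X ^ (j * (n / q))})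

lemma expand_mem {n p : ℕ} (P : ℤ[X]) (hP : P ∈ I n) : expand ℤ p P ∈ I (n * p) := by
  have h : I n ≤ (I (n * p)).comap (expand ℤ p : ℤ[X] →+* ℤ[X]) := by
    rw [I, Ideal.span_le]
    rintro Q (hQ | ⟨q, hq, hqn, hQ⟩)
    · rw [Set.mem_singleton_iff] at hQ
      subst hQ
      refine Ideal.subset_span (Or.inl ?_)
      rw [Set.mem_singleton_iff]
      simp only [RingHom.coe_coe, map_sub, map_pow, expand_X, map_one]
      rw [← pow_mul, mul_comm p n]
    · refine Ideal.subset_span (Or.inr ⟨q, hq, hqn.mul_right p, ?_⟩)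
      subst hQ
      simp only [RingHom.coe_coe, map_sum, map_pow, expand_X]
      refine sum_congr rfl fun j _ => ?_
      obtain ⟨c, rfl⟩ := hqn
      rw [← pow_mul, mul_assoc, Nat.mul_div_cancel_left _ hq.pos, Nat.mul_div_cancel_left _ hq.pos]
      congr 1
      ring
  exact h hP

/-- the cyclotomic polynomial is a combination of the prime line sums -/
lemma cyclotomic_mem (n : ℕ) : 0 < n → cyclotomic n ℤ ∈ I n := by
  induction n using Nat.strong_induction_on with
  | _ n ih =>
    intro hn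
    by_cases h1 : n = 1
    · subst h1
      rw [cyclotomic_one]
      refine Ideal.subset_span (Or.inl ?_)
      simp
    · have hp := Nat.minFac_prime h1
      obtain ⟨k, hk⟩ := Nat.minFac_dvd n
      obtain ⟨p, hpd⟩ : ∃ p, p = n.minFac := ⟨_, rfl⟩
      rw [← hpd] at hk hp
      have hkn : n = k * p := by rw [hk, mul_comm]
      have hk0 : 0 < k := by
        rcases Nat.eq_zero_or_pos k with h | h
        · rw [h] at hkn; omega
        · exact h
      have hlt : k < n := by
        rw [hkn]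
        have := hp.two_le
        nlinarith
      have ihk := ih k hlt hk0
      rw [hkn]
      by_cases hpk : p ∣ k
      · rw [← cyclotomic_expand_eq_cyclotomic hp hpk ℤ]
        exact expand_mem _ ihk
      · have e1 := cyclotomic_expand_eq_cyclotomic_mul hp hpk ℤ
        have m1 : cyclotomic (k * p) ℤ * cyclotomic k ℤ ∈ I (k * p) := by
          rw [← e1]
          exact expand_mem _ ihk
        -- the line sum of `p`
        have m2 : ∑ j ∈ range p, (X : ℤ[X]) ^ (j * k) ∈ I (k * p) := by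
          refine Ideal.subset_span (Or.inr ⟨p, hp, dvd_mul_left p k, ?_⟩)
          rw [Nat.mul_div_cancel _ hp.pos]
        have e2 : (∏ d ∈ k.divisors, cyclotomic (d * p) ℤ) * (X ^ k - 1) = X ^ (k * p) - 1 := by
          rw [← prod_cyclotomic_eq_X_pow_sub_one hk0 ℤ, ← prod_mul_distrib]
          have e3 : ∀ d ∈ k.divisors, cyclotomic (d * p) ℤ * cyclotomic d ℤ =
              expand ℤ p (cyclotomic d ℤ) := by
            intro d hd
            refine (cyclotomic_expand_eq_cyclotomic_mul hp (fun h => hpk ?_) ℤ).symm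
            exact h.trans (Nat.dvd_of_mem_divisors hd)
          rw [prod_congr rfl e3, ← map_prod, prod_cyclotomic_eq_X_pow_sub_one hk0 ℤ]
          simp only [map_sub, map_pow, expand_X, map_one]
          rw [← pow_mul, mul_comm p k]
        have e4 : ∏ d ∈ k.divisors, cyclotomic (d * p) ℤ = ∑ j ∈ range p, (X : ℤ[X]) ^ (j * k) := by
          have h3 : (X ^ k - 1 : ℤ[X]) ≠ 0 := (monic_X_pow_sub_C (1 : ℤ) hk0.ne').ne_zero
          refine mul_right_cancel₀ h3 ?_
          rw [e2]
          have := geom_sum_mul ((X : ℤ[X]) ^ k) p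
          rw [← pow_mul] at this
          rw [← this]
          congr 1
          refine sum_congr rfl fun j _ => ?_
          rw [← pow_mul, mul_comm]
        rw [← Nat.insert_self_properDivisors hk0.ne', prod_insert Nat.self_notMem_properDivisors] at e4
        have hcop : IsCoprime (cyclotomic k ℤ) (∏ d ∈ k.properDivisors, cyclotomic (d * p) ℤ) := by
          refine IsCoprime.prod_right fun d hd => ?_
          obtain ⟨⟨c, hc⟩, hdk⟩ := Nat.mem_properDivisors.1 hd
          have hd0 : 0 < d := by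
            rcases Nat.eq_zero_or_pos d with h | h
            · rw [h] at hc; omega
            · exact h
          have hc1 : 1 < c := by
            by_contra h
            have : c = 0 ∨ c = 1 := by omega
            rcases this with h | h
            · rw [h] at hc; omega
            · rw [h] at hc; omega
          rw [hc]
          refine coprime_aux hd0 hc1 hp fun h => hpk ?_
          rw [hc]
          exact h.mul_left d
        obtain ⟨a, b, hab⟩ := hcop
        have e5 : cyclotomic (k * p) ℤ = a * (cyclotomic (k * p) ℤ * cyclotomic k ℤ) +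
            b * ∑ j ∈ range p, (X : ℤ[X]) ^ (j * k) := by
          rw [← e4]
          linear_combination (-(cyclotomic (k * p) ℤ)) * hab
        rw [e5]
        exact Ideal.add_mem _ (Ideal.mul_mem_left _ _ m1) (Ideal.mul_mem_left _ _ m2)

section

variable {T : Type} [AddCommGroup T] (f : ℤ → T)

/-- the linear map with `X ^ m ↦ f m` -/
noncomputable def L : ℤ[X] →ₗ[ℤ] T := (Polynomial.basisMonomials ℤ).constr ℤ (fun m : ℕ => f m)

lemma L_X_pow (m : ℕ) : L f (X ^ m) = f m := by
  have := (Polynomial.basisMonomials ℤ).constr_basis ℤ (fun m : ℕ => f m) m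
  rw [coe_basisMonomials] at this
  rw [X_pow_eq_monomial]
  exact this

lemma L_mul_zero {P : ℤ[X]} (h : ∀ m : ℕ, L f (X ^ m * P) = 0) (Q : ℤ[X]) : L f (Q * P) = 0 := by
  induction Q using Polynomial.induction_on' with
  | add p q hp hq => rw [add_mul, map_add, hp, hq, add_zero]
  | monomial m a =>
    have e : monomial m a * P = a • (X ^ m * P) := by
      rw [← smul_mul_assoc, X_pow_eq_monomial, smul_monomial, smul_eq_mul, mul_one]
    rw [e, map_smul, h, smul_zero]

lemma L_I {n : ℕ} (hf : ZL n f) {P : ℤ[X]} (hP : P ∈ I n) : L f P = 0 := by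
  have key : ∀ Q : ℤ[X], ∀ R : ℤ[X], R ∈ I n → L f (Q * R) = 0 := by
    intro Q R hR
    refine Submodule.span_induction (p := fun R _ => ∀ Q : ℤ[X], L f (Q * R) = 0) ?_ ?_ ?_ ?_ hR Q
    · rintro R (hR | ⟨q, hq, hqn, hR⟩)
      · rw [Set.mem_singleton_iff] at hR
        subst hR
        refine L_mul_zero f fun m => ?_
        rw [mul_sub, mul_one, ← pow_add, map_sub, L_X_pow, L_X_pow, sub_eq_zero]
        push_cast
        exact hf.per m
      · subst hR
        refine L_mul_zero f fun m => ?_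
        rw [mul_sum, map_sum, ← hf.line q hq hqn m]
        refine sum_congr rfl fun j _ => ?_
        rw [← pow_add, L_X_pow]
        push_cast
        rfl
    · intro Q; rw [mul_zero, map_zero]
    · intro x y _ _ hx hy Q; rw [mul_add, map_add, hx, hy, add_zero]
    · intro a x _ hx Q; rw [smul_eq_mul, ← mul_assoc]; exact hx _
  have := key 1 P hP
  rwa [one_mul] at this

end

lemma zt_pow (n : ℕ) (k : ℕ) : (zt n 1) ^ k = zt n k := by
  induction k with
  | zero => rw [pow_zero, Nat.cast_zero, zt_zero]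
  | succ k ih => rw [pow_succ, ih, ← zt_add]; push_cast; rfl

lemma prim {n : ℕ} (hn : 0 < n) : IsPrimitiveRoot (zt n 1) n := by
  refine ⟨?_, fun l hl => ?_⟩
  · rw [zt_pow, zt_eq_one_iff n hn]
  · rw [zt_pow, zt_eq_one_iff n hn] at hl
    exact_mod_cast hl

lemma f_mod {T : Type} [AddCommGroup T] {f : ℤ → T} {n : ℕ} (hf : ZL n f) (m : ℤ) (k : ℤ) :
    f (m + n * k) = f m := by
  induction k with
  | zero => simp
  | succ i ih => rw [← ih, mul_add, mul_one, ← add_assoc, hf.per]
  | pred i ih => rw [← ih, ← hf.per (m + n * (-(i : ℤ) - 1))]; congr 1; ring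

/-- evaluation -/
noncomputable def ev (n : ℕ) : ℤ[X] →+ A n where
  toFun P := ⟨aeval (zt n 1) P, by
    induction P using Polynomial.induction_on' with
    | add p q hp hq => rw [map_add]; exact (A n).add_mem hp hq
    | monomial m a =>
      rw [aeval_monomial, zt_pow]
      simp only [algebraMap_int_eq, eq_intCast]
      rw [← zsmul_eq_mul]
      exact (A n).zsmul_mem (z n m).2 a⟩
  map_zero' := by ext1; simp
  map_add' p q := by ext1; simp

lemma ev_X_pow (n m : ℕ) : ev n (X ^ m) = z n m := by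
  ext1
  show aeval (zt n 1) ((X : ℤ[X]) ^ m) = zt n m
  rw [map_pow, aeval_X, zt_pow]

lemma exists_nat {n : ℕ} (hn : 0 < n) (m : ℤ) : ∃ (k : ℕ) (c : ℤ), m = k + n * c := by
  have h0 : (n : ℤ) ≠ 0 := by positivity
  refine ⟨(m % n).toNat, m / n, ?_⟩
  rw [Int.toNat_of_nonneg (Int.emod_nonneg m h0)]
  exact (Int.emod_add_mul_ediv m n).symm

lemma z_mod {n : ℕ} (hn : 0 < n) (m k : ℤ) : z n (m + n * k) = z n m := by
  rw [z_eq_iff n hn]
  exact ⟨k, by ring⟩

lemma ev_surj {n : ℕ} (hn : 0 < n) : Function.Surjective (ev n) := by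
  intro x
  induction x using A.induction with
  | hz m =>
    obtain ⟨k, c, rfl⟩ := exists_nat hn m
    exact ⟨X ^ k, by rw [ev_X_pow, z_mod hn]⟩
  | h0 => exact ⟨0, map_zero _⟩
  | hadd x y hx hy =>
    obtain ⟨P, rfl⟩ := hx
    obtain ⟨Q, rfl⟩ := hy
    exact ⟨P + Q, map_add _ _ _⟩
  | hneg x hx =>
    obtain ⟨P, rfl⟩ := hx
    exact ⟨-P, map_neg _ _⟩

end ExtAux

open ExtAux in
/-- extension theorem -/
theorem ext : S_EXT := by
  intro n hn T _ f hf
  have hker : (ev n).ker ≤ (L f).toAddMonoidHom.ker := by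
    intro P hP
    rw [AddMonoidHom.mem_ker] at hP ⊢
    have h1 : aeval (zt n 1) P = 0 := congrArg Subtype.val hP
    have h2 : cyclotomic n ℤ ∣ P := by
      rw [cyclotomic_eq_minpoly (prim hn) hn]
      exact minpoly.isIntegrallyClosed_dvd ((prim hn).isIntegral hn) h1
    exact L_I f hf ((I n).mem_of_dvd h2 (cyclotomic_mem n hn))
  refine ⟨(ev n).liftOfSurjective (ev_surj hn) ⟨(L f).toAddMonoidHom, hker⟩, fun m => ?_⟩
  obtain ⟨k, c, rfl⟩ := exists_nat hn m
  rw [z_mod hn, f_mod hf, ← ev_X_pow]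
  have h := AddMonoidHom.liftOfRightInverse_comp_apply (ev n)
    (Function.surjInv (ev_surj hn)) (Function.rightInverse_surjInv (ev_surj hn))
    ⟨(L f).toAddMonoidHom, hker⟩ (X ^ k)
  exact h.trans (L_X_pow f k)

end PathMix2
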