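import Pool.Agent.PathMix2.Stmts
import Pool.Agent.PathMix.Interior
import Pool.Agent.PathMix.Yes
set_option autoImplicit false

/-! The end of the argument: from the positive definite function to the density. -/

open Finset

namespace PathMix2

lemma coe_tt_eq_th (n p : ℕ) :
    ((tt (2 * (n + 1)) p : A (2 * (n + 1))) : ℂ) = ((PathMix.th n p : ℝ) : ℂ) := by
  rw [tt_coe_eq]
  congr 1
  unfold PathMix.th
  congr 2
  push_cast
  have : ((n : ℝ) + 1) ≠ 0 := by positivity
  field_simp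

theorem fin (hl : S_LINK) : S_FIN := by
  classical
  intro n hn ⟨F, hF, hF0, hFv⟩
  have hn1 : (0 : ℝ) < (n : ℝ) - 1 := by
    have : (4 : ℝ) ≤ n := by exact_mod_cast hn
    linarith
  have hn0 : (0 : ℝ) < (n : ℝ) := by linarith
  have hF0' : F 0 = (n : ℝ) - 1 := by
    rw [hF0]; push_cast; ring
  -- the frequencies
  set Pr : Finset (ℕ × ℕ) := ((Finset.range (n + 1)) ×ˢ (Finset.range (n + 1))).filter
    (fun x => 1 ≤ x.1 ∧ x.1 < x.2) with hPr
  have hPm : ∀ p q, 1 ≤ p → p < q → q ≤ n → (p, q) ∈ Pr := by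
    intro p q h1 h2 h3
    rw [hPr, Finset.mem_filter, Finset.mem_product, Finset.mem_range, Finset.mem_range]
    simp only
    omega
  have hPm' : ∀ x ∈ Pr, 1 ≤ x.1 ∧ x.1 < x.2 ∧ x.2 ≤ n := by
    intro x hx
    rw [hPr, Finset.mem_filter, Finset.mem_product, Finset.mem_range, Finset.mem_range] at hx
    omega
  set W : Finset ℝ := Pr.image (fun x => PathMix.th n x.1 - PathMix.th n x.2) with hW
  have hex : ∀ w : W, ∃ x ∈ Pr, PathMix.th n x.1 - PathMix.th n x.2 = w := by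
    intro w
    exact Finset.mem_image.1 (hW ▸ w.2 : (w : ℝ) ∈ Pr.image (fun x => PathMix.th n x.1 - PathMix.th n x.2))
  choose rep hrepP hrepw using hex
  have hWpos : ∀ w ∈ W, (0 : ℝ) < w := by
    intro w hw
    rw [hW, Finset.mem_image] at hw
    obtain ⟨x, hx, rfl⟩ := hw
    obtain ⟨h1, h2, h3⟩ := hPm' x hx
    have := PathMix.th_lt n x.1 x.2 h2 (by omega)
    linarith
  set a : W → A (2 * (n + 1)) := fun w =>
    tt (2 * (n + 1)) ((rep w).1 : ℕ) - tt (2 * (n + 1)) ((rep w).2 : ℕ) with ha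
  have haw : ∀ w : W, ((a w : A (2 * (n + 1))) : ℂ) = ((w : ℝ) : ℂ) := by
    intro w
    rw [ha]
    simp only [AddSubgroup.coe_sub]
    rw [coe_tt_eq_th, coe_tt_eq_th, ← Complex.ofReal_sub, hrepw w]
  have hcl := hl (2 * (n + 1)) (fun x => (1 / ((n : ℝ) - 1)) * F x)
    (hF.smul _ (by positivity)) (by rw [hF0']; field_simp) W a haw
  set y : W → ℝ := fun w => PathMix.val n (rep w).1 (rep w).2 with hy
  have hFa : ∀ p q : ℕ, 1 ≤ p → p < q → q ≤ n →
      F (tt (2 * (n + 1)) (p : ℕ) - tt (2 * (n + 1)) (q : ℕ)) = n * PathMix.val n p q := by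
    intro p q h1 h2 h3
    rw [hFv p q h1 (by omega) (by omega) (by omega) (by omega)]
    unfold PathMix.val
    split_ifs
    · field_simp
    · ring
  have hyc : ((n : ℝ) / ((n : ℝ) - 1)) • y ∈ closure (PathMix.momSet W) := by
    have h1 : ((n : ℝ) / ((n : ℝ) - 1)) • y = fun w => (1 / ((n : ℝ) - 1)) * F (a w) := by
      ext w
      obtain ⟨g1, g2, g3⟩ := hPm' _ (hrepP w)
      simp only [Pi.smul_apply, smul_eq_mul, ha, hy]
      rw [hFa _ _ g1 g2 g3]
      ring
    rw [h1]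
    exact hcl
  have hc : 1 < (n : ℝ) / ((n : ℝ) - 1) := by
    rw [one_lt_div hn1]
    linarith
  obtain ⟨f, hf, hfw⟩ := PathMix.interior_lemma W hWpos y _ hc hyc
  refine ⟨f, hf, (PathMix.criterion n (by omega) f hf).mpr ?_⟩
  have main : ∀ p q : ℕ, 1 ≤ p → p < q → q ≤ n →
      PathMix.mom f (PathMix.th n p - PathMix.th n q) = PathMix.val n p q := by
    intro p q hp hpq hq
    have hw : PathMix.th n p - PathMix.th n q ∈ W := by
      rw [hW, Finset.mem_image]
      exact ⟨(p, q), hPm p q hp hpq hq, rfl⟩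
    have h1 := hfw ⟨_, hw⟩
    simp only at h1
    rw [h1]
    simp only [hy]
    obtain ⟨g1, g2, g3⟩ := hPm' _ (hrepP ⟨_, hw⟩)
    have h2 := hrepw ⟨_, hw⟩
    simp only at h2
    set x := rep ⟨_, hw⟩ with hx
    have h3 : tt (2 * (n + 1)) (x.1 : ℕ) - tt (2 * (n + 1)) (x.2 : ℕ) =
        tt (2 * (n + 1)) (p : ℕ) - tt (2 * (n + 1)) (q : ℕ) := by
      apply Subtype.ext
      simp only [AddSubgroup.coe_sub]
      rw [coe_tt_eq_th, coe_tt_eq_th, coe_tt_eq_th, coe_tt_eq_th, ← Complex.ofReal_sub,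
        ← Complex.ofReal_sub, h2]
    have h4 := hFa x.1 x.2 g1 g2 g3
    rw [h3, hFa p q hp hpq hq] at h4
    exact (mul_left_cancel₀ hn0.ne' h4).symm
  intro p q hp hp' hq hq' hpq
  rcases lt_or_gt_of_ne hpq with h | h
  · exact main p q hp h hq'
  · have h1 := main q p hq h hp'
    rw [← PathMix.mom_neg, show -(PathMix.th n p - PathMix.th n q) =
      PathMix.th n q - PathMix.th n p by ring, h1]
    unfold PathMix.val
    simp only [eq_comm]

end PathMix2
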