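import Pool.Agent.PathMix2.Stmts
set_option autoImplicit false

/-! Module PM_GG: for odd `M` a homomorphism `A M →+ B`, `|B| = M`, injective on the roots of unity
and odd. -/

open Finset

namespace PathMix2

/-- the line sums of the roots of unity vanish -/
lemma gg_zt_line (n : ℕ) (hn : 0 < n) (p : ℕ) (hp : p.Prime) (hpn : p ∣ n) (m : ℤ) :
    ∑ j ∈ range p, zt n (m + (j : ℤ) * ((n / p : ℕ) : ℤ)) = 0 := by
  obtain ⟨d, rfl⟩ := hpn
  have hd : 0 < d := Nat.pos_of_mul_pos_left hn
  have hdiv : p * d / p = d := Nat.mul_div_cancel_left d hp.pos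
  rw [hdiv]
  set w := zt (p * d) d with hw
  have hpow : ∀ j : ℕ, zt (p * d) ((j : ℤ) * (d : ℤ)) = w ^ j := by
    intro j
    induction j with
    | zero => simp [zt_zero]
    | succ j ih =>
      rw [pow_succ, ← ih, hw, ← zt_add]
      congr 1
      push_cast
      ring
  have h1 : w ^ p = 1 := by
    rw [← hpow, zt_eq_one_iff _ hn]
    exact ⟨1, by push_cast; ring⟩
  have h2 : w ≠ 1 := by
    rw [hw, Ne, zt_eq_one_iff _ hn]
    intro h
    have h3 : (p * d : ℕ) ∣ d := by exact_mod_cast h
    have h4 := Nat.le_of_dvd hd h3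
    have h5 := hp.two_le
    nlinarith
  have h3 : ∑ j ∈ range p, w ^ j = 0 := by
    have := mul_geom_sum w p
    rw [h1, sub_self] at this
    rcases mul_eq_zero.mp this with h | h
    · exact absurd (sub_eq_zero.mp h) h2
    · exact h
  rw [show (0 : ℂ) = zt (p * d) m * 0 by ring, ← h3, mul_sum]
  refine sum_congr rfl fun j _ => ?_
  rw [zt_add, hpow]

lemma gg_z_line (n : ℕ) (hn : 0 < n) (p : ℕ) (hp : p.Prime) (hpn : p ∣ n) (m : ℤ) :
    ∑ j ∈ range p, z n (m + (j : ℤ) * ((n / p : ℕ) : ℤ)) = 0 := by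
  apply Subtype.ext
  rw [AddSubgroup.val_finsetSum]
  exact gg_zt_line n hn p hp hpn m

/-- the array: even, values `± 2 ^ k`, vanishing line sums -/
lemma gg_arr (hr : S_RHO) (n : ℕ) (hn : n % 2 = 1) : ∃ r : ℤ → ℤ, ZL n r ∧
    (∀ m, r (-m) = r m) ∧ ∀ m, ∃ k : ℕ, r m = 2 ^ k ∨ r m = -2 ^ k := by
  obtain ⟨ρ, hρ⟩ := hr n (by omega) (by omega)
  refine ⟨fun m => ρ (z n m), ⟨?_, ?_⟩, ?_, hρ.unit⟩
  · intro m
    beta_reduce
    rw [(z_eq_iff n (by omega) (m + n) m).mpr ⟨1, by ring⟩]
  · intro q hq hqn m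
    beta_reduce
    rw [← map_sum, gg_z_line n (by omega) q hq hqn, map_zero]
  · intro m
    beta_reduce
    rw [hρ.refl, if_neg]
    omega

lemma gg_per {T : Type} [AddCommGroup T] {n : ℕ} {f : ℤ → T} (h : ZL n f) (m k : ℤ) :
    f (m + k * n) = f m := by
  induction k using Int.induction_on with
  | zero => simp
  | succ k ih =>
    rw [← ih, ← h.per (m + k * n)]
    congr 1
    ring
  | pred k ih =>
    rw [← ih, ← h.per (m + (-k - 1) * n)]
    congr 1
    ring

lemma gg_per_of_dvd {T : Type} [AddCommGroup T] {n : ℕ} {f : ℤ → T} (h : ZL n f) {a b : ℤ}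
    (hab : (n : ℤ) ∣ a - b) : f a = f b := by
  obtain ⟨k, hk⟩ := hab
  rw [← gg_per h b k]
  congr 1
  linarith

/-- a permuted sum over the residues -/
lemma gg_perm {T : Type} [AddCommGroup T] (p q : ℕ) (hp : p.Prime) (hpq : Nat.Coprime q p)
    (F : ℤ → T) (hF : ∀ a b : ℤ, (p : ℤ) ∣ a - b → F a = F b) :
    ∑ j ∈ range p, F ((q : ℤ) * j) = ∑ j ∈ range p, F j := by
  have hmod : ∀ x : ℕ, F ((x : ℕ) : ℤ) = F (((x % p : ℕ)) : ℤ) := by
    intro x
    apply hF
    refine ⟨((x / p : ℕ) : ℤ), ?_⟩
    have := Nat.div_add_mod x p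
    have h2 : ((p * (x / p) + x % p : ℕ) : ℤ) = (x : ℤ) := by rw [this]
    push_cast at h2 ⊢
    linarith
  have hp0 := hp.pos
  refine Finset.sum_bij' (i := fun j _ => (q * j) % p)
    (j := fun j _ => ((q : ZMod p)⁻¹ * (j : ZMod p)).val) ?_ ?_ ?_ ?_ ?_
  · intro a _
    exact mem_range.mpr (Nat.mod_lt _ hp0)
  · intro a _
    have : NeZero p := ⟨hp0.ne'⟩
    exact mem_range.mpr (ZMod.val_lt _)
  · intro a ha
    have : Fact p.Prime := ⟨hp⟩
    have h1 : (((q * a) % p : ℕ) : ZMod p) = (q : ZMod p) * a := by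
      rw [ZMod.natCast_mod, Nat.cast_mul]
    have hq0 : (q : ZMod p) ≠ 0 := by
      intro h
      rw [ZMod.natCast_eq_zero_iff] at h
      have := Nat.Coprime.eq_one_of_dvd hpq.symm h
      exact hp.one_lt.ne' this
    simp only [h1]
    rw [inv_mul_cancel_left₀ hq0, ZMod.val_natCast, Nat.mod_eq_of_lt (mem_range.mp ha)]
  · intro a ha
    have : Fact p.Prime := ⟨hp⟩
    have hq0 : (q : ZMod p) ≠ 0 := by
      intro h
      rw [ZMod.natCast_eq_zero_iff] at h
      have := Nat.Coprime.eq_one_of_dvd hpq.symm h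
      exact hp.one_lt.ne' this
    have h2 : ((q * ((q : ZMod p)⁻¹ * (a : ZMod p)).val : ℕ) : ZMod p) = (a : ZMod p) := by
      rw [Nat.cast_mul, ZMod.natCast_zmod_val, mul_inv_cancel_left₀ hq0]
    have h3 := (ZMod.natCast_eq_natCast_iff' _ _ _).mp h2
    rw [Nat.mod_eq_of_lt (mem_range.mp ha)] at h3
    exact h3
  · intro a _
    have : ((q : ℤ) * (a : ℤ)) = ((q * a : ℕ) : ℤ) := by push_cast; ring
    rw [this, hmod]

/-- the statement for functions on `ℤ` -/
def GGf (M : ℕ) : Prop := ∃ (B : Type) (_ : AddCommGroup B) (_ : Fintype B) (g : ℤ → B),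
  Fintype.card B = M ∧ ZL M g ∧ (∀ m m', g m = g m' → (M : ℤ) ∣ m - m') ∧ ∀ m, g (-m) = -g m

lemma gg_unit {q : ℕ} (hq : q.Prime) (hq2 : q % 2 = 1) {r x : ℤ} (hr : ∃ k : ℕ, r = 2 ^ k ∨ r = -2 ^ k)
    (h : (q : ℤ) ∣ x * r) : (q : ℤ) ∣ x := by
  have hqp : Prime (q : ℤ) := Nat.prime_iff_prime_int.mp hq
  rcases hqp.dvd_or_dvd h with h | h
  · exact h
  · exfalso
    obtain ⟨k, hk⟩ := hr
    have h1 : (q : ℤ) ∣ 2 ^ k := by
      rcases hk with hk | hk
      · rwa [hk] at h
      · rw [hk, dvd_neg] at h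
        exact h
    have h2 : (q : ℤ) ∣ 2 := hqp.dvd_of_dvd_pow h1
    have h3 : q ∣ 2 := by exact_mod_cast h2
    have h4 := (Nat.prime_dvd_prime_iff_eq hq Nat.prime_two).mp h3
    omega

/-- balanced quotient -/
lemma gg_bal (q h : ℕ) (hq : q = 2 * h + 1) (m y : ℤ) :
    (m + h) / q = y ↔ -(h : ℤ) ≤ m - q * y ∧ m - q * y ≤ h := by
  have hq0 : (0 : ℤ) < q := by omega
  have h1 := Int.emod_add_mul_ediv (m + h) q
  have h2 := Int.emod_nonneg (m + h) hq0.ne'
  have h3 := Int.emod_lt_of_pos (m + h) hq0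
  constructor
  · rintro rfl
    constructor
    · linarith
    · have : (q : ℤ) = 2 * h + 1 := by exact_mod_cast hq
      linarith
  · rintro ⟨h4, h5⟩
    have h6 : (q : ℤ) = 2 * h + 1 := by exact_mod_cast hq
    rw [Int.ediv_eq_iff_of_pos hq0]
    constructor <;> linarith

lemma gg_caseA (M q h : ℕ) (hq : q.Prime) (hqh : q = 2 * h + 1) (hM : M % 2 = 1) (hqM : q ∣ M)
    (hr : S_RHO) (hM' : GGf M) : GGf (q * M) := by
  obtain ⟨B, i1, i2, g, hc, hz, hi, ho⟩ := hM'
  obtain ⟨r, rz, re, ru⟩ := gg_arr hr M hM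
  have : NeZero q := ⟨hq.pos.ne'⟩
  have hq0 : (0 : ℤ) < q := by exact_mod_cast hq.pos
  set Y : ℤ → ℤ := fun m => (m + h) / q with hY
  have hYs : ∀ m k : ℤ, Y (m + q * k) = Y m + k := by
    intro m k
    rw [hY]
    beta_reduce
    rw [show m + (q : ℤ) * k + h = m + h + q * k by ring, Int.add_mul_ediv_left _ _ hq0.ne']
  have hYn : ∀ m : ℤ, Y (-m) = -Y m := by
    intro m
    rw [hY]
    beta_reduce
    rw [gg_bal q h hqh]
    have := (gg_bal q h hqh m ((m + h) / q)).mp rfl
    constructor <;> linarith [this.1, this.2]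
  refine ⟨B × ZMod q, inferInstance, inferInstance,
    fun m => (g (Y m), (((m - q * Y m) * r (Y m) : ℤ) : ZMod q)), ?_, ⟨?_, ?_⟩, ?_, ?_⟩
  · rw [Fintype.card_prod, hc, ZMod.card, mul_comm]
  · intro m
    beta_reduce
    have e : ((q * M : ℕ) : ℤ) = q * (M : ℤ) := by push_cast; ring
    rw [e, hYs, hz.per, rz.per]
    congr 3
    ring
  · intro p hp hpM m
    beta_reduce
    have hpM' : p ∣ M := by
      rcases (Nat.Prime.dvd_mul hp).mp hpM with h1 | h1
      · rw [(Nat.prime_dvd_prime_iff_eq hp hq).mp h1]; exact hqM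
      · exact h1
    have e : ∀ j : ℕ, m + (j : ℤ) * ((q * M / p : ℕ) : ℤ) = m + q * ((j : ℤ) * ((M / p : ℕ) : ℤ)) := by
      intro j
      rw [Nat.mul_div_assoc q hpM']
      push_cast
      ring
    simp only [e, hYs]
    apply Prod.ext
    · rw [Prod.fst_sum]
      exact hz.line p hp hpM' (Y m)
    · rw [Prod.snd_sum]
      beta_reduce
      have e2 : ∀ j : ℕ, (((m + q * ((j : ℤ) * ((M / p : ℕ) : ℤ)) - q * (Y m + (j : ℤ) * ((M / p : ℕ) : ℤ))) *
          r (Y m + (j : ℤ) * ((M / p : ℕ) : ℤ)) : ℤ) : ZMod q) =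
          (((m - q * Y m) * r (Y m + (j : ℤ) * ((M / p : ℕ) : ℤ)) : ℤ) : ZMod q) := by
        intro j
        congr 2
        ring
      simp only [e2]
      rw [← Int.cast_sum, ← mul_sum, rz.line p hp hpM' (Y m), mul_zero, Int.cast_zero]
      rfl
  · intro m m' hmm
    beta_reduce at hmm
    have h1 := congrArg Prod.fst hmm
    have h2 := congrArg Prod.snd hmm
    simp only at h1 h2
    have h3 := hi _ _ h1
    have h4 : r (Y m) = r (Y m') := gg_per_of_dvd rz h3
    rw [← h4, ZMod.intCast_eq_intCast_iff_dvd_sub, ← sub_mul] at h2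
    have h5 := gg_unit hq (by omega) (ru (Y m)) h2
    have h6 := (gg_bal q h hqh m (Y m)).mp rfl
    have h7 := (gg_bal q h hqh m' (Y m')).mp rfl
    have h8 : (m' - q * Y m') - (m - q * Y m) = 0 := by
      obtain ⟨k, hk⟩ := h5
      have hqi : (q : ℤ) = 2 * h + 1 := by exact_mod_cast hqh
      have hk1 : k < 1 := by
        by_contra hcon
        have : (q : ℤ) * 1 ≤ q * k := mul_le_mul_of_nonneg_left (by omega) hq0.le
        linarith [h6.1, h7.2]
      have hk2 : -1 < k := by
        by_contra hcon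
        have : (q : ℤ) * k ≤ q * (-1) := mul_le_mul_of_nonneg_left (by omega) hq0.le
        linarith [h6.2, h7.1]
      have hk0 : k = 0 := by omega
      rw [hk, hk0, mul_zero]
    obtain ⟨k, hk⟩ := h3
    refine ⟨k, ?_⟩
    have : m - m' = q * (Y m - Y m') := by linarith
    rw [this, hk]
    push_cast
    ring
  · intro m
    beta_reduce
    rw [hYn, ho, re]
    apply Prod.ext
    · rfl
    · change _ = -(((m - q * Y m) * r (Y m) : ℤ) : ZMod q)
      push_cast
      ring

lemma gg_caseB (M q : ℕ) (hq : q.Prime) (hq2 : q % 2 = 1) (hM : M % 2 = 1) (hqM : ¬ q ∣ M)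
    (hcop : Nat.Coprime (q - 1) M) (hr : S_RHO) (hM' : GGf M) : GGf (q * M) := by
  obtain ⟨B, i1, i2, g, hc, hz, hi, ho⟩ := hM'
  obtain ⟨r, rz, re, ru⟩ := gg_arr hr M hM
  have : NeZero q := ⟨hq.pos.ne'⟩
  have : Fact q.Prime := ⟨hq⟩
  have hqM2 : Nat.Coprime q M := (Nat.Prime.coprime_iff_not_dvd hq).mpr hqM
  set c : ℤ → ℤ := fun m => if (q : ℤ) ∣ m then 1 - q else 1 with hcdef
  have hcs : ∀ a b : ℤ, (q : ℤ) ∣ a - b → c a = c b := by
    intro a b hab
    rw [hcdef]
    beta_reduce
    have : (q : ℤ) ∣ a ↔ (q : ℤ) ∣ b := by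
      constructor
      · intro h
        have := dvd_sub h hab
        rwa [sub_sub_cancel] at this
      · intro h
        have := dvd_add hab h
        rwa [sub_add_cancel] at this
    simp only [this]
  refine ⟨B × ZMod q, inferInstance, inferInstance,
    fun m => (c m • g m, ((m * r m : ℤ) : ZMod q)), ?_, ⟨?_, ?_⟩, ?_, ?_⟩
  · rw [Fintype.card_prod, hc, ZMod.card, mul_comm]
  · intro m
    beta_reduce
    have e1 : g (m + (q * M : ℕ)) = g m := gg_per_of_dvd hz ⟨q, by push_cast; ring⟩
    have e2 : r (m + (q * M : ℕ)) = r m := gg_per_of_dvd rz ⟨q, by push_cast; ring⟩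
    have e3 : c (m + (q * M : ℕ)) = c m := hcs _ _ ⟨M, by push_cast; ring⟩
    rw [e1, e2, e3]
    congr 1
    push_cast
    rw [ZMod.natCast_self]
    ring
  · intro p hp hpM m
    beta_reduce
    by_cases hpq : p = q
    · subst hpq
      rw [Nat.mul_div_cancel_left M hp.pos]
      have e1 : ∀ j : ℕ, g (m + (j : ℤ) * (M : ℤ)) = g m := fun j => gg_per hz m j
      have e2 : ∀ j : ℕ, r (m + (j : ℤ) * (M : ℤ)) = r m := fun j => gg_per rz m j
      simp only [e1, e2]
      apply Prod.ext
      · rw [Prod.fst_sum]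
        beta_reduce
        rw [← Finset.sum_smul]
        have : ∑ j ∈ range p, c (m + (j : ℤ) * (M : ℤ)) = 0 := by
          -- exactly one j with p ∣ m + j M
          have h1 : ∀ j : ℕ, c (m + (j : ℤ) * (M : ℤ)) =
              1 - (p : ℤ) * (if (p : ℤ) ∣ m + (j : ℤ) * (M : ℤ) then 1 else 0) := by
            intro j
            rw [hcdef]
            beta_reduce
            split_ifs <;> ring
          simp only [h1]
          rw [sum_sub_distrib, ← mul_sum]
          have h2 : ∑ j ∈ range p, (if (p : ℤ) ∣ m + (j : ℤ) * (M : ℤ) then (1 : ℤ) else 0) = 1 := by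
            have hM0 : (M : ZMod p) ≠ 0 := by
              intro h
              exact hqM ((ZMod.natCast_eq_zero_iff M p).mp h)
            set j0 : ℕ := (-(m : ZMod p) * (M : ZMod p)⁻¹).val with hj0
            rw [Finset.sum_eq_single j0]
            · rw [if_pos]
              rw [← ZMod.intCast_zmod_eq_zero_iff_dvd]
              push_cast
              rw [hj0, ZMod.natCast_zmod_val, mul_assoc, inv_mul_cancel₀ hM0]
              ring
            · intro j hj hne
              rw [if_neg]
              intro h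
              apply hne
              rw [← ZMod.intCast_zmod_eq_zero_iff_dvd] at h
              push_cast at h
              have h3 : (j : ZMod p) = -(m : ZMod p) * (M : ZMod p)⁻¹ := by
                field_simp
                linear_combination h
              have h4 := congrArg ZMod.val h3
              rw [ZMod.val_natCast, Nat.mod_eq_of_lt (mem_range.mp hj)] at h4
              exact h4
            · intro hcon
              exact absurd (mem_range.mpr (ZMod.val_lt _)) hcon
          rw [h2]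
          simp
        rw [this, zero_smul]
        rfl
      · rw [Prod.snd_sum]
        beta_reduce
        rw [← Int.cast_sum, ← sum_mul]
        have h1 : ((∑ j ∈ range p, (m + (j : ℤ) * (M : ℤ)) : ℤ) : ZMod p) = 0 := by
          rw [sum_add_distrib, ← sum_mul, sum_const, card_range, nsmul_eq_mul]
          push_cast
          rw [ZMod.natCast_self, zero_mul, zero_add]
          have h2 : (∑ j ∈ range p, (j : ZMod p)) * 2 = 0 := by
            have := Finset.sum_range_id_mul_two p
            have h3 := congrArg (fun x : ℕ => (x : ZMod p)) this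
            push_cast at h3
            rw [h3, ZMod.natCast_self, zero_mul]
          have h4 : (2 : ZMod p) ≠ 0 := by
            intro h
            have h5 : ((2 : ℕ) : ZMod p) = 0 := by exact_mod_cast h
            rw [ZMod.natCast_eq_zero_iff] at h5
            have h6 := (Nat.prime_dvd_prime_iff_eq hp Nat.prime_two).mp h5
            omega
          rw [(mul_eq_zero.mp h2).resolve_right h4, zero_mul]
        rw [Int.cast_mul, h1, zero_mul]
        rfl
    · have hpM' : p ∣ M := by
        rcases (Nat.Prime.dvd_mul hp).mp hpM with h1 | h1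
        · exact absurd ((Nat.prime_dvd_prime_iff_eq hp hq).mp h1) hpq
        · exact h1
      have hcpq : Nat.Coprime q p := (Nat.coprime_primes hq hp).mpr (Ne.symm hpq)
      obtain ⟨d, hd⟩ := hpM'
      have hdiv : q * M / p = q * d := by
        rw [hd, show q * (p * d) = p * (q * d) by ring, Nat.mul_div_cancel_left _ hp.pos]
      have hdiv2 : M / p = d := by rw [hd, Nat.mul_div_cancel_left _ hp.pos]
      rw [hdiv]
      have hcc : ∀ j : ℕ, c (m + (j : ℤ) * ((q * d : ℕ) : ℤ)) = c m := by
        intro j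
        exact hcs _ _ ⟨j * d, by push_cast; ring⟩
      have key : ∀ (T : Type) [AddCommGroup T] (f : ℤ → T), ZL M f →
          ∑ j ∈ range p, f (m + (j : ℤ) * ((q * d : ℕ) : ℤ)) = 0 := by
        intro T _ f hf
        have h1 := gg_perm p q hp hcpq (fun x => f (m + x * d)) (by
          intro a b hab
          beta_reduce
          apply gg_per_of_dvd hf
          obtain ⟨k, hk⟩ := hab
          refine ⟨k, ?_⟩
          rw [hd]
          push_cast
          have : m + a * (d : ℤ) - (m + b * d) = (a - b) * d := by ring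
          rw [this, hk]
          ring)
        have h2 := hf.line p hp ⟨d, hd⟩ m
        rw [hdiv2] at h2
        rw [← h2, ← h1]
        refine sum_congr rfl fun j _ => ?_
        beta_reduce
        congr 1
        push_cast
        ring
      simp only [hcc]
      apply Prod.ext
      · rw [Prod.fst_sum]
        beta_reduce
        rw [← smul_sum, key B g hz, smul_zero]
        rfl
      · rw [Prod.snd_sum]
        beta_reduce
        have e : ∀ j : ℕ, (((m + (j : ℤ) * ((q * d : ℕ) : ℤ)) * r (m + (j : ℤ) * ((q * d : ℕ) : ℤ)) : ℤ) : ZMod q)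
            = ((m * r (m + (j : ℤ) * ((q * d : ℕ) : ℤ)) : ℤ) : ZMod q) := by
          intro j
          push_cast
          rw [ZMod.natCast_self]
          ring
        simp only [e]
        rw [← Int.cast_sum, ← mul_sum, key ℤ r rz, mul_zero, Int.cast_zero]
        rfl
  · intro m m' hmm
    beta_reduce at hmm
    have h1 := congrArg Prod.fst hmm
    have h2 := congrArg Prod.snd hmm
    simp only at h1 h2
    have hdv : ∀ x : ℤ, ((x * r x : ℤ) : ZMod q) = 0 ↔ (q : ℤ) ∣ x := by
      intro x
      rw [ZMod.intCast_zmod_eq_zero_iff_dvd]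
      constructor
      · exact gg_unit hq hq2 (ru x)
      · intro h; exact h.mul_right _
    have h3 : (q : ℤ) ∣ m ↔ (q : ℤ) ∣ m' := by rw [← hdv, ← hdv, h2]
    have h4 : c m = c m' := by
      rw [hcdef]
      beta_reduce
      simp only [h3]
    rw [← h4] at h1
    have h5 : c m • (g m - g m') = 0 := by rw [smul_sub, h1, sub_self]
    have h6 : g m = g m' := by
      have hcop2 : IsCoprime (c m) (M : ℤ) := by
        rw [hcdef]
        beta_reduce
        split_ifs
        · have e : (1 - (q : ℤ)) = -((q - 1 : ℕ) : ℤ) := by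
            rw [Nat.cast_sub hq.one_lt.le]
            push_cast
            ring
          rw [e]
          exact (Nat.isCoprime_iff_coprime.mpr hcop).neg_left
        · exact isCoprime_one_left
      obtain ⟨a, b, hab⟩ := hcop2
      have h7 : (M : ℤ) • (g m - g m') = 0 := by
        rw [natCast_zsmul, ← hc]
        exact card_nsmul_eq_zero
      have h8 : g m - g m' = 0 := by
        calc g m - g m' = (a * c m + b * M) • (g m - g m') := by rw [hab, one_smul]
          _ = 0 := by rw [add_smul, mul_smul, mul_smul, h5, h7, smul_zero, smul_zero, add_zero]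
      exact sub_eq_zero.mp h8
    have h7 := hi _ _ h6
    have h8 : r m = r m' := gg_per_of_dvd rz h7
    rw [← h8, ZMod.intCast_eq_intCast_iff_dvd_sub, ← sub_mul] at h2
    have h9 := gg_unit hq hq2 (ru m) h2
    have h10 : (q : ℤ) ∣ m - m' := by
      rw [← dvd_neg, neg_sub]
      exact h9
    have h11 : IsCoprime (q : ℤ) (M : ℤ) := Nat.isCoprime_iff_coprime.mpr hqM2
    have := h11.mul_dvd h10 h7
    push_cast
    exact this
  · intro m
    beta_reduce
    have e1 : c (-m) = c m := by
      rw [hcdef]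
      beta_reduce
      simp only [dvd_neg]
    rw [e1, ho, re]
    apply Prod.ext
    · change c m • -g m = -(c m • g m)
      rw [smul_neg]
    · change _ = -((m * r m : ℤ) : ZMod q)
      push_cast
      ring

lemma gg_all (hr : S_RHO) : ∀ M : ℕ, M % 2 = 1 → GGf M := by
  intro M
  induction M using Nat.strong_induction_on with
  | _ M ih =>
    intro hM
    by_cases h1 : M = 1
    · subst h1
      refine ⟨Unit, inferInstance, inferInstance, fun _ => (), by simp, ⟨fun _ => rfl, ?_⟩, ?_, fun _ => rfl⟩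
      · intro q _ _ _
        rfl
      · intro m m' _
        exact ⟨m - m', by push_cast; ring⟩
    · have hq : (Nat.minFac M).Prime := Nat.minFac_prime h1
      set q := Nat.minFac M with hqdef
      obtain ⟨N, hN⟩ : q ∣ M := Nat.minFac_dvd M
      have hq2 : q % 2 = 1 := by
        by_contra hcon
        have h2 : 2 ∣ q := by omega
        have h3 : 2 ∣ M := h2.trans ⟨N, hN⟩
        omega
      have hN2 : N % 2 = 1 := by
        by_contra hcon
        have h2 : 2 ∣ N := by omega
        have h3 : 2 ∣ M := h2.trans ⟨q, by rw [hN]; ring⟩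
        omega
      have hlt : N < M := by
        have := hq.two_le
        have hN0 : 0 < N := by omega
        rw [hN]
        nlinarith
      have hGN := ih N hlt hN2
      rw [hN]
      by_cases hqN : q ∣ N
      · exact gg_caseA N q (q / 2) hq (by omega) hN2 hqN hr hGN
      · refine gg_caseB N q hq hq2 hN2 hqN ?_ hr hGN
        rw [Nat.coprime_iff_gcd_eq_one]
        by_contra hg
        obtain ⟨p, hp, hpd⟩ := Nat.exists_prime_and_dvd hg
        have h2 : p ∣ q - 1 := hpd.trans (Nat.gcd_dvd_left _ _)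
        have h3 : p ∣ M := (hpd.trans (Nat.gcd_dvd_right _ _)).trans ⟨q, by rw [hN]; ring⟩
        have h4 := Nat.minFac_le_of_dvd hp.two_le h3
        have h5 := Nat.le_of_dvd (by have := hq.two_le; omega) h2
        rw [← hqdef] at h4
        have := hq.two_le
        omega

/-- (module PM_GG) -/
theorem gg (h : S_EXT) (hr : S_RHO) : S_GG := by
  intro M hM
  obtain ⟨B, i1, i2, g, hc, hz, hi, ho⟩ := gg_all hr M hM
  obtain ⟨X, hX⟩ := h M (by omega) B g hz
  exact ⟨B, i1, i2, X, hc, fun m m' hmm => hi m m' (by rw [← hX, ← hX, hmm]),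
    fun m => by rw [hX, hX, ho]⟩

end PathMix2
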