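import Pool.Agent.PathMix2.Stmts
set_option autoImplicit false

/-! Positive definite functions give points of the closure of the moment set (module LINK). -/

open Finset MeasureTheory

namespace PathMix2

namespace Link

variable {n : ℕ}

/-- an integral basis of the group generated by finitely many real elements -/
lemma exists_basis (W : Finset ℝ) (a : W → A n) (ha : ∀ w, ((a w : A n) : ℂ) = ((w : ℝ) : ℂ)) :
    ∃ (m : ℕ) (b : Fin m → A n) (B : Fin m → ℝ) (c : W → Fin m → ℤ),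
      (∀ j, ((b j : A n) : ℂ) = ((B j : ℝ) : ℂ)) ∧
      (∀ d : Fin m → ℤ, ∑ j, (d j : ℝ) * B j = 0 → d = 0) ∧
      (∀ w, a w = ∑ j, c w j • b j) := by
  classical
  set R₀ : Submodule ℤ (A n) := Submodule.span ℤ (Set.range a) with hR
  have hfin : Module.Finite ℤ R₀ := Module.Finite.span_of_finite ℤ (Set.finite_range a)
  have hfree : Module.Free ℤ R₀ := inferInstance
  have him : ∀ x ∈ R₀, ((x : A n) : ℂ).im = 0 := by
    intro x hx
    induction hx using Submodule.span_induction with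
    | mem x hx =>
      obtain ⟨w, rfl⟩ := hx
      rw [ha w]; simp
    | zero => simp
    | add x y _ _ hx hy =>
      rw [AddSubgroup.coe_add, Complex.add_im, hx, hy, add_zero]
    | smul k x _ hx =>
      have : ((k • x : A n) : ℂ) = (k : ℂ) * (x : ℂ) := by
        rw [AddSubgroup.coe_zsmul, zsmul_eq_mul]
      rw [this, Complex.mul_im, hx]
      simp
  let bs := Module.finBasis ℤ R₀
  refine ⟨Module.finrank ℤ R₀, fun j => (bs j : A n), fun j => (((bs j : A n)) : ℂ).re,
    fun w j => bs.repr ⟨a w, Submodule.subset_span ⟨w, rfl⟩⟩ j, ?_, ?_, ?_⟩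
  · intro j
    apply Complex.ext
    · simp
    · rw [him _ (bs j).2]; simp
  · intro d hd
    have hy : ∑ j, d j • bs j = 0 := by
      apply Subtype.ext
      apply Subtype.ext
      have e1 : (((∑ j, d j • bs j : R₀) : A n) : ℂ) = ∑ j, (d j : ℂ) * ((bs j : A n) : ℂ) := by
        rw [Submodule.coe_sum, AddSubgroup.val_finsetSum]
        refine Finset.sum_congr rfl fun j _ => ?_
        rw [Submodule.coe_smul, AddSubgroup.coe_zsmul, zsmul_eq_mul]
      rw [e1]
      have e2 : ∀ j, ((bs j : A n) : ℂ) = (((((bs j : A n)) : ℂ).re : ℝ) : ℂ) := by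
        intro j
        apply Complex.ext
        · simp
        · rw [him _ (bs j).2]; simp
      have e3 : ∑ j, (d j : ℂ) * ((bs j : A n) : ℂ)
          = ((∑ j, (d j : ℝ) * (((bs j : A n)) : ℂ).re : ℝ) : ℂ) := by
        push_cast
        refine Finset.sum_congr rfl fun j _ => ?_
        rw [← e2 j]
      rw [e3, hd]
      simp
    funext j
    exact Fintype.linearIndependent_iff.mp bs.linearIndependent d hy j
  · intro w
    have h1 := bs.sum_repr ⟨a w, Submodule.subset_span ⟨w, rfl⟩⟩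
    have h2 := congrArg (fun x : R₀ => (x : A n)) h1
    simp only [Submodule.coe_sum, Submodule.coe_smul] at h2
    exact h2.symm

section

variable {m : ℕ} (F : A n → ℝ) (b : Fin m → A n) (B : Fin m → ℝ)

/-- the difference vectors -/
noncomputable def vJ (K : ℕ) (J : Fin m → Fin K × Fin K) : A n :=
  ∑ r, ((((J r).1 : ℕ) : ℤ) - (((J r).2 : ℕ) : ℤ)) • b r

lemma vJ_val (hB : ∀ j, ((b j : A n) : ℂ) = ((B j : ℝ) : ℂ)) (K : ℕ) (J : Fin m → Fin K × Fin K) :
    ((vJ b K J : A n) : ℂ) = ((PathMix.nuJ B K J : ℝ) : ℂ) := by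
  unfold vJ PathMix.nuJ
  rw [AddSubgroup.val_finsetSum]
  push_cast
  refine Finset.sum_congr rfl fun r _ => ?_
  rw [zsmul_eq_mul, hB]
  push_cast
  ring

/-- the trigonometric polynomial -/
noncomputable def G (K : ℕ) (t : ℝ) : ℝ :=
  ∑ J : Fin m → Fin K × Fin K, (1 / (K : ℝ)) ^ m * F (vJ b K J) * Real.cos (t * PathMix.nuJ B K J)

lemma cJ_zero (K : ℕ) (J : Fin m → Fin K × Fin K) :
    PathMix.cJ (fun _ => 0) K J = (1 / (K : ℂ)) ^ m := by
  unfold PathMix.cJ
  simp

lemma swap_sum {m K : ℕ} (f : (Fin m → Fin K × Fin K) → ℝ)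
    (hf : ∀ J : Fin m → Fin K × Fin K, f (fun r => (J r).swap) = -f J) : ∑ J, f J = 0 := by
  have h1 : ∑ J, f J = ∑ J : Fin m → Fin K × Fin K, f (fun r => (J r).swap) :=
    (Equiv.sum_comp (Equiv.piCongrRight fun _ : Fin m => Equiv.prodComm (Fin K) (Fin K)) f).symm
  rw [Finset.sum_congr rfl (fun J _ => hf J), Finset.sum_neg_distrib] at h1
  linarith

lemma vJ_swap (K : ℕ) (J : Fin m → Fin K × Fin K) :
    vJ b K (fun r => (J r).swap) = -vJ b K J := by
  unfold vJ
  rw [← Finset.sum_neg_distrib]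
  refine Finset.sum_congr rfl fun r _ => ?_
  rw [← neg_smul]
  congr 1
  simp

lemma nuJ_swap (K : ℕ) (J : Fin m → Fin K × Fin K) :
    PathMix.nuJ B K (fun r => (J r).swap) = -PathMix.nuJ B K J := by
  unfold PathMix.nuJ
  rw [← Finset.sum_neg_distrib]
  refine Finset.sum_congr rfl fun r _ => ?_
  simp only [Prod.fst_swap, Prod.snd_swap]
  ring

lemma G_eq (hF : PD F) (K : ℕ) (t : ℝ) : (G F b B K t : ℂ) =
    ∑ J : Fin m → Fin K × Fin K, ((F (vJ b K J) : ℝ) * PathMix.cJ (fun _ => 0) K J)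
      * Complex.exp (Complex.I * (t * PathMix.nuJ B K J : ℝ)) := by
  have h0 : ∑ J : Fin m → Fin K × Fin K, (1 / (K : ℝ)) ^ m * F (vJ b K J)
      * Real.sin (t * PathMix.nuJ B K J) = 0 := by
    refine swap_sum _ fun J => ?_
    rw [vJ_swap, nuJ_swap, hF.even, mul_neg, Real.sin_neg]
    ring
  have h1 : (G F b B K t : ℂ) = ((G F b B K t : ℝ) : ℂ)
      + ((∑ J : Fin m → Fin K × Fin K, (1 / (K : ℝ)) ^ m * F (vJ b K J)
        * Real.sin (t * PathMix.nuJ B K J) : ℝ) : ℂ) * Complex.I := by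
    rw [h0]; simp
  rw [h1]
  unfold G
  push_cast
  rw [Finset.sum_mul, ← Finset.sum_add_distrib]
  refine Finset.sum_congr rfl fun J _ => ?_
  rw [cJ_zero, mul_comm Complex.I, Complex.exp_mul_I]
  ring

lemma G_nonneg (hF : PD F) (hB : ∀ j, ((b j : A n) : ℂ) = ((B j : ℝ) : ℂ)) (K : ℕ) (t : ℝ) :
    0 ≤ G F b B K t := by
  -- the homomorphism `x ↦ t re x`
  let φ : A n →+ ℝ :=
    { toFun := fun x => t * ((x : A n) : ℂ).re
      map_zero' := by simp
      map_add' := fun x y => by simp [mul_add] }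
  have hφ : ∀ x : A n, φ x = t * ((x : A n) : ℂ).re := fun x => rfl
  have hH := hF.mul (PD.cos φ)
  set H : A n → ℝ := fun x => F x * Real.cos (φ x) with hHd
  have h1 := hH.pos' (fun J : Fin m → Fin K => ∑ r, (((J r : ℕ) : ℤ)) • b r) (fun _ => 1)
  have h2 : G F b B K t = (1 / (K : ℝ)) ^ m * ∑ J : Fin m → Fin K × Fin K, H (vJ b K J) := by
    unfold G
    rw [Finset.mul_sum]
    refine Finset.sum_congr rfl fun J _ => ?_
    rw [hHd]
    beta_reduce
    rw [hφ, vJ_val b B hB, Complex.ofReal_re]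
    ring
  have h3 : ∑ J : Fin m → Fin K × Fin K, H (vJ b K J)
      = ∑ i : Fin m → Fin K, ∑ j : Fin m → Fin K, 1 * 1 * H ((∑ r, (((i r : ℕ) : ℤ)) • b r)
        - ∑ r, (((j r : ℕ) : ℤ)) • b r) := by
    rw [← Fintype.sum_prod_type']
    refine Fintype.sum_equiv (Equiv.arrowProdEquivProdArrow (Fin m) (fun _ => Fin K)
      (fun _ => Fin K)) _ _ fun J => ?_
    rw [one_mul, one_mul]
    congr 1
    unfold vJ
    rw [← Finset.sum_sub_distrib]
    refine Finset.sum_congr rfl fun r _ => ?_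
    rw [sub_smul]
    rfl
  rw [h2, h3]
  exact mul_nonneg (by positivity) h1

lemma G_continuous (K : ℕ) : Continuous (G F b B K) := by
  unfold G
  fun_prop

lemma G_bdd (K : ℕ) : ∃ C : ℝ, ∀ t, ‖G F b B K t‖ ≤ C := by
  refine ⟨∑ J : Fin m → Fin K × Fin K, |(1 / (K : ℝ)) ^ m * F (vJ b K J)|, fun t => ?_⟩
  unfold G
  refine (norm_sum_le _ _).trans (Finset.sum_le_sum (fun J _ => ?_))
  rw [norm_mul, Real.norm_eq_abs, Real.norm_eq_abs]
  exact mul_le_of_le_one_right (abs_nonneg _) (Real.abs_cos_le_one _)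

lemma coeff (hF : PD F) (hB : ∀ j, ((b j : A n) : ℂ) = ((B j : ℝ) : ℂ))
    (hind : ∀ d : Fin m → ℤ, ∑ j, (d j : ℝ) * B j = 0 → d = 0) (K : ℕ) (d : Fin m → ℤ) :
    (∑ J : Fin m → Fin K × Fin K, if PathMix.nuJ B K J + ∑ r, (d r : ℝ) * B r = 0 then
      ((F (vJ b K J) : ℝ) * PathMix.cJ (fun _ => 0) K J : ℂ) else 0) =
      (((∏ r, (PathMix.cnt K (d r) / (K : ℝ))) * F (∑ r, d r • b r) : ℝ) : ℂ) := by
  have h1 : ∀ J : Fin m → Fin K × Fin K, (if PathMix.nuJ B K J + ∑ r, (d r : ℝ) * B r = 0 then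
      ((F (vJ b K J) : ℝ) * PathMix.cJ (fun _ => 0) K J : ℂ) else 0)
      = ((F (∑ r, d r • b r) : ℝ) : ℂ) * (if PathMix.nuJ B K J + ∑ r, (d r : ℝ) * B r = 0 then
        PathMix.cJ (fun _ => 0) K J else 0) := by
    intro J
    split_ifs with h
    · have h2 : vJ b K J = -∑ r, d r • b r := by
        apply Subtype.ext
        rw [AddSubgroup.coe_neg, vJ_val b B hB, AddSubgroup.val_finsetSum]
        have h3 : ∑ r, ((d r • b r : A n) : ℂ) = ((∑ r, (d r : ℝ) * B r : ℝ) : ℂ) := by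
          push_cast
          refine Finset.sum_congr rfl fun r _ => ?_
          rw [zsmul_eq_mul, hB]
        rw [h3, eq_neg_of_add_eq_zero_left h, Complex.ofReal_neg]
      rw [h2, hF.even]
    · rw [mul_zero]
  rw [Finset.sum_congr rfl (fun J _ => h1 J), ← Finset.mul_sum,
    PathMix.GK_coeff B (fun _ => 0) hind K d]
  simp only [mul_zero, Finset.sum_const_zero, Complex.ofReal_zero, Complex.exp_zero, mul_one]
  rw [Complex.ofReal_mul]
  ring

end

end Link

open Link in
/-- **Module LINK.** -/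
theorem link : S_LINK := by
  intro n F hF hF0 W a ha
  obtain ⟨m, b, B, c, hB, hind, hc⟩ := exists_basis W a ha
  have hcw : ∀ w : W, ∑ r, (c w r : ℝ) * B r = w := by
    intro w
    have h1 := congrArg (fun x : A n => ((x : A n) : ℂ)) (hc w)
    simp only [AddSubgroup.val_finsetSum, AddSubgroup.coe_zsmul, zsmul_eq_mul, hB, ha] at h1
    have h2 : ((w : ℝ) : ℂ) = ((∑ r, (c w r : ℝ) * B r : ℝ) : ℂ) := by
      rw [h1]; push_cast; rfl
    exact (Complex.ofReal_injective h2).symm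
  have key : ∀ K : ℕ, (fun w : W => (∏ r, (PathMix.cnt (K + 1) (c w r) / ((K + 1 : ℕ) : ℝ)))
      * F (a w)) ∈ PathMix.momSet W := by
    intro K
    obtain ⟨h, hd, hz⟩ := PathMix.kernel (((Finset.univ.image (PathMix.nuJ B (K + 1))) ∪
      ((Finset.univ.image (PathMix.nuJ B (K + 1))) ×ˢ W).image (fun p => p.1 + p.2)).filter
        (fun x => x ≠ 0)) (fun x hx => (Finset.mem_filter.mp hx).2)
    obtain ⟨C, hC⟩ := G_bdd F b B (K + 1)
    have hint : Integrable (fun t => h t * G F b B (K + 1) t) :=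
      hd.1.mul_bdd (c := C) (G_continuous F b B (K + 1)).aestronglyMeasurable
        (Filter.Eventually.of_forall hC)
    have hFT : ∀ d : Fin m → ℤ, (∀ J, PathMix.nuJ B (K + 1) J + ∑ r, (d r : ℝ) * B r ≠ 0 →
        PathMix.FT h (PathMix.nuJ B (K + 1) J + ∑ r, (d r : ℝ) * B r) = 0) →
        PathMix.mom (fun t => h t * G F b B (K + 1) t) (∑ r, (d r : ℝ) * B r) =
        (∏ r, (PathMix.cnt (K + 1) (d r) / ((K + 1 : ℕ) : ℝ))) * F (∑ r, d r • b r) := by
      intro d hd'
      rw [PathMix.mom_eq_FT _ hint, PathMix.exact_FT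
        (fun J => ((F (vJ b (K + 1) J) : ℝ) * PathMix.cJ (fun _ => 0) (K + 1) J : ℂ))
        (PathMix.nuJ B (K + 1)) (G F b B (K + 1)) (G_eq F b B hF (K + 1)) h hd _ hd',
        coeff F b B hF hB hind, Complex.ofReal_re]
    refine ⟨fun t => h t * G F b B (K + 1) t, ⟨hint, ?_, ?_⟩, ?_⟩
    · intro t
      exact mul_nonneg (hd.2.1 t) (G_nonneg F b B hF hB _ t)
    · have h0 := hFT 0 (by
        intro J hJ
        apply hz
        rw [Finset.mem_filter]
        refine ⟨?_, hJ⟩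
        simp)
      have h1 : PathMix.mom (fun t => h t * G F b B (K + 1) t)
          (∑ r, (((0 : Fin m → ℤ) r : ℤ) : ℝ) * B r) = ∫ t, h t * G F b B (K + 1) t := by
        unfold PathMix.mom
        simp
      rw [h1] at h0
      rw [h0]
      have h2 : ∀ r : Fin m, PathMix.cnt (K + 1) ((0 : Fin m → ℤ) r) / ((K + 1 : ℕ) : ℝ) = 1 := by
        intro r
        rw [PathMix.cnt_eq _ _ (by simp)]
        have : ((K + 1 : ℕ) : ℝ) ≠ 0 := by positivity
        simp only [Pi.zero_apply, Int.natAbs_zero, Nat.cast_zero, sub_zero]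
        exact div_self this
      rw [Finset.prod_congr rfl (fun r _ => h2 r)]
      simp [hF0]
    · intro w
      have h0 := hFT (c w) (by
        intro J hJ
        apply hz
        rw [Finset.mem_filter]
        refine ⟨?_, hJ⟩
        rw [Finset.mem_union]
        right
        rw [Finset.mem_image]
        refine ⟨(PathMix.nuJ B (K + 1) J, w), ?_, ?_⟩
        · simp
        · simp only
          rw [hcw w])
      rw [hcw w, ← hc w] at h0
      exact h0
  refine mem_closure_of_tendsto (f := fun K : ℕ => (fun w : W =>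
    (∏ r, (PathMix.cnt (K + 1) (c w r) / ((K + 1 : ℕ) : ℝ))) * F (a w)))
    (b := Filter.atTop) ?_ (Filter.Eventually.of_forall key)
  rw [tendsto_pi_nhds]
  intro w
  have h1 : Filter.Tendsto (fun K : ℕ => ∏ r, (PathMix.cnt (K + 1) (c w r) / ((K + 1 : ℕ) : ℝ)))
      Filter.atTop (nhds (∏ _r : Fin m, (1 : ℝ))) :=
    tendsto_finsetProd _ (fun r _ => PathMix.cnt_tendsto (c w r))
  rw [Finset.prod_const_one] at h1
  simpa using h1.mul_const (F (a w))

end PathMix2
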