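import Pool.Agent.PathMix2.Stmts
set_option autoImplicit false

/-! The step from level `4 Q` to level `2 ^ s Q` (module PARTB of MP_261efc_co). -/

open Finset

namespace PathMix2

namespace PB

/-! ### Sums over shifts -/

lemma sum_update {ι T : Type} [Fintype ι] [DecidableEq ι] [Fintype T] (u : ι)
    (f : (ι → T) → ℝ) (c : ℝ) (h : ∀ s, ∑ t, f (Function.update s u t) = c) :
    (Fintype.card T : ℝ) * ∑ s, f s = (Fintype.card (ι → T) : ℝ) * c := by
  have inv : Function.Involutive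
      (fun p : (ι → T) × T => (Function.update p.1 u p.2, p.1 u)) := by
    intro p
    simp
  have h1 : ∑ p : (ι → T) × T, f (Function.update p.1 u p.2) = ∑ p : (ι → T) × T, f p.1 :=
    Equiv.sum_comp (inv.toPerm _) (fun p => f p.1)
  rw [Fintype.sum_prod_type, Fintype.sum_prod_type] at h1
  simp only [h, Finset.sum_const, Finset.card_univ, nsmul_eq_mul] at h1
  rw [h1, Finset.mul_sum]

lemma sum_one (n : ℕ) (hn : 0 < n) (c : ℤ) (κ : ℝ) :
    ∑ t : Fin n, (if (n : ℤ) ∣ c - (t : ℤ) then κ else 0) = κ := by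
  have hn' : (0 : ℤ) < n := by exact_mod_cast hn
  have h0 := Int.emod_nonneg c hn'.ne'
  have h1 := Int.emod_lt_of_pos c hn'
  have key : ∀ t : Fin n, (n : ℤ) ∣ c - (t : ℤ) ↔ t = ⟨(c % n).toNat, by omega⟩ := by
    intro t
    have ht : (t : ℤ) < n := by exact_mod_cast t.2
    constructor
    · rintro ⟨k, hk⟩
      have h2 : c % n = (t : ℤ) := by
        have h3 : c = (t : ℤ) + n * k := by linarith
        rw [h3, Int.add_mul_emod_self_left, Int.emod_eq_of_lt (by omega) ht]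
      apply Fin.ext
      simp only
      omega
    · rintro rfl
      simp only
      rw [Int.toNat_of_nonneg h0]
      exact Int.dvd_self_sub_emod
  simp only [key]
  simp

lemma sum_two (n : ℕ) (hn : 0 < n) (c1 c2 : ℤ) (κ : ℝ) (hc : ¬ (n : ℤ) ∣ c1 - c2)
    (f : Fin n → ℝ) (h1 : ∀ t : Fin n, ((n : ℤ) ∣ c1 - (t : ℤ) ∨ (n : ℤ) ∣ c2 - (t : ℤ)) → f t = κ)
    (h2 : ∀ t : Fin n, ¬ ((n : ℤ) ∣ c1 - (t : ℤ) ∨ (n : ℤ) ∣ c2 - (t : ℤ)) → f t = 0) :
    ∑ t : Fin n, f t = 2 * κ := by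
  have e : ∀ t : Fin n, f t = (if (n : ℤ) ∣ c1 - (t : ℤ) then κ else 0) +
      (if (n : ℤ) ∣ c2 - (t : ℤ) then κ else 0) := by
    intro t
    by_cases a : (n : ℤ) ∣ c1 - (t : ℤ)
    · by_cases b : (n : ℤ) ∣ c2 - (t : ℤ)
      · exfalso
        apply hc
        have := dvd_sub a b
        have e : c1 - (t : ℤ) - (c2 - (t : ℤ)) = c1 - c2 := by ring
        rwa [e] at this
      · rw [h1 t (Or.inl a), if_pos a, if_neg b, add_zero]
    · by_cases b : (n : ℤ) ∣ c2 - (t : ℤ)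
      · rw [h1 t (Or.inr b), if_neg a, if_pos b, zero_add]
      · rw [h2 t (by tauto), if_neg a, if_neg b, add_zero]
  rw [Finset.sum_congr rfl (fun t _ => e t), Finset.sum_add_distrib, sum_one n hn, sum_one n hn]
  ring

/-! ### Homomorphisms -/

/-- the sum of homomorphisms on the coordinates -/
noncomputable def sumHom {m : ℕ} {G T : Type*} [AddCommGroup G] [AddCommGroup T]
    (h : Fin m → G →+ T) : (Fin m → G) →+ T :=
  ∑ u, (h u).comp (Pi.evalAddMonoidHom (fun _ => G) u)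

lemma sumHom_single {m : ℕ} {G T : Type*} [AddCommGroup G] [AddCommGroup T]
    (h : Fin m → G →+ T) (u : Fin m) (a : G) : sumHom h (Pi.single u a) = h u a := by
  unfold sumHom
  rw [AddMonoidHom.finsetSum_apply, Finset.sum_eq_single u]
  · simp
  · intro v _ hv
    simp [Pi.single_eq_of_ne hv]
  · intro hu
    exact absurd (Finset.mem_univ u) hu

lemma half_iff (Q : ℕ) (hQ : 0 < Q) (w : ℤ) :
    (((2 * Q : ℕ) : ℤ) ∣ 2 * w ∧ ¬ ((2 * Q : ℕ) : ℤ) ∣ w) ↔ ((2 * Q : ℕ) : ℤ) ∣ w - Q := by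
  have e : ((2 * Q : ℕ) : ℤ) = 2 * (Q : ℤ) := by push_cast; ring
  have hQ' : (Q : ℤ) ≠ 0 := by exact_mod_cast hQ.ne'
  rw [e]
  constructor
  · rintro ⟨⟨k, hk⟩, h2⟩
    have hw : w = Q * k := by linarith
    rcases Int.even_or_odd k with ⟨j, hj⟩ | ⟨j, hj⟩
    · exfalso
      apply h2
      exact ⟨j, by rw [hw, hj]; ring⟩
    · exact ⟨j, by rw [hw, hj]; ring⟩
  · rintro ⟨k, hk⟩
    have hw : w = Q * (2 * k + 1) := by linarith
    refine ⟨⟨2 * k + 1, by rw [hw]; ring⟩, ?_⟩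
    rintro ⟨j, hj⟩
    have h3 : (Q : ℤ) * (2 * k + 1) = Q * (2 * j) := by rw [← hw, hj]; ring
    have h4 := mul_left_cancel₀ hQ' h3
    omega

section

variable {Q : ℕ}

lemma z_add_Q (hQ : 0 < Q) (m : ℤ) : z (2 * Q) (m + Q) = -z (2 * Q) m := by
  rw [← add_eq_zero_iff_eq_neg, z_add_eq_zero_iff (2 * Q) (by omega)]
  have e : m + (Q : ℤ) - m = Q := by ring
  rw [e]
  refine ⟨⟨1, by push_cast; ring⟩, ?_⟩
  rintro ⟨k, hk⟩
  have hQ' : (0 : ℤ) < Q := by exact_mod_cast hQ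
  push_cast at hk
  have h1 : (Q : ℤ) * 1 = Q * (2 * k) := by linarith
  have h2 := mul_left_cancel₀ hQ'.ne' h1
  omega

/-- `sk (z a) = sk (z b)` -/
lemma sk_eq_iff (hQ : 0 < Q) (a b : ℤ) : sk (2 * Q) (z (2 * Q) a - z (2 * Q) b) = 0 ↔
    ((2 * Q : ℕ) : ℤ) ∣ a - b ∨ ((2 * Q : ℕ) : ℤ) ∣ a + b - Q := by
  rw [sk_eq_zero_iff, sub_real_iff (2 * Q) (by omega), half_iff Q hQ]

lemma rho_refl (hQ : Q % 2 = 1) {ρ : A (2 * Q) →+ ℤ} (hρ : Rho (2 * Q) ρ) (m : ℤ) :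
    ρ (z (2 * Q) (-m)) = ρ (z (2 * Q) m) := by
  rw [hρ.refl, if_neg]
  intro h
  omega

/-- the reflected point has the opposite value -/
lemma rho_anti (hQ : Q % 2 = 1) {ρ : A (2 * Q) →+ ℤ} (hρ : Rho (2 * Q) ρ) (a b : ℤ)
    (h : ((2 * Q : ℕ) : ℤ) ∣ a + b - Q) : ρ (z (2 * Q) a) = -ρ (z (2 * Q) b) := by
  have h0 : 0 < Q := by omega
  have h1 : z (2 * Q) a = z (2 * Q) (-b + Q) := by
    rw [z_eq_iff (2 * Q) (by omega)]
    have e : a - (-b + Q) = a + b - Q := by ring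
    rw [e]
    exact h
  rw [h1, z_add_Q h0, map_neg, rho_refl hQ hρ]

lemma not_dvd (m0 : ℕ) {ρ : A (2 * Q) →+ ℤ} (hρ : Rho (2 * Q) ρ) (c : ℤ) (y : ℤ) (hc : c ≠ 0)
    (hc' : |c| ≤ 2 * m0) : ¬ ((2 * m0 + 1 : ℕ) : ℤ) ∣ c * ρ (z (2 * Q) y) := by
  obtain ⟨k, hk⟩ := hρ.unit y
  have hcop : IsCoprime (((2 * m0 + 1 : ℕ) : ℤ)) (2 ^ k) := by
    apply IsCoprime.pow_right
    exact ⟨1, -m0, by push_cast; ring⟩
  intro h
  have h1 : ((2 * m0 + 1 : ℕ) : ℤ) ∣ c * 2 ^ k := by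
    rcases hk with hk | hk
    · rwa [hk] at h
    · rw [hk] at h
      have e : c * -2 ^ k = -(c * 2 ^ k) := by ring
      rw [e] at h
      exact (dvd_neg).1 h
  have h2 := hcop.dvd_of_dvd_mul_right h1
  apply hc
  apply Int.eq_zero_of_abs_lt_dvd h2
  push_cast
  omega

/-! ### The component alpha -/

open Classical in
/-- the function on a slice -/
noncomputable def Hl (Q : ℕ) (H : A (2 * Q) → ℝ) (x : A (2 * Q)) : ℝ :=
  3 * ((Q : ℝ) - 1) / (4 * Q - 2) * H x +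
    (1 - 3 * ((Q : ℝ) - 1) / (4 * Q - 2)) * (if x = 0 then 1 else 0)

lemma Hl_facts (hQ5 : 5 ≤ Q) {H : A (2 * Q) → ℝ}
    (hH : InSl (2 * Q) H (fun l => if l % 2 = 0 then 1 / ((Q : ℝ) - 1) else 0)) :
    PD (Hl Q H) ∧ Hl Q H 0 = 1 ∧ (∀ m, Hl Q H (z (2 * Q) m) = 0) ∧
    ∀ m m', ¬ ((2 * Q : ℕ) : ℤ) ∣ m - m' →
      (4 * (Q : ℝ) - 2) * Hl Q H (z (2 * Q) m - z (2 * Q) m') =
        if (m - m') % 2 = 0 then -3 else 0 := by
  classical
  have hQr : (5 : ℝ) ≤ Q := by exact_mod_cast hQ5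
  have h1 : (0 : ℝ) < 4 * Q - 2 := by linarith
  have h2 : (0 : ℝ) < (Q : ℝ) - 1 := by linarith
  refine ⟨?_, ?_, ?_, ?_⟩
  · refine (hH.pd.smul _ ?_).add (PD.ind0.smul _ ?_)
    · positivity
    · rw [sub_nonneg, div_le_one h1]
      linarith
  · unfold Hl
    rw [hH.zero, if_pos rfl]
    ring
  · intro m
    unfold Hl
    rw [hH.one, if_neg (z_ne_zero _ m)]
    ring
  · intro m m' hm
    have hd : H (z (2 * Q) m - z (2 * Q) m') =
        -(if (m - m') % 2 = 0 then 1 / ((Q : ℝ) - 1) else 0) := hH.diff m m' hm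
    have hne : ¬ z (2 * Q) m - z (2 * Q) m' = 0 := by
      rw [sub_eq_zero, z_eq_iff (2 * Q) (by omega)]
      exact hm
    unfold Hl
    rw [hd, if_neg hne]
    split_ifs
    · field_simp
      ring
    · ring

/-- the model group -/
abbrev KG (Q m0 : ℕ) : Type := A (4 * Q) × (Fin m0 → A (2 * Q))

noncomputable def alpha (Q m0 : ℕ) (F4 : A (4 * Q) → ℝ) (H : A (2 * Q) → ℝ) (x : KG Q m0) : ℝ :=
  F4 x.1 * ∏ u, Hl Q H (x.2 u)

lemma prod_single {m0 : ℕ} {h : A (2 * Q) → ℝ} (h0 : h 0 = 1) (u : Fin m0) (a : A (2 * Q)) :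
    ∏ v, h ((Pi.single u a : Fin m0 → A (2 * Q)) v) = h a := by
  rw [Finset.prod_eq_single u]
  · rw [Pi.single_eq_same]
  · intro v _ hv
    rw [Pi.single_eq_of_ne hv, h0]
  · intro hu
    exact absurd (Finset.mem_univ u) hu

/-! ### The component beta -/

/-- the first homomorphism -/
noncomputable def th {m0 : ℕ} (Y : A (4 * Q) →+ A (2 * Q)) (s : Fin m0 → Fin (2 * Q)) :
    KG Q m0 →+ A (2 * Q) :=
  Y.comp (AddMonoidHom.fst _ _) +
    (sumHom (fun u => (sk (2 * Q)).comp (mulz (2 * Q) (-((s u : ℕ) : ℤ))))).comp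
      (AddMonoidHom.snd _ _)

/-- the second homomorphism -/
noncomputable def rh {m0 : ℕ} (ρ : A (2 * Q) →+ ℤ) (s : Fin m0 → Fin (2 * Q)) :
    KG Q m0 →+ ℤ :=
  (sumHom (fun u => (AddMonoidHom.mulLeft (((u : ℕ) : ℤ) + 1)).comp
    (ρ.comp (mulz (2 * Q) (-((s u : ℕ) : ℤ)))))).comp (AddMonoidHom.snd _ _)

lemma th_apply {m0 : ℕ} (Y : A (4 * Q) →+ A (2 * Q)) (s : Fin m0 → Fin (2 * Q)) (w : A (4 * Q))
    (v : Fin m0 → A (2 * Q)) : th Y s (w, v) =
      Y w + sumHom (fun u => (sk (2 * Q)).comp (mulz (2 * Q) (-((s u : ℕ) : ℤ)))) v := rfl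

lemma rh_apply {m0 : ℕ} (ρ : A (2 * Q) →+ ℤ) (s : Fin m0 → Fin (2 * Q)) (w : A (4 * Q))
    (v : Fin m0 → A (2 * Q)) : rh ρ s (w, v) =
      sumHom (fun u => (AddMonoidHom.mulLeft (((u : ℕ) : ℤ) + 1)).comp
        (ρ.comp (mulz (2 * Q) (-((s u : ℕ) : ℤ))))) v := rfl

open Classical in
/-- one summand of beta -/
noncomputable def bs {m0 : ℕ} (X Y : A (4 * Q) →+ A (2 * Q)) (ρ : A (2 * Q) →+ ℤ)
    (s : Fin m0 → Fin (2 * Q)) (x : KG Q m0) : ℝ :=
  ((if (X.comp (AddMonoidHom.fst _ _)) x = 0 then (1 : ℝ) else 0) *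
    (if th Y s x = 0 then (1 : ℝ) else 0)) *
    FB ((Int.castAddHom (ZMod (2 * m0 + 1))).comp (rh ρ s)) x

noncomputable def beta {m0 : ℕ} (X Y : A (4 * Q) →+ A (2 * Q)) (ρ : A (2 * Q) →+ ℤ)
    (x : KG Q m0) : ℝ :=
  2 * m0 * Q / (2 * Q) ^ m0 * ∑ s : Fin m0 → Fin (2 * Q), bs X Y ρ s x

lemma bs_pd {m0 : ℕ} (hm0 : 1 ≤ m0) (X Y : A (4 * Q) →+ A (2 * Q)) (ρ : A (2 * Q) →+ ℤ)
    (s : Fin m0 → Fin (2 * Q)) : PD (bs X Y ρ s) := by
  classical
  refine ((PD.ind _).mul (PD.ind _)).mul (PD.FB ?_ _)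
  rw [ZMod.card]
  omega

lemma beta_pd {m0 : ℕ} (hm0 : 1 ≤ m0) (X Y : A (4 * Q) →+ A (2 * Q)) (ρ : A (2 * Q) →+ ℤ) :
    PD (beta (m0 := m0) X Y ρ) :=
  (PD.sum _ _ (fun s _ => bs_pd hm0 X Y ρ s)).smul _ (by positivity)

lemma bs_zero {m0 : ℕ} (X Y : A (4 * Q) →+ A (2 * Q)) (ρ : A (2 * Q) →+ ℤ)
    (s : Fin m0 → Fin (2 * Q)) : bs X Y ρ s 0 = 1 := by
  unfold bs
  rw [map_zero, map_zero, FB_zero _ (map_zero _)]
  simp

lemma beta_zero {m0 : ℕ} (hQ : 0 < Q) (X Y : A (4 * Q) →+ A (2 * Q)) (ρ : A (2 * Q) →+ ℤ) :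
    beta (m0 := m0) X Y ρ 0 = 2 * m0 * Q := by
  unfold beta
  simp only [bs_zero, Finset.sum_const, Finset.card_univ, Fintype.card_fun, Fintype.card_fin,
    nsmul_eq_mul, mul_one]
  have : ((2 * Q : ℝ)) ^ m0 ≠ 0 := by positivity
  push_cast
  field_simp

/-- evaluation of beta by summing over one shift -/
lemma beta_eval {m0 : ℕ} (hQ : 0 < Q) (X Y : A (4 * Q) →+ A (2 * Q)) (ρ : A (2 * Q) →+ ℤ)
    (x : KG Q m0) (u : Fin m0) (c : ℝ)
    (h : ∀ s : Fin m0 → Fin (2 * Q), ∑ t, bs X Y ρ (Function.update s u t) x = c) :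
    beta X Y ρ x = m0 * c := by
  have h1 := sum_update u (fun s => bs X Y ρ s x) c h
  rw [Fintype.card_fin, Fintype.card_fun, Fintype.card_fin, Fintype.card_fin] at h1
  unfold beta
  have hp : ((2 * Q : ℝ)) ^ m0 ≠ 0 := by positivity
  have hQ' : (Q : ℝ) ≠ 0 := by positivity
  push_cast at h1
  have h2 : ∑ s : Fin m0 → Fin (2 * Q), bs X Y ρ s x = (2 * Q) ^ m0 * c / (2 * Q) := by
    field_simp
    linarith
  rw [h2]
  field_simp

lemma bs_val {m0 : ℕ} (hm0 : 1 ≤ m0) (X Y : A (4 * Q) →+ A (2 * Q)) (ρ : A (2 * Q) →+ ℤ)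
    (s : Fin m0 → Fin (2 * Q)) (x : KG Q m0) (h1 : X x.1 = 0) (h2 : th Y s x = 0)
    (h3 : ¬ ((2 * m0 + 1 : ℕ) : ℤ) ∣ rh ρ s x) : bs X Y ρ s x = -1 / (2 * m0) := by
  unfold bs
  rw [if_pos (show (X.comp (AddMonoidHom.fst _ _)) x = 0 from h1), if_pos h2, FB_ne]
  · have e : ((2 * m0 + 1 : ℕ) : ℝ) - 1 = 2 * m0 := by push_cast; ring
    rw [ZMod.card, e]
    ring
  · intro h
    apply h3
    rw [← ZMod.intCast_zmod_eq_zero_iff_dvd]
    exact h

lemma bs_off {m0 : ℕ} (X Y : A (4 * Q) →+ A (2 * Q)) (ρ : A (2 * Q) →+ ℤ)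
    (s : Fin m0 → Fin (2 * Q)) (x : KG Q m0) (h : ¬ (X x.1 = 0 ∧ th Y s x = 0)) :
    bs X Y ρ s x = 0 := by
  unfold bs
  by_cases h1 : X x.1 = 0
  · rw [if_neg (show ¬ th Y s x = 0 from fun h2 => h ⟨h1, h2⟩)]
    ring
  · rw [if_neg (show ¬ (X.comp (AddMonoidHom.fst _ _)) x = 0 from h1)]
    ring

lemma beta_off {m0 : ℕ} (X Y : A (4 * Q) →+ A (2 * Q)) (ρ : A (2 * Q) →+ ℤ) (x : KG Q m0)
    (h : ∀ s, ¬ (X x.1 = 0 ∧ th Y s x = 0)) : beta X Y ρ x = 0 := by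
  unfold beta
  rw [Finset.sum_eq_zero (fun s _ => bs_off X Y ρ s x (h s)), mul_zero]


/-! ### The values of beta -/

lemma dvd_n_odd (hQ : Q % 2 = 1) (y : ℤ) : ¬ ((2 * Q : ℕ) : ℤ) ∣ Q - 2 * y := by
  rintro ⟨k, hk⟩
  push_cast at hk
  have : (Q : ℤ) = 2 * (Q * k + y) := by linarith
  omega

lemma beta_ss {m0 : ℕ} (hQ : Q % 2 = 1) (hm0 : 1 ≤ m0) (X Y : A (4 * Q) →+ A (2 * Q))
    {ρ : A (2 * Q) →+ ℤ} (hρ : Rho (2 * Q) ρ) (u v : Fin m0) (huv : u ≠ v) (a b : ℤ) :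
    beta X Y ρ ((0, Pi.single u (z (2 * Q) a) - Pi.single v (z (2 * Q) b)) : KG Q m0) = -1 := by
  have h0 : 0 < Q := by omega
  have hm : (0 : ℝ) < m0 := by exact_mod_cast hm0
  rw [beta_eval h0 X Y ρ _ u (2 * (-1 / (2 * m0)))]
  · field_simp
  intro s
  set y' : ℤ := b - ((s v : ℕ) : ℤ) with hy'
  -- the homomorphisms
  have hth : ∀ t, th Y (Function.update s u t)
      ((0, Pi.single u (z (2 * Q) a) - Pi.single v (z (2 * Q) b)) : KG Q m0) =
      sk (2 * Q) (z (2 * Q) (a - ((t : ℕ) : ℤ)) - z (2 * Q) y') := by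
    intro t
    rw [th_apply, map_zero, zero_add, map_sub, sumHom_single, sumHom_single]
    simp only [AddMonoidHom.comp_apply, Function.update_self, Function.update_of_ne huv.symm,
      mulz_z]
    rw [← map_sub]
    congr 3
    · ring
    · rw [hy']; ring
  have hrh : ∀ t, rh ρ (Function.update s u t)
      ((0, Pi.single u (z (2 * Q) a) - Pi.single v (z (2 * Q) b)) : KG Q m0) =
      (((u : ℕ) : ℤ) + 1) * ρ (z (2 * Q) (a - ((t : ℕ) : ℤ))) -
      (((v : ℕ) : ℤ) + 1) * ρ (z (2 * Q) y') := by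
    intro t
    rw [rh_apply, map_sub, sumHom_single, sumHom_single]
    simp only [AddMonoidHom.comp_apply, Function.update_self, Function.update_of_ne huv.symm,
      mulz_z, AddMonoidHom.coe_mulLeft]
    rw [hy']
    congr 4 <;> ring
  have hu := u.2
  have hv := v.2
  have huv' : (u : ℕ) ≠ (v : ℕ) := fun h => huv (Fin.ext h)
  apply sum_two (2 * Q) (by omega) (a - y') (a + y' - Q)
  · have e : a - y' - (a + y' - Q) = Q - 2 * y' := by ring
    rw [e]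
    exact dvd_n_odd hQ y'
  · intro t ht
    have e1 : a - y' - ((t : ℕ) : ℤ) = a - ((t : ℕ) : ℤ) - y' := by ring
    have e2 : a + y' - Q - ((t : ℕ) : ℤ) = a - ((t : ℕ) : ℤ) + y' - Q := by ring
    rw [e1, e2] at ht
    apply bs_val hm0 X Y ρ
    · exact map_zero _
    · rw [hth t, sk_eq_iff h0]
      exact ht
    · rw [hrh t]
      rcases ht with ht | ht
      · rw [(z_eq_iff (2 * Q) (by omega) _ _).2 ht, ← sub_mul]
        apply not_dvd m0 hρ
        · omega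
        · rw [abs_le]; constructor <;> omega
      · rw [rho_anti hQ hρ _ _ ht, mul_neg, ← neg_add', ← add_mul, ← neg_mul]
        apply not_dvd m0 hρ
        · omega
        · rw [abs_le]; constructor <;> omega
  · intro t ht
    apply bs_off
    rw [hth t, sk_eq_iff h0]
    have e1 : a - y' - ((t : ℕ) : ℤ) = a - ((t : ℕ) : ℤ) - y' := by ring
    have e2 : a + y' - Q - ((t : ℕ) : ℤ) = a - ((t : ℕ) : ℤ) + y' - Q := by ring
    rw [e1, e2] at ht
    exact fun h => ht h.2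

lemma beta_s1 {m0 : ℕ} (hQ : Q % 2 = 1) (hm0 : 1 ≤ m0) (X Y : A (4 * Q) →+ A (2 * Q))
    {ρ : A (2 * Q) →+ ℤ} (hρ : Rho (2 * Q) ρ) (u : Fin m0) (a b : ℤ)
    (hab : ¬ ((2 * Q : ℕ) : ℤ) ∣ a - b) :
    beta X Y ρ ((0, Pi.single u (z (2 * Q) a) - Pi.single u (z (2 * Q) b)) : KG Q m0) =
      if (a - b) % 2 = 0 then 0 else -1 := by
  have h0 : 0 < Q := by omega
  have hm : (0 : ℝ) < m0 := by exact_mod_cast hm0
  have hth : ∀ (s : Fin m0 → Fin (2 * Q)) t, th Y (Function.update s u t)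
      ((0, Pi.single u (z (2 * Q) a) - Pi.single u (z (2 * Q) b)) : KG Q m0) =
      sk (2 * Q) (z (2 * Q) (a - ((t : ℕ) : ℤ)) - z (2 * Q) (b - ((t : ℕ) : ℤ))) := by
    intro s t
    rw [th_apply, map_zero, zero_add, map_sub, sumHom_single, sumHom_single]
    simp only [AddMonoidHom.comp_apply, Function.update_self, mulz_z]
    rw [← map_sub]
    congr 3 <;> ring
  have hrh : ∀ (s : Fin m0 → Fin (2 * Q)) t, rh ρ (Function.update s u t)
      ((0, Pi.single u (z (2 * Q) a) - Pi.single u (z (2 * Q) b)) : KG Q m0) =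
      (((u : ℕ) : ℤ) + 1) * ρ (z (2 * Q) (a - ((t : ℕ) : ℤ))) -
      (((u : ℕ) : ℤ) + 1) * ρ (z (2 * Q) (b - ((t : ℕ) : ℤ))) := by
    intro s t
    rw [rh_apply, map_sub, sumHom_single, sumHom_single]
    simp only [AddMonoidHom.comp_apply, Function.update_self, mulz_z, AddMonoidHom.coe_mulLeft]
    congr 4 <;> ring
  have hu := u.2
  have key : ∀ t : Fin (2 * Q), (((2 * Q : ℕ) : ℤ) ∣ (a - ((t : ℕ) : ℤ)) - (b - ((t : ℕ) : ℤ)) ∨
      ((2 * Q : ℕ) : ℤ) ∣ (a - ((t : ℕ) : ℤ)) + (b - ((t : ℕ) : ℤ)) - Q) ↔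
      ((2 * Q : ℕ) : ℤ) ∣ (a - ((t : ℕ) : ℤ)) + (b - ((t : ℕ) : ℤ)) - Q := by
    intro t
    have e : (a - ((t : ℕ) : ℤ)) - (b - ((t : ℕ) : ℤ)) = a - b := by ring
    rw [e]
    tauto
  split_ifs with hp
  · rw [beta_off]
    rintro s ⟨_, h2⟩
    have h3 := hth s (s u)
    rw [Function.update_eq_self] at h3
    rw [h3, sk_eq_iff h0, key] at h2
    obtain ⟨k, hk⟩ := h2
    push_cast at hk
    have h4 : (a + b : ℤ) - Q = 2 * (Q * k + ((s u : ℕ) : ℤ)) := by linarith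
    omega
  · obtain ⟨e, he⟩ : ∃ e : ℤ, a + b - Q = 2 * e := ⟨(a + b - Q) / 2, by omega⟩
    rw [beta_eval h0 X Y ρ _ u (2 * (-1 / (2 * m0)))]
    · field_simp
    intro s
    have key2 : ∀ t : Fin (2 * Q), (((2 * Q : ℕ) : ℤ) ∣ e - ((t : ℕ) : ℤ) ∨
        ((2 * Q : ℕ) : ℤ) ∣ e + Q - ((t : ℕ) : ℤ)) ↔
        ((2 * Q : ℕ) : ℤ) ∣ (a - ((t : ℕ) : ℤ)) + (b - ((t : ℕ) : ℤ)) - Q := by
      intro t
      have e1 : (a - ((t : ℕ) : ℤ)) + (b - ((t : ℕ) : ℤ)) - Q = 2 * (e - ((t : ℕ) : ℤ)) := by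
        linarith
      rw [e1]
      have e2 : ((2 * Q : ℕ) : ℤ) = 2 * (Q : ℤ) := by push_cast; ring
      rw [e2]
      constructor
      · rintro (⟨k, hk⟩ | ⟨k, hk⟩)
        · exact ⟨2 * k, by rw [hk]; ring⟩
        · exact ⟨2 * k - 1, by linarith⟩
      · rintro ⟨k, hk⟩
        have hw : e - ((t : ℕ) : ℤ) = Q * k := by linarith
        rcases Int.even_or_odd k with ⟨j, hj⟩ | ⟨j, hj⟩
        · left
          exact ⟨j, by rw [hw, hj]; ring⟩
        · right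
          have e3 : e + Q - ((t : ℕ) : ℤ) = (e - ((t : ℕ) : ℤ)) + Q := by ring
          exact ⟨j + 1, by rw [e3, hw, hj]; ring⟩
    apply sum_two (2 * Q) (by omega) e (e + Q)
    · have e1 : e - (e + Q) = -(Q : ℤ) := by ring
      rw [e1, dvd_neg]
      have := dvd_n_odd hQ 0
      simpa using this
    · intro t ht
      rw [key2] at ht
      apply bs_val hm0 X Y ρ
      · exact map_zero _
      · rw [hth s t, sk_eq_iff h0]
        exact Or.inr ht
      · rw [hrh s t, rho_anti hQ hρ _ _ ht]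
        have e1 : (((u : ℕ) : ℤ) + 1) * -ρ (z (2 * Q) (b - ((t : ℕ) : ℤ))) -
            (((u : ℕ) : ℤ) + 1) * ρ (z (2 * Q) (b - ((t : ℕ) : ℤ))) =
            (-2 * (((u : ℕ) : ℤ) + 1)) * ρ (z (2 * Q) (b - ((t : ℕ) : ℤ))) := by ring
        rw [e1]
        apply not_dvd m0 hρ
        · omega
        · rw [abs_le]; constructor <;> omega
    · intro t ht
      apply bs_off
      rw [hth s t, sk_eq_iff h0, key]
      rw [key2] at ht
      exact fun h => ht h.2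

/-! ### The maps X and Y -/

/-- the properties of the maps `X`, `Y` -/
def XYs (Q : ℕ) (X Y : A (4 * Q) →+ A (2 * Q)) : Prop := ∀ m : ℤ,
  X (z (4 * Q) m) = (if m % 2 = 0 then z (2 * Q) (m / 2) else 0) ∧
  Y (z (4 * Q) m) = (if m % 2 = 0 then 0 else z (2 * Q) ((m - Q) / 2))

lemma XY_even {X Y : A (4 * Q) →+ A (2 * Q)} (h : XYs Q X Y) (k : ℤ) :
    X (tt (4 * Q) (2 * k)) = tt (2 * Q) k ∧ Y (tt (4 * Q) (2 * k)) = 0 := by
  obtain ⟨h1, h2⟩ := h (2 * k)
  obtain ⟨h3, h4⟩ := h (-(2 * k))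
  rw [if_pos (by omega)] at h1 h2 h3 h4
  have e1 : 2 * k / 2 = k := by omega
  have e2 : -(2 * k) / 2 = -k := by omega
  rw [e1] at h1
  rw [e2] at h3
  unfold tt
  rw [map_add, map_add, h1, h2, h3, h4]
  exact ⟨rfl, add_zero 0⟩

lemma XY_odd (hQ : Q % 2 = 1) {X Y : A (4 * Q) →+ A (2 * Q)} (h : XYs Q X Y) (y : ℤ) :
    X (tt (4 * Q) (2 * y + Q)) = 0 ∧ Y (tt (4 * Q) (2 * y + Q)) = sk (2 * Q) (z (2 * Q) y) := by
  have h0 : 0 < Q := by omega
  obtain ⟨h1, h2⟩ := h (2 * y + Q)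
  obtain ⟨h3, h4⟩ := h (-(2 * y + Q))
  rw [if_neg (by omega)] at h1 h2 h3 h4
  have e1 : (2 * y + Q - Q) / 2 = y := by omega
  have e2 : (-(2 * y + Q) - Q) / 2 = -y - Q := by omega
  rw [e1] at h2
  rw [e2] at h4
  have h5 : z (2 * Q) (-y - Q) = -z (2 * Q) (-y) := by
    have := z_add_Q h0 (-y - Q)
    rw [sub_add_cancel] at this
    rw [this, neg_neg]
  rw [h5] at h4
  unfold tt
  rw [map_add, map_add, h1, h2, h3, h4, sk_apply, conjA_z]
  exact ⟨add_zero 0, (sub_eq_add_neg _ _).symm⟩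

lemma ok_half {k : ℤ} (h : ok (4 * Q) (2 * k)) : ok (2 * Q) k := by
  intro h1
  apply h
  obtain ⟨c, hc⟩ := h1
  refine ⟨c, ?_⟩
  push_cast at hc ⊢
  linarith

lemma ttk_ne (hQ : Q % 2 = 1) (k : ℤ) : tt (2 * Q) k ≠ 0 := tt_ne_zero (2 * Q) (by omega) k

/-- the difference of two different real numbers is not killed by `X` and `Y` -/
lemma XY_inj (hQ : Q % 2 = 1) {X Y : A (4 * Q) →+ A (2 * Q)} (h : XYs Q X Y) (a a' : ℤ)
    (h1 : ¬ ((4 * Q : ℕ) : ℤ) ∣ a - a') (h2 : ¬ ((4 * Q : ℕ) : ℤ) ∣ a + a') :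
    ¬ (X (tt (4 * Q) a - tt (4 * Q) a') = 0 ∧ Y (tt (4 * Q) a - tt (4 * Q) a') = 0) := by
  have h0 : 0 < Q := by omega
  rintro ⟨hX, hY⟩
  rw [map_sub] at hX hY
  rcases Int.even_or_odd' a with ⟨k, hk⟩
  rcases Int.even_or_odd' a' with ⟨k', hk'⟩
  have q : ∀ c : ℤ, c % 2 = 1 → ∃ y : ℤ, c = 2 * y + Q := fun c hc => ⟨(c - Q) / 2, by omega⟩
  rcases hk with hk | hk
  · subst hk
    rcases hk' with hk' | hk'
    · subst hk'
      rw [(XY_even h k).1, (XY_even h k').1, sub_eq_zero, tt_eq_iff (2 * Q) (by omega)] at hX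
      rcases hX with ⟨c, hc⟩ | ⟨c, hc⟩
      · exact h1 ⟨c, by push_cast at hc ⊢; linarith⟩
      · exact h2 ⟨c, by push_cast at hc ⊢; linarith⟩
    · obtain ⟨y, hy⟩ := q a' (by omega)
      subst hy
      rw [(XY_even h k).1, (XY_odd hQ h y).1, sub_zero] at hX
      exact ttk_ne hQ k hX
  · obtain ⟨y, hy⟩ := q a (by omega)
    clear hk
    subst hy
    rcases hk' with hk' | hk'
    · subst hk'
      rw [(XY_even h k').1, (XY_odd hQ h y).1, zero_sub, neg_eq_zero] at hX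
      exact ttk_ne hQ k' hX
    · obtain ⟨y', hy'⟩ := q a' (by omega)
      clear hk'
      subst hy'
      rw [(XY_odd hQ h y).2, (XY_odd hQ h y').2, ← map_sub, sk_eq_iff h0] at hY
      rcases hY with ⟨c, hc⟩ | ⟨c, hc⟩
      · exact h1 ⟨c, by push_cast at hc ⊢; linarith⟩
      · exact h2 ⟨c + 1, by push_cast at hc ⊢; linarith⟩

lemma beta_rs {m0 : ℕ} (hQ : Q % 2 = 1) (hm0 : 1 ≤ m0) {X Y : A (4 * Q) →+ A (2 * Q)}
    (h : XYs Q X Y) {ρ : A (2 * Q) →+ ℤ} (hρ : Rho (2 * Q) ρ) (y : ℤ) (u : Fin m0) (b : ℤ) :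
    beta X Y ρ ((tt (4 * Q) (2 * y + Q), -Pi.single u (z (2 * Q) b)) : KG Q m0) = -1 := by
  have h0 : 0 < Q := by omega
  have hm : (0 : ℝ) < m0 := by exact_mod_cast hm0
  rw [beta_eval h0 X Y ρ _ u (2 * (-1 / (2 * m0)))]
  · field_simp
  intro s
  have hth : ∀ t, th Y (Function.update s u t)
      ((tt (4 * Q) (2 * y + Q), -Pi.single u (z (2 * Q) b)) : KG Q m0) =
      sk (2 * Q) (z (2 * Q) y - z (2 * Q) (b - ((t : ℕ) : ℤ))) := by
    intro t
    rw [th_apply, (XY_odd hQ h y).2, map_neg, sumHom_single]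
    simp only [AddMonoidHom.comp_apply, Function.update_self, mulz_z]
    rw [← sub_eq_add_neg, ← map_sub]
    congr 3
    ring
  have hrh : ∀ t, rh ρ (Function.update s u t)
      ((tt (4 * Q) (2 * y + Q), -Pi.single u (z (2 * Q) b)) : KG Q m0) =
      (-(((u : ℕ) : ℤ) + 1)) * ρ (z (2 * Q) (b - ((t : ℕ) : ℤ))) := by
    intro t
    rw [rh_apply, map_neg, sumHom_single]
    simp only [AddMonoidHom.comp_apply, Function.update_self, mulz_z, AddMonoidHom.coe_mulLeft]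
    rw [neg_mul]
    congr 4
    ring
  have hu := u.2
  apply sum_two (2 * Q) (by omega) (b - y) (b + y - Q)
  · have e : b - y - (b + y - Q) = Q - 2 * y := by ring
    rw [e]
    exact dvd_n_odd hQ y
  · intro t ht
    apply bs_val hm0 X Y ρ
    · exact (XY_odd hQ h y).1
    · rw [hth t, sk_eq_iff h0]
      have e1 : y - (b - ((t : ℕ) : ℤ)) = -(b - y - ((t : ℕ) : ℤ)) := by ring
      have e2 : y + (b - ((t : ℕ) : ℤ)) - Q = b + y - Q - ((t : ℕ) : ℤ) := by ring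
      rw [e1, e2, dvd_neg]
      exact ht
    · rw [hrh t]
      apply not_dvd m0 hρ
      · omega
      · rw [abs_le]; constructor <;> omega
  · intro t ht
    apply bs_off
    rw [hth t, sk_eq_iff h0]
    have e1 : y - (b - ((t : ℕ) : ℤ)) = -(b - y - ((t : ℕ) : ℤ)) := by ring
    have e2 : y + (b - ((t : ℕ) : ℤ)) - Q = b + y - Q - ((t : ℕ) : ℤ) := by ring
    rw [e1, e2, dvd_neg]
    exact fun h => ht h.2

/-! ### The component gamma -/

open Classical in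
noncomputable def gam {m0 : ℕ} (X Y : A (4 * Q) →+ A (2 * Q)) (C : SG (2 * Q) m0 → ℝ)
    (x : KG Q m0) : ℝ :=
  (if (Y.comp (AddMonoidHom.fst _ _)) x = 0 then (1 : ℝ) else 0) *
    C (((X.comp (AddMonoidHom.fst _ _)).prod (AddMonoidHom.snd _ _)) x)

lemma gam_pd {m0 : ℕ} (X Y : A (4 * Q) →+ A (2 * Q)) {C : SG (2 * Q) m0 → ℝ} (hC : PD C) :
    PD (gam X Y C) := by
  classical
  exact (PD.ind _).mul (hC.comp _)

lemma gam_on {m0 : ℕ} (X Y : A (4 * Q) →+ A (2 * Q)) (C : SG (2 * Q) m0 → ℝ) (w : A (4 * Q))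
    (v : Fin m0 → A (2 * Q)) (h : Y w = 0) : gam X Y C (w, v) = C (X w, v) := by
  unfold gam
  rw [if_pos (show (Y.comp (AddMonoidHom.fst _ _)) (w, v) = 0 from h), one_mul]
  rfl

lemma gam_off {m0 : ℕ} (X Y : A (4 * Q) →+ A (2 * Q)) (C : SG (2 * Q) m0 → ℝ) (w : A (4 * Q))
    (v : Fin m0 → A (2 * Q)) (h : Y w ≠ 0) : gam X Y C (w, v) = 0 := by
  unfold gam
  rw [if_neg (show ¬ (Y.comp (AddMonoidHom.fst _ _)) (w, v) = 0 from h), zero_mul]


/-! ### Assembly on the model group -/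

lemma alpha_pd {m0 : ℕ} {F4 : A (4 * Q) → ℝ} (hF4 : PD F4) {H : A (2 * Q) → ℝ}
    (hH : PD (Hl Q H)) : PD (alpha Q m0 F4 H) := by
  have e1 : PD (fun x : KG Q m0 => F4 x.1) :=
    hF4.comp (AddMonoidHom.fst (A (4 * Q)) (Fin m0 → A (2 * Q)))
  have e2 : PD (fun x : KG Q m0 => ∏ u, Hl Q H (x.2 u)) := by
    refine PD.prod Finset.univ (fun (u : Fin m0) (x : KG Q m0) => Hl Q H (x.2 u)) (fun u _ => ?_)
    exact hH.comp ((Pi.evalAddMonoidHom (fun _ : Fin m0 => A (2 * Q)) u).comp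
      (AddMonoidHom.snd (A (4 * Q)) (Fin m0 → A (2 * Q))))
  exact (e1.mul e2).congr (fun x => rfl)

lemma core {m0 : ℕ} (hQ : Q % 2 = 1) (hQ5 : 5 ≤ Q) (hm0 : 1 ≤ m0)
    {X Y : A (4 * Q) →+ A (2 * Q)} (h : XYs Q X Y) {ρ : A (2 * Q) →+ ℤ} (hρ : Rho (2 * Q) ρ)
    {H : A (2 * Q) → ℝ}
    (hH : InSl (2 * Q) H (fun l => if l % 2 = 0 then 1 / ((Q : ℝ) - 1) else 0))
    {C : SG (2 * Q) m0 → ℝ}
    (hC : Vals (2 * Q) m0 C ((m0 : ℝ) * (2 * Q : ℕ)) 0 1 0 (fun l => -ind (2 * Q) l))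
    {F4 : A (4 * Q) → ℝ} (hF4 : PD F4) (hF0 : F4 0 = 4 * Q - 2)
    (hF1 : ∀ m m', ok (4 * Q) m → ok (4 * Q) m' → ¬ ((4 * Q : ℕ) : ℤ) ∣ m - m' →
      ¬ ((4 * Q : ℕ) : ℤ) ∣ m + m' → F4 (tt (4 * Q) m - tt (4 * Q) m') = -1) :
    ∃ F : KG Q m0 → ℝ, PD F ∧ F 0 = 4 * Q * m0 + 4 * Q - 2 ∧
      (∀ a a', ok (4 * Q) a → ok (4 * Q) a' → ¬ ((4 * Q : ℕ) : ℤ) ∣ a - a' →
        ¬ ((4 * Q : ℕ) : ℤ) ∣ a + a' →
        F ((tt (4 * Q) a, 0) - (tt (4 * Q) a', 0)) = -1) ∧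
      (∀ a u b, ok (4 * Q) a → F ((tt (4 * Q) a, 0) - (0, Pi.single u (z (2 * Q) b))) = -1) ∧
      (∀ u v a b, u ≠ v →
        F ((0, Pi.single u (z (2 * Q) a)) - (0, Pi.single v (z (2 * Q) b))) = -1) ∧
      (∀ u a b, ¬ ((2 * Q : ℕ) : ℤ) ∣ a - b →
        F ((0, Pi.single u (z (2 * Q) a)) - (0, Pi.single u (z (2 * Q) b))) = -1) := by
  have h0 : 0 < Q := by omega
  obtain ⟨H1, H2, H3, H4⟩ := Hl_facts hQ5 hH
  have hind : ∀ l : ℤ, ind (2 * Q) l = if l % 2 = 0 then 2 else 0 := by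
    intro l
    unfold ind
    rw [if_neg (by omega), if_pos (by omega)]
  have q : ∀ c : ℤ, c % 2 = 1 → ∃ y : ℤ, c = 2 * y + Q := fun c hc => ⟨(c - Q) / 2, by omega⟩
  refine ⟨fun x => alpha Q m0 F4 H x + beta X Y ρ x + gam X Y C x,
    ((alpha_pd hF4 H1).add (beta_pd hm0 X Y ρ)).add (gam_pd X Y hC.pd), ?_, ?_, ?_, ?_, ?_⟩
  · -- total mass
    beta_reduce
    rw [beta_zero h0]
    have e1 : alpha Q m0 F4 H 0 = 4 * Q - 2 := by
      unfold alpha
      simp [hF0, H2]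
    have e2 : gam X Y C 0 = (m0 : ℝ) * (2 * Q : ℕ) := by
      have := gam_on X Y C 0 0 (map_zero Y)
      rw [map_zero] at this
      have h00 : ((0, 0) : SG (2 * Q) m0) = 0 := rfl
      rw [h00, hC.zero] at this
      exact this
    rw [e1, e2]
    push_cast
    ring
  · -- real - real
    intro a a' ha ha' h1 h2
    beta_reduce
    rw [Prod.mk_sub_mk, sub_zero]
    have e1 : alpha Q m0 F4 H (tt (4 * Q) a - tt (4 * Q) a', 0) = -1 := by
      unfold alpha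
      simp [hF1 a a' ha ha' h1 h2, H2]
    have e2 : beta X Y ρ ((tt (4 * Q) a - tt (4 * Q) a', 0) : KG Q m0) = 0 := by
      apply beta_off
      intro s
      rw [th_apply, map_zero, add_zero]
      exact XY_inj hQ h a a' h1 h2
    have e3 : gam X Y C (tt (4 * Q) a - tt (4 * Q) a', 0) = 0 := by
      by_cases hY : Y (tt (4 * Q) a - tt (4 * Q) a') = 0
      · rw [gam_on X Y C _ _ hY]
        rcases Int.even_or_odd' a with ⟨k, hk⟩
        rcases Int.even_or_odd' a' with ⟨k', hk'⟩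
        rcases hk with hk | hk
        · subst hk
          rcases hk' with hk' | hk'
          · subst hk'
            have h5 := hC.rr k k' (ok_half ha) (ok_half ha')
              (by rintro ⟨c, hc⟩; exact h1 ⟨c, by push_cast at hc ⊢; linarith⟩)
              (by rintro ⟨c, hc⟩; exact h2 ⟨c, by push_cast at hc ⊢; linarith⟩)
            rw [neg_zero] at h5
            rw [map_sub, (XY_even h k).1, (XY_even h k').1]
            have h6 : rv (2 * Q) m0 k - rv (2 * Q) m0 k' = (tt (2 * Q) k - tt (2 * Q) k', 0) := by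
              unfold rv
              rw [Prod.mk_sub_mk, sub_zero]
            rwa [h6] at h5
          · obtain ⟨y, hy⟩ := q a' (by omega)
            subst hy
            rw [map_sub, (XY_even h k).1, (XY_odd hQ h y).1, sub_zero]
            exact hC.er (by omega) k (ok_half ha)
        · obtain ⟨y, hy⟩ := q a (by omega)
          clear hk
          subst hy
          rcases hk' with hk' | hk'
          · subst hk'
            rw [map_sub, (XY_even h k').1, (XY_odd hQ h y).1, zero_sub]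
            have h5 := hC.er (by omega) k' (ok_half ha')
            rw [← hC.pd.even] at h5
            have h6 : -rv (2 * Q) m0 k' = (-tt (2 * Q) k', 0) := by
              unfold rv
              rw [Prod.neg_mk, neg_zero]
            rwa [h6] at h5
          · obtain ⟨y', hy'⟩ := q a' (by omega)
            clear hk'
            subst hy'
            exfalso
            refine XY_inj hQ h _ _ h1 h2 ⟨?_, hY⟩
            rw [map_sub, (XY_odd hQ h y).1, (XY_odd hQ h y').1, sub_zero]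
      · exact gam_off X Y C _ _ hY
    rw [e1, e2, e3]
    ring
  · -- real - slice
    intro a u b ha
    beta_reduce
    rw [Prod.mk_sub_mk, sub_zero, zero_sub]
    have e1 : alpha Q m0 F4 H (tt (4 * Q) a, -Pi.single u (z (2 * Q) b)) = 0 := by
      unfold alpha
      rw [Finset.prod_eq_zero (Finset.mem_univ u), mul_zero]
      show Hl Q H ((-Pi.single u (z (2 * Q) b) : Fin m0 → A (2 * Q)) u) = 0
      rw [Pi.neg_apply, Pi.single_eq_same, H1.even, H3]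
    rw [e1]
    rcases Int.even_or_odd' a with ⟨k, hk⟩
    rcases hk with hk | hk
    · subst hk
      have e2 : beta X Y ρ ((tt (4 * Q) (2 * k), -Pi.single u (z (2 * Q) b)) : KG Q m0) = 0 := by
        apply beta_off
        rintro s ⟨h5, _⟩
        have h5 : X (tt (4 * Q) (2 * k)) = 0 := h5
        rw [(XY_even h k).1] at h5
        exact ttk_ne hQ k h5
      rw [e2, gam_on X Y C _ _ (XY_even h k).2, (XY_even h k).1]
      have h5 := hC.rs k u b (ok_half ha)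
      have h6 : rv (2 * Q) m0 k - sv (2 * Q) m0 u b =
          (tt (2 * Q) k, -Pi.single u (z (2 * Q) b)) := by
        unfold rv sv
        rw [Prod.mk_sub_mk, sub_zero, zero_sub]
      rw [h6] at h5
      rw [h5]
      ring
    · obtain ⟨y, hy⟩ := q a (by omega)
      clear hk
      subst hy
      rw [beta_rs hQ hm0 h hρ]
      have e3 : gam X Y C (tt (4 * Q) (2 * y + Q), -Pi.single u (z (2 * Q) b)) = 0 := by
        by_cases hY : Y (tt (4 * Q) (2 * y + Q)) = 0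
        · rw [gam_on X Y C _ _ hY, (XY_odd hQ h y).1]
          have h5 := hC.es (by omega) u b
          rw [← hC.pd.even] at h5
          have h6 : -sv (2 * Q) m0 u b = (0, -Pi.single u (z (2 * Q) b)) := by
            unfold sv
            rw [Prod.neg_mk, neg_zero]
          rwa [h6] at h5
        · exact gam_off X Y C _ _ hY
      rw [e3]
      ring
  · -- two slices
    intro u v a b huv
    beta_reduce
    rw [Prod.mk_sub_mk, sub_zero, beta_ss hQ hm0 X Y hρ u v huv]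
    have e1 : alpha Q m0 F4 H (0, Pi.single u (z (2 * Q) a) - Pi.single v (z (2 * Q) b)) = 0 := by
      unfold alpha
      rw [Finset.prod_eq_zero (Finset.mem_univ u), mul_zero]
      show Hl Q H ((Pi.single u (z (2 * Q) a) - Pi.single v (z (2 * Q) b) :
        Fin m0 → A (2 * Q)) u) = 0
      rw [Pi.sub_apply, Pi.single_eq_same, Pi.single_eq_of_ne huv, sub_zero, H3]
    rw [e1, gam_on X Y C _ _ (map_zero Y), map_zero]
    have h5 := hC.ss u v huv a b
    have h6 : sv (2 * Q) m0 u a - sv (2 * Q) m0 v b =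
        (0, Pi.single u (z (2 * Q) a) - Pi.single v (z (2 * Q) b)) := by
      unfold sv
      rw [Prod.mk_sub_mk, sub_zero]
    rw [h6] at h5
    rw [h5]
    ring
  · -- one slice
    intro u a b hab
    beta_reduce
    rw [Prod.mk_sub_mk, sub_zero, beta_s1 hQ hm0 X Y hρ u a b hab]
    have e1 : alpha Q m0 F4 H (0, Pi.single u (z (2 * Q) a) - Pi.single u (z (2 * Q) b)) =
        if (a - b) % 2 = 0 then -3 else 0 := by
      rw [← H4 a b hab, ← hF0]
      unfold alpha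
      rw [← Pi.single_sub]
      congr 1
      exact prod_single H2 u _
    rw [e1, gam_on X Y C _ _ (map_zero Y), map_zero]
    have h5 := hC.s1 u a b hab
    rw [neg_neg, hind] at h5
    have h6 : sv (2 * Q) m0 u a - sv (2 * Q) m0 u b =
        (0, Pi.single u (z (2 * Q) a) - Pi.single u (z (2 * Q) b)) := by
      unfold sv
      rw [Prod.mk_sub_mk, sub_zero]
    rw [h6] at h5
    rw [h5]
    split_ifs <;> norm_num

end

end PB

open PB in
theorem partB (hs : S_SLICE) (hr : S_RHO) (hc1 : S_C1) (hdm1 : S_DM1) (h4 : S_D4) : S_PARTB := by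
  intro s Q hs3 hQ hQ5 hQ3 hPP
  obtain ⟨F4, hF4, hF0, hF1, -, -⟩ := hPP
  obtain ⟨r, rfl⟩ : ∃ r, s = r + 3 := ⟨s - 3, by omega⟩
  set d1 : ℕ := 2 ^ (r + 1) with hd1
  have hd1pos : 2 ≤ d1 := by
    rw [hd1, pow_succ]
    have := Nat.one_le_two_pow (n := r)
    omega
  set m0 : ℕ := d1 - 1 with hm0
  have hm1 : 1 ≤ m0 := by omega
  have hN1 : 2 ^ (r + 3) * Q = d1 * (4 * Q) := by rw [hd1]; ring
  have hN2 : 2 ^ (r + 3) * Q = (2 * d1) * (2 * Q) := by rw [hd1]; ring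
  have hpow : ∀ q : ℕ, q.Prime → q ∣ d1 → q = 2 := by
    intro q hq hqd
    rw [hd1] at hqd
    exact (Nat.prime_dvd_prime_iff_eq hq Nat.prime_two).1 (hq.dvd_of_dvd_pow hqd)
  obtain ⟨X, Y, hXY⟩ := h4 Q hQ
  obtain ⟨ρ, hρ⟩ := hr (2 * Q) (by omega) (by omega)
  obtain ⟨H, hH, -⟩ := hdm1 Q hQ (by omega)
  obtain ⟨C, hC⟩ := hc1 (2 * Q) m0 (by omega) (by omega) hm1
  obtain ⟨F, hFpd, hFz, hFrr, hFrs, hFss, hFs1⟩ :=
    core hQ hQ5 hm1 (fun m => hXY m) hρ hH hC hF4 hF0 hF1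
  set N : ℕ := 2 ^ (r + 3) * Q with hN
  have hNpos : 0 < N := by rw [hN1]; positivity
  obtain ⟨X0, hX0⟩ : ∃ X0 : A N →+ A (4 * Q), ∀ m : ℤ, X0 (z N m) =
      if (d1 : ℤ) ∣ m - 0 then z (4 * Q) ((m - 0) / d1) else 0 := by
    rw [hN1]
    refine hs d1 (4 * Q) (by omega) (by omega) ?_ 0
    intro q hq hqd
    rw [hpow q hq hqd]
    exact ⟨2 * Q, by ring⟩
  have hsl : ∀ u : Fin m0, ∃ X1 : A N →+ A (2 * Q), ∀ m : ℤ, X1 (z N m) =
      if ((2 * d1 : ℕ) : ℤ) ∣ m - (((u : ℕ) : ℤ) + 1) then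
        z (2 * Q) ((m - (((u : ℕ) : ℤ) + 1)) / (2 * d1 : ℕ)) else 0 := by
    intro u
    rw [hN2]
    refine hs (2 * d1) (2 * Q) (by omega) (by omega) ?_ _
    intro q hq hqd
    have hq2 : q = 2 := by
      rcases (hq.dvd_mul).1 hqd with h | h
      · exact (Nat.prime_dvd_prime_iff_eq hq Nat.prime_two).1 h
      · exact hpow q hq h
    rw [hq2]
    exact ⟨Q, rfl⟩
  choose Xs hXs using hsl
  set Ψ : A N →+ KG Q m0 := X0.prod (AddMonoidHom.pi Xs) with hΨ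
  have hΨa : ∀ x, Ψ x = (X0 x, fun u => Xs u x) := fun x => rfl
  have hd1z : (2 : ℤ) ≤ (d1 : ℤ) := by exact_mod_cast hd1pos
  have hu1 : ∀ u : Fin m0, ((u : ℕ) : ℤ) + 1 ≤ (d1 : ℤ) - 1 := by
    intro u
    have := u.2
    omega
  -- the two types of vectors
  have hA : ∀ a : ℤ, Ψ (tt N ((d1 : ℤ) * a)) = (tt (4 * Q) a, 0) := by
    intro a
    have hd0 : (d1 : ℤ) ≠ 0 := by omega
    rw [hΨa]
    unfold tt
    refine Prod.ext ?_ ?_
    · show X0 (z N ((d1 : ℤ) * a) + z N (-((d1 : ℤ) * a))) = z (4 * Q) a + z (4 * Q) (-a)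
      have e1 : -((d1 : ℤ) * a) = (d1 : ℤ) * (-a) := by ring
      rw [map_add, e1, hX0, hX0, sub_zero, sub_zero, if_pos (Dvd.intro _ rfl),
        if_pos (Dvd.intro _ rfl), Int.mul_ediv_cancel_left _ hd0, Int.mul_ediv_cancel_left _ hd0]
    · funext u
      show Xs u (z N ((d1 : ℤ) * a) + z N (-((d1 : ℤ) * a))) = 0
      have key : ∀ a : ℤ, ¬ ((2 * d1 : ℕ) : ℤ) ∣ (d1 : ℤ) * a - (((u : ℕ) : ℤ) + 1) := by
        rintro a ⟨k, hk⟩
        push_cast at hk
        have h5 : (d1 : ℤ) ∣ ((u : ℕ) : ℤ) + 1 := ⟨a - 2 * k, by linarith⟩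
        have h6 := Int.le_of_dvd (by positivity) h5
        have := hu1 u
        omega
      have e1 : -((d1 : ℤ) * a) = (d1 : ℤ) * (-a) := by ring
      rw [map_add, e1, hXs, hXs, if_neg (key a), if_neg (key (-a)), add_zero]
  have hB : ∀ (u : Fin m0) (b : ℤ), Ψ (tt N ((((u : ℕ) : ℤ) + 1) + (2 * d1 : ℕ) * b)) =
      (0, Pi.single u (z (2 * Q) b)) := by
    intro u b
    rw [hΨa]
    unfold tt
    have hu := hu1 u
    refine Prod.ext ?_ ?_
    · show X0 (z N _ + z N (-_)) = 0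
      have key : ¬ (d1 : ℤ) ∣ (((u : ℕ) : ℤ) + 1) + (2 * d1 : ℕ) * b := by
        rintro ⟨k, hk⟩
        push_cast at hk
        have h5 : (d1 : ℤ) ∣ ((u : ℕ) : ℤ) + 1 := ⟨k - 2 * b, by linarith⟩
        have h6 := Int.le_of_dvd (by positivity) h5
        omega
      rw [map_add, hX0, hX0, sub_zero, sub_zero, if_neg key, if_neg (by rwa [dvd_neg]), add_zero]
    · funext v
      show Xs v (z N _ + z N (-_)) = (Pi.single u (z (2 * Q) b) : Fin m0 → A (2 * Q)) v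
      have hv := hu1 v
      have k1 : ¬ ((2 * d1 : ℕ) : ℤ) ∣
          -((((u : ℕ) : ℤ) + 1) + (2 * d1 : ℕ) * b) - (((v : ℕ) : ℤ) + 1) := by
        rintro ⟨k, hk⟩
        push_cast at hk
        have h5 : (2 * (d1 : ℤ)) ∣ (((u : ℕ) : ℤ) + 1) + (((v : ℕ) : ℤ) + 1) :=
          ⟨-(k + b), by linarith⟩
        have h6 := Int.le_of_dvd (by positivity) h5
        omega
      rw [map_add, hXs, hXs, if_neg k1, add_zero]
      by_cases huv : v = u
      · subst huv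
        have e1 : (((v : ℕ) : ℤ) + 1) + (2 * d1 : ℕ) * b - (((v : ℕ) : ℤ) + 1) =
            (2 * d1 : ℕ) * b := by ring
        rw [e1, if_pos (Dvd.intro _ rfl), Int.mul_ediv_cancel_left _ (by omega),
          Pi.single_eq_same]
      · rw [Pi.single_eq_of_ne huv, if_neg]
        rintro ⟨k, hk⟩
        push_cast at hk
        have h5 : (2 * (d1 : ℤ)) ∣ ((u : ℕ) : ℤ) - ((v : ℕ) : ℤ) := ⟨k - b, by linarith⟩
        have h7 : ((u : ℕ) : ℤ) - ((v : ℕ) : ℤ) = 0 := by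
          apply Int.eq_zero_of_abs_lt_dvd h5
          rw [abs_lt]
          constructor <;> omega
        exact huv (Fin.ext (by omega))
  have hcl : ∀ m : ℤ, ∃ μ : ℤ, (μ = m ∨ μ = -m) ∧ ((∃ a : ℤ, μ = (d1 : ℤ) * a) ∨
      ∃ (u : Fin m0) (b : ℤ), μ = (((u : ℕ) : ℤ) + 1) + (2 * d1 : ℕ) * b) := by
    intro m
    by_cases hdm : (d1 : ℤ) ∣ m
    · obtain ⟨a, ha⟩ := hdm
      exact ⟨m, Or.inl rfl, Or.inl ⟨a, ha⟩⟩
    · have e0 := Int.emod_add_mul_ediv m (2 * (d1 : ℤ))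
      have e1 := Int.emod_nonneg m (show (2 * (d1 : ℤ)) ≠ 0 by omega)
      have e2 := Int.emod_lt_of_pos m (show 0 < (2 * (d1 : ℤ)) by omega)
      set rr := m % (2 * (d1 : ℤ)) with hrr
      set k := m / (2 * (d1 : ℤ)) with hk
      have e3 : rr ≠ 0 := by
        intro h
        apply hdm
        exact ⟨2 * k, by rw [← e0, h]; ring⟩
      have e4 : rr ≠ d1 := by
        intro h
        apply hdm
        exact ⟨1 + 2 * k, by rw [← e0, h]; ring⟩
      rcases lt_or_gt_of_ne e4 with h | h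
      · refine ⟨m, Or.inl rfl, Or.inr ⟨⟨(rr - 1).toNat, by omega⟩, k, ?_⟩⟩
        have e5 : (((rr - 1).toNat : ℕ) : ℤ) = rr - 1 := Int.toNat_of_nonneg (by omega)
        simp only [e5]
        push_cast
        linarith
      · refine ⟨-m, Or.inr rfl, Or.inr ⟨⟨(2 * (d1 : ℤ) - rr - 1).toNat, by omega⟩, -k - 1, ?_⟩⟩
        have e5 : (((2 * (d1 : ℤ) - rr - 1).toNat : ℕ) : ℤ) = 2 * (d1 : ℤ) - rr - 1 :=
          Int.toNat_of_nonneg (by omega)
        simp only [e5]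
        push_cast
        linarith
  have hok : ∀ a : ℤ, ok N ((d1 : ℤ) * a) → ok (4 * Q) a := by
    intro a h1 h2
    apply h1
    obtain ⟨c, hc⟩ := h2
    refine ⟨c, ?_⟩
    rw [hN1]
    push_cast at hc ⊢
    linear_combination (d1 : ℤ) * hc
  refine ⟨fun x => F (Ψ x), hFpd.comp Ψ, ?_, ?_, ?_, ?_⟩
  · beta_reduce
    rw [map_zero, hFz]
    have e1 : (m0 : ℝ) = 2 ^ (r + 1) - 1 := by
      rw [hm0, Nat.cast_sub (by omega), hd1]
      push_cast
      ring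
    rw [e1]
    ring
  · intro m m' hm hm' h1 h2
    beta_reduce
    obtain ⟨μ, hμ, hc⟩ := hcl m
    obtain ⟨μ', hμ', hc'⟩ := hcl m'
    have t1 : tt N m = tt N μ := by
      rcases hμ with rfl | rfl
      · rfl
      · rw [tt_neg]
    have t2 : tt N m' = tt N μ' := by
      rcases hμ' with rfl | rfl
      · rfl
      · rw [tt_neg]
    have o1 : ok N μ := by
      rcases hμ with rfl | rfl
      · exact hm
      · intro h
        apply hm
        rw [mul_neg, dvd_neg] at h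
        exact h
    have o2 : ok N μ' := by
      rcases hμ' with rfl | rfl
      · exact hm'
      · intro h
        apply hm'
        rw [mul_neg, dvd_neg] at h
        exact h
    have n1 : ¬ (N : ℤ) ∣ μ - μ' ∧ ¬ (N : ℤ) ∣ μ + μ' := by
      rcases hμ with rfl | rfl
      · rcases hμ' with rfl | rfl
        · exact ⟨h1, h2⟩
        · rw [sub_neg_eq_add, ← sub_eq_add_neg]
          exact ⟨h2, h1⟩
      · rcases hμ' with rfl | rfl
        · constructor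
          · have e : -m - μ' = -(m + μ') := by ring
            rw [e, dvd_neg]
            exact h2
          · have e : -m + μ' = -(m - μ') := by ring
            rw [e, dvd_neg]
            exact h1
        · constructor
          · have e : -m - -m' = -(m - m') := by ring
            rw [e, dvd_neg]
            exact h1
          · have e : -m + -m' = -(m + m') := by ring
            rw [e, dvd_neg]
            exact h2
    rw [t1, t2, map_sub]
    clear t1 t2 hμ hμ' h1 h2 hm hm'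
    obtain ⟨h1, h2⟩ := n1
    rcases hc with ⟨a, rfl⟩ | ⟨u, b, rfl⟩
    · rcases hc' with ⟨a', rfl⟩ | ⟨v, b', rfl⟩
      · rw [hA, hA]
        apply hFrr a a' (hok a o1) (hok a' o2)
        · rintro ⟨c, hc⟩
          apply h1
          refine ⟨c, ?_⟩
          rw [hN1]
          push_cast at hc ⊢
          linear_combination (d1 : ℤ) * hc
        · rintro ⟨c, hc⟩
          apply h2
          refine ⟨c, ?_⟩
          rw [hN1]
          push_cast at hc ⊢
          linear_combination (d1 : ℤ) * hc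
      · rw [hA, hB]
        exact hFrs a v b' (hok a o1)
    · rcases hc' with ⟨a', rfl⟩ | ⟨v, b', rfl⟩
      · rw [hA, hB, ← hFpd.even, neg_sub]
        exact hFrs a' u b (hok a' o2)
      · rw [hB, hB]
        by_cases huv : u = v
        · subst huv
          apply hFs1
          rintro ⟨c, hc⟩
          apply h1
          refine ⟨c, ?_⟩
          rw [hN2]
          push_cast at hc ⊢
          linear_combination (2 * (d1 : ℤ)) * hc
        · exact hFss u v b b' huv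
  · intro hodd
    exfalso
    rw [hN2] at hodd
    have : 2 * d1 * (2 * Q) = 2 * (d1 * (2 * Q)) := by ring
    omega
  · intro hodd
    exfalso
    rw [hN1] at hodd
    have : d1 * (4 * Q) = 4 * (d1 * Q) := by ring
    omega

end PathMix2
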