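import Pool.Agent.PathMix2.Stmts
set_option autoImplicit false

/-! Module PM_PROD of MP_261efc_co: product functions on the model group. -/

open Finset

namespace PathMix2

namespace ProdM

variable {n g : ℕ}

/-- coordinate of a slice -/
noncomputable def prj (n g : ℕ) (i : Fin g) : SG n g →+ A n :=
  (Pi.evalAddMonoidHom (fun _ : Fin g => A n) i).comp (AddMonoidHom.snd (A n) (Fin g → A n))

lemma prj_apply (i : Fin g) (x : SG n g) : prj n g i x = x.2 i := rfl

lemma InSl.neg {H : A n → ℝ} {h3 : ℤ → ℝ} (h : InSl n H h3) (m : ℤ) : H (-z n m) = 0 := by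
  rw [h.pd.even, h.one]

lemma z_sub_ne (hn : 0 < n) {m m' : ℤ} (h : ¬ (n : ℤ) ∣ m - m') : z n m - z n m' ≠ 0 := by
  rw [Ne, sub_eq_zero, z_eq_iff n hn]
  exact h

lemma tt_sub_ne (hn : 0 < n) {m m' : ℤ} (h : ¬ (n : ℤ) ∣ m - m') (h' : ¬ (n : ℤ) ∣ m + m') :
    tt n m - tt n m' ≠ 0 := by
  rw [Ne, sub_eq_zero, tt_eq_iff n hn]
  tauto

/-! values of the coordinates -/

lemma rr_2 (m m' : ℤ) (i : Fin g) : (rv n g m - rv n g m').2 i = 0 := by simp [rv]
lemma rr_1 (m m' : ℤ) : (rv n g m - rv n g m').1 = tt n m - tt n m' := by simp [rv]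
lemma ar_2 (m m' : ℤ) (i : Fin g) : (rv n g m + rv n g m').2 i = 0 := by simp [rv]
lemma ar_1 (m m' : ℤ) : (rv n g m + rv n g m').1 = tt n m + tt n m' := by simp [rv]
lemma rs_2 (m : ℤ) (i : Fin g) (m' : ℤ) : (rv n g m - sv n g i m').2 i = -z n m' := by
  simp [rv, sv]
lemma as_2 (m : ℤ) (i : Fin g) (m' : ℤ) : (rv n g m + sv n g i m').2 i = z n m' := by
  simp [rv, sv]
lemma ss_2 {i j : Fin g} (hij : i ≠ j) (m m' : ℤ) : (sv n g i m - sv n g j m').2 i = z n m := by
  simp [sv, Pi.single_eq_of_ne hij]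
lemma ass_2 {i j : Fin g} (hij : i ≠ j) (m m' : ℤ) : (sv n g i m + sv n g j m').2 i = z n m := by
  simp [sv, Pi.single_eq_of_ne hij]
lemma s1_2 (i : Fin g) (m m' : ℤ) : (sv n g i m - sv n g i m').2 i = z n m - z n m' := by
  simp [sv]
lemma s1_2' {i j : Fin g} (hij : j ≠ i) (m m' : ℤ) : (sv n g i m - sv n g i m').2 j = 0 := by
  simp [sv, Pi.single_eq_of_ne hij]
lemma s1_1 (i : Fin g) (m m' : ℤ) : (sv n g i m - sv n g i m').1 = 0 := by
  simp [sv]
lemma as1_2 (i : Fin g) (m m' : ℤ) : (sv n g i m + sv n g i m').2 i = z n m + z n m' := by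
  simp [sv]
lemma sv_2 (i : Fin g) (m : ℤ) : (sv n g i m).2 i = z n m := by simp [sv]
lemma rv_1 (m : ℤ) : (rv n g m).1 = tt n m := rfl
lemma dr_2 (a : A n) (m : ℤ) (i : Fin g) : (dl n g a - rv n g m).2 i = -a := by simp [dl, rv]
lemma adr_2 (a : A n) (m : ℤ) (i : Fin g) : (dl n g a + rv n g m).2 i = -a := by simp [dl, rv]
lemma ds_2 (a : A n) {i j : Fin g} (hij : j ≠ i) (m : ℤ) : (dl n g a - sv n g i m).2 j = -a := by
  simp [dl, sv, Pi.single_eq_of_ne hij]
lemma ads_2 (a : A n) {i j : Fin g} (hij : j ≠ i) (m : ℤ) : (dl n g a + sv n g i m).2 j = -a := by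
  simp [dl, sv, Pi.single_eq_of_ne hij]
lemma dl_2 (a : A n) (i : Fin g) : (dl n g a).2 i = -a := rfl
lemma dl_1 (a : A n) : (dl n g a).1 = -a := rfl

lemma other (hg : 2 ≤ g) (i : Fin g) : ∃ j : Fin g, j ≠ i := by
  have : Nontrivial (Fin g) := Fin.nontrivial_iff_two_le.mpr hg
  exact exists_ne i

/-- the product over the slices -/
noncomputable def PH (n g : ℕ) (H : A n → ℝ) (x : SG n g) : ℝ := ∏ i, H (x.2 i)

lemma PH_pd {H : A n → ℝ} (h : PD H) : PD (PH n g H) := by
  unfold PH
  exact PD.prod univ (fun (i : Fin g) (x : SG n g) => H (x.2 i)) (fun i _ => h.comp (prj n g i))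

lemma PH_zero {H : A n → ℝ} {x : SG n g} (i : Fin g) (h : H (x.2 i) = 0) : PH n g H x = 0 :=
  Finset.prod_eq_zero (mem_univ i) h

lemma PH_one {H : A n → ℝ} {x : SG n g} (h0 : H 0 = 1) (h : ∀ i, x.2 i = 0) : PH n g H x = 1 := by
  unfold PH
  apply Finset.prod_eq_one
  intro i _
  rw [h i, h0]

lemma PH_single {H : A n → ℝ} {x : SG n g} (h0 : H 0 = 1) (i : Fin g) (h : ∀ j, j ≠ i → x.2 j = 0) :
    PH n g H x = H (x.2 i) := by
  unfold PH
  apply Finset.prod_eq_single i
  · intro j _ hj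
    rw [h j hj, h0]
  · intro hi
    exact absurd (mem_univ i) hi

/-! The functions `f (x.1) * PH x`. -/

lemma valsP {H : A n → ℝ} {h3 : ℤ → ℝ} (hH : InSl n H h3) {f : A n → ℝ} {w c0 : ℝ} (hf : PD f)
    (h0 : f 0 = w)
    (h1 : ∀ m m', ok n m → ok n m' → ¬ (n : ℤ) ∣ m - m' → ¬ (n : ℤ) ∣ m + m' →
      f (tt n m - tt n m') = -c0)
    (h2 : n % 2 = 1 → ∀ m m', ok n m → ok n m' → f (tt n m + tt n m') = 0)
    (h4 : n % 4 = 2 → ∀ m, ok n m → f (tt n m) = 0) :
    Vals n g (fun x => f x.1 * PH n g H x) w c0 0 0 (fun l => w * h3 l) where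
  pd := (hf.comp (AddMonoidHom.fst (A n) (Fin g → A n))).mul (PH_pd hH.pd)
  zero := by
    rw [PH_one hH.zero (fun i => rfl), mul_one]
    exact h0
  rr m m' a b c d := by
    rw [PH_one hH.zero (fun i => rr_2 m m' i), mul_one, rr_1]
    exact h1 m m' a b c d
  rs m i m' a := by
    rw [PH_zero i (by rw [rs_2, InSl.neg hH]), mul_zero, neg_zero]
  ss i j hij m m' := by
    rw [PH_zero i (by rw [ss_2 hij, hH.one]), mul_zero, neg_zero]
  s1 i m m' a := by
    rw [PH_single hH.zero i (fun j hj => s1_2' hj m m'), s1_2, s1_1, h0, hH.diff m m' a]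
    ring
  orr ho m m' a b := by
    rw [ar_1, h2 ho m m' a b, zero_mul]
  ors ho m i m' a := by
    rw [PH_zero i (by rw [as_2, hH.one]), mul_zero]
  oss ho i j m m' := by
    by_cases hij : i = j
    · subst hij
      rw [PH_zero i (by rw [as1_2, hH.sum ho]), mul_zero]
    · rw [PH_zero i (by rw [ass_2 hij, hH.one]), mul_zero]
  er he m a := by
    rw [rv_1, h4 he m a, zero_mul]
  es he i m := by
    rw [PH_zero i (by rw [sv_2, hH.one]), mul_zero]

lemma killP (hg : 2 ≤ g) {H : A n → ℝ} {h3 : ℤ → ℝ} (hH : InSl n H h3) {f : A n → ℝ}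
    (k1 : ∀ m m', ¬ (n : ℤ) ∣ m - m' → ((z n m - z n m' : A n) : ℂ).im = 0 →
      f (-(z n m - z n m')) * PH n g H (dl n g (z n m - z n m')) = 0) :
    Kill n g (fun x => f x.1 * PH n g H x) where
  kr m m' a b := by
    rw [PH_zero ⟨0, by omega⟩ (by rw [dr_2, InSl.neg hH]), mul_zero]
  ks m i m' a := by
    obtain ⟨j, hj⟩ := other hg i
    rw [PH_zero j (by rw [ds_2 _ hj, InSl.neg hH]), mul_zero]
  kk m m' a b := k1 m m' a b
  okr ho m m' a b := by
    rw [PH_zero ⟨0, by omega⟩ (by rw [adr_2, InSl.neg hH]), mul_zero]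
  oks ho m i m' a := by
    obtain ⟨j, hj⟩ := other hg i
    rw [PH_zero j (by rw [ads_2 _ hj, InSl.neg hH]), mul_zero]
  okk ho m m' a := by
    rw [PH_zero ⟨0, by omega⟩ (by rw [dl_2, hH.pd.even, hH.sum ho]), mul_zero]
  ek he m a := by
    rw [PH_zero ⟨0, by omega⟩ (by rw [dl_2, InSl.neg hH]), mul_zero]

open Classical in
/-- the tree-like average -/
noncomputable def TH (n g : ℕ) (H : A n → ℝ) (x : SG n g) : ℝ :=
  ∑ j : Fin g, (if x.2 j = 0 then (1 : ℝ) else 0) * ∏ i ∈ univ.erase j, H (x.2 i)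

open Classical in
lemma TH_pd {H : A n → ℝ} (h : PD H) : PD (TH n g H) := by
  unfold TH
  refine PD.sum univ (fun (j : Fin g) (x : SG n g) =>
    (if x.2 j = 0 then (1 : ℝ) else 0) * ∏ i ∈ univ.erase j, H (x.2 i)) (fun j _ => ?_)
  exact (PD.ind (prj n g j)).mul
    (PD.prod (univ.erase j) (fun (i : Fin g) (x : SG n g) => H (x.2 i))
      (fun i _ => h.comp (prj n g i)))

lemma TH_zero {H : A n → ℝ} {x : SG n g} (i : Fin g) (h : H (x.2 i) = 0) (h' : x.2 i ≠ 0) :
    TH n g H x = 0 := by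
  classical
  unfold TH
  apply Finset.sum_eq_zero
  intro j _
  by_cases hij : i = j
  · subst hij
    rw [if_neg h', zero_mul]
  · rw [Finset.prod_eq_zero (mem_erase.mpr ⟨hij, mem_univ i⟩) h, mul_zero]

lemma TH_zero' {H : A n → ℝ} {x : SG n g} (h : ∀ j, x.2 j ≠ 0) : TH n g H x = 0 := by
  classical
  unfold TH
  apply Finset.sum_eq_zero
  intro j _
  rw [if_neg (h j), zero_mul]

lemma TH_one {H : A n → ℝ} {x : SG n g} (h0 : H 0 = 1) (h : ∀ i, x.2 i = 0) : TH n g H x = g := by
  classical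
  unfold TH
  have : ∀ j ∈ (univ : Finset (Fin g)),
      (if x.2 j = 0 then (1 : ℝ) else 0) * ∏ i ∈ univ.erase j, H (x.2 i) = 1 := by
    intro j _
    rw [if_pos (h j), one_mul]
    apply Finset.prod_eq_one
    intro i _
    rw [h i, h0]
  rw [Finset.sum_congr rfl this]
  simp

lemma TH_single {H : A n → ℝ} {x : SG n g} (h0 : H 0 = 1) (i : Fin g)
    (h : ∀ j, j ≠ i → x.2 j = 0) (h' : x.2 i ≠ 0) : TH n g H x = ((g : ℝ) - 1) * H (x.2 i) := by
  classical
  unfold TH
  rw [← Finset.add_sum_erase univ _ (mem_univ i), if_neg h', zero_mul, zero_add]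
  have : ∀ j ∈ univ.erase i,
      (if x.2 j = 0 then (1 : ℝ) else 0) * ∏ l ∈ univ.erase j, H (x.2 l) = H (x.2 i) := by
    intro j hj
    have hji : j ≠ i := (mem_erase.mp hj).1
    rw [if_pos (h j hji), one_mul]
    apply Finset.prod_eq_single i
    · intro l _ hl
      rw [h l hl, h0]
    · intro hi
      exact absurd (mem_erase.mpr ⟨hji.symm, mem_univ i⟩) hi
  rw [Finset.sum_congr rfl this, Finset.sum_const, Finset.card_erase_of_mem (mem_univ i),
    Finset.card_univ, Fintype.card_fin, nsmul_eq_mul]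
  have hg : 1 ≤ g := by
    have := i.2
    omega
  rw [Nat.cast_sub hg, Nat.cast_one]

end ProdM

open ProdM

theorem prod : S_PROD := by
  intro n g w H h3 hn hg hP hH
  obtain ⟨F0, hF, h0, h1, h2, h4⟩ := hP
  refine ⟨fun x => F0 x.1 * PH n g H x, valsP hH hF h0 h1 h2 h4, ?_⟩
  intro hg2 hR
  apply killP hg2 hH
  intro m m' a b
  rw [PH_zero ⟨0, by omega⟩ (by rw [dl_2, hH.pd.even, hR m m' a b]), mul_zero]

open Classical in
theorem prod0 : S_PROD0 := by
  intro n g H h3 hn hg hH
  have hd : PD (fun x : A n => if x = 0 then (1 : ℝ) else 0) := PD.ind0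
  have hv := valsP (g := g) hH (f := fun x => if x = 0 then (1 : ℝ) else 0) (w := 1) (c0 := 0) hd
    (by simp)
    (fun m m' _ _ c d => by
      rw [if_neg (tt_sub_ne hn c d), neg_zero])
    (fun ho m m' _ _ => by
      rw [if_neg (tt_add_ne_zero n ho m m')])
    (fun he m _ => by
      rw [if_neg (tt_ne_zero n (by omega) m)])
  simp only [one_mul] at hv
  refine ⟨_, hv, ?_⟩
  intro hg2
  apply killP (f := fun x => if x = 0 then (1 : ℝ) else 0) hg2 hH
  intro m m' a b
  rw [if_neg (neg_ne_zero.mpr (z_sub_ne hn a)), zero_mul]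

theorem prodT : S_PRODT := by
  intro n g w H h3 hn hg hP hH
  obtain ⟨F0, hF, h0, h1, h2, h4⟩ := hP
  have hg0 : (g : ℝ) ≠ 0 := by
    have : (0 : ℝ) < g := by exact_mod_cast (by omega : 0 < g)
    exact this.ne'
  refine ⟨fun x => F0 x.1 * (1 / (g : ℝ) * TH n g H x), ?_, ?_⟩
  · exact {
      pd := (hF.comp (AddMonoidHom.fst (A n) (Fin g → A n))).mul
        ((TH_pd hH.pd).smul (1 / (g : ℝ)) (by positivity))
      zero := by
        rw [TH_one hH.zero (fun i => rfl)]
        have : F0 (0 : SG n g).1 = w := h0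
        rw [this]
        field_simp
      rr := by
        intro m m' a b c d
        rw [TH_one hH.zero (fun i => rr_2 m m' i), rr_1, h1 m m' a b c d]
        field_simp
      rs := by
        intro m i m' a
        rw [TH_zero i (by rw [rs_2, InSl.neg hH]) (by rw [rs_2]; exact neg_ne_zero.mpr (z_ne_zero n m'))]
        ring
      ss := by
        intro i j hij m m'
        rw [TH_zero i (by rw [ss_2 hij, hH.one]) (by rw [ss_2 hij]; exact z_ne_zero n m)]
        ring
      s1 := by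
        intro i m m' a
        rw [TH_single hH.zero i (fun j hj => s1_2' hj m m') (by rw [s1_2]; exact z_sub_ne hn a),
          s1_2, s1_1, h0, hH.diff m m' a]
        ring
      orr := by
        intro ho m m' a b
        rw [ar_1, h2 ho m m' a b, zero_mul]
      ors := by
        intro ho m i m' a
        rw [TH_zero i (by rw [as_2, hH.one]) (by rw [as_2]; exact z_ne_zero n m')]
        ring
      oss := by
        intro ho i j m m'
        by_cases hij : i = j
        · subst hij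
          rw [TH_zero i (by rw [as1_2, hH.sum ho]) (by rw [as1_2]; exact z_add_ne_zero n ho m m')]
          ring
        · rw [TH_zero i (by rw [ass_2 hij, hH.one]) (by rw [ass_2 hij]; exact z_ne_zero n m)]
          ring
      er := by
        intro he m a
        rw [rv_1, h4 he m a, zero_mul]
      es := by
        intro he i m
        rw [TH_zero i (by rw [sv_2, hH.one]) (by rw [sv_2]; exact z_ne_zero n m)]
        ring }
  · exact {
      kr := by
        intro m m' a b
        rw [TH_zero ⟨0, by omega⟩ (by rw [dr_2, InSl.neg hH])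
          (by rw [dr_2]; exact neg_ne_zero.mpr (z_ne_zero n m))]
        ring
      ks := by
        intro m i m' a
        obtain ⟨j, hj⟩ := other hg i
        rw [TH_zero j (by rw [ds_2 _ hj, InSl.neg hH])
          (by rw [ds_2 _ hj]; exact neg_ne_zero.mpr (z_ne_zero n m))]
        ring
      kk := by
        intro m m' a b
        rw [TH_zero' (fun j => by rw [dl_2]; exact neg_ne_zero.mpr (z_sub_ne hn a))]
        ring
      okr := by
        intro ho m m' a b
        rw [TH_zero ⟨0, by omega⟩ (by rw [adr_2, InSl.neg hH])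
          (by rw [adr_2]; exact neg_ne_zero.mpr (z_ne_zero n m))]
        ring
      oks := by
        intro ho m i m' a
        obtain ⟨j, hj⟩ := other hg i
        rw [TH_zero j (by rw [ads_2 _ hj, InSl.neg hH])
          (by rw [ads_2 _ hj]; exact neg_ne_zero.mpr (z_ne_zero n m))]
        ring
      okk := by
        intro ho m m' a
        rw [TH_zero' (fun j => by rw [dl_2]; exact neg_ne_zero.mpr (z_add_ne_zero n ho m m'))]
        ring
      ek := by
        intro he m a
        rw [TH_zero ⟨0, by omega⟩ (by rw [dl_2, InSl.neg hH])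
          (by rw [dl_2]; exact neg_ne_zero.mpr (z_ne_zero n m))]
        ring }

end PathMix2
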