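import Pool.Agent.PathMix2.Stmts
set_option autoImplicit false

/-! Case II decomposition of the real numbers `tt (p n) m` (MP_261efc_co). -/

open Finset

namespace PathMix2

namespace Psi2

lemma zt_nat_mul (n : ℕ) (a : ℤ) (j : ℕ) : zt n ((j : ℤ) * a) = zt n a ^ j := by
  induction j with
  | zero => simp [zt_zero]
  | succ j ih =>
    rw [pow_succ, ← ih, ← zt_add]
    congr 1
    push_cast; ring

/-- the sum over a coset of the subgroup of prime order vanishes -/
lemma z_line (n q : ℕ) (hn : 0 < n) (hq : q.Prime) (hqn : q ∣ n) (a : ℤ) :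
    ∑ j ∈ range q, z n (a + (j : ℤ) * ((n / q : ℕ) : ℤ)) = 0 := by
  apply Subtype.ext
  rw [AddSubgroup.val_finsetSum, ZeroMemClass.coe_zero]
  simp only [coe_z, zt_add, zt_nat_mul]
  rw [← Finset.mul_sum]
  have h1 : zt n ((n / q : ℕ) : ℤ) ≠ 1 := by
    rw [Ne, zt_eq_one_iff n hn]
    intro h
    have h2 : n ∣ n / q := by exact_mod_cast h
    obtain ⟨k, hk⟩ := hqn
    have hk0 : 0 < k := by
      rcases Nat.eq_zero_or_pos k with h0 | h0
      · rw [h0, mul_zero] at hk; omega
      · exact h0
    rw [hk, Nat.mul_div_cancel_left _ hq.pos] at h2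
    have h3 := Nat.le_of_dvd hk0 h2
    have h4 := hq.two_le
    nlinarith
  have h2 : zt n ((n / q : ℕ) : ℤ) ^ q = 1 := by
    rw [← zt_nat_mul, zt_eq_one_iff n hn]
    refine ⟨1, ?_⟩
    rw [mul_one]
    exact_mod_cast Nat.mul_div_cancel' hqn
  rw [geom_sum_eq h1, h2, sub_self, zero_div, mul_zero]

lemma sum_range_zmod {T : Type} [AddCommMonoid T] (p : ℕ) [NeZero p] (g : ZMod p → T) :
    ∑ j ∈ range p, g (j : ZMod p) = ∑ x, g x := by
  refine Finset.sum_bij' (fun j _ => (j : ZMod p)) (fun x _ => x.val) ?_ ?_ ?_ ?_ ?_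
  · intro j _; exact mem_univ _
  · intro x _; exact mem_range.mpr (ZMod.val_lt x)
  · intro j hj; exact ZMod.val_natCast_of_lt (mem_range.mp hj)
  · intro x _; exact ZMod.natCast_zmod_val x
  · intro j _; rfl

open Classical in
/-- the function `f_r` -/
noncomputable def fr (p n : ℕ) (P : ℤ) (r : ZMod p) (m : ℤ) : A n :=
  if (m : ZMod p) = r then z n (P * m) else if (m : ZMod p) = 0 then -z n (P * m) else 0

lemma z_congr (n : ℕ) (hn : 0 < n) {a b : ℤ} (h : (n : ℤ) ∣ a - b) : z n a = z n b :=
  (z_eq_iff n hn a b).mpr h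

lemma fr_ZL (p n : ℕ) (hp : p.Prime) (hn : 0 < n) (hpn : ¬ p ∣ n) (P : ℤ)
    (hP : (n : ℤ) ∣ P * p - 1) (r : ZMod p) (hr : r ≠ 0) : ZL (p * n) (fr p n P r) := by
  have : Fact p.Prime := ⟨hp⟩
  have hne : NeZero p := ⟨hp.ne_zero⟩
  constructor
  · intro m
    have h1 : ((m + ((p * n : ℕ) : ℤ) : ℤ) : ZMod p) = (m : ZMod p) := by
      push_cast; simp
    have h2 : z n (P * (m + ((p * n : ℕ) : ℤ))) = z n (P * m) := z_congr n hn
      ⟨P * p, by push_cast; ring⟩
    unfold fr
    rw [h1, h2]
  · intro q hq hqd m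
    rcases (hq.dvd_mul).mp hqd with h | h
    · -- `q = p`
      have hqp : q = p := (Nat.prime_dvd_prime_iff_eq hq hp).mp h
      subst hqp
      rw [Nat.mul_div_cancel_left _ hq.pos]
      have e1 : ∀ j ∈ range q, fr q n P r (m + (j : ℤ) * (n : ℤ)) =
          (fun x : ZMod q => if (m : ZMod q) + x * (n : ZMod q) = r then z n (P * m) else
            if (m : ZMod q) + x * (n : ZMod q) = 0 then -z n (P * m) else 0) (j : ZMod q) := by
        intro j _
        have h1 : ((m + (j : ℤ) * (n : ℤ) : ℤ) : ZMod q) =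
            (m : ZMod q) + (j : ZMod q) * (n : ZMod q) := by push_cast; rfl
        have h2 : z n (P * (m + (j : ℤ) * (n : ℤ))) = z n (P * m) := z_congr n hn
          ⟨P * j, by ring⟩
        simp only [fr]
        rw [h1, h2]
      rw [Finset.sum_congr rfl e1, sum_range_zmod q (fun x : ZMod q =>
        if (m : ZMod q) + x * (n : ZMod q) = r then z n (P * m) else
            if (m : ZMod q) + x * (n : ZMod q) = 0 then -z n (P * m) else 0)]
      have hn0 : (n : ZMod q) ≠ 0 := by
        rw [Ne, ZMod.natCast_eq_zero_iff]; exact hpn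
      have hbij : Function.Bijective (fun x : ZMod q => (m : ZMod q) + x * (n : ZMod q)) := by
        rw [← Finite.injective_iff_bijective]
        intro x y hxy
        simp only [add_right_inj] at hxy
        exact mul_right_cancel₀ hn0 hxy
      rw [hbij.sum_comp (fun y : ZMod q => if y = r then z n (P * m) else
        if y = 0 then -z n (P * m) else 0)]
      have e2 : ∀ y : ZMod q, (if y = r then z n (P * m) else if y = 0 then -z n (P * m) else 0) =
          (if y = r then z n (P * m) else 0) + (if y = 0 then -z n (P * m) else 0) := by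
        intro y
        by_cases h1 : y = r
        · have h2 : y ≠ 0 := by rw [h1]; exact hr
          simp [h1, hr]
        · simp [h1]
      simp only [e2, Finset.sum_add_distrib, Finset.sum_ite_eq', mem_univ, if_true]
      exact add_neg_cancel _
    · -- `q ∣ n`
      have hdiv : p * n / q = p * (n / q) := Nat.mul_div_assoc p h
      rw [hdiv]
      have e1 : ∀ j ∈ range q, fr p n P r (m + (j : ℤ) * ((p * (n / q) : ℕ) : ℤ)) =
          if (m : ZMod p) = r then z n (P * m + (j : ℤ) * ((n / q : ℕ) : ℤ)) else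
            if (m : ZMod p) = 0 then -z n (P * m + (j : ℤ) * ((n / q : ℕ) : ℤ)) else 0 := by
        intro j _
        have h1 : ((m + (j : ℤ) * ((p * (n / q) : ℕ) : ℤ) : ℤ) : ZMod p) = (m : ZMod p) := by
          push_cast; simp
        have h2 : z n (P * (m + (j : ℤ) * ((p * (n / q) : ℕ) : ℤ))) =
            z n (P * m + (j : ℤ) * ((n / q : ℕ) : ℤ)) := by
          apply z_congr n hn
          obtain ⟨k, hk⟩ := hP
          have hc : (((p * (n / q) : ℕ)) : ℤ) = (p : ℤ) * ((n / q : ℕ) : ℤ) := Nat.cast_mul _ _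
          rw [hc]
          generalize ((n / q : ℕ) : ℤ) = K
          refine ⟨k * (j * K), ?_⟩
          linear_combination ((j : ℤ) * K) * hk
        simp only [fr]
        rw [h1, h2]
      rw [Finset.sum_congr rfl e1]
      by_cases h1 : (m : ZMod p) = r
      · simp only [h1, if_true]
        exact z_line n q hn hq h _
      · by_cases h2 : (m : ZMod p) = 0
        · have e3 : ∀ j ∈ range q, (if (m : ZMod p) = r then
              z n (P * m + (j : ℤ) * ((n / q : ℕ) : ℤ)) else
              if (m : ZMod p) = 0 then -z n (P * m + (j : ℤ) * ((n / q : ℕ) : ℤ)) else 0) =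
              -z n (P * m + (j : ℤ) * ((n / q : ℕ) : ℤ)) := by
            intro j _
            rw [if_neg h1, if_pos h2]
          rw [Finset.sum_congr rfl e3, Finset.sum_neg_distrib, z_line n q hn hq h, neg_zero]
        · simp [h1, h2]

end Psi2

open Psi2 in
/-- Case II decomposition of the real numbers `tt (p n) m` -/
theorem psi2 (hE : S_EXT) : S_PSI2 := by
  intro p n h hp hp5 hph hn hpn
  have : Fact p.Prime := ⟨hp⟩
  have hne : NeZero p := ⟨hp.ne_zero⟩
  have hpn0 : 0 < p * n := Nat.mul_pos hp.pos hn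
  have h2 : 2 ≤ h := by omega
  -- the inverse of `p` modulo `n`
  have hcop : IsCoprime (p : ℤ) (n : ℤ) := by
    rw [Nat.isCoprime_iff_coprime]
    exact (Nat.Prime.coprime_iff_not_dvd hp).mpr hpn
  obtain ⟨P, Q, hPQ⟩ := hcop
  have hP : (n : ℤ) ∣ P * p - 1 := ⟨-Q, by linear_combination hPQ⟩
  have hr : ∀ i : Fin h, (((i : ℕ) + 1 : ℕ) : ZMod p) ≠ 0 := by
    intro i hi
    rw [ZMod.natCast_eq_zero_iff] at hi
    have := Nat.le_of_dvd (by omega) hi
    have := i.2
    omega
  choose X hX using fun i : Fin h => hE (p * n) hpn0 (A n) _ (fr_ZL p n hp hn hpn P hP _ (hr i))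
  let Ψ : A (p * n) →+ (Fin h → A n) :=
    { toFun := fun x i => X i x
      map_zero' := by funext i; exact map_zero _
      map_add' := by intro x y; funext i; exact map_add _ _ _ }
  have hΨ : ∀ m i, Ψ (tt (p * n) m) i = fr p n P (((i : ℕ) + 1 : ℕ) : ZMod p) m +
      fr p n P (((i : ℕ) + 1 : ℕ) : ZMod p) (-m) := by
    intro m i
    show X i (tt (p * n) m) = _
    unfold tt
    rw [map_add, hX, hX]
  -- values at multiples of `p`
  have hconst : ∀ m : ℤ, (m : ZMod p) = 0 → Ψ (tt (p * n) m) = fun _ => -tt n (P * m) := by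
    intro m hm
    funext i
    rw [hΨ]
    have h1 : (((-m : ℤ)) : ZMod p) = 0 := by push_cast; rw [hm, neg_zero]
    unfold fr
    rw [if_neg (by rw [hm]; exact fun h => hr i h.symm), if_pos hm,
      if_neg (by rw [h1]; exact fun h => hr i h.symm), if_pos h1]
    unfold tt
    rw [neg_add, mul_neg]
  -- values at the class of `i + 1`
  have hsing : ∀ (m : ℤ) (i : Fin h), (m : ZMod p) = (((i : ℕ) + 1 : ℕ) : ZMod p) →
      Ψ (tt (p * n) m) = Pi.single i (z n (P * m)) := by
    intro m i hm
    funext j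
    rw [hΨ]
    have h1 : ∀ k : Fin h, (((-m : ℤ)) : ZMod p) ≠ (((k : ℕ) + 1 : ℕ) : ZMod p) := by
      intro k hk
      push_cast at hk
      rw [hm] at hk
      have h3 : ((((i : ℕ) + 1 + ((k : ℕ) + 1) : ℕ)) : ZMod p) = 0 := by
        push_cast
        push_cast at hk
        rw [← hk]; ring
      rw [ZMod.natCast_eq_zero_iff] at h3
      have := Nat.le_of_dvd (by omega) h3
      have := i.2
      have := k.2
      omega
    have h0 : (((-m : ℤ)) : ZMod p) ≠ 0 := by
      intro h0
      push_cast at h0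
      rw [neg_eq_zero, hm] at h0
      exact hr i h0
    have h4 : (m : ZMod p) ≠ 0 := by rw [hm]; exact hr i
    have h5 : fr p n P (((j : ℕ) + 1 : ℕ) : ZMod p) (-m) = 0 := by
      unfold fr
      rw [if_neg (h1 j), if_neg h0]
    rw [h5, add_zero]
    by_cases hij : j = i
    · subst hij
      rw [Pi.single_eq_same]
      unfold fr
      rw [if_pos hm]
    · rw [Pi.single_eq_of_ne hij]
      unfold fr
      rw [if_neg, if_neg h4]
      rw [hm]
      intro h6
      rw [ZMod.natCast_eq_natCast_iff'] at h6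
      have := i.2
      have := j.2
      rw [Nat.mod_eq_of_lt (by omega), Nat.mod_eq_of_lt (by omega)] at h6
      exact hij (Fin.ext (by omega))
  -- trichotomy
  have htri : ∀ m : ℤ, (m : ZMod p) = 0 ∨ ∃ i : Fin h,
      (m : ZMod p) = (((i : ℕ) + 1 : ℕ) : ZMod p) ∨
      ((-m : ℤ) : ZMod p) = (((i : ℕ) + 1 : ℕ) : ZMod p) := by
    intro m
    by_cases hm : (m : ZMod p) = 0
    · exact Or.inl hm
    · right
      set v := (m : ZMod p).val with hv
      have hv0 : v ≠ 0 := by
        intro h0
        exact hm ((ZMod.val_eq_zero _).mp h0)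
      have hvp : v < p := ZMod.val_lt _
      have hmv : (m : ZMod p) = (v : ZMod p) := (ZMod.natCast_zmod_val _).symm
      by_cases hle : v ≤ h
      · refine ⟨⟨v - 1, by omega⟩, Or.inl ?_⟩
        rw [hmv]
        congr 1
        simp only
        omega
      · refine ⟨⟨p - v - 1, by omega⟩, Or.inr ?_⟩
        push_cast
        rw [hmv]
        have h3 : (((p - v - 1 : ℕ) + 1 : ℕ) : ZMod p) + (v : ZMod p) = 0 := by
          have h4 : (p - v - 1) + 1 + v = p := by omega
          have h5 : ((((p - v - 1) + 1 + v : ℕ)) : ZMod p) = ((p : ℕ) : ZMod p) := by rw [h4]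
          rw [ZMod.natCast_self] at h5
          push_cast at h5 ⊢
          exact h5
        push_cast at h3
        linear_combination -h3
  -- normal form
  have hnf : ∀ m : ℤ, (m : ZMod p) = 0 ∨ ∃ (m' : ℤ) (i : Fin h), (m' = m ∨ m' = -m) ∧
      (m' : ZMod p) = (((i : ℕ) + 1 : ℕ) : ZMod p) := by
    intro m
    rcases htri m with h | ⟨i, h | h⟩
    · exact Or.inl h
    · exact Or.inr ⟨m, i, Or.inl rfl, h⟩
    · exact Or.inr ⟨-m, i, Or.inr rfl, h⟩
  have htt : ∀ m m' : ℤ, (m' = m ∨ m' = -m) → tt (p * n) m = tt (p * n) m' := by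
    rintro m m' (rfl | rfl)
    · rfl
    · rw [tt_neg]
  -- division by `P`
  have hdiv : ∀ a : ℤ, (n : ℤ) ∣ P * a → (n : ℤ) ∣ a := by
    intro a ha
    obtain ⟨k, hk⟩ := hP
    obtain ⟨l, hl⟩ := ha
    exact ⟨p * l - k * a, by linear_combination p * hl - a * hk⟩
  have hmul : ∀ a : ℤ, (n : ℤ) ∣ a → (a : ZMod p) = 0 → ((p * n : ℕ) : ℤ) ∣ a := by
    intro a ha hb
    rw [ZMod.intCast_zmod_eq_zero_iff_dvd] at hb
    push_cast
    refine IsCoprime.mul_dvd ⟨P, Q, hPQ⟩ hb ha
  refine ⟨Ψ, ?_, ?_⟩
  · intro m hm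
    rcases hnf m with h0 | ⟨m', i, hm', hi⟩
    · left
      refine ⟨P * m, ?_, hconst m h0⟩
      intro hd
      apply hm
      have h3 : (n : ℤ) ∣ P * (2 * m) := by
        have : P * (2 * m) = 2 * (P * m) := by ring
        rw [this]; exact hd
      refine hmul _ (hdiv _ h3) ?_
      push_cast
      rw [h0, mul_zero]
    · right
      exact ⟨i, P * m', by rw [htt m m' hm', hsing m' i hi]⟩
  · intro m m' hmm
    rcases hnf m with h0 | ⟨a, i, ha, hi⟩
    · rcases hnf m' with h0' | ⟨b, j, hb, hj⟩
      · rw [hconst m h0, hconst m' h0'] at hmm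
        have h3 := congrFun hmm ⟨0, by omega⟩
        simp only [neg_inj] at h3
        rw [tt_eq_iff n hn] at h3
        rw [tt_eq_iff (p * n) hpn0]
        rcases h3 with h3 | h3
        · left
          refine hmul _ (hdiv _ (by rw [mul_sub]; exact h3)) ?_
          push_cast; rw [h0, h0', sub_zero]
        · right
          refine hmul _ (hdiv _ (by rw [mul_add]; exact h3)) ?_
          push_cast; rw [h0, h0', add_zero]
      · exfalso
        rw [hconst m h0, htt m' b hb, hsing b j hj] at hmm
        obtain ⟨k, hk⟩ : ∃ k : Fin h, k ≠ j := by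
          by_cases hj0 : j = ⟨0, by omega⟩
          · exact ⟨⟨1, by omega⟩, by rw [hj0]; intro h; simp [Fin.ext_iff] at h⟩
          · exact ⟨⟨0, by omega⟩, fun h => hj0 h.symm⟩
        have h3 := congrFun hmm k
        have h4 := congrFun hmm j
        rw [Pi.single_eq_of_ne hk] at h3
        rw [Pi.single_eq_same, h3] at h4
        exact z_ne_zero _ _ h4.symm
    · rcases hnf m' with h0' | ⟨b, j, hb, hj⟩
      · exfalso
        rw [hconst m' h0', htt m a ha, hsing a i hi] at hmm
        obtain ⟨k, hk⟩ : ∃ k : Fin h, k ≠ i := by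
          by_cases hj0 : i = ⟨0, by omega⟩
          · exact ⟨⟨1, by omega⟩, by rw [hj0]; intro h; simp [Fin.ext_iff] at h⟩
          · exact ⟨⟨0, by omega⟩, fun h => hj0 h.symm⟩
        have h3 := congrFun hmm k
        have h4 := congrFun hmm i
        rw [Pi.single_eq_of_ne hk] at h3
        rw [Pi.single_eq_same, ← h3] at h4
        exact z_ne_zero _ _ h4
      · rw [htt m a ha, htt m' b hb] at hmm ⊢
        rw [hsing a i hi, hsing b j hj] at hmm
        have hij : i = j := by
          by_contra hij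
          have h3 := congrFun hmm i
          rw [Pi.single_eq_same, Pi.single_eq_of_ne hij] at h3
          exact z_ne_zero _ _ h3
        subst hij
        have h3 := congrFun hmm i
        rw [Pi.single_eq_same, Pi.single_eq_same, z_eq_iff n hn, ← mul_sub] at h3
        rw [tt_eq_iff (p * n) hpn0]
        left
        refine hmul _ (hdiv _ h3) ?_
        push_cast
        rw [hi, hj, sub_self]

end PathMix2
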