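import Pool.Agent.PathMix2.Stmts
set_option autoImplicit false

/-! Arrays with values `± 2^k` (module RHO). -/

open Finset

namespace PathMix2

namespace RhoAux

/-- the values `u_i` -/
def uu (h i : ℕ) : ℤ := if h % 2 = 0 ∧ i = 1 then 2 else (-1) ^ (i + 1)

lemma uu_unit (h i : ℕ) : ∃ k : ℕ, uu h i = 2 ^ k ∨ uu h i = -2 ^ k := by
  unfold uu
  split_ifs
  · exact ⟨1, Or.inl (by norm_num)⟩
  · rcases neg_one_pow_eq_or ℤ (i + 1) with h1 | h1
    · exact ⟨0, Or.inl (by rw [h1]; norm_num)⟩
    · exact ⟨0, Or.inr (by rw [h1]; norm_num)⟩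

lemma alt_sum (h : ℕ) : ∑ v ∈ range h, ((-1 : ℤ)) ^ (v + 1 + 1) = if h % 2 = 1 then 1 else 0 := by
  induction h with
  | zero => simp
  | succ k ih =>
    rw [Finset.sum_range_succ, ih]
    rcases Nat.even_or_odd k with he | ho
    · have h1 : (-1 : ℤ) ^ (k + 1 + 1) = 1 := by
        rw [pow_add, pow_add, he.neg_one_pow]; norm_num
      rw [h1]
      have h2 : k % 2 = 0 := Nat.even_iff.mp he
      rw [if_neg (by omega), if_pos (by omega)]
      norm_num
    · have h1 : (-1 : ℤ) ^ (k + 1 + 1) = -1 := by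
        rw [pow_add, pow_add, ho.neg_one_pow]; norm_num
      rw [h1]
      have h2 : k % 2 = 1 := Nat.odd_iff.mp ho
      rw [if_pos (by omega), if_neg (by omega)]
      norm_num

lemma uu_sum (h : ℕ) (hh : 1 ≤ h) : ∑ v ∈ range h, uu h (v + 1) = 1 := by
  by_cases he : h % 2 = 0
  · obtain ⟨k, rfl⟩ : ∃ k, h = k + 1 := ⟨h - 1, by omega⟩
    have h1 : ∀ v ∈ range (k + 1), uu (k + 1) (v + 1) =
        (-1 : ℤ) ^ (v + 1 + 1) + (if v = 0 then 1 else 0) := by
      intro v _
      unfold uu
      by_cases hv : v = 0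
      · subst hv
        rw [if_pos ⟨he, rfl⟩]
        norm_num
      · rw [if_neg (by omega), if_neg hv, add_zero]
    rw [Finset.sum_congr rfl h1, Finset.sum_add_distrib, alt_sum, if_neg (by omega),
      Finset.sum_ite_eq' (range (k + 1)) 0, if_pos (by simp)]
    norm_num
  · have h1 : ∀ v ∈ range h, uu h (v + 1) = (-1 : ℤ) ^ (v + 1 + 1) := by
      intro v _
      unfold uu
      rw [if_neg (by tauto)]
    rw [Finset.sum_congr rfl h1, alt_sum, if_pos (by omega)]

/-- the function on residues `0 ≤ v < p = 2h+1` -/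
def GG (h v : ℕ) : ℤ := if v = 0 then -2 else uu h (min v (2 * h + 1 - v))

lemma GG_unit (h v : ℕ) : ∃ k : ℕ, GG h v = 2 ^ k ∨ GG h v = -2 ^ k := by
  unfold GG
  split_ifs
  · exact ⟨1, Or.inr (by norm_num)⟩
  · exact uu_unit _ _

lemma GG_sum (h : ℕ) (hh : 1 ≤ h) : ∑ v ∈ range (2 * h + 1), GG h v = 0 := by
  rw [Finset.sum_range_succ', two_mul, Finset.sum_range_add]
  have h1 : ∀ v ∈ range h, GG h (v + 1) = uu h (v + 1) := by
    intro v hv
    rw [Finset.mem_range] at hv
    unfold GG
    rw [if_neg (by omega), min_eq_left (by omega)]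
  have h2 : ∑ v ∈ range h, GG h (h + v + 1) = ∑ v ∈ range h, uu h (v + 1) := by
    rw [← Finset.sum_range_reflect]
    apply Finset.sum_congr rfl
    intro v hv
    rw [Finset.mem_range] at hv
    unfold GG
    rw [if_neg (by omega), min_eq_right (by omega)]
    congr 1
    omega
  rw [Finset.sum_congr rfl h1, h2, uu_sum h hh]
  unfold GG
  simp

/-- the property of periodic functions used in the induction -/
def Q (n : ℕ) : Prop := ∃ f : ℤ → ℤ, ZL n f ∧ (∀ m, ∃ k : ℕ, f m = 2 ^ k ∨ f m = -2 ^ k) ∧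
  ∀ m, f (-m) = f m

lemma Q_one : Q 1 := by
  refine ⟨fun _ => 1, ⟨fun m => rfl, ?_⟩, fun m => ⟨0, Or.inl (by norm_num)⟩, fun m => rfl⟩
  intro q hq h1
  have := hq.one_lt
  have := Nat.le_of_dvd one_pos h1
  omega

/-- case `p ∣ n'` -/
lemma Q_step1 (p n' h : ℕ) (hp : p.Prime) (hph : p = 2 * h + 1) (hn : 0 < n') (hd : p ∣ n')
    (hQ : Q n') : Q (p * n') := by
  obtain ⟨f, hZ, hu, he⟩ := hQ
  have hp0 : (0 : ℤ) < p := by exact_mod_cast hp.pos
  refine ⟨fun m => f ((m + h) / p), ⟨?_, ?_⟩, fun m => hu _, ?_⟩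
  · intro m
    have h1 : (m + ((p * n' : ℕ) : ℤ) + h) / (p : ℤ) = (m + h) / p + n' := by
      have : m + ((p * n' : ℕ) : ℤ) + h = (m + h) + p * n' := by push_cast; ring
      rw [this, Int.add_mul_ediv_left _ _ hp0.ne']
    beta_reduce
    rw [h1, hZ.per]
  · intro q hq hqd m
    have hqn : q ∣ n' := by
      rcases (Nat.Prime.dvd_mul hq).mp hqd with h1 | h1
      · rw [(Nat.prime_dvd_prime_iff_eq hq hp).mp h1]; exact hd
      · exact h1
    have hdiv : p * n' / q = p * (n' / q) := Nat.mul_div_assoc p hqn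
    rw [← hZ.line q hq hqn ((m + h) / p)]
    apply Finset.sum_congr rfl
    intro j _
    beta_reduce
    congr 1
    rw [hdiv]
    have : m + (j : ℤ) * ((p * (n' / q) : ℕ) : ℤ) + h = (m + h) + p * ((j : ℤ) * ((n' / q : ℕ) : ℤ)) := by
      push_cast; ring
    rw [this, Int.add_mul_ediv_left _ _ hp0.ne']
  · intro m
    beta_reduce
    have h1 : (-m + h) / (p : ℤ) = -((m + h) / p) := by
      have e1 := Int.emod_add_mul_ediv (m + h) p
      have e2 := Int.emod_nonneg (m + h) hp0.ne'
      have e3 := Int.emod_lt_of_pos (m + h) hp0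
      have hpz : (p : ℤ) = 2 * h + 1 := by rw [hph]; push_cast; ring
      have e4 : -m + (h : ℤ) = (2 * h - (m + h) % p) + p * (-((m + h) / p)) := by
        linarith
      rw [e4, Int.add_mul_ediv_left _ _ hp0.ne', Int.ediv_eq_zero_of_lt (by omega) (by omega), zero_add]
    rw [h1, he]

/-- case `p ∤ n'` -/
lemma Q_step2 (p n' h : ℕ) (hp : p.Prime) (hph : p = 2 * h + 1) (hh : 1 ≤ h) (hn : 0 < n')
    (hd : ¬ p ∣ n') (hQ : Q n') : Q (p * n') := by
  obtain ⟨f, hZ, hu, he⟩ := hQ
  haveI : Fact p.Prime := ⟨hp⟩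
  haveI : NeZero p := ⟨hp.pos.ne'⟩
  have hfper : ∀ (m : ℤ) (k : ℕ), f (m + (k : ℤ) * n') = f m := by
    intro m k
    induction k with
    | zero => simp
    | succ k ih =>
      have : m + ((k + 1 : ℕ) : ℤ) * n' = (m + (k : ℤ) * n') + n' := by push_cast; ring
      rw [this, hZ.per, ih]
  -- the function eta
  set g : ZMod p → ℤ := fun x => GG h x.val with hg
  have gsum : ∑ x : ZMod p, g x = 0 := by
    rw [← GG_sum h hh, ← hph]
    rw [Finset.sum_range]
    rw [← (ZMod.finEquiv p).toEquiv.sum_comp]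
    apply Finset.sum_congr rfl
    intro x _
    rw [hg]
    beta_reduce
    congr 1
    obtain ⟨k, rfl⟩ : ∃ k, p = k + 1 := ⟨2 * h, hph⟩
    rfl
  have geven : ∀ x, g (-x) = g x := by
    intro x
    rw [hg]
    beta_reduce
    rw [ZMod.neg_val]
    by_cases hx : x = 0
    · subst hx; simp
    · rw [if_neg hx]
      have h1 := ZMod.val_lt x
      have h2 : x.val ≠ 0 := by rwa [Ne, ZMod.val_eq_zero]
      unfold GG
      rw [if_neg (by omega), if_neg h2, ← hph]
      congr 1
      rw [min_comm]
      congr 1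
      omega
  refine ⟨fun m => g (m : ZMod p) * f m, ⟨?_, ?_⟩, ?_, ?_⟩
  · intro m
    beta_reduce
    have h1 : f (m + ((p * n' : ℕ) : ℤ)) = f m := by
      have : m + ((p * n' : ℕ) : ℤ) = m + (p : ℤ) * n' := by push_cast; ring
      rw [this, hfper]
    rw [h1]
    congr 2
    push_cast
    simp
  · intro q hq hqd m
    by_cases hqp : q = p
    · subst hqp
      have hdiv : q * n' / q = n' := Nat.mul_div_cancel_left _ hq.pos
      rw [hdiv]
      have h1 : ∀ j ∈ range q, g ((m + (j : ℤ) * (n' : ℤ) : ℤ) : ZMod q) * f (m + (j : ℤ) * n') =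
          g ((m : ZMod q) + (j : ZMod q) * (n' : ZMod q)) * f m := by
        intro j _
        rw [hfper]
        push_cast
        rfl
      rw [Finset.sum_congr rfl h1, ← Finset.sum_mul]
      have hunit : (n' : ZMod q) ≠ 0 := by
        rw [Ne, ZMod.natCast_eq_zero_iff]; exact hd
      have h2 : ∑ j ∈ range q, g ((m : ZMod q) + (j : ZMod q) * (n' : ZMod q)) = ∑ x : ZMod q, g x := by
        have h3 : ∑ j ∈ range q, g ((m : ZMod q) + (j : ZMod q) * (n' : ZMod q)) =
            ∑ x : ZMod q, g ((m : ZMod q) + x * (n' : ZMod q)) := by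
          rw [Finset.sum_range]
          rw [← (ZMod.finEquiv q).toEquiv.sum_comp]
          apply Finset.sum_congr rfl
          intro x _
          congr 3
          obtain ⟨k, rfl⟩ : ∃ k, q = k + 1 := ⟨q - 1, by have := hq.pos; omega⟩
          have : ((ZMod.finEquiv (k + 1)).toEquiv x : ZMod (k + 1)) = (x : Fin (k + 1)) := rfl
          rw [this]
          exact Fin.cast_val_eq_self x
        rw [h3]
        have hb : Function.Bijective (fun x : ZMod q => (m : ZMod q) + x * (n' : ZMod q)) := by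
          constructor
          · intro x y hxy
            have := add_left_cancel hxy
            exact mul_right_cancel₀ hunit this
          · intro y
            refine ⟨(y - m) * (n' : ZMod q)⁻¹, ?_⟩
            beta_reduce
            rw [mul_assoc, inv_mul_cancel₀ hunit]
            ring
        exact hb.sum_comp g
      rw [h2, gsum, zero_mul]
    · have hqn : q ∣ n' := by
        rcases (Nat.Prime.dvd_mul hq).mp hqd with h1 | h1
        · exact absurd ((Nat.prime_dvd_prime_iff_eq hq hp).mp h1) hqp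
        · exact h1
      have hdiv : p * n' / q = p * (n' / q) := Nat.mul_div_assoc p hqn
      obtain ⟨t, ht⟩ := hqn
      have hq0 := hq.pos
      have hdt : n' / q = t := by rw [ht]; exact Nat.mul_div_cancel_left _ hq0
      rw [hdiv, hdt]
      have h1 : ∀ j ∈ range q, g ((m + (j : ℤ) * ((p * t : ℕ) : ℤ) : ℤ) : ZMod p) *
          f (m + (j : ℤ) * ((p * t : ℕ) : ℤ)) = g (m : ZMod p) * f (m + (((j * p % q : ℕ)) : ℤ) * (t : ℤ)) := by
        intro j _
        congr 1
        · congr 1
          push_cast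
          simp
        · have e1 : j * p = j * p % q + q * (j * p / q) := (Nat.mod_add_div _ _).symm
          have e2 : m + (j : ℤ) * ((p * t : ℕ) : ℤ) =
              (m + ((j * p % q : ℕ) : ℤ) * (t : ℤ)) + ((j * p / q : ℕ) : ℤ) * n' := by
            have e3 : (j : ℤ) * p = ((j * p % q : ℕ) : ℤ) + q * ((j * p / q : ℕ) : ℤ) := by
              exact_mod_cast e1
            rw [ht]
            push_cast at e3 ⊢
            linear_combination (t : ℤ) * e3
          rw [e2, hfper]
      rw [Finset.sum_congr rfl h1, ← Finset.mul_sum]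
      have hcop : Nat.Coprime p q := (Nat.coprime_primes hp hq).mpr (Ne.symm hqp)
      have h2 : ∑ j ∈ range q, f (m + (((j * p % q : ℕ)) : ℤ) * (t : ℤ)) =
          ∑ i ∈ range q, f (m + (i : ℤ) * (t : ℤ)) := by
        have hinj : Set.InjOn (fun j => j * p % q) (range q : Set ℕ) := by
          intro a ha b hb hab
          simp only [Finset.coe_range, Set.mem_Iio] at ha hb
          have h3 : a * p ≡ b * p [MOD q] := hab
          have h4 := Nat.ModEq.cancel_right_of_coprime (by rw [Nat.gcd_comm]; exact hcop) h3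
          have h5 : a % q = b % q := h4
          rwa [Nat.mod_eq_of_lt ha, Nat.mod_eq_of_lt hb] at h5
        have himg : (range q).image (fun j => j * p % q) = range q := by
          apply Finset.eq_of_subset_of_card_le
          · intro x hx
            rw [Finset.mem_image] at hx
            obtain ⟨j, _, rfl⟩ := hx
            rw [Finset.mem_range]
            exact Nat.mod_lt _ hq0
          · rw [Finset.card_image_of_injOn hinj]
        conv_rhs => rw [← himg]
        rw [Finset.sum_image hinj]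
      have h3 := hZ.line q hq ⟨t, ht⟩ m
      rw [hdt] at h3
      rw [h2, h3, mul_zero]
  · intro m
    obtain ⟨k, hk⟩ := hu m
    obtain ⟨l, hl⟩ := GG_unit h ((m : ZMod p)).val
    refine ⟨l + k, ?_⟩
    beta_reduce
    have hgm : g (m : ZMod p) = GG h ((m : ZMod p)).val := rfl
    rw [hgm]
    rcases hk with hk | hk <;> rcases hl with hl | hl <;> rw [hk, hl, pow_add]
    · left; ring
    · right; ring
    · right; ring
    · left; ring
  · intro m
    beta_reduce
    rw [he]
    congr 1
    push_cast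
    exact geven _

lemma Q_odd : ∀ n : ℕ, n % 2 = 1 → Q n := by
  intro n
  induction n using Nat.strong_induction_on with
  | _ n ih =>
    intro hn
    by_cases h1 : n = 1
    · rw [h1]; exact Q_one
    · have hp := Nat.minFac_prime h1
      obtain ⟨n', hn'⟩ := Nat.minFac_dvd n
      set p := n.minFac with hpdef
      have hpo : p % 2 = 1 := by
        by_contra hcon
        have : 2 ∣ p := by omega
        have : 2 ∣ n := this.trans (Nat.minFac_dvd n)
        omega
      have hn'o : n' % 2 = 1 := by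
        by_contra hcon
        have : 2 ∣ n' := by omega
        have : 2 ∣ n := by rw [hn']; exact this.mul_left _
        omega
      have hn'0 : 0 < n' := by omega
      have hlt : n' < n := by
        have := hp.two_le
        rw [hn']
        nlinarith
      have hQ := ih n' hlt hn'o
      rw [hn']
      have h2 := hp.two_le
      by_cases hd : p ∣ n'
      · exact Q_step1 p n' (p / 2) hp (by omega) hn'0 hd hQ
      · exact Q_step2 p n' (p / 2) hp (by omega) (by omega) hn'0 hd hQ

lemma rho_odd (h : S_EXT) (n : ℕ) (hn : n % 2 = 1) : ∃ ρ : A n →+ ℤ, Rho n ρ := by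
  obtain ⟨f, hZ, hu, he⟩ := Q_odd n hn
  obtain ⟨X, hX⟩ := h n (by omega) ℤ f hZ
  refine ⟨X, ⟨fun m => by rw [hX]; exact hu m, fun m => ?_⟩⟩
  rw [hX, hX, he, if_neg (by omega)]

lemma rho_two (h : S_EXT) (h2 : S_E2) (M : ℕ) (hM : M % 2 = 1) :
    ∃ ρ : A (2 * M) →+ ℤ, Rho (2 * M) ρ := by
  obtain ⟨ρ, hρ⟩ := rho_odd h M hM
  obtain ⟨X, hX⟩ := h2 M hM
  refine ⟨ρ.comp X, ⟨fun m => ?_, fun m => ?_⟩⟩
  · rw [AddMonoidHom.comp_apply, hX]
    split_ifs
    · exact hρ.unit _
    · rw [map_neg]
      obtain ⟨k, hk | hk⟩ := hρ.unit ((m + M) / 2)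
      · exact ⟨k, Or.inr (by rw [hk])⟩
      · exact ⟨k, Or.inl (by rw [hk, neg_neg])⟩
  · rw [if_neg (by omega), AddMonoidHom.comp_apply, AddMonoidHom.comp_apply, hX, hX]
    by_cases hm : m % 2 = 0
    · rw [if_pos (by omega), if_pos hm]
      have e1 : -m / 2 = -(m / 2) := by omega
      have e2 := hρ.refl (m / 2)
      rw [if_neg (by omega)] at e2
      rw [e1, e2]
    · rw [if_neg (by omega), if_neg hm]
      have e1 : z M ((-m + M) / 2) = z M (-((m + M) / 2)) := by
        rw [z_eq_iff M (by omega)]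
        exact ⟨1, by omega⟩
      have e2 := hρ.refl ((m + M) / 2)
      rw [if_neg (by omega)] at e2
      rw [map_neg, map_neg, e1, e2]

lemma rho_four (h : S_EXT) (h2 : S_E2) (h4 : S_D4) (M : ℕ) (hM : M % 2 = 1) :
    ∃ ρ : A (4 * M) →+ ℤ, Rho (4 * M) ρ := by
  obtain ⟨ρ, hρ⟩ := rho_two h h2 M hM
  obtain ⟨X, Y, hXY⟩ := h4 M hM
  refine ⟨ρ.comp X + ρ.comp Y, ⟨fun m => ?_, fun m => ?_⟩⟩
  · rw [AddMonoidHom.add_apply, AddMonoidHom.comp_apply, AddMonoidHom.comp_apply, (hXY m).1, (hXY m).2]
    by_cases hm : m % 2 = 0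
    · rw [if_pos hm, if_pos hm, map_zero, add_zero]
      exact hρ.unit _
    · rw [if_neg hm, if_neg hm, map_zero, zero_add]
      exact hρ.unit _
  · rw [AddMonoidHom.add_apply, AddMonoidHom.comp_apply, AddMonoidHom.comp_apply, (hXY (-m)).1,
      (hXY (-m)).2, AddMonoidHom.add_apply, AddMonoidHom.comp_apply, AddMonoidHom.comp_apply,
      (hXY m).1, (hXY m).2]
    by_cases hm : m % 2 = 0
    · rw [if_pos (by omega), if_pos (by omega), if_neg (by omega), if_pos hm, if_pos hm,
        map_zero, add_zero, add_zero]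
      have e1 : -m / 2 = -(m / 2) := by omega
      have e2 := hρ.refl (m / 2)
      rw [if_neg (by omega)] at e2
      rw [e1, e2]
    · rw [if_neg (by omega), if_neg (by omega), if_pos (by omega), if_neg hm, if_neg hm,
        map_zero, zero_add, zero_add]
      have e0 : z (2 * M) ((-m - M) / 2) + z (2 * M) (-((m - M) / 2)) = 0 := by
        rw [z_add_eq_zero_iff (2 * M) (by omega)]
        have e1 : (-m - M) / 2 - -((m - M) / 2) = -(M : ℤ) := by omega
        rw [e1]
        constructor
        · exact ⟨-1, by push_cast; ring⟩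
        · intro hc
          have hc2 : ((2 * M : ℕ) : ℤ) ∣ (M : ℤ) := (dvd_neg).mp hc
          have hc3 : 2 * M ∣ M := by exact_mod_cast hc2
          have := Nat.le_of_dvd (by omega) hc3
          omega
      have e3 := eq_neg_of_add_eq_zero_left e0
      have e2 := hρ.refl ((m - M) / 2)
      rw [if_neg (by omega)] at e2
      rw [e3, map_neg, e2]

end RhoAux

/-- arrays with values `± 2^k` -/
theorem rho (h : S_EXT) (h2 : S_E2) (h4 : S_D4) : S_RHO := by
  intro n hn h8
  rcases Nat.even_or_odd n with he | ho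
  · obtain ⟨k, hk⟩ := he
    rcases Nat.even_or_odd k with he | ho
    · obtain ⟨M, hM⟩ := he
      have hn4 : n = 4 * M := by omega
      have hMo : M % 2 = 1 := by
        by_contra hcon
        apply h8
        exact ⟨M / 2, by omega⟩
      rw [hn4]
      exact RhoAux.rho_four h h2 h4 M hMo
    · have hn2 : n = 2 * k := by omega
      rw [hn2]
      exact RhoAux.rho_two h h2 k (Nat.odd_iff.mp ho)
  · exact RhoAux.rho_odd h n (Nat.odd_iff.mp ho)

end PathMix2
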