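import Pool.Agent.PathMix2.Stmts
set_option autoImplicit false

/-! The levels 35, 70 and 140: finite certificates (MP_261efc_co). Arrays on `ℤ/n` are coded by the
bytes of a natural number. -/

open Finset

namespace PathMix2
namespace S35

/-- byte `m` of the number `a` -/
def gt (a m : ℕ) : ℕ := a / 256 ^ m % 256

/-- the periodic function with values mod `N` coded by the bytes of `a` -/
def per (n a N : ℕ) (m : ℤ) : ZMod N := (gt a (m % (n : ℤ)).toNat : ZMod N)

/-- the line sums over the cosets of the subgroup of order `q` vanish -/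
def Chk (n q a N : ℕ) : Prop :=
  ∀ m < n, (∑ j ∈ range q, gt a ((m + j * (n / q)) % n)) % N = 0

instance (n q a N : ℕ) : Decidable (Chk n q a N) := by unfold Chk; infer_instance

lemma ZL_per (n a N : ℕ) (hn : 0 < n) (h : ∀ q : ℕ, q.Prime → q ∣ n → Chk n q a N) :
    ZL n (per n a N) where
  per m := by unfold per; rw [Int.add_emod_right]
  line q hq hqn m := by
    have hnz : (n : ℤ) ≠ 0 := by exact_mod_cast hn.ne'
    have hr0 : 0 ≤ m % (n : ℤ) := Int.emod_nonneg _ hnz
    have hrn : m % (n : ℤ) < n := Int.emod_lt_of_pos _ (by exact_mod_cast hn)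
    obtain ⟨r, hr⟩ := Int.eq_ofNat_of_zero_le hr0
    have hrn' : r < n := by rw [hr] at hrn; exact_mod_cast hrn
    have h1 : ∀ j : ℕ, ((m + (j : ℤ) * ((n / q : ℕ) : ℤ)) % (n : ℤ)).toNat = (r + j * (n / q)) % n := by
      intro j
      rw [← Int.emod_add_emod, hr]
      have : ((r : ℤ) + (j : ℤ) * ((n / q : ℕ) : ℤ)) % (n : ℤ) = (((r + j * (n / q)) % n : ℕ) : ℤ) := by
        push_cast; rfl
      rw [this, Int.toNat_natCast]
    unfold per
    simp_rw [h1]
    rw [← Nat.cast_sum, ZMod.natCast_eq_zero_iff]
    exact Nat.dvd_of_mod_eq_zero (h q hq hqn r hrn')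

/-- the value at `tt n r` -/
def tv (n a r : ℕ) : ℕ := gt a r + gt a (n - r)

lemma per_tt (n a N : ℕ) (_hn : 0 < n) (X : A n →+ ZMod N) (hX : ∀ m, X (z n m) = per n a N m)
    (r : ℕ) (h0 : 0 < r) (hr : r < n) : X (tt n r) = (tv n a r : ZMod N) := by
  unfold tt tv
  rw [map_add, hX, hX]
  unfold per
  have h1 : (r : ℤ) % (n : ℤ) = r := Int.emod_eq_of_lt (by positivity) (by exact_mod_cast hr)
  have h2 : (-(r : ℤ)) % (n : ℤ) = ((n - r : ℕ) : ℤ) := by
    rw [Nat.cast_sub hr.le, ← Int.add_emod_right, Int.emod_eq_of_lt]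
    · ring
    · have : (r : ℤ) < n := by exact_mod_cast hr
      linarith
    · have : (0 : ℤ) < r := by exact_mod_cast h0
      linarith
  rw [h1, h2, Int.toNat_natCast, Int.toNat_natCast]
  push_cast
  rfl

lemma sub_iff (n a N : ℕ) (hn : 0 < n) (X : A n →+ ZMod N) (hX : ∀ m, X (z n m) = per n a N m)
    (r r' : ℕ) (h0 : 0 < r) (hr : r < n) (h0' : 0 < r') (hr' : r' < n) :
    X (tt n r - tt n r') = 0 ↔ tv n a r % N = tv n a r' % N := by
  rw [map_sub, per_tt n a N hn X hX r h0 hr, per_tt n a N hn X hX r' h0' hr', sub_eq_zero]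
  exact ZMod.natCast_eq_natCast_iff' _ _ _

lemma add_iff (n a N : ℕ) (hn : 0 < n) (X : A n →+ ZMod N) (hX : ∀ m, X (z n m) = per n a N m)
    (r r' : ℕ) (h0 : 0 < r) (hr : r < n) (h0' : 0 < r') (hr' : r' < n) :
    X (tt n r + tt n r') = 0 ↔ (tv n a r + tv n a r') % N = 0 := by
  rw [map_add, per_tt n a N hn X hX r h0 hr, per_tt n a N hn X hX r' h0' hr', ← Nat.cast_add,
    ZMod.natCast_eq_zero_iff]
  exact Nat.dvd_iff_mod_eq_zero

/-- reduction of `PP` to natural indices -/
lemma PP_of_nat (n : ℕ) (hn : 0 < n) (w : ℝ) (F : A n → ℝ) (hF : PD F) (h0 : F 0 = w)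
    (h1 : ∀ r r' : ℕ, 0 < r → 2 * r < n → 0 < r' → 2 * r' < n → r ≠ r' → F (tt n r - tt n r') = -1)
    (h2 : n % 2 = 1 → ∀ r r' : ℕ, 0 < r → 2 * r < n → 0 < r' → 2 * r' < n → F (tt n r + tt n r') = 0)
    (h3 : n % 4 = 2 → ∀ r : ℕ, 0 < r → 2 * r < n → F (tt n r) = 0) : PP n w := by
  have hred : ∀ m : ℤ, ok n m → ∃ r : ℕ, 0 < r ∧ 2 * r < n ∧ tt n m = tt n r := by
    intro m hm
    have hnz : (0 : ℤ) < n := by exact_mod_cast hn
    have e := Int.emod_add_mul_ediv m n
    have hr0 : 0 ≤ m % (n : ℤ) := Int.emod_nonneg _ hnz.ne'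
    have hrn : m % (n : ℤ) < n := Int.emod_lt_of_pos _ hnz
    by_cases hc : 2 * (m % (n : ℤ)) < n
    · refine ⟨(m % (n : ℤ)).toNat, ?_, ?_, ?_⟩
      · by_contra hneg
        have h00 : m % (n : ℤ) = 0 := by omega
        apply hm
        exact (Int.dvd_of_emod_eq_zero h00).mul_left 2
      · omega
      · rw [tt_eq_iff n hn]
        left
        rw [Int.toNat_of_nonneg hr0]
        exact ⟨m / n, by linarith⟩
    · have hc2 : 2 * (m % (n : ℤ)) ≠ n := by
        intro h
        apply hm
        refine ⟨2 * (m / n) + 1, ?_⟩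
        have : 2 * m = 2 * (m % (n : ℤ)) + 2 * (n * (m / n)) := by linarith
        rw [this, h]; ring
      refine ⟨((n : ℤ) - m % (n : ℤ)).toNat, ?_, ?_, ?_⟩
      · omega
      · omega
      · rw [tt_eq_iff n hn]
        right
        rw [Int.toNat_of_nonneg (by linarith)]
        exact ⟨m / n + 1, by linarith⟩
  refine ⟨F, hF, h0, ?_, ?_, ?_⟩
  · intro m m' hm hm' hd hs
    obtain ⟨r, a1, a2, a3⟩ := hred m hm
    obtain ⟨r', b1, b2, b3⟩ := hred m' hm'
    rw [a3, b3]
    apply h1 r r' a1 a2 b1 b2
    rintro rfl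
    rcases (tt_eq_iff n hn m m').mp (a3.trans b3.symm) with h | h
    · exact hd h
    · exact hs h
  · intro ho m m' hm hm'
    obtain ⟨r, a1, a2, a3⟩ := hred m hm
    obtain ⟨r', b1, b2, b3⟩ := hred m' hm'
    rw [a3, b3]
    exact h2 ho r r' a1 a2 b1 b2
  · intro ho m hm
    obtain ⟨r, a1, a2, a3⟩ := hred m hm
    rw [a3]
    exact h3 ho r a1 a2

/-! ### level 35 -/

/-- a component: `w K1` times the indicators of kernels times the uniform function of a
homomorphism to `ZMod (K1 + 1)` -/
structure Cp where
  w : ℕ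
  kers : List (ℕ × ℕ)
  fac : ℕ
  K1 : ℕ

def evM (n : ℕ) (c : Cp) (r r' : ℕ) : ℤ :=
  if ∀ p ∈ c.kers, tv n p.1 r % p.2 = tv n p.1 r' % p.2 then
    (if tv n c.fac r % (c.K1 + 1) = tv n c.fac r' % (c.K1 + 1) then (c.w : ℤ) * c.K1 else -(c.w : ℤ))
  else 0

def evP (n : ℕ) (c : Cp) (r r' : ℕ) : ℤ :=
  if ∀ p ∈ c.kers, (tv n p.1 r + tv n p.1 r') % p.2 = 0 then
    (if (tv n c.fac r + tv n c.fac r') % (c.K1 + 1) = 0 then (c.w : ℤ) * c.K1 else -(c.w : ℤ))
  else 0

/-- the arrays of a component are fine at the prime `q` -/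
def CC (n q : ℕ) (c : Cp) : Prop :=
  (∀ p ∈ c.kers, Chk n q p.1 p.2) ∧ Chk n q c.fac (c.K1 + 1)

instance (n q : ℕ) (c : Cp) : Decidable (CC n q c) := by unfold CC; infer_instance

open Classical in
lemma ker_fun (h : S_EXT) (n : ℕ) (hn : 0 < n) (l : List (ℕ × ℕ))
    (hl : ∀ q : ℕ, q.Prime → q ∣ n → ∀ p ∈ l, Chk n q p.1 p.2) :
    ∃ P : A n → ℝ, PD P ∧ P 0 = 1 ∧ ∀ r r' : ℕ, 0 < r → r < n → 0 < r' → r' < n →
      P (tt n r - tt n r') = (if ∀ p ∈ l, tv n p.1 r % p.2 = tv n p.1 r' % p.2 then 1 else 0) ∧
      P (tt n r + tt n r') = (if ∀ p ∈ l, (tv n p.1 r + tv n p.1 r') % p.2 = 0 then 1 else 0) := by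
  induction l with
  | nil => exact ⟨fun _ => 1, PD.one, rfl, fun r r' _ _ _ _ => by simp⟩
  | cons p l ih =>
    obtain ⟨P, hP, hP0, hP1⟩ := ih (fun q hq hqn p' hp' => hl q hq hqn p' (List.mem_cons_of_mem _ hp'))
    obtain ⟨X, hX⟩ := h n hn (ZMod p.2) (per n p.1 p.2)
      (ZL_per n p.1 p.2 hn (fun q hq hqn => hl q hq hqn p List.mem_cons_self))
    refine ⟨fun x => (if X x = 0 then (1 : ℝ) else 0) * P x, (PD.ind X).mul hP, ?_, ?_⟩
    · beta_reduce
      rw [map_zero, if_pos rfl, hP0, one_mul]
    · intro r r' a b c d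
      obtain ⟨e1, e2⟩ := hP1 r r' a b c d
      beta_reduce
      rw [e1, e2]
      simp only [sub_iff n p.1 p.2 hn X hX r r' a b c d, add_iff n p.1 p.2 hn X hX r r' a b c d,
        List.forall_mem_cons]
      constructor
      · by_cases g1 : tv n p.1 r % p.2 = tv n p.1 r' % p.2
        · simp [g1]
        · simp [g1]
      · by_cases g1 : (tv n p.1 r + tv n p.1 r') % p.2 = 0
        · simp [g1]
        · simp [g1]

open Classical in
lemma comp_fun (h : S_EXT) (n : ℕ) (hn : 0 < n) (c : Cp) (hK : 1 ≤ c.K1)
    (hc : ∀ q : ℕ, q.Prime → q ∣ n → CC n q c) :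
    ∃ P : A n → ℝ, PD P ∧ P 0 = ((c.w * c.K1 : ℕ) : ℝ) ∧
      ∀ r r' : ℕ, 0 < r → r < n → 0 < r' → r' < n →
      P (tt n r - tt n r') = (evM n c r r' : ℝ) ∧ P (tt n r + tt n r') = (evP n c r r' : ℝ) := by
  obtain ⟨P, hP, hP0, hP1⟩ := ker_fun h n hn c.kers (fun q hq hqn => (hc q hq hqn).1)
  obtain ⟨X, hX⟩ := h n hn (ZMod (c.K1 + 1)) (per n c.fac (c.K1 + 1))
      (ZL_per n c.fac (c.K1 + 1) hn (fun q hq hqn => (hc q hq hqn).2))
  have hK0 : (c.K1 : ℝ) ≠ 0 := by
    have : (c.K1 : ℝ) > 0 := by exact_mod_cast hK
    exact this.ne'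
  refine ⟨fun x => ((c.w * c.K1 : ℕ) : ℝ) * (P x * FB X x),
    (hP.mul (PD.FB (by rw [ZMod.card]; omega) X)).smul _ (Nat.cast_nonneg _), ?_, ?_⟩
  · beta_reduce
    rw [hP0, FB_zero X (map_zero X)]
    ring
  · intro r r' a b d e
    obtain ⟨e1, e2⟩ := hP1 r r' a b d e
    beta_reduce
    rw [e1, e2]
    unfold evM evP
    constructor
    · by_cases g1 : ∀ p ∈ c.kers, tv n p.1 r % p.2 = tv n p.1 r' % p.2
      · rw [if_pos g1, if_pos g1]
        by_cases g2 : tv n c.fac r % (c.K1 + 1) = tv n c.fac r' % (c.K1 + 1)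
        · rw [if_pos g2, FB_zero X ((sub_iff n c.fac _ hn X hX r r' a b d e).mpr g2)]
          push_cast; ring
        · rw [if_neg g2, FB_ne X (fun hh => g2 ((sub_iff n c.fac _ hn X hX r r' a b d e).mp hh)),
            ZMod.card]
          push_cast
          rw [add_sub_cancel_right]
          field_simp
      · rw [if_neg g1, if_neg g1]
        push_cast; ring
    · by_cases g1 : ∀ p ∈ c.kers, (tv n p.1 r + tv n p.1 r') % p.2 = 0
      · rw [if_pos g1, if_pos g1]
        by_cases g2 : (tv n c.fac r + tv n c.fac r') % (c.K1 + 1) = 0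
        · rw [if_pos g2, FB_zero X ((add_iff n c.fac _ hn X hX r r' a b d e).mpr g2)]
          push_cast; ring
        · rw [if_neg g2, FB_ne X (fun hh => g2 ((add_iff n c.fac _ hn X hX r r' a b d e).mp hh)),
            ZMod.card]
          push_cast
          rw [add_sub_cancel_right]
          field_simp
      · rw [if_neg g1, if_neg g1]
        push_cast; ring

lemma list_fun (h : S_EXT) (n : ℕ) (hn : 0 < n) (l : List Cp) (hK : ∀ c ∈ l, 1 ≤ c.K1)
    (hc : ∀ q : ℕ, q.Prime → q ∣ n → ∀ c ∈ l, CC n q c) :
    ∃ P : A n → ℝ, PD P ∧ P 0 = (((l.map fun c => c.w * c.K1).sum : ℕ) : ℝ) ∧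
      ∀ r r' : ℕ, 0 < r → r < n → 0 < r' → r' < n →
      P (tt n r - tt n r') = (((l.map fun c => evM n c r r').sum : ℤ) : ℝ) ∧
      P (tt n r + tt n r') = (((l.map fun c => evP n c r r').sum : ℤ) : ℝ) := by
  induction l with
  | nil => exact ⟨fun _ => 0, PD.zero, by simp, fun r r' _ _ _ _ => by simp⟩
  | cons c l ih =>
    obtain ⟨P, hP, hP0, hP1⟩ := ih (fun c' hc' => hK c' (List.mem_cons_of_mem _ hc'))
      (fun q hq hqn c' hc' => hc q hq hqn c' (List.mem_cons_of_mem _ hc'))
    obtain ⟨Q, hQ, hQ0, hQ1⟩ := comp_fun h n hn c (hK c List.mem_cons_self)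
      (fun q hq hqn => hc q hq hqn c List.mem_cons_self)
    refine ⟨fun x => Q x + P x, hQ.add hP, ?_, ?_⟩
    · beta_reduce
      rw [hQ0, hP0, List.map_cons, List.sum_cons]
      push_cast
      ring
    · intro r r' a b d e
      obtain ⟨e1, e2⟩ := hP1 r r' a b d e
      obtain ⟨f1, f2⟩ := hQ1 r r' a b d e
      beta_reduce
      rw [e1, e2, f1, f2, List.map_cons, List.sum_cons, List.map_cons, List.sum_cons]
      push_cast
      exact ⟨rfl, rfl⟩

def comps35 : List Cp := [
  { w := 14, kers := [(0x10105000001010500000101050000010105000001010500000101050000010105, 7)], fac := 0xe020c00000d04040000080a0c0000090b060000030c040000060508000007010e, K1 := 14 },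
  { w := 7, kers := [(0x6341000000416300000000770000003e080000001c1c000000083e0000007700, 127), (0x2457400000183b200000187c100000247c080000423b0400000257020000425f01, 127)], fac := 0x10100000001010000000100000000010100000001010000000001000000010100, K1 := 1 },
  { w := 7, kers := [(0x6341000000416300000000770000003e080000001c1c000000083e0000007700, 127), (0x1839400000187b200000243c100000421b08000002470400004257020000245301, 127)], fac := 0x10100000001000000000101000000010100000000010000000101000000010100, K1 := 1 },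
  { w := 7, kers := [(0x6341000000416300000000770000003e080000001c1c000000083e0000007700, 127), (0x1879400000243b200000425a10000002270800004247040000244b020000183501, 127)], fac := 0x10000000001010000000101000000000100000001010000000101000000010100, K1 := 1 },
  { w := 7, kers := [(0x6341000000416300000000770000003e080000001c1c000000083e0000007700, 127), (0x2439400000425920000002661000004227080000243b040000182d020000187501, 127)], fac := 0x10100000001010000000001000000010100000001010000000101000000010000, K1 := 1 },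
  { w := 7, kers := [(0x6341000000416300000000770000003e080000001c1c000000083e0000007700, 127), (0x425740000002652000004266100000241b080000181d040000186d020000243501, 127)], fac := 0x10100000000010000000101000000010100000001010000000100000000010100, K1 := 1 },
  { w := 7, kers := [(0x6341000000416300000000770000003e080000001c1c000000083e0000007700, 127), (0x2634000004265200000245a100000187c080000185d040000242d020000425301, 127)], fac := 0x100000001010000000101000000010100000001000000000101000000010100, K1 := 1 },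
  { w := 7, kers := [(0x6341000000416300000000770000003e080000001c1c000000083e0000007700, 127), (0x42634000002459200000183c100000183d080000241d040000424b020000025f01, 127)], fac := 0x10100000001010000000101000000010000000001010000000101000000000100, K1 := 1 },
  { w := 7, kers := [(0x1c0041000008006300007700770000630008000041001c000000003e00003e0000, 127), (0x3b2440000057422000005f0210000057420800003b240400007c180200007c1801, 127)], fac := 0x10100000001010000000100000000010100000001010000000001000000010100, K1 := 1 },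
  { w := 7, kers := [(0x1c0041000008006300007700770000630008000041001c000000003e00003e0000, 127), (0x47424000005702200000534210000039240800007b180400003c180200001b2401, 127)], fac := 0x10100000001000000000101000000010100000000010000000101000000010100, K1 := 1 },
  { w := 7, kers := [(0x1c0041000008006300007700770000630008000041001c000000003e00003e0000, 127), (0x47024000004b42200000352410000079180800003b180400005a24020000274201, 127)], fac := 0x10000000001010000000101000000000100000001010000000101000000010100, K1 := 1 },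
  { w := 7, kers := [(0x1c0041000008006300007700770000630008000041001c000000003e00003e0000, 127), (0x3b424000002d242000007518100000391808000059240400006642020000270201, 127)], fac := 0x10100000001010000000001000000010100000001010000000101000000010000, K1 := 1 },
  { w := 7, kers := [(0x1c0041000008006300007700770000630008000041001c000000003e00003e0000, 127), (0x1d244000006d1820000035181000005724080000654204000066020200001b4201, 127)], fac := 0x10100000000010000000101000000010100000001010000000100000000010100, K1 := 1 },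
  { w := 7, kers := [(0x1c0041000008006300007700770000630008000041001c000000003e00003e0000, 127), (0x5d184000002d182000005324100000634208000065020400005a420200007c2401, 127)], fac := 0x100000001010000000101000000010100000001000000000101000000010100, K1 := 1 },
  { w := 7, kers := [(0x1c0041000008006300007700770000630008000041001c000000003e00003e0000, 127), (0x1d184000004b242000005f42100000630208000059420400003c240200003d1801, 127)], fac := 0x10100000001010000000101000000010000000001010000000101000000000100, K1 := 1 },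
  { w := 1, kers := [(0x43f000000025f000000016f0000004077000000207b000000107d000000087e, 127)], fac := 0x50500000004060000000300000000020100000001020000000003000000060400, K1 := 6 },
  { w := 1, kers := [(0x43f000000025f000000016f0000004077000000207b000000107d000000087e, 127)], fac := 0x60400000005050000000406000000030000000002010000000102000000000300, K1 := 6 },
  { w := 1, kers := [(0x43f000000025f000000016f0000004077000000207b000000107d000000087e, 127)], fac := 0x300000006040000000505000000040600000003000000000201000000010200, K1 := 6 },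
  { w := 1, kers := [(0x43f000000025f000000016f0000004077000000207b000000107d000000087e, 127)], fac := 0x10200000000030000000604000000050500000004060000000300000000020100, K1 := 6 },
  { w := 1, kers := [(0x43f000000025f000000016f0000004077000000207b000000107d000000087e, 127)], fac := 0x20100000001020000000003000000060400000005050000000406000000030000, K1 := 6 },
  { w := 1, kers := [(0x43f000000025f000000016f0000004077000000207b000000107d000000087e, 127)], fac := 0x30000000002010000000102000000000300000006040000000505000000040600, K1 := 6 },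
  { w := 1, kers := [(0x43f000000025f000000016f0000004077000000207b000000107d000000087e, 127)], fac := 0x40600000003000000000201000000010200000000030000000604000000050500, K1 := 6 },
  { w := 1, kers := [(0x20003f000010005f000008006f0000040077000002007b000001007d000040007e, 127)], fac := 0x20200000003010000000400000000050600000006050000000004000000010300, K1 := 6 },
  { w := 1, kers := [(0x20003f000010005f000008006f0000040077000002007b000001007d000040007e, 127)], fac := 0x10300000002020000000301000000040000000005060000000605000000000400, K1 := 6 },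
  { w := 1, kers := [(0x20003f000010005f000008006f0000040077000002007b000001007d000040007e, 127)], fac := 0x400000001030000000202000000030100000004000000000506000000060500, K1 := 6 },
  { w := 1, kers := [(0x20003f000010005f000008006f0000040077000002007b000001007d000040007e, 127)], fac := 0x60500000000040000000103000000020200000003010000000400000000050600, K1 := 6 },
  { w := 1, kers := [(0x20003f000010005f000008006f0000040077000002007b000001007d000040007e, 127)], fac := 0x50600000006050000000004000000010300000002020000000301000000040000, K1 := 6 },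
  { w := 1, kers := [(0x20003f000010005f000008006f0000040077000002007b000001007d000040007e, 127)], fac := 0x40000000005060000000605000000000400000001030000000202000000030100, K1 := 6 },
  { w := 1, kers := [(0x20003f000010005f000008006f0000040077000002007b000001007d000040007e, 127)], fac := 0x30100000004000000000506000000060500000000040000000103000000020200, K1 := 6 }]

def aB19 : ℕ := 0x11000500030900040009100003000600000d000d08000d0010110012000d04000e000a02000e00100a000f000a030010000d00000600060b0006000302000100060f00050009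
def aE5 : ℕ := 0x4000400020100010003040004000201000100030100040002010004000304000400030100010003040004000201000100030400040002040001000304000100020100010002
def aX140 : ℕ := 0x109000003622200006154550000131b1e00005d4d1800005134390000120c1a00002b2f530000480f490000570e2b000017255f00003f581200005d286400003b676600000f6860000066074700000815140000564e4b00000c1c5100001835300000575d4f00003e3a160000215a200000125b3e000052440a00002a115700000c410500002e020300005a

lemma prime_dvd_35 (q : ℕ) (hq : q.Prime) (h : q ∣ 35) : q = 5 ∨ q = 7 := by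
  have h1 : q ∣ 5 * 7 := h
  rcases (Nat.Prime.dvd_mul hq).mp h1 with h | h
  · exact Or.inl ((Nat.prime_dvd_prime_iff_eq hq (by norm_num)).mp h)
  · exact Or.inr ((Nat.prime_dvd_prime_iff_eq hq (by norm_num)).mp h)

lemma prime_dvd_70 (q : ℕ) (hq : q.Prime) (h : q ∣ 70) : q = 2 ∨ q = 5 ∨ q = 7 := by
  have h1 : q ∣ 2 * 35 := h
  rcases (Nat.Prime.dvd_mul hq).mp h1 with h | h
  · exact Or.inl ((Nat.prime_dvd_prime_iff_eq hq (by norm_num)).mp h)
  · exact Or.inr (prime_dvd_35 q hq h)

lemma prime_dvd_140 (q : ℕ) (hq : q.Prime) (h : q ∣ 140) : q = 2 ∨ q = 5 ∨ q = 7 := by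
  have h1 : q ∣ 2 * 70 := h
  rcases (Nat.Prime.dvd_mul hq).mp h1 with h | h
  · exact Or.inl ((Nat.prime_dvd_prime_iff_eq hq (by norm_num)).mp h)
  · exact prime_dvd_70 q hq h

lemma chk35 : ∀ c ∈ comps35, 1 ≤ c.K1 ∧ CC 35 5 c ∧ CC 35 7 c := by
  decide +kernel

lemma mass35 : (comps35.map fun c => c.w * c.K1).sum = 378 := by
  decide +kernel

lemma diff35 : ∀ r < 18, ∀ r' < 18, 0 < r → 0 < r' → r ≠ r' →
    (comps35.map fun c => evM 35 c r r').sum = -14 := by
  decide +kernel

lemma sum35 : ∀ r < 18, ∀ r' < 18, 0 < r → 0 < r' →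
    (comps35.map fun c => evP 35 c r r').sum = 0 := by
  decide +kernel

end S35

open S35

theorem s35 (h : S_EXT) : S_35 := by
  obtain ⟨P, hP, hP0, hP1⟩ := list_fun h 35 (by norm_num) comps35 (fun c hc => (chk35 c hc).1)
    (fun q hq hqn c hc => by
      rcases prime_dvd_35 q hq hqn with rfl | rfl
      · exact (chk35 c hc).2.1
      · exact (chk35 c hc).2.2)
  have h27 : PP 35 27 := by
    refine PP_of_nat 35 (by norm_num) 27 (fun x => (1 / 14) * P x) (hP.smul _ (by norm_num)) ?_ ?_ ?_ ?_
    · rw [hP0, mass35]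
      norm_num
    · intro r r' a b c d e
      rw [(hP1 r r' a (by omega) c (by omega)).1, diff35 r (by omega) r' (by omega) a c e]
      norm_num
    · intro _ r r' a b c d
      rw [(hP1 r r' a (by omega) c (by omega)).2, sum35 r (by omega) r' (by omega) a c]
      norm_num
    · intro h4; norm_num at h4
  exact PP.mono (by norm_num) h27 (by norm_num)

namespace S35

lemma chkB : Chk 70 2 aB19 19 ∧ Chk 70 5 aB19 19 ∧ Chk 70 7 aB19 19 := by decide +kernel

lemma chkE : Chk 70 2 aE5 5 ∧ Chk 70 5 aE5 5 ∧ Chk 70 7 aE5 5 := by decide +kernel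

/-- integer value of `2 v0` -/
def v2 (a : ℕ) : ℤ := if a % 5 = 0 then 2 else if a % 5 = 2 ∨ a % 5 = 3 then -1 else 0

lemma v2_eq (a : ℕ) : 2 * v0 (a : ZMod 5) = ((v2 a : ℤ) : ℝ) := by
  have h1 : ((a : ZMod 5) = 0) ↔ a % 5 = 0 := by
    rw [ZMod.natCast_eq_zero_iff, Nat.dvd_iff_mod_eq_zero]
  have h2 : ((a : ZMod 5) = 2) ↔ a % 5 = 2 := by
    have := ZMod.natCast_eq_natCast_iff' a 2 5
    simpa using this
  have h3 : ((a : ZMod 5) = 3) ↔ a % 5 = 3 := by
    have := ZMod.natCast_eq_natCast_iff' a 3 5
    simpa using this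
  unfold v0 v2
  simp only [h1, h2, h3]
  split_ifs <;> norm_num

/-- the value at level 70 of a vector with residues `b` (mod 19) and `t` (mod 5) -/
def val70 (b t : ℕ) : ℤ := (if t % 5 = 0 then (if b % 19 = 0 then 54 else -3) else 0) + v2 t

lemma diff70 : ∀ r < 35, ∀ r' < 35, 0 < r → 0 < r' → r ≠ r' →
    val70 (tv 70 aB19 r + 18 * tv 70 aB19 r') (tv 70 aE5 r + 4 * tv 70 aE5 r') = -1 := by
  decide +kernel

lemma one70 : ∀ r < 35, 0 < r → val70 (tv 70 aB19 r) (tv 70 aE5 r) = 0 := by
  decide +kernel

end S35

open Classical in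
theorem s70 (h : S_EXT) : S_70 := by
  have hn : 0 < 70 := by norm_num
  obtain ⟨X, hX⟩ := h 70 hn (ZMod 19) (per 70 aB19 19) (ZL_per 70 aB19 19 hn (fun q hq hqn => by
    rcases prime_dvd_70 q hq hqn with rfl | rfl | rfl
    · exact chkB.1
    · exact chkB.2.1
    · exact chkB.2.2))
  obtain ⟨Y, hY⟩ := h 70 hn (ZMod 5) (per 70 aE5 5) (ZL_per 70 aE5 5 hn (fun q hq hqn => by
    rcases prime_dvd_70 q hq hqn with rfl | rfl | rfl
    · exact chkE.1
    · exact chkE.2.1
    · exact chkE.2.2))
  have hval : ∀ (x : A 70) (b t : ℕ), X x = (b : ZMod 19) → Y x = (t : ZMod 5) →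
      54 * ((if Y x = 0 then (1 : ℝ) else 0) * FB X x) + 2 * v0 (Y x) = ((val70 b t : ℤ) : ℝ) := by
    intro x b t hb ht
    have g1 : Y x = 0 ↔ t % 5 = 0 := by
      rw [ht, ZMod.natCast_eq_zero_iff, Nat.dvd_iff_mod_eq_zero]
    have g2 : X x = 0 ↔ b % 19 = 0 := by
      rw [hb, ZMod.natCast_eq_zero_iff, Nat.dvd_iff_mod_eq_zero]
    have g3 : 2 * v0 (Y x) = ((v2 t : ℤ) : ℝ) := by rw [ht, v2_eq]
    rw [g3]
    unfold val70
    by_cases c1 : t % 5 = 0
    · rw [if_pos (g1.mpr c1), if_pos c1]
      by_cases c2 : b % 19 = 0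
      · rw [if_pos c2, FB_zero X (g2.mpr c2)]
        push_cast; ring
      · rw [if_neg c2, FB_ne X (fun hh => c2 (g2.mp hh)), ZMod.card]
        push_cast
        norm_num
    · rw [if_neg (fun hh => c1 (g1.mp hh)), if_neg c1]
      push_cast; ring
  have h56 : PP 70 56 := by
    refine PP_of_nat 70 hn 56
      (fun x => 54 * ((if Y x = 0 then (1 : ℝ) else 0) * FB X x) + 2 * v0 (Y x))
      ((((PD.ind Y).mul (PD.FB (by rw [ZMod.card]; norm_num) X)).smul 54 (by norm_num)).add
        ((PD.v0 Y).smul 2 (by norm_num))) ?_ ?_ ?_ ?_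
    · rw [hval 0 0 0 (by simp) (by simp)]
      have : val70 0 0 = 56 := by decide
      rw [this]; norm_num
    · intro r r' a b c d e
      rw [hval (tt 70 r - tt 70 r') (tv 70 aB19 r + 18 * tv 70 aB19 r') (tv 70 aE5 r + 4 * tv 70 aE5 r'),
        diff70 r (by omega) r' (by omega) a c e]
      · norm_num
      · rw [map_sub, per_tt 70 aB19 19 hn X hX r a (by omega), per_tt 70 aB19 19 hn X hX r' c (by omega)]
        push_cast
        have : (18 : ZMod 19) = -1 := by decide
        rw [this]; ring
      · rw [map_sub, per_tt 70 aE5 5 hn Y hY r a (by omega), per_tt 70 aE5 5 hn Y hY r' c (by omega)]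
        push_cast
        have : (4 : ZMod 5) = -1 := by decide
        rw [this]; ring
    · intro h4; norm_num at h4
    · intro _ r a b
      rw [hval (tt 70 r) (tv 70 aB19 r) (tv 70 aE5 r) (per_tt 70 aB19 19 hn X hX r a (by omega))
        (per_tt 70 aE5 5 hn Y hY r a (by omega)), one70 r (by omega) a]
      norm_num
  exact PP.mono hn h56 (by norm_num)

namespace S35

lemma chkX : Chk 140 2 aX140 105 ∧ Chk 140 5 aX140 105 ∧ Chk 140 7 aX140 105 := by decide +kernel

lemma diff140 : ∀ r < 70, ∀ r' < 70, 0 < r → 0 < r' →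
    tv 140 aX140 r % 105 = tv 140 aX140 r' % 105 → r = r' := by
  decide +kernel

end S35

theorem s140 (h : S_EXT) : S_140 := by
  have hn : 0 < 140 := by norm_num
  obtain ⟨X, hX⟩ := h 140 hn (ZMod 105) (per 140 aX140 105) (ZL_per 140 aX140 105 hn (fun q hq hqn => by
    rcases prime_dvd_140 q hq hqn with rfl | rfl | rfl
    · exact chkX.1
    · exact chkX.2.1
    · exact chkX.2.2))
  have h104 : PP 140 104 := by
    refine PP_of_nat 140 hn 104 (fun x => 104 * FB X x)
      ((PD.FB (by rw [ZMod.card]; norm_num) X).smul 104 (by norm_num)) ?_ ?_ ?_ ?_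
    · rw [FB_zero X (map_zero X)]; norm_num
    · intro r r' a b c d e
      rw [FB_ne X, ZMod.card]
      · norm_num
      · intro hh
        exact e (diff140 r (by omega) r' (by omega) a c
          ((sub_iff 140 aX140 105 hn X hX r r' a (by omega) c (by omega)).mp hh))
    · intro h4; norm_num at h4
    · intro h4; norm_num at h4
  exact PP.mono hn h104 (by norm_num)

end PathMix2
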