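import Pool.Agent.PathMix2.Stmts
set_option autoImplicit false

/-! The homomorphism `A n →+ ZMod 5` with values `± 1` at the roots of unity (module PM_SIG). -/

open Finset

namespace PathMix2

namespace Sig

lemma sum_zmod {T : Type*} [AddCommMonoid T] (q : ℕ) [NeZero q] (F : ZMod q → T) :
    ∑ x : ZMod q, F x = ∑ j ∈ range q, F (j : ZMod q) := by
  refine Finset.sum_bij' (fun x _ => x.val) (fun j _ => (j : ZMod q)) ?_ ?_ ?_ ?_ ?_
  · intro x _
    exact mem_range.mpr (ZMod.val_lt x)
  · intro j _
    exact mem_univ _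
  · intro x _
    exact ZMod.natCast_zmod_val x
  · intro j hj
    exact ZMod.val_cast_of_lt (mem_range.mp hj)
  · intro x _
    rw [ZMod.natCast_zmod_val]

/-- a function of period `q` factors through `ZMod q` -/
lemma per_mul {T : Type*} (q : ℤ) (g : ℤ → T) (hg : ∀ m, g (m + q) = g m) (k : ℤ) (m : ℤ) :
    g (m + k * q) = g m := by
  induction k using Int.induction_on with
  | zero => simp
  | succ k ih =>
    have : m + ((k : ℤ) + 1) * q = (m + k * q) + q := by ring
    rw [this, hg, ih]
  | pred k ih =>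
    have : m + (-(k : ℤ) - 1) * q + q = m + (-(k : ℤ)) * q := by ring
    rw [← hg, this, ih]

lemma per_dvd {T : Type*} (q : ℤ) (g : ℤ → T) (hg : ∀ m, g (m + q) = g m) (a b : ℤ)
    (h : q ∣ a - b) : g a = g b := by
  obtain ⟨k, hk⟩ := h
  have : a = b + k * q := by linarith [mul_comm k q]
  rw [this, per_mul q g hg]

/-- sums over a complete system of residues -/
lemma sum_res {T : Type*} [AddCommMonoid T] (q : ℕ) (hq : 0 < q) (g : ℤ → T)
    (hg : ∀ m, g (m + q) = g m) (c b : ℤ) (hc : IsCoprime c (q : ℤ)) :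
    ∑ j ∈ range q, g (b + j * c) = ∑ j ∈ range q, g j := by
  have : NeZero q := ⟨hq.ne'⟩
  set G : ZMod q → T := fun x => g (x.val : ℤ) with hG
  have h1 : ∀ a : ℤ, g a = G (a : ZMod q) := by
    intro a
    rw [hG]
    apply per_dvd (q : ℤ) g hg
    rw [← ZMod.intCast_eq_intCast_iff_dvd_sub]
    simp
  have hu : IsUnit ((c : ℤ) : ZMod q) := by
    obtain ⟨u, v, huv⟩ := hc
    have h2 : ((u : ℤ) : ZMod q) * ((c : ℤ) : ZMod q) = 1 := by
      have := congrArg (fun x : ℤ => (x : ZMod q)) huv
      simpa using this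
    exact IsUnit.of_mul_eq_one _ (by rw [mul_comm]; exact h2)
  obtain ⟨u, hu⟩ := hu
  have h3 : ∑ j ∈ range q, g (b + j * c) = ∑ x : ZMod q, G ((b : ZMod q) + x * u) := by
    rw [sum_zmod]
    apply sum_congr rfl
    intro j _
    rw [h1, hu]
    push_cast
    rfl
  have h4 : ∑ j ∈ range q, g j = ∑ x : ZMod q, G x := by
    rw [sum_zmod]
    apply sum_congr rfl
    intro j _
    rw [h1]
    push_cast
    rfl
  rw [h3, h4]
  exact Equiv.sum_comp ((Units.mulRight u).trans (Equiv.addLeft (b : ZMod q))) G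

lemma exists_w (h : ℕ) (hh : 2 ≤ h) : ∃ w : ℕ → ZMod 5, (∀ k, w k = 1 ∨ w k = -1) ∧
    w 0 + 2 * ∑ j ∈ range h, w (j + 1) = 0 := by
  have key : ∀ (e : ZMod 5) (t : ℕ), (e = 1 ∨ e = -1) → t ≤ h → e + 2 * ((h : ZMod 5) - 2 * (t : ZMod 5)) = 0 →
      ∃ w : ℕ → ZMod 5, (∀ k, w k = 1 ∨ w k = -1) ∧ w 0 + 2 * ∑ j ∈ range h, w (j + 1) = 0 := by
    intro e t he ht h0
    refine ⟨fun k => if k = 0 then e else if k ≤ t then -1 else 1, ?_, ?_⟩
    · intro k
      beta_reduce
      split_ifs
      · exact he
      · right; rfl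
      · left; rfl
    · obtain ⟨s, rfl⟩ := Nat.exists_eq_add_of_le ht
      rw [sum_range_add]
      have h1 : ∑ x ∈ range t, (fun k => if k = 0 then e else if k ≤ t then (-1 : ZMod 5) else 1) (x + 1)
          = ∑ x ∈ range t, (-1 : ZMod 5) := by
        apply sum_congr rfl
        intro x hx
        have := mem_range.mp hx
        beta_reduce
        rw [if_neg (by omega), if_pos (by omega)]
      have h2 : ∑ x ∈ range s, (fun k => if k = 0 then e else if k ≤ t then (-1 : ZMod 5) else 1) (t + x + 1)
          = ∑ x ∈ range s, (1 : ZMod 5) := by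
        apply sum_congr rfl
        intro x hx
        beta_reduce
        rw [if_neg (by omega), if_neg (by omega)]
      rw [h1, h2]
      simp only [if_true, sum_const, card_range, nsmul_eq_mul, mul_one]
      push_cast at h0
      linear_combination h0
  have h5 : h % 5 = 0 ∨ h % 5 = 1 ∨ h % 5 = 2 ∨ h % 5 = 3 ∨ h % 5 = 4 := by omega
  have hc : (h : ZMod 5) = ((h % 5 : ℕ) : ZMod 5) := by
    rw [ZMod.natCast_mod]
  rcases h5 with h5 | h5 | h5 | h5 | h5
  · refine key (-1) 1 (Or.inr rfl) (by omega) ?_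
    rw [hc, h5]; decide
  · refine key (-1) 4 (Or.inr rfl) (by omega) ?_
    rw [hc, h5]; decide
  · refine key 1 0 (Or.inl rfl) (by omega) ?_
    rw [hc, h5]; decide
  · refine key (-1) 0 (Or.inr rfl) (by omega) ?_
    rw [hc, h5]; decide
  · refine key 1 1 (Or.inl rfl) (by omega) ?_
    rw [hc, h5]; decide

/-- the even function on `Z/p` -/
lemma exists_eta (p h : ℕ) (hp : p = 2 * h + 1) (hh : 2 ≤ h) : ∃ η : ℤ → ZMod 5,
    (∀ m, η m = 1 ∨ η m = -1) ∧ (∀ m, η (m + p) = η m) ∧ (∀ m, η (-m) = η m) ∧
    ∑ j ∈ range p, η j = 0 := by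
  obtain ⟨w, hw, hs⟩ := exists_w h hh
  set η : ℤ → ZMod 5 := fun m => w (Int.natAbs ((m + h) % p - h)) with hη
  have hper : ∀ m, η (m + p) = η m := by
    intro m
    simp only [hη]
    have : m + (p : ℤ) + h = m + h + p := by ring
    rw [this, Int.add_emod_right]
  refine ⟨η, fun m => hw _, hper, ?_, ?_⟩
  · intro m
    simp only [hη]
    congr 1
    have h1 : (0 : ℤ) < p := by omega
    have h2 := Int.emod_nonneg (m + h) h1.ne'
    have h3 := Int.emod_lt_of_pos (m + h) h1
    have h4 := Int.mul_ediv_add_emod (m + h) p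
    set r := (m + h) % (p : ℤ) with hr
    set y := (m + h) / (p : ℤ) with hy
    have h6 : (-m + h) % (p : ℤ) = 2 * h - r := by
      have : -m + (h : ℤ) = (2 * h - r) + p * (-y) := by linarith
      rw [this, Int.add_mul_emod_self_left]
      apply Int.emod_eq_of_lt <;> omega
    rw [h6]
    omega
  · have h1 : ∑ j ∈ range p, η j = ∑ j ∈ range p, η (-h + j * 1) :=
      (sum_res p (by omega) η hper 1 (-h) isCoprime_one_left).symm
    rw [h1]
    have h2 : ∀ j ∈ range p, η (-h + j * 1) = w (Int.natAbs ((j : ℤ) - h)) := by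
      intro j hj
      have := mem_range.mp hj
      simp only [hη]
      congr 2
      have h3 : -(h : ℤ) + j * 1 + h = j := by ring
      rw [h3]
      congr 1
      apply Int.emod_eq_of_lt <;> omega
    rw [sum_congr rfl h2]
    have hp2 : p = h + (1 + h) := by omega
    rw [hp2, sum_range_add]
    have h3 : ∑ x ∈ range h, w (Int.natAbs ((x : ℤ) - h)) = ∑ x ∈ range h, w (x + 1) := by
      rw [← sum_range_reflect]
      apply sum_congr rfl
      intro x hx
      have := mem_range.mp hx
      congr 1
      omega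
    have h4 : ∑ x ∈ range (1 + h), w (Int.natAbs (((h + x : ℕ) : ℤ) - h)) = ∑ x ∈ range (h + 1), w x := by
      rw [add_comm 1 h]
      apply sum_congr rfl
      intro x hx
      congr 1
      omega
    rw [h3, h4, sum_range_succ', ← hs]
    ring

/-- the periodic function for odd `n` not divisible by `3` -/
lemma exists_f (n : ℕ) : n % 2 = 1 → ¬ 3 ∣ n → ∃ f : ℤ → ZMod 5, ZL n f ∧
    (∀ m, f m = 1 ∨ f m = -1) ∧ ∀ m, f (-m) = f m := by
  induction n using Nat.strong_induction_on with
  | _ n ih =>
    intro hn h3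
    by_cases hn1 : n = 1
    · subst hn1
      refine ⟨fun _ => 1, ⟨fun m => rfl, ?_⟩, fun m => Or.inl rfl, fun m => rfl⟩
      intro q hq hq1
      exact absurd (Nat.dvd_one.mp hq1) hq.one_lt.ne'
    have hp : (n.minFac).Prime := Nat.minFac_prime hn1
    set p := n.minFac with hpdef
    have hpn : p ∣ n := Nat.minFac_dvd n
    obtain ⟨n', hn'⟩ := hpn
    have hp2 : p ≠ 2 := by
      intro h
      rw [h] at hn'
      omega
    have hp3 : p ≠ 3 := by
      intro h
      rw [h] at hn'
      exact h3 ⟨n', hn'⟩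
    have hodd : p % 2 = 1 := by
      rcases hp.eq_two_or_odd with h | h
      · exact absurd h hp2
      · exact h
    have hp2' := hp.two_le
    obtain ⟨h, hh⟩ : ∃ h, p = 2 * h + 1 := ⟨p / 2, by omega⟩
    have hh2 : 2 ≤ h := by omega
    have hn'0 : 0 < n' := by
      rcases Nat.eq_zero_or_pos n' with h | h
      · rw [h] at hn'; omega
      · exact h
    have hlt : n' < n := by
      rw [hn']
      nlinarith
    have hn'2 : n' % 2 = 1 := by
      rcases Nat.mod_two_eq_zero_or_one n' with h | h
      · exfalso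
        have : n % 2 = 0 := by rw [hn', Nat.mul_mod, h]; simp
        omega
      · exact h
    have hn'3 : ¬ 3 ∣ n' := fun h => h3 (by rw [hn']; exact Dvd.dvd.mul_left h p)
    obtain ⟨f', hf', hv, he⟩ := ih n' hlt hn'2 hn'3
    have hpz : (0 : ℤ) < p := by omega
    by_cases hpd : p ∣ n'
    · refine ⟨fun m => f' ((m + h) / p), ⟨?_, ?_⟩, fun m => hv _, ?_⟩
      · intro m
        beta_reduce
        have : m + (n : ℤ) + h = m + h + p * n' := by
          rw [hn']; push_cast; ring
        rw [this, Int.add_mul_ediv_left _ _ hpz.ne', hf'.per]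
      · intro q hq hqn m
        have hqn' : q ∣ n' := by
          rw [hn'] at hqn
          rcases (Nat.Prime.dvd_mul hq).mp hqn with h | h
          · exact h.trans hpd
          · exact h
        have hdiv : n / q = p * (n' / q) := by
          rw [hn', Nat.mul_div_assoc _ hqn']
        rw [← hf'.line q hq hqn' ((m + h) / p)]
        apply sum_congr rfl
        intro j _
        rw [hdiv]
        have : m + (j : ℤ) * ((p * (n' / q) : ℕ) : ℤ) + h = m + h + p * (j * ((n' / q : ℕ) : ℤ)) := by
          push_cast; ring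
        rw [this, Int.add_mul_ediv_left _ _ hpz.ne']
      · intro m
        beta_reduce
        rw [← he]
        congr 1
        have h2 := Int.emod_nonneg (m + h) hpz.ne'
        have h3 := Int.emod_lt_of_pos (m + h) hpz
        have h4 := Int.mul_ediv_add_emod (m + h) p
        set r := (m + h) % (p : ℤ) with hr
        set y := (m + h) / (p : ℤ) with hy
        have h5 : -m + (h : ℤ) = (2 * h - r) + p * (-y) := by linarith
        rw [h5, Int.add_mul_ediv_left _ _ hpz.ne', Int.ediv_eq_zero_of_lt (by omega) (by omega), zero_add,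
          neg_neg]
    · obtain ⟨η, hη1, hη2, hη3, hη4⟩ := exists_eta p h hh hh2
      have hηp : ∀ (k m : ℤ), η (m + k * p) = η m := fun k m => per_mul p η hη2 k m
      have hcop : Nat.Coprime p n' := (Nat.Prime.coprime_iff_not_dvd hp).mpr hpd
      refine ⟨fun m => η m * f' m, ⟨?_, ?_⟩, ?_, ?_⟩
      · intro m
        beta_reduce
        have h1 : m + (n : ℤ) = m + (n' : ℤ) * p := by rw [hn']; push_cast; ring
        have h2 : m + (n : ℤ) = m + (p : ℤ) * n' := by rw [hn']; push_cast; ring
        have h3 : η (m + n) = η m := by rw [h1, hηp]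
        have h4 : f' (m + n) = f' m := by rw [h2, per_mul n' f' hf'.per]
        rw [h3, h4]
      · intro q hq hqn m
        by_cases hqp : q = p
        · rw [hqp]
          have hdiv : n / p = n' := by
            rw [hn', Nat.mul_div_cancel_left _ (by omega)]
          rw [hdiv]
          have h1 : ∀ j ∈ range p, η (m + (j : ℤ) * (n' : ℤ)) * f' (m + (j : ℤ) * (n' : ℤ)) =
              η (m + (j : ℤ) * (n' : ℤ)) * f' m := by
            intro j _
            rw [per_mul n' f' hf'.per]
          rw [sum_congr rfl h1, ← sum_mul, sum_res p (by omega) η hη2 (n' : ℤ) m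
            (Nat.isCoprime_iff_coprime.mpr hcop.symm), hη4, zero_mul]
        · have hqn' : q ∣ n' := by
            rw [hn'] at hqn
            rcases (Nat.Prime.dvd_mul hq).mp hqn with h | h
            · exact absurd ((Nat.prime_dvd_prime_iff_eq hq hp).mp h) hqp
            · exact h
          have hdiv : n / q = p * (n' / q) := by
            rw [hn', Nat.mul_div_assoc _ hqn']
          rw [hdiv]
          have hq0 : 0 < q := hq.pos
          have h1 : ∀ j ∈ range q, η (m + (j : ℤ) * ((p * (n' / q) : ℕ) : ℤ)) *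
              f' (m + (j : ℤ) * ((p * (n' / q) : ℕ) : ℤ)) =
              η m * (fun x : ℤ => f' (m + x * ((n' / q : ℕ) : ℤ))) (0 + (j : ℤ) * (p : ℤ)) := by
            intro j _
            have e1 : m + (j : ℤ) * ((p * (n' / q) : ℕ) : ℤ) = m + (j * ((n' / q : ℕ) : ℤ)) * p := by
              push_cast; ring
            have e2 : m + (j : ℤ) * ((p * (n' / q) : ℕ) : ℤ) = m + (0 + (j : ℤ) * p) * ((n' / q : ℕ) : ℤ) := by
              push_cast; ring
            have e3 : η (m + (j : ℤ) * ((p * (n' / q) : ℕ) : ℤ)) = η m := by rw [e1, hηp]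
            rw [e3, e2]
          have hqq : (q : ℤ) * ((n' / q : ℕ) : ℤ) = n' := by
            rw [← Nat.cast_mul, Nat.mul_div_cancel' hqn']
          have hcpq : IsCoprime (p : ℤ) (q : ℤ) :=
            Nat.isCoprime_iff_coprime.mpr ((Nat.coprime_primes hp hq).mpr (Ne.symm hqp))
          rw [sum_congr rfl h1, ← mul_sum, sum_res q hq0 (fun x : ℤ => f' (m + x * ((n' / q : ℕ) : ℤ)))
            (by
              intro x
              beta_reduce
              have : m + (x + (q : ℤ)) * ((n' / q : ℕ) : ℤ) = m + x * ((n' / q : ℕ) : ℤ) + n' := by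
                rw [← hqq]; ring
              rw [this, hf'.per]) (p : ℤ) 0 hcpq]
          beta_reduce
          rw [hf'.line q hq hqn' m, mul_zero]
      · intro m
        beta_reduce
        rcases hη1 m with h1 | h1 <;> rcases hv m with h2 | h2 <;> rw [h1, h2]
        · left; rw [one_mul]
        · right; rw [one_mul]
        · right; rw [mul_one]
        · left; decide
      · intro m
        beta_reduce
        rw [hη3, he]

lemma odd_case (h : S_EXT) (n : ℕ) (hn : n % 2 = 1) (h3 : ¬ 3 ∣ n) : ∃ σ : A n →+ ZMod 5,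
    (∀ m, σ (z n m) = 1 ∨ σ (z n m) = -1) ∧ ∀ m, σ (z n (-m)) = σ (z n m) := by
  obtain ⟨f, hf, hv, he⟩ := exists_f n hn h3
  obtain ⟨X, hX⟩ := h n (by omega) (ZMod 5) f hf
  refine ⟨X, ?_, ?_⟩
  · intro m
    rw [hX]
    exact hv m
  · intro m
    rw [hX, hX, he]

end Sig

theorem sig (h : S_EXT) (h2 : S_E2) : S_SIG := by
  intro n hn h3 h4
  rcases Nat.even_or_odd n with he | ho
  · obtain ⟨M, hM⟩ := he
    have hM2 : M % 2 = 1 := by omega
    have hM' : n = 2 * M := by omega
    subst hM'
    have h3' : ¬ 3 ∣ M := fun h => h3 (Dvd.dvd.mul_left h 2)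
    obtain ⟨σ, hσ1, hσ2⟩ := Sig.odd_case h M hM2 h3'
    obtain ⟨X, hX⟩ := h2 M hM2
    refine ⟨σ.comp X, ?_, ?_⟩
    · intro m
      rw [AddMonoidHom.comp_apply, hX]
      split_ifs with hm
      · exact hσ1 _
      · rw [map_neg]
        rcases hσ1 ((m + M) / 2) with h1 | h1
        · right; rw [h1]
        · left; rw [h1, neg_neg]
    · intro m
      rw [AddMonoidHom.comp_apply, AddMonoidHom.comp_apply, hX, hX]
      by_cases hm : m % 2 = 0
      · rw [if_pos hm, if_pos (by omega)]
        have : -m / 2 = -(m / 2) := by omega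
        rw [this, hσ2]
      · rw [if_neg hm, if_neg (by omega), map_neg, map_neg, ← hσ2 ((m + M) / 2)]
        congr 2
        rw [z_eq_iff M (by omega)]
        have : (-m + (M : ℤ)) / 2 - -((m + M) / 2) = M := by omega
        rw [this]
  · exact Sig.odd_case h n (Nat.odd_iff.mp ho) h3

end PathMix2
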