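import Pool.Agent.PathMix2.Stmts
set_option autoImplicit false

/-! Slices of the groups `A n` (module PM_SLICE of MP_261efc_co). -/

open Finset

namespace PathMix2

/-- powers of roots of unity -/
lemma zt_natCast_mul (n : ℕ) (k : ℤ) (j : ℕ) : zt n ((j : ℤ) * k) = zt n k ^ j := by
  induction j with
  | zero => simp [zt_zero]
  | succ j ih =>
    rw [pow_succ, ← ih, ← zt_add]
    congr 1
    push_cast
    ring

/-- the sum of `z n` over a line of prime length `q ∣ n` vanishes -/
lemma sum_line (n : ℕ) (hn : 0 < n) (q : ℕ) (hq : q.Prime) (hqn : q ∣ n) (y : ℤ) :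
    ∑ j ∈ range q, z n (y + (j : ℤ) * ((n / q : ℕ) : ℤ)) = 0 := by
  obtain ⟨k, rfl⟩ := hqn
  have hk : 0 < k := by
    rcases Nat.eq_zero_or_pos k with h | h
    · subst h; simp at hn
    · exact h
  have hdiv : q * k / q = k := Nat.mul_div_cancel_left k hq.pos
  rw [hdiv]
  apply Subtype.ext
  rw [AddSubgroup.val_finsetSum, ZeroMemClass.coe_zero]
  simp only [coe_z]
  have h1 : ∀ j ∈ range q, zt (q * k) (y + (j : ℤ) * (k : ℤ)) = zt (q * k) y * zt (q * k) (k : ℤ) ^ j := by
    intro j _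
    rw [zt_add, zt_natCast_mul]
  rw [Finset.sum_congr rfl h1, ← Finset.mul_sum]
  have hne : zt (q * k) (k : ℤ) ≠ 1 := by
    rw [Ne, zt_eq_one_iff _ hn]
    intro h
    have h2 : q * k ∣ k := by exact_mod_cast h
    have h3 := Nat.le_of_dvd hk h2
    have h4 := hq.two_le
    nlinarith
  have hpow : zt (q * k) (k : ℤ) ^ q = 1 := by
    rw [← zt_natCast_mul, zt_eq_one_iff _ hn]
    push_cast
    exact dvd_rfl
  rw [geom_sum_eq hne, hpow, sub_self, zero_div, mul_zero]

theorem slice (h : S_EXT) : S_SLICE := by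
  intro d n hd hn hq i
  have hdn : 0 < d * n := Nat.mul_pos hd hn
  have hdz : (d : ℤ) ≠ 0 := by exact_mod_cast hd.ne'
  refine h (d * n) hdn (A n) (fun m => if (d : ℤ) ∣ m - i then z n ((m - i) / d) else 0) ?_
  refine ⟨?_, ?_⟩
  · intro m
    have e : m + ((d * n : ℕ) : ℤ) - i = (m - i) + (d : ℤ) * (n : ℤ) := by push_cast; ring
    simp only [e]
    by_cases hm : (d : ℤ) ∣ m - i
    · rw [if_pos hm, if_pos (hm.add (dvd_mul_right _ _)), Int.add_mul_ediv_left _ _ hdz, z_eq_iff n hn]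
      simp
    · rw [if_neg hm, if_neg]
      intro h1
      exact hm ((Int.dvd_add_left (dvd_mul_right _ _)).mp h1)
  · intro q hqp hqd m
    have hqn : q ∣ n := by
      rcases (Nat.Prime.dvd_mul hqp).mp hqd with h1 | h1
      · exact hq q hqp h1
      · exact h1
    have e1 : d * n / q = d * (n / q) := Nat.mul_div_assoc d hqn
    rw [e1]
    have e : ∀ j : ℕ, m + (j : ℤ) * ((d * (n / q) : ℕ) : ℤ) - i =
        (m - i) + (d : ℤ) * ((j : ℤ) * ((n / q : ℕ) : ℤ)) := by
      intro j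
      rw [Nat.cast_mul]
      ring
    simp only [e]
    by_cases hm : (d : ℤ) ∣ m - i
    · have e2 : ∀ j ∈ range q, (if (d : ℤ) ∣ (m - i) + (d : ℤ) * ((j : ℤ) * ((n / q : ℕ) : ℤ)) then
          z n (((m - i) + (d : ℤ) * ((j : ℤ) * ((n / q : ℕ) : ℤ))) / d) else 0) =
          z n ((m - i) / d + (j : ℤ) * ((n / q : ℕ) : ℤ)) := by
        intro j _
        rw [if_pos (hm.add (dvd_mul_right _ _)), Int.add_mul_ediv_left _ _ hdz]
      rw [Finset.sum_congr rfl e2]
      exact sum_line n hn q hqp hqn _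
    · apply Finset.sum_eq_zero
      intro j _
      rw [if_neg]
      intro h1
      exact hm ((Int.dvd_add_left (dvd_mul_right _ _)).mp h1)

lemma zt_two_mul_self (M : ℕ) (hM : 0 < M) : zt (2 * M) (M : ℤ) = -1 := by
  rw [zt_eq_neg_one_iff _ (by omega)]
  refine ⟨by push_cast; exact dvd_rfl, ?_⟩
  intro h
  have h2 : 2 * M ∣ M := by exact_mod_cast h
  have := Nat.le_of_dvd hM h2
  omega

lemma zt_two_even (M : ℕ) (m : ℤ) (hm : m % 2 = 0) : zt (2 * M) m = zt M (m / 2) := by
  have h1 := zt_mul 2 M (by norm_num) (m / 2)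
  have h2 : ((2 : ℕ) : ℤ) * (m / 2) = m := by push_cast; omega
  rw [h2] at h1
  exact h1

lemma zt_two_odd (M : ℕ) (hM : M % 2 = 1) (m : ℤ) (hm : ¬ m % 2 = 0) :
    zt (2 * M) m = -zt M ((m + M) / 2) := by
  rw [← zt_two_even M (m + M) (by omega), zt_add, zt_two_mul_self M (by omega)]
  ring

theorem e2 : S_E2 := by
  intro M hM
  have key : ∀ m, zt (2 * M) m = if m % 2 = 0 then zt M (m / 2) else -zt M ((m + M) / 2) := by
    intro m
    split_ifs with hm
    · exact zt_two_even M m hm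
    · exact zt_two_odd M hM m hm
  refine ⟨restr (2 * M) M (AddMonoidHom.id ℂ) ?_, ?_⟩
  · intro m
    rw [AddMonoidHom.id_apply, key m]
    split_ifs with hm
    · exact (z M (m / 2)).2
    · exact neg_mem (z M ((m + M) / 2)).2
  · intro m
    apply Subtype.ext
    rw [coe_restr, AddMonoidHom.id_apply, coe_z, key m]
    split_ifs with hm
    · rfl
    · rfl

theorem d4 (h : S_SLICE) : S_D4 := by
  intro M hM
  have e : 4 * M = 2 * (2 * M) := by ring
  rw [e]
  have hq : ∀ q : ℕ, q.Prime → q ∣ 2 → q ∣ 2 * M := fun q _ h2 => h2.mul_right M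
  obtain ⟨X, hX⟩ := h 2 (2 * M) (by norm_num) (by omega) hq 0
  obtain ⟨Y, hY⟩ := h 2 (2 * M) (by norm_num) (by omega) hq M
  refine ⟨X, Y, ?_⟩
  intro m
  rw [hX m, hY m]
  push_cast
  constructor
  · by_cases hm : m % 2 = 0
    · rw [if_pos hm, if_pos (by omega), sub_zero]
    · rw [if_neg hm, if_neg (by omega)]
  · by_cases hm : m % 2 = 0
    · rw [if_pos hm, if_neg (by omega)]
    · rw [if_neg hm, if_pos (by omega)]

/-- every integer is `± (i + p a)` with `0 ≤ i ≤ h`, `p = 2 h + 1` -/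
lemma exists_rep (p h : ℕ) (hp : p = 2 * h + 1) (m : ℤ) :
    ∃ (i : ℕ) (a : ℤ), i ≤ h ∧ (m = i + p * a ∨ -m = i + p * a) := by
  have hp0 : (0 : ℤ) < p := by omega
  have h1 := Int.emod_add_mul_ediv m p
  have h2 := Int.emod_nonneg m hp0.ne'
  have h3 := Int.emod_lt_of_pos m hp0
  by_cases hr : m % p ≤ h
  · refine ⟨(m % p).toNat, m / p, by omega, Or.inl ?_⟩
    rw [Int.toNat_of_nonneg h2]
    exact h1.symm
  · refine ⟨(p - m % p).toNat, -(m / p) - 1, by omega, Or.inr ?_⟩
    rw [Int.toNat_of_nonneg (by omega)]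
    linear_combination h1

/-- the values of the slices at `tt` -/
lemma slice_tt (p n h : ℕ) (hp : p = 2 * h + 1) (X : ℕ → (A (p * n) →+ A n))
    (hX : ∀ (i : ℕ) (m : ℤ), X i (z (p * n) m) = if (p : ℤ) ∣ m - i then z n ((m - i) / p) else 0)
    (i j : ℕ) (hi : i ≤ h) (hj : j ≤ h) (a : ℤ) :
    X j (tt (p * n) (i + p * a)) = if i = j then (if i = 0 then tt n a else z n a) else 0 := by
  have hp0 : (0 : ℤ) < p := by omega
  have d1 : (p : ℤ) ∣ ((i : ℤ) + p * a) - j ↔ i = j := by
    have e : ((i : ℤ) + p * a) - j = ((i : ℤ) - j) + p * a := by ring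
    rw [e, Int.dvd_add_left (dvd_mul_right _ _)]
    constructor
    · intro hd
      have h1 : (i : ℤ) - j = 0 := Int.eq_zero_of_abs_lt_dvd hd (by rw [abs_lt]; constructor <;> omega)
      omega
    · rintro rfl; simp
  have d2 : (p : ℤ) ∣ -((i : ℤ) + p * a) - j ↔ i = 0 ∧ j = 0 := by
    have e : -((i : ℤ) + p * a) - j = (-((i : ℤ) + j)) + p * (-a) := by ring
    rw [e, Int.dvd_add_left (dvd_mul_right _ _), dvd_neg]
    constructor
    · intro hd
      have h1 : (i : ℤ) + j = 0 := Int.eq_zero_of_abs_lt_dvd hd (by rw [abs_lt]; constructor <;> omega)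
      omega
    · rintro ⟨rfl, rfl⟩; simp
  unfold tt
  rw [map_add, hX, hX]
  by_cases hij : i = j
  · subst hij
    rw [if_pos (d1.mpr rfl), if_pos rfl]
    have e1 : ((i : ℤ) + p * a - i) / p = a := by
      rw [add_sub_cancel_left]
      exact Int.mul_ediv_cancel_left a hp0.ne'
    rw [e1]
    by_cases hi0 : i = 0
    · subst hi0
      rw [if_pos (d2.mpr ⟨rfl, rfl⟩), if_pos rfl]
      have e2 : (-(((0 : ℕ) : ℤ) + p * a) - ((0 : ℕ) : ℤ)) / p = -a := by
        have : (-(((0 : ℕ) : ℤ) + p * a) - ((0 : ℕ) : ℤ)) = p * (-a) := by push_cast; ring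
        rw [this]
        exact Int.mul_ediv_cancel_left _ hp0.ne'
      rw [e2]
    · rw [if_neg (fun h => hi0 (d2.mp h).1), if_neg hi0, add_zero]
  · rw [if_neg (fun h => hij (d1.mp h)), if_neg hij, if_neg, add_zero]
    intro h
    have := d2.mp h
    omega

theorem psi1 (h : S_SLICE) : S_PSI1 := by
  intro p n hh hpp hp hn hpn
  have hp0 : 0 < p := hpp.pos
  have hpz : (p : ℤ) ≠ 0 := by exact_mod_cast hp0.ne'
  have hpn0 : 0 < p * n := Nat.mul_pos hp0 hn
  have hq : ∀ q : ℕ, q.Prime → q ∣ p → q ∣ n := fun q _ h2 => h2.trans hpn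
  choose X hX using fun i : ℕ => h p n hp0 hn hq (i : ℤ)
  have key := slice_tt p n hh hp X hX
  let Ψ : A (p * n) →+ SG n hh := (X 0).prod (AddMonoidHom.pi (fun j : Fin hh => X (j + 1)))
  have hΨ0 : ∀ a : ℤ, Ψ (tt (p * n) (p * a)) = rv n hh a := by
    intro a
    have e : (p : ℤ) * a = ((0 : ℕ) : ℤ) + p * a := by push_cast; ring
    rw [e]
    refine Prod.ext ?_ (funext fun j => ?_)
    · have := key 0 0 (Nat.zero_le _) (Nat.zero_le _) a
      rw [if_pos rfl, if_pos rfl] at this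
      exact this
    · have := key 0 (j + 1) (Nat.zero_le _) (by omega) a
      rw [if_neg (by omega)] at this
      exact this
  have hΨ1 : ∀ (i : Fin hh) (a : ℤ), Ψ (tt (p * n) (((i + 1 : ℕ) : ℤ) + p * a)) = sv n hh i a := by
    intro i a
    refine Prod.ext ?_ (funext fun j => ?_)
    · have := key (i + 1) 0 (by omega) (Nat.zero_le _) a
      rw [if_neg (by omega)] at this
      exact this
    · have h1 := key (i + 1) (j + 1) (by omega) (by omega) a
      have h2 : (Ψ (tt (p * n) (((i + 1 : ℕ) : ℤ) + p * a))).2 j = X (j + 1) (tt (p * n) (((i + 1 : ℕ) : ℤ) + p * a)) := rfl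
      rw [h2, h1]
      by_cases hij : i = j
      · subst hij
        rw [if_pos rfl, if_neg (by omega)]
        simp [sv]
      · rw [if_neg (fun h => hij (Fin.ext (by omega)))]
        simp [sv, Pi.single_eq_of_ne (Ne.symm hij)]
  -- normal form
  have hnf : ∀ m : ℤ, (∃ a, tt (p * n) m = tt (p * n) (p * a) ∧ (m = p * a ∨ -m = p * a)) ∨
      ∃ (i : Fin hh) (a : ℤ), tt (p * n) m = tt (p * n) (((i + 1 : ℕ) : ℤ) + p * a) := by
    intro m
    obtain ⟨i, a, hi, hm⟩ := exists_rep p hh hp m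
    have ht : tt (p * n) m = tt (p * n) (i + p * a) := by
      rcases hm with hm | hm
      · rw [← hm]
      · rw [← hm, tt_neg]
    rcases Nat.eq_zero_or_pos i with h0 | h0
    · left
      subst h0
      rw [Nat.cast_zero, zero_add] at ht hm
      exact ⟨a, ht, hm⟩
    · right
      refine ⟨⟨i - 1, by omega⟩, a, ?_⟩
      rw [ht]
      congr 3
      have : i - 1 + 1 = i := by omega
      simp only [this]
  refine ⟨Ψ, ?_, ?_⟩
  · intro m hm
    rcases hnf m with ⟨a, ha, hma⟩ | ⟨i, a, ha⟩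
    · left
      refine ⟨a, ?_, by rw [ha, hΨ0]⟩
      intro hna
      apply hm
      have h2 : ((p * n : ℕ) : ℤ) ∣ 2 * (p * a) := by
        obtain ⟨c, hc⟩ := hna
        refine ⟨c, ?_⟩
        push_cast
        linear_combination (p : ℤ) * hc
      rcases hma with h3 | h3
      · rw [h3]; exact h2
      · have h4 : 2 * m = -(2 * (p * a)) := by rw [← h3]; ring
        rw [h4]
        exact (dvd_neg).mpr h2
    · right
      exact ⟨i, a, by rw [ha, hΨ1]⟩
  · intro m m' hmm
    rcases hnf m with ⟨a, ha, _⟩ | ⟨i, a, ha⟩ <;> rcases hnf m' with ⟨a', ha', _⟩ | ⟨i', a', ha'⟩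
    · rw [ha, ha'] at hmm ⊢
      rw [hΨ0, hΨ0] at hmm
      have h1 := congrArg Prod.fst hmm
      simp only [rv] at h1
      rw [tt_eq_iff _ hn] at h1
      rw [tt_eq_iff _ hpn0]
      rcases h1 with ⟨c, hc⟩ | ⟨c, hc⟩
      · left
        refine ⟨c, ?_⟩
        push_cast
        linear_combination (p : ℤ) * hc
      · right
        refine ⟨c, ?_⟩
        push_cast
        linear_combination (p : ℤ) * hc
    · exfalso
      rw [ha, ha', hΨ0, hΨ1] at hmm
      have h1 := congrFun (congrArg Prod.snd hmm) i'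
      simp only [rv, sv, Pi.zero_apply, Pi.single_eq_same] at h1
      exact z_ne_zero n a' h1.symm
    · exfalso
      rw [ha, ha', hΨ0, hΨ1] at hmm
      have h1 := congrFun (congrArg Prod.snd hmm) i
      simp only [rv, sv, Pi.zero_apply, Pi.single_eq_same] at h1
      exact z_ne_zero n a h1
    · rw [ha, ha'] at hmm ⊢
      rw [hΨ1, hΨ1] at hmm
      have h1 := congrFun (congrArg Prod.snd hmm) i
      by_cases hii : i = i'
      · subst hii
        simp only [sv, Pi.single_eq_same] at h1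
        rw [z_eq_iff _ hn] at h1
        rw [tt_eq_iff _ hpn0]
        left
        obtain ⟨c, hc⟩ := h1
        refine ⟨c, ?_⟩
        push_cast
        linear_combination (p : ℤ) * hc
      · exfalso
        simp only [sv, Pi.single_eq_same, Pi.single_eq_of_ne hii] at h1
        exact z_ne_zero n a h1

end PathMix2
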