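import Pool.Agent.PathMix2.Stmts
set_option autoImplicit false

/-! Modules TOP0 and TOP1 (MP_261efc_co), by helper56. -/

open Finset

namespace PathMix2

/-- values of the extension `A (2 M) →+ A M` at the real numbers -/
lemma e2_tt_even {M : ℕ} {X : A (2 * M) →+ A M} (hX : ∀ m,
    X (z (2 * M) m) = if m % 2 = 0 then z M (m / 2) else -z M ((m + M) / 2)) (k : ℤ)
    (hk : k % 2 = 0) : X (tt (2 * M) k) = tt M (k / 2) := by
  have h1 : -k / 2 = -(k / 2) := by omega
  unfold tt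
  rw [map_add, hX, hX, if_pos hk, if_pos (by omega), h1]

lemma e2_tt_odd {M : ℕ} (hM : M % 2 = 1) {X : A (2 * M) →+ A M} (hX : ∀ m,
    X (z (2 * M) m) = if m % 2 = 0 then z M (m / 2) else -z M ((m + M) / 2)) (k : ℤ)
    (hk : k % 2 = 1) : X (tt (2 * M) k) = -tt M ((k + M) / 2) := by
  have h1 : (-k + M) / 2 = -((k + M) / 2) + M := by omega
  have h2 : z M (-((k + M) / 2) + M) = z M (-((k + M) / 2)) :=
    (z_eq_iff M (by omega) _ _).mpr ⟨1, by ring⟩
  unfold tt
  rw [map_add, hX, hX, if_neg (by omega), if_neg (by omega), h1, h2, neg_add]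

lemma not_dvd_small {n : ℕ} {a : ℤ} (h1 : a ≠ 0) (h2 : |a| < n) : ¬ (n : ℤ) ∣ a := fun h =>
  h1 (Int.eq_zero_of_abs_lt_dvd h h2)

theorem top0 (h : S_E2) : S_TOP0 := by
  intro N hN hN3 hPP
  obtain ⟨F, hF, h0, hd, hs, -⟩ := hPP
  obtain ⟨X, hX⟩ := h N hN
  have hs := hs hN
  refine ⟨fun w => F (X w), hF.comp X, by beta_reduce; rw [map_zero, h0], ?_⟩
  intro p q hp hpN hq hqN hpq
  beta_reduce
  have okE : ∀ k : ℕ, 1 ≤ k → k < N → k % 2 = 0 → ok N ((k : ℤ) / 2) := by
    intro k h1 h2 h3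
    unfold ok
    have : 2 * ((k : ℤ) / 2) = k := by omega
    rw [this]
    exact not_dvd_small (by omega) (by rw [abs_of_nonneg (by omega)]; omega)
  have okO : ∀ k : ℕ, 1 ≤ k → k < N → k % 2 = 1 → ok N (((k : ℤ) + N) / 2) := by
    intro k h1 h2 h3
    unfold ok
    have : 2 * (((k : ℤ) + N) / 2) = k + N := by omega
    rw [this]
    intro h4
    have h5 : (N : ℤ) ∣ k := (dvd_add_self_right).mp h4
    exact not_dvd_small (by omega) (by rw [abs_of_nonneg (by omega)]; omega) h5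
  rcases Nat.mod_two_eq_zero_or_one p with hp2 | hp2 <;>
    rcases Nat.mod_two_eq_zero_or_one q with hq2 | hq2
  · -- even, even
    rw [if_pos (by omega), map_sub, e2_tt_even hX p (by omega), e2_tt_even hX q (by omega)]
    refine hd _ _ (okE p hp hpN hp2) (okE q hq hqN hq2) ?_ ?_
    · exact not_dvd_small (by omega) (by rw [abs_lt]; omega)
    · exact not_dvd_small (by omega) (by rw [abs_lt]; omega)
  · rw [if_neg (by omega), map_sub, e2_tt_even hX p (by omega), e2_tt_odd hN hX q (by omega),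
      sub_neg_eq_add]
    exact hs _ _ (okE p hp hpN hp2) (okO q hq hqN hq2)
  · rw [if_neg (by omega), map_sub, e2_tt_odd hN hX p (by omega), e2_tt_even hX q (by omega),
      ← neg_add', hF.even]
    exact hs _ _ (okO p hp hpN hp2) (okE q hq hqN hq2)
  · rw [if_pos (by omega), map_sub, e2_tt_odd hN hX p (by omega), e2_tt_odd hN hX q (by omega),
      ← neg_sub', hF.even]
    refine hd _ _ (okO p hp hpN hp2) (okO q hq hqN hq2) ?_ ?_
    · exact not_dvd_small (by omega) (by rw [abs_lt]; omega)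
    · intro h4
      have e : ((p : ℤ) + N) / 2 + ((q : ℤ) + N) / 2 = (p + q) / 2 + N := by omega
      rw [e] at h4
      have h5 : (N : ℤ) ∣ ((p : ℤ) + q) / 2 := (dvd_add_self_right).mp h4
      exact not_dvd_small (by omega) (by rw [abs_lt]; omega) h5

/-- twice is injective on a group of odd order -/
lemma two_nsmul_inj {B : Type} [AddCommGroup B] [Fintype B] {Q : ℕ} (hQ : Q % 2 = 1)
    (hB : Fintype.card B = Q) {a b : B} (h : a + a = b + b) : a = b := by
  have h1 : ∀ c : B, c + c = 0 → c = 0 := by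
    intro c hc
    have h2 : Q • c = 0 := by rw [← hB]; exact card_nsmul_eq_zero
    obtain ⟨k, hk⟩ : ∃ k, Q = k * 2 + 1 := ⟨Q / 2, by omega⟩
    rw [hk, add_nsmul, mul_nsmul', two_nsmul, hc, nsmul_zero, one_nsmul, zero_add] at h2
    exact h2
  have h2 : a - b = 0 := h1 _ (by
    have : a - b + (a - b) = (a + a) - (b + b) := by abel
    rw [this, h, sub_self])
  exact sub_eq_zero.mp h2

/-- the index attached to an odd exponent -/
def cidx (Q : ℕ) (k : ℤ) : ℤ :=
  if ((k - Q) / 2) % 2 = 0 then ((k - Q) / 2) / 2 else -(((k - Q) / 2 + Q) / 2)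

lemma cidx_inj {Q : ℕ} (hQ : Q % 2 = 1) {p q : ℕ} (hp : 1 ≤ p) (hpQ : p < 2 * Q) (hq : 1 ≤ q)
    (hqQ : q < 2 * Q) (hp2 : p % 2 = 1) (hq2 : q % 2 = 1)
    (h : (Q : ℤ) ∣ cidx Q p - cidx Q q) : p = q := by
  obtain ⟨y, hy⟩ : ∃ y : ℤ, y = ((p : ℤ) - Q) / 2 := ⟨_, rfl⟩
  obtain ⟨y', hy'⟩ : ∃ y : ℤ, y = ((q : ℤ) - Q) / 2 := ⟨_, rfl⟩
  unfold cidx at h
  rw [← hy, ← hy'] at h
  have h2 := h.mul_left 2
  split_ifs at h2 with h3 h4 h4
  · have e : 2 * (y / 2 - y' / 2) = y - y' := by omega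
    rw [e] at h2
    have := Int.eq_zero_of_abs_lt_dvd h2 (by rw [abs_lt]; omega)
    omega
  · have e : 2 * (y / 2 - -((y' + Q) / 2)) = (y + y') + Q := by omega
    rw [e] at h2
    have h5 : (Q : ℤ) ∣ y + y' := (dvd_add_self_right).mp h2
    have := Int.eq_zero_of_abs_lt_dvd h5 (by rw [abs_lt]; omega)
    omega
  · have e : 2 * (-((y + Q) / 2) - y' / 2) = -((y + y') + Q) := by omega
    rw [e, dvd_neg] at h2
    have h5 : (Q : ℤ) ∣ y + y' := (dvd_add_self_right).mp h2
    have := Int.eq_zero_of_abs_lt_dvd h5 (by rw [abs_lt]; omega)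
    omega
  · have e : 2 * (-((y + Q) / 2) - -((y' + Q) / 2)) = y' - y := by omega
    rw [e] at h2
    have := Int.eq_zero_of_abs_lt_dvd h2 (by rw [abs_lt]; omega)
    omega

theorem top1 (h : S_GG) (h2 : S_E2) (h4 : S_D4) : S_TOP1 := by
  intro Q hQ hQ3 hPP
  obtain ⟨FE, hF, h0, hd, -, hz⟩ := hPP
  have hz := hz (by omega)
  obtain ⟨X, Y, hXY⟩ := h4 Q hQ
  obtain ⟨E, hE⟩ := h2 Q hQ
  obtain ⟨B, _, _, G, hB, hinj, hneg⟩ := h Q hQ
  classical
  have hX : ∀ m, X (z (4 * Q) m) = if m % 2 = 0 then z (2 * Q) (m / 2) else 0 := fun m => (hXY m).1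
  have hY : ∀ m, Y (z (4 * Q) m) = if m % 2 = 0 then 0 else z (2 * Q) ((m - Q) / 2) :=
    fun m => (hXY m).2
  -- values at the real numbers
  have XE : ∀ k : ℤ, k % 2 = 0 → X (tt (4 * Q) k) = tt (2 * Q) (k / 2) := by
    intro k hk
    have h1 : -k / 2 = -(k / 2) := by omega
    unfold tt
    rw [map_add, hX, hX, if_pos hk, if_pos (by omega), h1]
  have XO : ∀ k : ℤ, k % 2 = 1 → X (tt (4 * Q) k) = 0 := by
    intro k hk
    unfold tt
    rw [map_add, hX, hX, if_neg (by omega), if_neg (by omega), add_zero]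
  have YE : ∀ k : ℤ, k % 2 = 0 → Y (tt (4 * Q) k) = 0 := by
    intro k hk
    unfold tt
    rw [map_add, hY, hY, if_pos hk, if_pos (by omega), add_zero]
  have YO : ∀ k : ℤ, k % 2 = 1 → Y (tt (4 * Q) k) =
      z (2 * Q) ((k - Q) / 2) + z (2 * Q) ((-k - Q) / 2) := by
    intro k hk
    unfold tt
    rw [map_add, hY, hY, if_neg (by omega), if_neg (by omega)]
  -- the value of `G'`
  have GY : ∀ k : ℤ, k % 2 = 1 → G (E (Y (tt (4 * Q) k))) =
      G (z Q (cidx Q k)) + G (z Q (cidx Q k)) := by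
    intro k hk
    rw [YO k hk, map_add, hE, hE]
    unfold cidx
    by_cases hy : ((k - Q) / 2) % 2 = 0
    · have e : ((-k - Q) / 2 + Q) / 2 = -(((k - Q) / 2) / 2) := by omega
      rw [if_pos hy, if_neg (by omega), if_pos hy, e, map_add, map_neg, hneg, neg_neg]
    · have e : ((-k - Q) / 2) / 2 = -(((k - Q) / 2 + Q) / 2) := by omega
      rw [if_neg hy, if_pos (by omega), if_neg hy, e, map_add, map_neg, hneg]
  -- the function
  have e4 : 2 * (2 * Q) = 4 * Q := by ring
  unfold Fin2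
  rw [e4]
  refine ⟨fun w => FE (X w) * (1 / 2 * FB ((G.comp E).comp Y) w +
    1 / 2 * (if Y w = 0 then 1 else 0)), ?_, ?_, ?_⟩
  · exact (hF.comp X).mul (((PD.FB (by omega) _).smul (1 / 2) (by norm_num)).add
      ((PD.ind Y).smul (1 / 2) (by norm_num)))
  · beta_reduce
    rw [map_zero, map_zero, if_pos rfl, FB_zero _ (map_zero _), h0]
    push_cast
    ring
  · intro p q hp hpN hq hqN hpq
    beta_reduce
    have okE : ∀ k : ℕ, 1 ≤ k → k < 2 * Q → k % 2 = 0 → ok (2 * Q) ((k : ℤ) / 2) := by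
      intro k h1 h2 h3
      unfold ok
      have : 2 * ((k : ℤ) / 2) = k := by omega
      rw [this]
      exact not_dvd_small (by omega) (by rw [abs_of_nonneg (by omega)]; omega)
    rcases Nat.mod_two_eq_zero_or_one p with hp2 | hp2 <;>
      rcases Nat.mod_two_eq_zero_or_one q with hq2 | hq2
    · rw [if_pos (by omega : p % 2 = q % 2)]
      have hYd : Y (tt (4 * Q) p - tt (4 * Q) q) = 0 := by
        rw [map_sub, YE p (by omega), YE q (by omega), sub_zero]
      have hXd : FE (X (tt (4 * Q) p - tt (4 * Q) q)) = -1 := by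
        rw [map_sub, XE p (by omega), XE q (by omega)]
        refine hd _ _ (okE p hp hpN hp2) (okE q hq hqN hq2) ?_ ?_
        · exact not_dvd_small (by omega) (by rw [abs_lt]; omega)
        · exact not_dvd_small (by omega) (by rw [abs_lt]; omega)
      rw [hXd, if_pos hYd, FB_zero]
      · norm_num
      · rw [AddMonoidHom.comp_apply, hYd, map_zero]
    · rw [if_neg (by omega : ¬ p % 2 = q % 2)]
      have hXd : FE (X (tt (4 * Q) p - tt (4 * Q) q)) = 0 := by
        rw [map_sub, XE p (by omega), XO q (by omega), sub_zero]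
        exact hz _ (okE p hp hpN hp2)
      rw [hXd, zero_mul]
    · rw [if_neg (by omega : ¬ p % 2 = q % 2)]
      have hXd : FE (X (tt (4 * Q) p - tt (4 * Q) q)) = 0 := by
        rw [map_sub, XO p (by omega), XE q (by omega), zero_sub, hF.even]
        exact hz _ (okE q hq hqN hq2)
      rw [hXd, zero_mul]
    · rw [if_pos (by omega : p % 2 = q % 2)]
      have hXd : FE (X (tt (4 * Q) p - tt (4 * Q) q)) = 2 * Q - 2 := by
        rw [map_sub, XO p (by omega), XO q (by omega), sub_zero, h0]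
      have hne : ((G.comp E).comp Y) (tt (4 * Q) p - tt (4 * Q) q) ≠ 0 := by
        intro hc
        rw [map_sub, sub_eq_zero] at hc
        simp only [AddMonoidHom.comp_apply] at hc
        rw [GY p (by omega), GY q (by omega)] at hc
        exact hpq (cidx_inj hQ hp hpN hq hqN hp2 hq2 (hinj _ _ (two_nsmul_inj hQ hB hc)))
      have hYd : Y (tt (4 * Q) p - tt (4 * Q) q) ≠ 0 := by
        intro hc
        apply hne
        rw [AddMonoidHom.comp_apply, hc, map_zero]
      rw [hXd, if_neg hYd, FB_ne _ hne, hB]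
      have hQ1 : (Q : ℝ) - 1 ≠ 0 := by
        have : (3 : ℝ) ≤ Q := by exact_mod_cast hQ3
        intro hc; linarith
      field_simp
      ring

end PathMix2
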