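import Pool.Agent.PathMix2.Stmts
set_option autoImplicit false

/-! Modules P1 and TOP2: the odd class and the levels divisible by `4`. -/

open Finset

namespace PathMix2

namespace Top2Aux

lemma single_z_ne (n m1 : ℕ) (i : Fin m1) (m : ℤ) :
    (Pi.single i (z n m) : Fin m1 → A n) ≠ 0 := by
  intro h
  have := congrFun h i
  rw [Pi.single_eq_same] at this
  exact z_ne_zero n m this

/-- product over the slices at a single vector -/
lemma prod_single (n m1 : ℕ) (H : A n → ℝ) (h0 : H 0 = 1) (i : Fin m1) (x : A n) :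
    ∏ l, H ((Pi.single i x : Fin m1 → A n) l) = H x := by
  rw [Finset.prod_eq_single i]
  · rw [Pi.single_eq_same]
  · intro b _ hb
    rw [Pi.single_eq_of_ne hb, h0]
  · intro h; exact absurd (Finset.mem_univ i) h

lemma prod_two (n m1 : ℕ) (H : A n → ℝ) (h1 : ∀ m, H (z n m) = 0) (i j : Fin m1)
    (hij : i ≠ j) (m m' : ℤ) :
    ∏ l, H ((Pi.single i (z n m) - Pi.single j (z n m') : Fin m1 → A n) l) = 0 := by
  apply Finset.prod_eq_zero (Finset.mem_univ i)
  rw [Pi.sub_apply, Pi.single_eq_same, Pi.single_eq_of_ne hij, sub_zero, h1]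

lemma PD_prod (n m1 : ℕ) (H : A n → ℝ) (h : PD H) :
    PD (fun w : Fin m1 → A n => ∏ l, H (w l)) :=
  PD.prod Finset.univ (fun l (w : Fin m1 → A n) => H (w l))
    (fun l _ => h.comp (Pi.evalAddMonoidHom (fun _ : Fin m1 => A n) l))

/-- the cross part -/
lemma cross (hx : S_X0) (Q m1 : ℕ) (hQ : Q % 2 = 1) (h1 : m1 = 1 ∨ (2 ≤ m1 ∧ m1 % 2 = 0)) :
    ∃ F : (Fin m1 → A (2 * Q)) → ℝ, PD F ∧ F 0 ≤ 4 * m1 * Q - 3 * Q - 1 + (if m1 = 1 then 0 else 0) ∧
      (∀ i m, F (Pi.single i (z (2 * Q) m)) = 0) ∧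
      (∀ i j m m', i ≠ j → F (Pi.single i (z (2 * Q) m) - Pi.single j (z (2 * Q) m')) = -1) ∧
      (∀ i m m', ¬ ((2 * Q : ℕ) : ℤ) ∣ m - m' →
        F (Pi.single i (z (2 * Q) m) - Pi.single i (z (2 * Q) m')) = 0) := by
  have hQ1 : (1 : ℝ) ≤ Q := by
    have : 1 ≤ Q := by omega
    exact_mod_cast this
  rcases h1 with h1 | ⟨h1, h2⟩
  · subst h1
    refine ⟨fun _ => 0, PD.zero, ?_, fun _ _ => rfl, ?_, fun _ _ _ _ => rfl⟩
    · simp only [if_true]
      push_cast
      linarith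
    · intro i j m m' hij
      exact absurd (Subsingleton.elim i j) hij
  · obtain ⟨F, hF, -⟩ := hx (2 * Q) m1 (m1 + 1) (by omega) (by omega) (by omega) (by omega)
      (by omega) (by omega)
    let φ : (Fin m1 → A (2 * Q)) →+ SG (2 * Q) m1 := AddMonoidHom.inr _ _
    have hφ : ∀ w, φ w = (0, w) := fun w => rfl
    refine ⟨fun w => F (φ w), hF.pd.comp φ, ?_, ?_, ?_, ?_⟩
    · beta_reduce
      rw [map_zero, hF.zero]
      have : (2 : ℝ) ≤ m1 := by exact_mod_cast h1
      simp only [ite_self, add_zero]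
      push_cast
      nlinarith
    · intro i m
      beta_reduce
      rw [hφ]
      exact hF.es (by omega) i m
    · intro i j m m' hij
      beta_reduce
      have := hF.ss i j hij m m'
      rw [hφ]
      have e : ((0 : A (2 * Q)), (Pi.single i (z (2 * Q) m) - Pi.single j (z (2 * Q) m') : Fin m1 → A (2 * Q)))
          = sv (2 * Q) m1 i m - sv (2 * Q) m1 j m' := by
        unfold sv; simp
      rw [e, this]
    · intro i m m' hmm
      beta_reduce
      have := hF.s1 i m m' hmm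
      rw [hφ]
      have e : ((0 : A (2 * Q)), (Pi.single i (z (2 * Q) m) - Pi.single i (z (2 * Q) m') : Fin m1 → A (2 * Q)))
          = sv (2 * Q) m1 i m - sv (2 * Q) m1 i m' := by
        unfold sv; simp
      rw [e, this]; simp

end Top2Aux

open Top2Aux

open Classical in
theorem p1 (hx : S_X0) (hdm1 : S_DM1) (hdp : S_DP) : S_P1 := by
  intro Q m1 hQ h5 h3 hm1
  have hQ5 : (5 : ℝ) ≤ Q := by exact_mod_cast h5
  obtain ⟨F0, hF0, hz0, hs0, hd0, he0⟩ := cross hx Q m1 hQ hm1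
  obtain ⟨H1, hH1, -⟩ := hdm1 Q hQ (by omega)
  obtain ⟨H2, hH2⟩ := hdp Q hQ h3
  simp only [ite_self, add_zero] at hz0
  set R : ℝ := 4 * m1 * Q - 3 * Q - 1 - F0 0 with hR
  have hR0 : 0 ≤ R := by rw [hR]; linarith
  refine ⟨fun w => (F0 w + ((Q : ℝ) - 1) * ∏ l, H1 (w l)) + (2 * (Q : ℝ) * ∏ l, H2 (w l) +
    R * (if w = 0 then 1 else 0)), ?_, ?_, ?_, ?_⟩
  · exact (hF0.add ((PD_prod (2 * Q) m1 H1 hH1.pd).smul ((Q : ℝ) - 1) (by linarith))).add
      (((PD_prod (2 * Q) m1 H2 hH2.pd).smul (2 * (Q : ℝ)) (by linarith)).add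
        (PD.ind0.smul R hR0))
  · beta_reduce
    simp only [Pi.zero_apply, hH1.zero, hH2.zero, Finset.prod_const_one, if_true]
    rw [hR]; ring
  · intro i m
    beta_reduce
    rw [hs0, prod_single _ _ _ hH1.zero, prod_single _ _ _ hH2.zero, hH1.one, hH2.one,
      if_neg (single_z_ne _ _ _ _)]
    ring
  · intro i j m m' hne
    beta_reduce
    by_cases hij : i = j
    · subst hij
      have hzz : z (2 * Q) m ≠ z (2 * Q) m' := fun h => hne (by rw [h])
      have hdvd : ¬ ((2 * Q : ℕ) : ℤ) ∣ m - m' := by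
        intro h
        exact hzz ((z_eq_iff (2 * Q) (by omega) m m').mpr h)
      have e1 : (Pi.single i (z (2 * Q) m) - Pi.single i (z (2 * Q) m') : Fin m1 → A (2 * Q)) =
          Pi.single i (z (2 * Q) m - z (2 * Q) m') := (Pi.single_sub i _ _).symm
      rw [he0 i m m' hdvd, if_neg (sub_ne_zero.mpr hne), e1, prod_single _ _ _ hH1.zero,
        prod_single _ _ _ hH2.zero, hH1.diff m m' hdvd, hH2.diff m m' hdvd]
      have q1 : (Q : ℝ) - 1 ≠ 0 := by
        have : (0 : ℝ) < Q - 1 := by linarith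
        exact this.ne'
      have q2 : (Q : ℝ) ≠ 0 := by
        have : (0 : ℝ) < Q := by linarith
        exact this.ne'
      by_cases hpar : (m - m') % 2 = 0
      · rw [if_pos hpar, if_pos hpar]
        field_simp
        ring
      · rw [if_neg hpar, if_neg hpar]
        field_simp
        ring
    · rw [hd0 i j m m' hij, prod_two _ _ _ hH1.one i j hij, prod_two _ _ _ hH2.one i j hij,
        if_neg (sub_ne_zero.mpr hne)]
      ring

namespace Top2Aux

lemma slice' (hs : S_SLICE) (d n L : ℕ) (hL : L = d * n) (hd : 0 < d) (hn : 0 < n)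
    (hq : ∀ q : ℕ, q.Prime → q ∣ d → q ∣ n) (i : ℤ) :
    ∃ X : A L →+ A n, ∀ m, X (z L m) = if (d : ℤ) ∣ m - i then z n ((m - i) / d) else 0 := by
  subst hL
  exact hs d n hd hn hq i

/-- an odd number is `± (2i+1)` modulo `2^a` for some `i < 2^(a-2)` -/
lemma exists_slice (a : ℕ) (ha : 2 ≤ a) (k : ℤ) (hk : k % 2 = 1) :
    ∃ i : ℕ, i < 2 ^ (a - 2) ∧ (((2 ^ a : ℕ) : ℤ) ∣ k - (2 * i + 1) ∨
      ((2 ^ a : ℕ) : ℤ) ∣ -k - (2 * i + 1)) := by
  obtain ⟨c, rfl⟩ : ∃ c, a = c + 2 := ⟨a - 2, by omega⟩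
  have e1 : ((2 ^ (c + 2) : ℕ) : ℤ) = 4 * 2 ^ c := by push_cast; ring
  have hc : (0 : ℤ) < 2 ^ c := by positivity
  have e2 : c + 2 - 2 = c := by omega
  rw [e1, e2]
  have r0 := Int.emod_nonneg k (b := 4 * 2 ^ c) (by positivity)
  have r1 := Int.emod_lt_of_pos k (b := 4 * 2 ^ c) (by positivity)
  have r2 := Int.emod_add_mul_ediv k (4 * 2 ^ c)
  set r := k % (4 * 2 ^ c) with hr
  set y := k / (4 * 2 ^ c) with hy
  have r3 : r % 2 = 1 := by
    have : k = r + 2 * (2 * 2 ^ c * y) := by linarith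
    omega
  by_cases hlt : r < 2 * 2 ^ c
  · refine ⟨(r / 2).toNat, ?_, Or.inl ?_⟩
    · have : ((r / 2).toNat : ℤ) < ((2 ^ c : ℕ) : ℤ) := by
        rw [Int.toNat_of_nonneg (by omega)]
        push_cast
        omega
      exact_mod_cast this
    · rw [Int.toNat_of_nonneg (by omega)]
      refine ⟨y, ?_⟩
      have : 2 * (r / 2) + 1 = r := by omega
      rw [this]
      linarith
  · refine ⟨((4 * 2 ^ c - r) / 2).toNat, ?_, Or.inr ?_⟩
    · have : (((4 * 2 ^ c - r) / 2).toNat : ℤ) < ((2 ^ c : ℕ) : ℤ) := by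
        rw [Int.toNat_of_nonneg (by omega)]
        push_cast
        omega
      exact_mod_cast this
    · rw [Int.toNat_of_nonneg (by omega)]
      refine ⟨-y - 1, ?_⟩
      have : 2 * ((4 * 2 ^ c - r) / 2) + 1 = 4 * 2 ^ c - r := by omega
      rw [this]
      linarith

lemma slice_unique (a : ℕ) (ha : 2 ≤ a) (i j : ℕ) (hi : i < 2 ^ (a - 2)) (hj : j < 2 ^ (a - 2))
    (k : ℤ) (h1 : ((2 ^ a : ℕ) : ℤ) ∣ k - (2 * i + 1) ∨ ((2 ^ a : ℕ) : ℤ) ∣ -k - (2 * i + 1))
    (h2 : ((2 ^ a : ℕ) : ℤ) ∣ k - (2 * j + 1)) :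
    i = j ∧ ¬ ((2 ^ a : ℕ) : ℤ) ∣ -k - (2 * i + 1) := by
  obtain ⟨c, rfl⟩ : ∃ c, a = c + 2 := ⟨a - 2, by omega⟩
  have e1 : ((2 ^ (c + 2) : ℕ) : ℤ) = 4 * 2 ^ c := by push_cast; ring
  have hc : (0 : ℤ) < 2 ^ c := by positivity
  have e2 : c + 2 - 2 = c := by omega
  rw [e2] at hi hj
  have hi' : (i : ℤ) < 2 ^ c := by exact_mod_cast hi
  have hj' : (j : ℤ) < 2 ^ c := by exact_mod_cast hj
  rw [e1] at h1 h2 ⊢
  have key : ∀ x : ℤ, 4 * 2 ^ c ∣ x → |x| < 4 * 2 ^ c → x = 0 := by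
    intro x hx hlt
    exact Int.eq_zero_of_abs_lt_dvd hx hlt
  have hno : ¬ (4 * 2 ^ c : ℤ) ∣ -k - (2 * i + 1) := by
    intro h3
    have h4 : (4 * 2 ^ c : ℤ) ∣ (2 * i + 1) + (2 * j + 1) := by
      have := dvd_add h3 h2
      rw [← dvd_neg]
      convert this using 1
      ring
    have h5 := key _ h4 (by rw [abs_of_nonneg (by positivity)]; linarith)
    omega
  refine ⟨?_, hno⟩
  rcases h1 with h1 | h1
  · have h4 : (4 * 2 ^ c : ℤ) ∣ 2 * ((i : ℤ) - j) := by
      have e : 2 * ((i : ℤ) - j) = (k - (2 * j + 1)) - (k - (2 * i + 1)) := by ring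
      rw [e]
      exact dvd_sub h2 h1
    have h5 := key _ h4 (by rw [abs_lt]; constructor <;> linarith)
    omega
  · exact absurd h1 hno

end Top2Aux

theorem top2 (hs : S_SLICE) (hp : S_P1) : S_TOP2 := by
  intro a Q ha hQ h5 h3 hPP
  set N : ℕ := 2 ^ a * Q with hN
  set m1 : ℕ := 2 ^ (a - 2) with hm1
  obtain ⟨c, rfl⟩ : ∃ c, a = c + 2 := ⟨a - 2, by omega⟩
  have hm1c : m1 = 2 ^ c := by rw [hm1]; congr 1
  have hNc : N = 4 * m1 * Q := by rw [hN, hm1c, pow_add]; ring
  have hm1pos : 0 < m1 := by rw [hm1c]; positivity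
  have hN20 : 20 ≤ N := by rw [hNc]; nlinarith
  have hNr : (20 : ℝ) ≤ N := by exact_mod_cast hN20
  have h2a : 0 < 2 ^ (c + 2) := by positivity
  obtain ⟨F0, hF0, hz0, hd0, -, -⟩ := hPP
  obtain ⟨F1, hF1, hz1, hs1, hd1⟩ := hp Q m1 hQ h5 h3 (by
    rcases Nat.eq_zero_or_pos c with h | h
    · left; rw [hm1c, h]; norm_num
    · right
      obtain ⟨b, rfl⟩ : ∃ b, c = b + 1 := ⟨c - 1, by omega⟩
      rw [hm1c, pow_succ]
      have : 0 < 2 ^ b := by positivity
      omega)
  have hz1' : F1 0 = N - 2 := by rw [hz1, hNc]; push_cast; ring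
  have hz0' : F0 0 = N - 2 := by rw [hz0, hN]; push_cast; ring
  obtain ⟨X0, hX0⟩ := slice' hs 2 N (2 * N) rfl (by norm_num) (by omega) (by
    intro q hq hq2
    rw [(Nat.prime_dvd_prime_iff_eq hq Nat.prime_two).mp hq2]
    exact ⟨2 * m1 * Q, by rw [hNc]; ring⟩) 0
  have hsl : ∀ i : Fin m1, ∃ X : A (2 * N) →+ A (2 * Q), ∀ m, X (z (2 * N) m) =
      if ((2 ^ (c + 2) : ℕ) : ℤ) ∣ m - (2 * (i : ℕ) + 1) then
        z (2 * Q) ((m - (2 * (i : ℕ) + 1)) / ((2 ^ (c + 2) : ℕ) : ℤ)) else 0 := by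
    intro i
    exact slice' hs (2 ^ (c + 2)) (2 * Q) (2 * N) (by rw [hN]; ring) h2a (by omega) (by
      intro q hq hq2
      rw [(Nat.prime_dvd_prime_iff_eq hq Nat.prime_two).mp (hq.dvd_of_dvd_pow hq2)]
      exact ⟨Q, rfl⟩) _
  choose Y hY using hsl
  let Ψ : A (2 * N) →+ A N × (Fin m1 → A (2 * Q)) := X0.prod (AddMonoidHom.mk' (fun w i => Y i w)
    (fun x y => by funext i; exact map_add (Y i) x y))
  have hΨ : ∀ w, Ψ w = (X0 w, fun i => Y i w) := fun w => rfl
  -- even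
  have heven : ∀ k : ℤ, k % 2 = 0 → Ψ (tt (2 * N) k) = (tt N (k / 2), 0) := by
    intro k hk
    rw [hΨ]
    congr 1
    · unfold tt
      rw [map_add, hX0, hX0, if_pos (by push_cast; omega), if_pos (by push_cast; omega)]
      have e1 : (k - 0) / ((2 : ℕ) : ℤ) = k / 2 := by push_cast; rw [sub_zero]
      have e2 : (-k - 0) / ((2 : ℕ) : ℤ) = -(k / 2) := by push_cast; omega
      rw [e1, e2]
    · funext i
      have h4 : (4 : ℤ) ∣ ((2 ^ (c + 2) : ℕ) : ℤ) := ⟨2 ^ c, by push_cast; ring⟩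
      unfold tt
      rw [map_add, hY, hY, if_neg, if_neg, add_zero, Pi.zero_apply]
      · intro h
        have := h4.trans h
        omega
      · intro h
        have := h4.trans h
        omega
  -- odd
  have hodd : ∀ k : ℤ, k % 2 = 1 → ∃ (i : Fin m1) (k' b : ℤ), (k' = k ∨ k' = -k) ∧
      k' = 2 * (i : ℕ) + 1 + ((2 ^ (c + 2) : ℕ) : ℤ) * b ∧
      Ψ (tt (2 * N) k) = (0, Pi.single i (z (2 * Q) b)) := by
    intro k hk
    -- wlog the sign
    have main : ∀ k' : ℤ, k' % 2 = 1 → ∀ i : ℕ, i < 2 ^ c →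
        ((2 ^ (c + 2) : ℕ) : ℤ) ∣ k' - (2 * i + 1) → ∃ (i : Fin m1) (b : ℤ),
        k' = 2 * (i : ℕ) + 1 + ((2 ^ (c + 2) : ℕ) : ℤ) * b ∧
        Ψ (tt (2 * N) k') = (0, Pi.single i (z (2 * Q) b)) := by
      intro k' hk' i hi hdvd
      obtain ⟨b, hb⟩ := hdvd
      refine ⟨⟨i, by rw [hm1c]; exact hi⟩, b, by linarith, ?_⟩
      rw [hΨ]
      congr 1
      · unfold tt
        rw [map_add, hX0, hX0, if_neg (by push_cast; omega), if_neg (by push_cast; omega), add_zero]
      · funext j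
        unfold tt
        rw [map_add, hY, hY]
        have hj : (j : ℕ) < 2 ^ c := lt_of_lt_of_eq j.2 hm1c
        by_cases hji : j = ⟨i, by rw [hm1c]; exact hi⟩
        · rw [hji, Pi.single_eq_same]
          have h1 := (slice_unique (c + 2) ha i i hi hi k' (Or.inl ⟨b, hb⟩) ⟨b, hb⟩).2
          rw [if_pos ⟨b, hb⟩, if_neg h1, add_zero]
          congr 1
          show (k' - (2 * (i : ℤ) + 1)) / _ = b
          rw [hb]
          exact Int.mul_ediv_cancel_left _ (by positivity)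
        · rw [Pi.single_eq_of_ne hji, if_neg, if_neg, add_zero]
          · intro h
            exact hji (Fin.ext (slice_unique (c + 2) ha (j : ℕ) i hj hi k' (Or.inr h) ⟨b, hb⟩).1)
          · intro h
            exact hji (Fin.ext (slice_unique (c + 2) ha (j : ℕ) i hj hi k' (Or.inl h) ⟨b, hb⟩).1)
    obtain ⟨i, hi, hdvd⟩ := exists_slice (c + 2) ha k hk
    have hi' : i < 2 ^ c := hi
    rcases hdvd with hdvd | hdvd
    · obtain ⟨i, b, h1, h2⟩ := main k hk i hi' hdvd
      exact ⟨i, k, b, Or.inl rfl, h1, h2⟩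
    · obtain ⟨i, b, h1, h2⟩ := main (-k) (by omega) i hi' hdvd
      rw [tt_neg] at h2
      exact ⟨i, -k, b, Or.inr rfl, h1, h2⟩
  have hN2 : (N : ℝ) - 2 ≠ 0 := by
    have : (0 : ℝ) < N - 2 := by linarith
    exact this.ne'
  refine ⟨fun w => 1 / ((N : ℝ) - 2) * (F0 (Ψ w).1 * F1 (Ψ w).2), ?_, ?_, ?_⟩
  · have h1 : PD (fun w : A (2 * N) => F0 (Ψ w).1) :=
      hF0.comp ((AddMonoidHom.fst _ _).comp Ψ)
    have h2 : PD (fun w : A (2 * N) => F1 (Ψ w).2) :=
      hF1.comp ((AddMonoidHom.snd _ _).comp Ψ)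
    exact (h1.mul h2).smul _ (by
      have : (0 : ℝ) < N - 2 := by linarith
      positivity)
  · beta_reduce
    rw [map_zero, Prod.fst_zero, Prod.snd_zero, hz0', hz1']
    field_simp
  · intro p q hp1 hpN hq1 hqN hpq
    beta_reduce
    rw [map_sub]
    rcases Nat.mod_two_eq_zero_or_one p with hp2 | hp2 <;>
      rcases Nat.mod_two_eq_zero_or_one q with hq2 | hq2
    · rw [heven p (by omega), heven q (by omega), if_pos (by omega)]
      simp only [Prod.mk_sub_mk, sub_zero]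
      rw [hd0, hz1']
      · field_simp
      · unfold ok
        intro h
        have e1 : 2 * ((p : ℤ) / 2) = p := by omega
        rw [e1] at h
        have := Int.le_of_dvd (by omega) h
        omega
      · unfold ok
        intro h
        have e1 : 2 * ((q : ℤ) / 2) = q := by omega
        rw [e1] at h
        have := Int.le_of_dvd (by omega) h
        omega
      · intro h
        have := Int.eq_zero_of_abs_lt_dvd h (by rw [abs_lt]; constructor <;> omega)
        omega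
      · intro h
        have := Int.le_of_dvd (by omega) h
        omega
    · obtain ⟨i, k', b, -, -, hb⟩ := hodd q (by omega)
      rw [heven p (by omega), hb, if_neg (by omega)]
      simp only [Prod.mk_sub_mk, sub_zero, zero_sub]
      rw [hF1.even, hs1]
      ring
    · obtain ⟨i, k', b, -, -, hb⟩ := hodd p (by omega)
      rw [heven q (by omega), hb, if_neg (by omega)]
      simp only [Prod.mk_sub_mk, sub_zero, zero_sub]
      rw [hs1]
      ring
    · obtain ⟨i, k', b, hk', hkb, hb⟩ := hodd p (by omega)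
      obtain ⟨j, l', b', hl', hlb, hb'⟩ := hodd q (by omega)
      rw [hb, hb', if_pos (by omega)]
      simp only [Prod.mk_sub_mk, sub_zero]
      rw [hd1 i j b b', hz0']
      · field_simp
      · intro heq
        have hij : i = j := by
          by_contra hij
          have := congrFun heq i
          rw [Pi.single_eq_same, Pi.single_eq_of_ne hij] at this
          exact z_ne_zero _ _ this
        subst hij
        have h1 := Pi.single_injective i heq
        rw [z_eq_iff (2 * Q) (by omega)] at h1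
        obtain ⟨t, ht⟩ := h1
        have h2 : k' - l' = ((2 * N : ℕ) : ℤ) * t := by
          have : k' - l' = ((2 ^ (c + 2) : ℕ) : ℤ) * (b - b') := by linarith
          rw [this, ht, hN]
          push_cast
          ring
        have h3 : ((2 * N : ℕ) : ℤ) ∣ k' - l' := ⟨t, h2⟩
        have h4 := Int.eq_zero_of_abs_lt_dvd h3 (by
          rw [abs_lt]
          rcases hk' with rfl | rfl <;> rcases hl' with rfl | rfl <;> constructor <;>
            push_cast <;> omega)
        rcases hk' with rfl | rfl <;> rcases hl' with rfl | rfl <;> omega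

end PathMix2
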