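import Pool.Agent.PathMix2.Stmts
set_option autoImplicit false

/-! Module `PM_X0`: the positive definite function with value `-1` at the differences between two
different slices. -/

open Finset

namespace PathMix2

/-! ### Counting -/

lemma x0_count (n g : ℕ) [NeZero n] (i j : Fin g) (hij : i ≠ j) (c : ZMod n) :
    (n : ℝ) * ∑ a : Fin g → ZMod n, (if a i = a j + c then (1 : ℝ) else 0) = (n : ℝ) ^ g := by
  classical
  have h1 : ∀ t : ZMod n, ∑ a : Fin g → ZMod n, (if a i = a j + c then (1 : ℝ) else 0) =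
      ∑ a : Fin g → ZMod n, (if a i + t = a j + c then (1 : ℝ) else 0) := by
    intro t
    rw [← Equiv.sum_comp (Equiv.addRight (Pi.single i t : Fin g → ZMod n))
      (fun a : Fin g → ZMod n => if a i = a j + c then (1 : ℝ) else 0)]
    apply Finset.sum_congr rfl
    intro a _
    simp only [Equiv.coe_addRight, Pi.add_apply, Pi.single_eq_same, Pi.single_eq_of_ne hij.symm,
      add_zero]
  have h2 : (n : ℝ) * ∑ a : Fin g → ZMod n, (if a i = a j + c then (1 : ℝ) else 0) =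
      ∑ t : ZMod n, ∑ a : Fin g → ZMod n, (if a i + t = a j + c then (1 : ℝ) else 0) := by
    rw [← Finset.sum_congr rfl (fun t _ => h1 t), Finset.sum_const, Finset.card_univ, ZMod.card,
      nsmul_eq_mul]
  rw [h2, Finset.sum_comm]
  have h3 : ∀ a : Fin g → ZMod n,
      ∑ t : ZMod n, (if a i + t = a j + c then (1 : ℝ) else 0) = 1 := by
    intro a
    have h4 : ∀ t : ZMod n, (a i + t = a j + c) ↔ (t = a j + c - a i) := by
      intro t
      constructor
      · intro h; rw [← h]; ring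
      · intro h; rw [h]; ring
    simp only [h4, Finset.sum_ite_eq', Finset.mem_univ, if_true]
  rw [Finset.sum_congr rfl (fun a _ => h3 a), Finset.sum_const, Finset.card_univ,
    Fintype.card_fun, ZMod.card, Fintype.card_fin, nsmul_eq_mul, mul_one]
  push_cast
  rfl

/-! ### Sixth roots of unity -/

lemma x0_six {u v e : ℂ} (huv : v * u = 1) (he : e * e = 1) (h : u + v = e) : u ^ 6 = 1 := by
  have h1 : u * u - e * u + 1 = 0 := by linear_combination u * h - huv
  have h2 : u ^ 3 + e = 0 := by linear_combination (u + e) * h1 + u * he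
  have h3 : u ^ 3 = -e := eq_neg_of_add_eq_zero_left h2
  have h4 : u ^ 6 = u ^ 3 * u ^ 3 := by ring
  rw [h4, h3]
  linear_combination he

lemma zt_pow_six (n : ℕ) (m : ℤ) : zt n m ^ 6 = zt n (6 * m) := by
  have h : 6 * m = m + (m + (m + (m + (m + m)))) := by ring
  rw [h, zt_add, zt_add, zt_add, zt_add, zt_add]
  ring

lemma x0_dvd (n : ℕ) (h3 : ¬ 3 ∣ n) (m' : ℤ) (h : (n : ℤ) ∣ 6 * m') : (n : ℤ) ∣ 2 * m' := by
  have hc : IsCoprime (n : ℤ) 3 := by
    rw [Int.isCoprime_iff_gcd_eq_one]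
    have : Nat.Coprime n 3 := by
      rw [Nat.coprime_comm]
      exact (Nat.Prime.coprime_iff_not_dvd Nat.prime_three).mpr h3
    exact_mod_cast this
  have h6 : 6 * m' = 3 * (2 * m') := by ring
  rw [h6] at h
  exact hc.dvd_of_dvd_mul_left h

/-- if `3 ∤ n` then `2 cos (2 π m' / n)` is not `± 1` unless ... -/
lemma x0_ne (n : ℕ) (hn : 0 < n) (h3 : ¬ 3 ∣ n) (m m' : ℤ) (hm' : ok n m') (hm : (n : ℤ) ∣ 2 * m)
    (e : ℂ) (he : e = zt n m ∨ e = -zt n m) : ((tt n m' : A n) : ℂ) ≠ e := by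
  intro h
  rw [coe_tt] at h
  have h1 : zt n m * zt n m = 1 := by
    rw [← zt_add, zt_eq_one_iff n hn, ← two_mul]
    exact hm
  have h2 : e * e = 1 := by
    rcases he with he | he
    · rw [he, h1]
    · rw [he]; linear_combination h1
  have h4 := x0_six (zt_neg_mul n m') h2 h
  rw [zt_pow_six, zt_eq_one_iff n hn] at h4
  exact hm' (x0_dvd n h3 m' h4)

/-! ### The homomorphisms -/

noncomputable def x0S (n g : ℕ) (a : Fin g → ZMod n) : SG n g →+ A n :=
  AddMonoidHom.mk' (fun x => ∑ i, mulz n (-((a i).val : ℤ)) (x.2 i)) (by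
    intro x y
    simp only [Prod.snd_add, Pi.add_apply, map_add, Finset.sum_add_distrib])

noncomputable def x0R (n g n0 : ℕ) (ρ : A n →+ ℤ) (a : Fin g → ZMod n) : SG n g →+ ZMod n0 :=
  AddMonoidHom.mk' (fun x => ∑ i : Fin g,
    ((i : ℕ) : ZMod n0) * ((ρ (mulz n (-((a i).val : ℤ)) (x.2 i)) : ℤ) : ZMod n0)) (by
    intro x y
    simp only [Prod.snd_add, Pi.add_apply, map_add, Int.cast_add, mul_add, Finset.sum_add_distrib])

lemma x0S_apply (n g : ℕ) (a : Fin g → ZMod n) (x : SG n g) :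
    x0S n g a x = ∑ i, mulz n (-((a i).val : ℤ)) (x.2 i) := rfl

lemma x0R_apply (n g n0 : ℕ) (ρ : A n →+ ℤ) (a : Fin g → ZMod n) (x : SG n g) :
    x0R n g n0 ρ a x = ∑ i : Fin g,
      ((i : ℕ) : ZMod n0) * ((ρ (mulz n (-((a i).val : ℤ)) (x.2 i)) : ℤ) : ZMod n0) := rfl

lemma x0S_rv (n g : ℕ) (a : Fin g → ZMod n) (m : ℤ) : x0S n g a (rv n g m) = 0 := by
  rw [x0S_apply]
  apply Finset.sum_eq_zero
  intro i _
  simp only [rv, Pi.zero_apply, map_zero]

lemma x0S_sv (n g : ℕ) (a : Fin g → ZMod n) (i : Fin g) (m : ℤ) :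
    x0S n g a (sv n g i m) = z n (-((a i).val : ℤ) + m) := by
  rw [x0S_apply, Finset.sum_eq_single i]
  · simp only [sv, Pi.single_eq_same, mulz_z]
  · intro j _ hj
    simp only [sv, Pi.single_eq_of_ne hj, map_zero]
  · intro h; exact absurd (Finset.mem_univ i) h

lemma x0R_sv (n g n0 : ℕ) (ρ : A n →+ ℤ) (a : Fin g → ZMod n) (i : Fin g) (m : ℤ) :
    x0R n g n0 ρ a (sv n g i m) =
      ((i : ℕ) : ZMod n0) * ((ρ (z n (-((a i).val : ℤ) + m)) : ℤ) : ZMod n0) := by
  rw [x0R_apply, Finset.sum_eq_single i]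
  · simp only [sv, Pi.single_eq_same, mulz_z]
  · intro j _ hj
    simp only [sv, Pi.single_eq_of_ne hj, map_zero, Int.cast_zero, mul_zero]
  · intro h; exact absurd (Finset.mem_univ i) h

lemma x0S_dl (n g : ℕ) (a : Fin g → ZMod n) (m : ℤ) :
    x0S n g a (dl n g (z n m)) = -∑ i, z n (-((a i).val : ℤ) + m) := by
  rw [x0S_apply, ← Finset.sum_neg_distrib]
  apply Finset.sum_congr rfl
  intro i _
  simp only [dl, map_neg, mulz_z]

/-! ### The function -/

open Classical in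
noncomputable def x0T (n g n0 : ℕ) [NeZero n0] (ρ : A n →+ ℤ) (a : Fin g → ZMod n) (x : SG n g) : ℝ :=
  (if AddMonoidHom.fst (A n) (Fin g → A n) x = 0 then (1 : ℝ) else 0) *
    (if x0S n g a x = 0 then (1 : ℝ) else 0) * FB (x0R n g n0 ρ a) x

noncomputable def x0F (n g n0 : ℕ) [NeZero n] [NeZero n0] (ρ : A n →+ ℤ) (x : SG n g) : ℝ :=
  (((n0 : ℝ) - 1) * n / (n : ℝ) ^ g) * ∑ a : Fin g → ZMod n, x0T n g n0 ρ a x

section

variable (n g n0 : ℕ) [NeZero n] [NeZero n0] (ρ : A n →+ ℤ)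

lemma x0T_pd (h : 2 ≤ n0) (a : Fin g → ZMod n) : PD (x0T n g n0 ρ a) := by
  classical
  have hcard : 2 ≤ Fintype.card (ZMod n0) := by rw [ZMod.card]; exact h
  have := ((PD.ind (AddMonoidHom.fst (A n) (Fin g → A n))).mul (PD.ind (x0S n g a))).mul
    (PD.FB hcard (x0R n g n0 ρ a))
  refine this.congr ?_
  intro x
  unfold x0T
  congr

lemma x0F_pd (h : 2 ≤ n0) : PD (x0F n g n0 ρ) := by
  have h0 : (0 : ℝ) ≤ ((n0 : ℝ) - 1) * n / (n : ℝ) ^ g := by
    have : (2 : ℝ) ≤ n0 := by exact_mod_cast h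
    have h1 : (0 : ℝ) ≤ (n0 : ℝ) - 1 := by linarith
    positivity
  exact (PD.sum Finset.univ (fun a => x0T n g n0 ρ a) (fun a _ => x0T_pd n g n0 ρ h a)).smul _ h0

lemma x0F_fst {x : SG n g} (hx : x.1 ≠ 0) : x0F n g n0 ρ x = 0 := by
  unfold x0F
  rw [Finset.sum_eq_zero, mul_zero]
  intro a _
  unfold x0T
  have : ¬ (AddMonoidHom.fst (A n) (Fin g → A n) x = 0) := hx
  rw [if_neg this, zero_mul, zero_mul]

lemma x0F_snd {x : SG n g} (hx : ∀ a, x0S n g a x ≠ 0) : x0F n g n0 ρ x = 0 := by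
  unfold x0F
  rw [Finset.sum_eq_zero, mul_zero]
  intro a _
  unfold x0T
  rw [if_neg (hx a), mul_zero, zero_mul]

lemma x0F_zero : x0F n g n0 ρ 0 = ((n0 : ℝ) - 1) * n := by
  unfold x0F
  have h1 : ∀ a : Fin g → ZMod n, x0T n g n0 ρ a 0 = 1 := by
    intro a
    unfold x0T
    rw [map_zero, if_pos rfl, map_zero, if_pos rfl, FB_zero _ (map_zero _)]
    ring
  rw [Finset.sum_congr rfl (fun a _ => h1 a), Finset.sum_const, Finset.card_univ,
    Fintype.card_fun, ZMod.card, Fintype.card_fin, nsmul_eq_mul, mul_one]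
  push_cast
  have hn : (n : ℝ) ^ g ≠ 0 := pow_ne_zero _ (by exact_mod_cast (NeZero.ne n))
  rw [div_mul_cancel₀ _ hn]

lemma x0_unit (hodd : n0 % 2 = 1) (hρ : Rho n ρ) (m : ℤ) :
    IsUnit ((ρ (z n m) : ℤ) : ZMod n0) := by
  have h2 : IsUnit (2 : ZMod n0) := by
    have := (ZMod.isUnit_iff_coprime 2 n0).mpr
      ((Nat.coprime_two_left).mpr (Nat.odd_iff.mpr hodd))
    simpa using this
  obtain ⟨k, hk | hk⟩ := hρ.unit m
  · rw [hk]; push_cast; exact h2.pow k
  · rw [hk]; push_cast; exact (h2.pow k).neg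

lemma x0_cast_ne (hg : g ≤ n0) (i j : Fin g) (hij : i ≠ j) :
    ((i : ℕ) : ZMod n0) ≠ ((j : ℕ) : ZMod n0) := by
  intro h
  have h1 := congrArg ZMod.val h
  rw [ZMod.val_natCast_of_lt (lt_of_lt_of_le i.2 hg),
    ZMod.val_natCast_of_lt (lt_of_lt_of_le j.2 hg)] at h1
  exact hij (Fin.ext h1)

lemma x0_dvd_iff (i j : Fin g) (m m' : ℤ) (a : Fin g → ZMod n) :
    (z n (-((a i).val : ℤ) + m) - z n (-((a j).val : ℤ) + m') = 0) ↔
      a i = a j + ((m : ZMod n) - (m' : ZMod n)) := by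
  rw [sub_eq_zero, z_eq_iff n (Nat.pos_of_ne_zero (NeZero.ne n)),
    ← ZMod.intCast_zmod_eq_zero_iff_dvd]
  push_cast
  rw [ZMod.natCast_zmod_val, ZMod.natCast_zmod_val]
  constructor
  · intro h
    linear_combination -h
  · intro h
    rw [h]; ring

lemma x0F_ss (hodd : n0 % 2 = 1) (h3 : 3 ≤ n0) (hg : g ≤ n0) (hρ : Rho n ρ) (i j : Fin g)
    (hij : i ≠ j) (m m' : ℤ) : x0F n g n0 ρ (sv n g i m - sv n g j m') = -1 := by
  have hn1 : (n : ℝ) ≠ 0 := by exact_mod_cast (NeZero.ne n)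
  have hn : (n : ℝ) ^ g ≠ 0 := pow_ne_zero _ hn1
  have h31 : (3 : ℝ) ≤ n0 := by exact_mod_cast h3
  have h32 : (n0 : ℝ) - 1 ≠ 0 := by
    intro h; linarith
  have h1 : ∀ a : Fin g → ZMod n, x0T n g n0 ρ a (sv n g i m - sv n g j m') =
      (-1 / ((n0 : ℝ) - 1)) * (if a i = a j + ((m : ZMod n) - (m' : ZMod n)) then (1 : ℝ) else 0) := by
    intro a
    unfold x0T
    have hf : AddMonoidHom.fst (A n) (Fin g → A n) (sv n g i m - sv n g j m') = 0 := by
      simp [sv]
    have hS : x0S n g a (sv n g i m - sv n g j m') =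
        z n (-((a i).val : ℤ) + m) - z n (-((a j).val : ℤ) + m') := by
      rw [map_sub, x0S_sv, x0S_sv]
    rw [if_pos hf, hS]
    by_cases hc : z n (-((a i).val : ℤ) + m) - z n (-((a j).val : ℤ) + m') = 0
    · rw [if_pos hc, if_pos ((x0_dvd_iff n g i j m m' a).mp hc)]
      rw [FB_ne, ZMod.card]
      · ring
      · rw [map_sub, x0R_sv, x0R_sv, ← sub_eq_zero.mp hc, ← sub_mul]
        intro h0
        have hu := x0_unit n n0 ρ hodd hρ (-((a i).val : ℤ) + m)
        rw [hu.mul_left_eq_zero] at h0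
        exact x0_cast_ne g n0 hg i j hij (sub_eq_zero.mp h0)
    · rw [if_neg hc, if_neg (fun h => hc ((x0_dvd_iff n g i j m m' a).mpr h))]
      ring
  unfold x0F
  rw [Finset.sum_congr rfl (fun a _ => h1 a), ← Finset.mul_sum]
  have h4 := x0_count n g i j hij ((m : ZMod n) - (m' : ZMod n))
  set S := ∑ a : Fin g → ZMod n,
    (if a i = a j + ((m : ZMod n) - (m' : ZMod n)) then (1 : ℝ) else 0) with hS
  have h5 : ((n0 : ℝ) - 1) * n / (n : ℝ) ^ g * (-1 / ((n0 : ℝ) - 1) * S) =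
      -((n : ℝ) * S / (n : ℝ) ^ g) := by
    field_simp
  rw [h5, h4, div_self hn]

end

lemma x0_vals (n g n0 : ℕ) [NeZero n] [NeZero n0] (ρ : A n →+ ℤ) (hodd : n0 % 2 = 1)
    (h3 : 3 ≤ n0) (hg : g ≤ n0) (hρ : Rho n ρ) :
    Vals n g (x0F n g n0 ρ) (((n0 : ℝ) - 1) * n) 0 0 1 (fun _ => 0) where
  pd := x0F_pd n g n0 ρ (by omega)
  zero := x0F_zero n g n0 ρ
  rr m m' h1 h2 h3 h4 := by
    have hn : 0 < n := Nat.pos_of_ne_zero (NeZero.ne n)
    rw [x0F_fst, neg_zero]
    intro h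
    simp only [rv, Prod.fst_sub, sub_eq_zero] at h
    rcases (tt_eq_iff n hn m m').mp h with h | h
    · exact h3 h
    · exact h4 h
  rs m i m' h1 := by
    rw [x0F_snd, neg_zero]
    intro a
    rw [map_sub, x0S_rv, x0S_sv, zero_sub, neg_ne_zero]
    exact z_ne_zero n _
  ss i j hij m m' := x0F_ss n g n0 ρ hodd h3 hg hρ i j hij m m'
  s1 i m m' h1 := by
    have hn : 0 < n := Nat.pos_of_ne_zero (NeZero.ne n)
    rw [x0F_snd, neg_zero]
    intro a h
    rw [map_sub, x0S_sv, x0S_sv, sub_eq_zero, z_eq_iff n hn] at h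
    apply h1
    have : -((a i).val : ℤ) + m - (-((a i).val : ℤ) + m') = m - m' := by ring
    rwa [this] at h
  orr ho m m' h1 h2 := by
    rw [x0F_fst]
    intro h
    simp only [rv, Prod.fst_add] at h
    exact tt_add_ne_zero n ho m m' h
  ors ho m i m' h1 := by
    rw [x0F_snd]
    intro a
    rw [map_add, x0S_rv, x0S_sv, zero_add]
    exact z_ne_zero n _
  oss ho i j m m' := by
    rw [x0F_snd]
    intro a
    rw [map_add, x0S_sv, x0S_sv]
    exact z_add_ne_zero n ho _ _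
  er he m h1 := by
    rw [x0F_fst]
    intro h
    simp only [rv] at h
    exact tt_ne_zero n (by omega) m h
  es he i m := by
    rw [x0F_snd]
    intro a
    rw [x0S_sv]
    exact z_ne_zero n _

lemma x0_kill (n g n0 : ℕ) [NeZero n] [NeZero n0] (ρ : A n →+ ℤ)
    (hk : ¬ 3 ∣ n ∨ ∀ a : Fin g → ℤ, ∑ i, z n (a i) ≠ 0) :
    Kill n g (x0F n g n0 ρ) where
  kr m m' h1 h2 := by
    have hn : 0 < n := Nat.pos_of_ne_zero (NeZero.ne n)
    rcases hk with hk | hk
    · rw [x0F_fst]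
      intro h
      simp only [dl, rv, Prod.fst_sub] at h
      refine x0_ne n hn hk m m' h1 h2 (-zt n m) (Or.inr rfl) ?_
      have h' := congrArg (fun y : A n => (y : ℂ)) h
      simp only [AddSubgroup.coe_sub, NegMemClass.coe_neg, coe_z, ZeroMemClass.coe_zero] at h'
      linear_combination -h'
    · rw [x0F_snd]
      intro a
      rw [map_sub, x0S_rv, x0S_dl, sub_zero, neg_ne_zero]
      exact hk _
  ks m i m' h1 := by
    rw [x0F_fst]
    intro h
    simp only [dl, sv, Prod.fst_sub, sub_zero, neg_eq_zero] at h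
    exact z_ne_zero n m h
  kk m m' h1 h2 := by
    have hn : 0 < n := Nat.pos_of_ne_zero (NeZero.ne n)
    rw [x0F_fst]
    intro h
    simp only [dl, neg_eq_zero, sub_eq_zero] at h
    exact h1 ((z_eq_iff n hn m m').mp h)
  okr ho m m' h1 h2 := by
    have hn : 0 < n := Nat.pos_of_ne_zero (NeZero.ne n)
    rcases hk with hk | hk
    · rw [x0F_fst]
      intro h
      simp only [dl, rv, Prod.fst_add] at h
      refine x0_ne n hn hk m m' h1 h2 (zt n m) (Or.inl rfl) ?_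
      have h' := congrArg (fun y : A n => (y : ℂ)) h
      simp only [AddSubgroup.coe_add, NegMemClass.coe_neg, coe_z, ZeroMemClass.coe_zero] at h'
      linear_combination h'
    · rw [x0F_snd]
      intro a
      rw [map_add, x0S_rv, x0S_dl, add_zero, neg_ne_zero]
      exact hk _
  oks ho m i m' h1 := by
    rw [x0F_fst]
    intro h
    simp only [dl, sv, Prod.fst_add, add_zero, neg_eq_zero] at h
    exact z_ne_zero n m h
  okk ho m m' h1 := by
    rw [x0F_fst]
    intro h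
    simp only [dl, neg_eq_zero] at h
    exact z_add_ne_zero n ho m m' h
  ek he m h1 := by
    rw [x0F_fst]
    intro h
    simp only [dl, neg_eq_zero] at h
    exact z_ne_zero n m h

theorem x0 (h : S_RHO) : S_X0 := by
  intro n g n0 hn h8 hg hodd h3 hgn
  obtain ⟨ρ, hρ⟩ := h n hn h8
  haveI : NeZero n := ⟨hn.ne'⟩
  haveI : NeZero n0 := ⟨by omega⟩
  exact ⟨x0F n g n0 ρ, x0_vals n g n0 ρ hodd h3 hgn hρ, fun hk => x0_kill n g n0 ρ hk⟩

end PathMix2
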