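import Pool.Agent.PathMix2.Stmts
set_option autoImplicit false

/-! Module PM_X1: the component X1 on the model group (one slice carries the function `H`). -/

open Finset

namespace PathMix2
namespace X1

/-- exactly one residue mod `n` -/
lemma sum_res (n : ℕ) (hn : 0 < n) (t : ℤ) :
    ∑ b : Fin n, (if (n : ℤ) ∣ t - ((b : ℕ) : ℤ) then (1 : ℝ) else 0) = 1 := by
  have hn' : (n : ℤ) ≠ 0 := by exact_mod_cast hn.ne'
  have h0 : 0 ≤ t % n := Int.emod_nonneg _ hn'
  have h1 : t % n < n := Int.emod_lt_of_pos _ (by exact_mod_cast hn)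
  have hb : (t % n).toNat < n := by omega
  have hb' : (((t % n).toNat : ℕ) : ℤ) = t % n := Int.toNat_of_nonneg h0
  rw [Finset.sum_eq_single (⟨(t % n).toNat, hb⟩ : Fin n)]
  · rw [if_pos]
    rw [hb']
    exact Int.dvd_self_sub_emod
  · intro b _ hne
    rw [if_neg]
    intro hd
    apply hne
    have h2 : ((b : ℕ) : ℤ) = t % n := by
      have h4 : t % n = ((b : ℕ) : ℤ) % n :=
        Int.emod_eq_emod_iff_emod_sub_eq_zero.mpr (Int.emod_eq_zero_of_dvd hd)
      rw [h4, Int.emod_eq_of_lt (by omega) (by have := b.2; omega)]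
    apply Fin.ext
    show (b : ℕ) = (t % n).toNat
    omega
  · intro h
    exact absurd (Finset.mem_univ _) h

/-- the number of arrays with a prescribed difference of two entries -/
lemma count (n g : ℕ) (hn : 0 < n) (i j : Fin g) (hij : i ≠ j) (m m' : ℤ) :
    ∑ a : Fin g → Fin n, (if (n : ℤ) ∣ (m - ((a i : ℕ) : ℤ)) - (m' - ((a j : ℕ) : ℤ)) then (1 : ℝ) else 0) =
      (n : ℝ) ^ (g - 1) := by
  classical
  rw [← (Equiv.funSplitAt i (Fin n)).symm.sum_comp, Fintype.sum_prod_type_right]
  have h1 : ∀ r : {k // k ≠ i} → Fin n, ∑ b : Fin n,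
      (if (n : ℤ) ∣ (m - ((((Equiv.funSplitAt i (Fin n)).symm (b, r) i : Fin n) : ℕ) : ℤ)) -
        (m' - ((((Equiv.funSplitAt i (Fin n)).symm (b, r) j : Fin n) : ℕ) : ℤ)) then (1 : ℝ) else 0) = 1 := by
    intro r
    refine Eq.trans ?_ (sum_res n hn (m - m' + ((r ⟨j, hij.symm⟩ : ℕ) : ℤ)))
    apply Finset.sum_congr rfl
    intro b _
    have e1 : (Equiv.funSplitAt i (Fin n)).symm (b, r) i = b := by
      simp [Equiv.funSplitAt, Equiv.piSplitAt]
    have e2 : (Equiv.funSplitAt i (Fin n)).symm (b, r) j = r ⟨j, hij.symm⟩ := by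
      simp [Equiv.funSplitAt, Equiv.piSplitAt, hij.symm]
    rw [e1, e2]
    have e3 : (m - ((b : ℕ) : ℤ)) - (m' - ((r ⟨j, hij.symm⟩ : ℕ) : ℤ)) =
        m - m' + ((r ⟨j, hij.symm⟩ : ℕ) : ℤ) - ((b : ℕ) : ℤ) := by ring
    rw [e3]
  rw [Finset.sum_congr rfl (fun r _ => h1 r)]
  rw [Finset.sum_const, Finset.card_univ, Fintype.card_fun, Fintype.card_fin, nsmul_eq_mul, mul_one]
  have h2 : Fintype.card {k : Fin g // k ≠ i} = g - 1 := by
    rw [Fintype.card_subtype_compl, Fintype.card_fin, Fintype.card_subtype_eq]
  rw [h2]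
  push_cast
  rfl

section

variable (n g : ℕ)

/-- the `i`-th slice coordinate -/
noncomputable def ev (i : Fin g) : SG n g →+ A n :=
  (Pi.evalAddMonoidHom (fun _ : Fin g => A n) i).comp (AddMonoidHom.snd (A n) (Fin g → A n))

lemma ev_apply (i : Fin g) (x : SG n g) : ev n g i x = x.2 i := rfl

lemma ev_rv (i : Fin g) (m : ℤ) : ev n g i (rv n g m) = 0 := rfl

lemma ev_sv (i k : Fin g) (m : ℤ) : ev n g k (sv n g i m) = if k = i then z n m else 0 := by
  rw [ev_apply]
  show (Pi.single i (z n m) : Fin g → A n) k = _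
  rw [Pi.single_apply]

lemma ev_dl (i : Fin g) (a : A n) : ev n g i (dl n g a) = -a := rfl

/-- the twisted sum of the slices different from `j` -/
noncomputable def L (j : Fin g) (a : Fin g → Fin n) : SG n g →+ A n :=
  ∑ i ∈ univ.erase j, (mulz n (-((a i : ℕ) : ℤ))).comp (ev n g i)

lemma L_apply (j : Fin g) (a : Fin g → Fin n) (x : SG n g) :
    L n g j a x = ∑ i ∈ univ.erase j, mulz n (-((a i : ℕ) : ℤ)) (ev n g i x) := by
  unfold L
  rw [AddMonoidHom.finsetSum_apply]
  rfl

lemma L_rv (j : Fin g) (a : Fin g → Fin n) (m : ℤ) : L n g j a (rv n g m) = 0 := by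
  rw [L_apply]
  apply Finset.sum_eq_zero
  intro i _
  rw [ev_rv, map_zero]

lemma L_sv (j : Fin g) (a : Fin g → Fin n) (i : Fin g) (m : ℤ) :
    L n g j a (sv n g i m) = if i = j then 0 else z n (m - ((a i : ℕ) : ℤ)) := by
  rw [L_apply]
  simp only [ev_sv]
  split_ifs with h
  · apply Finset.sum_eq_zero
    intro k hk
    rw [if_neg (by rintro rfl; exact (Finset.mem_erase.mp hk).1 h), map_zero]
  · rw [Finset.sum_eq_single i]
    · rw [if_pos rfl, mulz_z]
      congr 1
      ring
    · intro k _ hk
      rw [if_neg hk, map_zero]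
    · intro h2
      exact absurd (Finset.mem_erase.mpr ⟨h, Finset.mem_univ _⟩) h2

/-- the labels `c_j(i)`, pairwise different for `i ≠ j` -/
def lab (j i : Fin g) : ℕ := if i < j then (i : ℕ) else (i : ℕ) - 1

lemma lab_lt (j i : Fin g) (h : i ≠ j) : lab g j i < g - 1 := by
  unfold lab
  have h1 := i.2
  have h2 := j.2
  have h3 : (i : ℕ) ≠ (j : ℕ) := fun h4 => h (Fin.ext h4)
  split_ifs with h4
  · have h5 : (i : ℕ) < (j : ℕ) := h4
    omega
  · have h5 : ¬ (i : ℕ) < (j : ℕ) := h4
    omega

lemma lab_inj (j i i' : Fin g) (h : i ≠ j) (h' : i' ≠ j) (hl : lab g j i = lab g j i') : i = i' := by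
  unfold lab at hl
  have h3 : (i : ℕ) ≠ (j : ℕ) := fun h4 => h (Fin.ext h4)
  have h3' : (i' : ℕ) ≠ (j : ℕ) := fun h4 => h' (Fin.ext h4)
  apply Fin.ext
  split_ifs at hl with h4 h5 h5
  · exact hl
  · have h6 : (i : ℕ) < (j : ℕ) := h4
    have h7 : ¬ (i' : ℕ) < (j : ℕ) := h5
    omega
  · have h6 : ¬ (i : ℕ) < (j : ℕ) := h4
    have h7 : (i' : ℕ) < (j : ℕ) := h5
    omega
  · have h6 : ¬ (i : ℕ) < (j : ℕ) := h4
    have h7 : ¬ (i' : ℕ) < (j : ℕ) := h5
    omega

variable (n0 : ℕ) (ρ : A n →+ ℤ)

/-- the weighted sum of the slices different from `j`, modulo `n0` -/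
noncomputable def phi (j : Fin g) (a : Fin g → Fin n) : SG n g →+ ZMod n0 :=
  ∑ i ∈ univ.erase j, (AddMonoidHom.mulLeft ((lab g j i : ℕ) : ZMod n0)).comp
    ((Int.castAddHom (ZMod n0)).comp (ρ.comp ((mulz n (-((a i : ℕ) : ℤ))).comp (ev n g i))))

lemma phi_apply (j : Fin g) (a : Fin g → Fin n) (x : SG n g) :
    phi n g n0 ρ j a x = ∑ i ∈ univ.erase j,
      ((lab g j i : ℕ) : ZMod n0) * ((ρ (mulz n (-((a i : ℕ) : ℤ)) (ev n g i x)) : ℤ) : ZMod n0) := by
  unfold phi
  rw [AddMonoidHom.finsetSum_apply]
  rfl

lemma phi_sv (j : Fin g) (a : Fin g → Fin n) (i : Fin g) (m : ℤ) :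
    phi n g n0 ρ j a (sv n g i m) =
      if i = j then 0 else ((lab g j i : ℕ) : ZMod n0) * ((ρ (z n (m - ((a i : ℕ) : ℤ))) : ℤ) : ZMod n0) := by
  rw [phi_apply]
  simp only [ev_sv]
  split_ifs with h
  · apply Finset.sum_eq_zero
    intro k hk
    rw [if_neg (by rintro rfl; exact (Finset.mem_erase.mp hk).1 h), map_zero, map_zero, Int.cast_zero, mul_zero]
  · rw [Finset.sum_eq_single i]
    · rw [if_pos rfl, mulz_z]
      congr 4
      ring
    · intro k _ hk
      rw [if_neg hk, map_zero, map_zero, Int.cast_zero, mul_zero]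
    · intro h2
      exact absurd (Finset.mem_erase.mpr ⟨h, Finset.mem_univ _⟩) h2

open Classical in
/-- one term -/
noncomputable def T [NeZero n0] (H : A n → ℝ) (j : Fin g) (a : Fin g → Fin n) (x : SG n g) : ℝ :=
  (if AddMonoidHom.fst (A n) (Fin g → A n) x = 0 then (1 : ℝ) else 0) * H (ev n g j x) *
    (if L n g j a x = 0 then (1 : ℝ) else 0) * FB (phi n g n0 ρ j a) x

variable {n g n0 ρ}

lemma T_pd [NeZero n0] (hn0 : 2 ≤ n0) {H : A n → ℝ} (hH : PD H) (j : Fin g) (a : Fin g → Fin n) :
    PD (T n g n0 ρ H j a) := by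
  classical
  have h := (((PD.ind (AddMonoidHom.fst (A n) (Fin g → A n))).mul (hH.comp (ev n g j))).mul
    (PD.ind (L n g j a))).mul (PD.FB (by rw [ZMod.card]; exact hn0) (phi n g n0 ρ j a))
  refine h.congr ?_
  intro x
  unfold T
  congr

lemma T_fst [NeZero n0] {H : A n → ℝ} {j : Fin g} {a : Fin g → Fin n} {x : SG n g} (h : x.1 ≠ 0) :
    T n g n0 ρ H j a x = 0 := by
  unfold T
  rw [if_neg (by exact h), zero_mul, zero_mul, zero_mul]

lemma T_H [NeZero n0] {H : A n → ℝ} {j : Fin g} {a : Fin g → Fin n} {x : SG n g}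
    (h : H (ev n g j x) = 0) : T n g n0 ρ H j a x = 0 := by
  unfold T
  rw [h, mul_zero, zero_mul, zero_mul]

lemma T_L [NeZero n0] {H : A n → ℝ} {j : Fin g} {a : Fin g → Fin n} {x : SG n g}
    (h : L n g j a x ≠ 0) : T n g n0 ρ H j a x = 0 := by
  unfold T
  rw [if_neg h, mul_zero, zero_mul]

lemma T_one [NeZero n0] {H : A n → ℝ} {j : Fin g} {a : Fin g → Fin n} {x : SG n g}
    (h1 : x.1 = 0) (h2 : L n g j a x = 0) (h3 : phi n g n0 ρ j a x = 0) :
    T n g n0 ρ H j a x = H (ev n g j x) := by
  unfold T
  rw [if_pos (by exact h1), if_pos h2, FB_zero _ h3, one_mul, mul_one, mul_one]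

lemma T_neg [NeZero n0] {H : A n → ℝ} {j : Fin g} {a : Fin g → Fin n} {x : SG n g}
    (h1 : x.1 = 0) (h2 : L n g j a x = 0) (h3 : phi n g n0 ρ j a x ≠ 0) :
    T n g n0 ρ H j a x = H (ev n g j x) * (-1 / ((n0 : ℝ) - 1)) := by
  unfold T
  rw [if_pos (by exact h1), if_pos h2, FB_ne _ h3, one_mul, mul_one, ZMod.card]

/-- products with `± 2^k` do not vanish modulo the odd number `n0` -/
lemma unit_ne (ho : n0 % 2 = 1) {c : ZMod n0} (hc : c ≠ 0) {r : ℤ}
    (hr : ∃ k : ℕ, r = 2 ^ k ∨ r = -2 ^ k) : c * (r : ZMod n0) ≠ 0 := by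
  have h2 : IsUnit ((2 : ℕ) : ZMod n0) := by
    rw [ZMod.isUnit_iff_coprime, Nat.coprime_two_left]
    exact Nat.odd_iff.mpr ho
  have h3 : IsUnit (r : ZMod n0) := by
    obtain ⟨k, h | h⟩ := hr
    · rw [h]
      push_cast
      exact_mod_cast h2.pow k
    · rw [h]
      push_cast
      rw [IsUnit.neg_iff]
      exact_mod_cast h2.pow k
  intro h
  exact hc ((h3.mul_left_eq_zero).mp h)

end

/-- the function of the component X1 -/
noncomputable def FF (n g n0 : ℕ) [NeZero n0] (ρ : A n →+ ℤ) (H : A n → ℝ) (x : SG n g) : ℝ :=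
  (((n0 : ℝ) - 1) * n / (n : ℝ) ^ g) * ∑ j : Fin g, ∑ a : Fin g → Fin n, T n g n0 ρ H j a x

section
variable {n g n0 : ℕ} [NeZero n0] {ρ : A n →+ ℤ} {H : A n → ℝ}

lemma FF_zero_of {x : SG n g} (h : ∀ j a, T n g n0 ρ H j a x = 0) : FF n g n0 ρ H x = 0 := by
  unfold FF
  simp only [h, Finset.sum_const_zero, mul_zero]

lemma FF_pd (hn0 : 2 ≤ n0) (hH : PD H) : PD (FF n g n0 ρ H) := by
  have h1 : (0 : ℝ) ≤ ((n0 : ℝ) - 1) * n / (n : ℝ) ^ g := by
    have h2 : (2 : ℝ) ≤ n0 := by exact_mod_cast hn0
    have h3 : (0 : ℝ) ≤ (n0 : ℝ) - 1 := by linarith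
    positivity
  exact (PD.sum univ _ (fun j _ => PD.sum univ _ (fun a _ => T_pd hn0 hH j a))).smul _ h1

lemma H_negz (hH : PD H) (h1 : ∀ m, H (z n m) = 0) (m : ℤ) : H (-z n m) = 0 := by
  rw [hH.even, h1]

lemma sum_two (i k : Fin g) (hik : i ≠ k) (K : ℝ) :
    ∑ j : Fin g, (if j = i ∨ j = k then (0 : ℝ) else K) = ((g : ℝ) - 2) * K := by
  have h1 : ∀ j : Fin g, (if j = i ∨ j = k then (0 : ℝ) else K) =
      K - (if j = i then K else 0) - (if j = k then K else 0) := by
    intro j
    by_cases h : j = i
    · subst h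
      rw [if_pos (Or.inl rfl), if_pos rfl, if_neg hik]
      ring
    · by_cases h' : j = k
      · subst h'
        rw [if_pos (Or.inr rfl), if_pos rfl, if_neg h]
        ring
      · rw [if_neg (by tauto), if_neg h, if_neg h']
        ring
  simp only [h1, Finset.sum_sub_distrib, Finset.sum_const, Finset.card_univ, Fintype.card_fin,
    nsmul_eq_mul, Finset.sum_ite_eq', Finset.mem_univ, if_true]
  ring

end

end X1

open X1 in
theorem x1 (h : S_RHO) : S_X1 := by
  intro n g n0 H h3 hn h8 hg ho hn0 hgn hH
  have : NeZero n0 := ⟨by omega⟩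
  obtain ⟨ρ, hρ⟩ := h n hn h8
  have hnR : (n : ℝ) ≠ 0 := by exact_mod_cast hn.ne'
  have hn0R : (n0 : ℝ) - 1 ≠ 0 := by
    have h2 : (3 : ℝ) ≤ n0 := by exact_mod_cast hn0
    intro h; linarith
  have hpow : (n : ℝ) ^ g = n * (n : ℝ) ^ (g - 1) := by
    rw [← pow_succ']
    congr 1
    omega
  have hz0 : ∀ m, H (-z n m) = 0 := H_negz hH.pd hH.one
  refine ⟨FF n g n0 ρ H, ?_, ?_⟩
  · exact
    { pd := FF_pd (by omega) hH.pd
      zero := by
        unfold FF
        have h1 : ∀ (j : Fin g) (a : Fin g → Fin n), T n g n0 ρ H j a 0 = 1 := by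
          intro j a
          rw [T_one rfl (map_zero _) (map_zero _), map_zero, hH.zero]
        simp only [h1, Finset.sum_const, Finset.card_univ, Fintype.card_fin, Fintype.card_fun,
          nsmul_eq_mul, mul_one]
        push_cast
        field_simp
      rr := by
        intro m m' h1 h2 h4 h5
        rw [neg_zero]
        apply FF_zero_of
        intro j a
        apply T_fst
        show tt n m - tt n m' ≠ 0
        rw [Ne, sub_eq_zero, tt_eq_iff n hn]
        tauto
      rs := by
        intro m i m' h1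
        rw [neg_zero]
        apply FF_zero_of
        intro j a
        by_cases hj : j = i
        · apply T_H
          rw [map_sub, ev_rv, ev_sv, if_pos hj, zero_sub]
          exact hz0 m'
        · apply T_L
          rw [map_sub, L_rv, L_sv, if_neg (fun h => hj h.symm), zero_sub, Ne, neg_eq_zero]
          exact z_ne_zero n _
      ss := by
        intro i k hik m m'
        have key : ∀ j : Fin g, ∑ a : Fin g → Fin n, T n g n0 ρ H j a (sv n g i m - sv n g k m') =
            if j = i ∨ j = k then (0 : ℝ) else (n : ℝ) ^ (g - 1) * (-1 / ((n0 : ℝ) - 1)) := by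
          intro j
          split_ifs with hj
          · apply Finset.sum_eq_zero
            intro a _
            apply T_H
            rw [map_sub, ev_sv, ev_sv]
            rcases hj with hj | hj
            · rw [if_pos hj, if_neg (fun h => hik (hj.symm.trans h)), sub_zero, hH.one]
            · rw [if_neg (fun h => hik (h.symm.trans hj)), if_pos hj, zero_sub, hz0]
          · have hji : i ≠ j := fun h => hj (Or.inl h.symm)
            have hjk : k ≠ j := fun h => hj (Or.inr h.symm)
            rw [← count n g hn i k hik m m', Finset.sum_mul]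
            apply Finset.sum_congr rfl
            intro a _
            have hL : L n g j a (sv n g i m - sv n g k m') =
                z n (m - ((a i : ℕ) : ℤ)) - z n (m' - ((a k : ℕ) : ℤ)) := by
              rw [map_sub, L_sv, L_sv, if_neg hji, if_neg hjk]
            split_ifs with hd
            · have hzz : z n (m - ((a i : ℕ) : ℤ)) = z n (m' - ((a k : ℕ) : ℤ)) := (z_eq_iff n hn _ _).mpr hd
              rw [T_neg (by show (0 : A n) - 0 = 0; exact sub_zero _) (by rw [hL, hzz, sub_self]) ?_]
              · rw [map_sub, ev_sv, ev_sv, if_neg (fun h => hji h.symm), if_neg (fun h => hjk h.symm),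
                  sub_zero, hH.zero]
              · rw [map_sub, phi_sv, phi_sv, if_neg hji, if_neg hjk, hzz, ← sub_mul]
                apply unit_ne ho _ (hρ.unit _)
                rw [Ne, sub_eq_zero, ZMod.natCast_eq_natCast_iff]
                intro hmod
                have h5 := lab_lt g j i hji
                have h6 := lab_lt g j k hjk
                have h7 : lab g j i = lab g j k := Nat.ModEq.eq_of_lt_of_lt hmod (by omega) (by omega)
                exact hik (lab_inj g j i k hji hjk h7)
            · rw [zero_mul]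
              apply T_L
              rw [hL, Ne, sub_eq_zero, z_eq_iff n hn]
              exact hd
        unfold FF
        rw [Finset.sum_congr rfl (fun j _ => key j), sum_two i k hik, hpow]
        have h4 : (n : ℝ) ^ (g - 1) ≠ 0 := pow_ne_zero _ hnR
        field_simp
      s1 := by
        intro i m m' hd
        have key : ∀ j : Fin g, ∑ a : Fin g → Fin n, T n g n0 ρ H j a (sv n g i m - sv n g i m') =
            if j = i then (n : ℝ) ^ g * (-h3 (m - m')) else 0 := by
          intro j
          split_ifs with hj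
          · have h1 : ∀ a : Fin g → Fin n, T n g n0 ρ H j a (sv n g i m - sv n g i m') = -h3 (m - m') := by
              intro a
              rw [T_one (by show (0 : A n) - 0 = 0; exact sub_zero _)
                (by rw [map_sub, L_sv, L_sv, if_pos hj.symm, if_pos hj.symm, sub_zero])
                (by rw [map_sub, phi_sv, phi_sv, if_pos hj.symm, if_pos hj.symm, sub_zero]),
                map_sub, ev_sv, ev_sv, if_pos hj, if_pos hj, hH.diff m m' hd]
            simp only [h1, Finset.sum_const, Finset.card_univ, Fintype.card_fin, Fintype.card_fun,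
              nsmul_eq_mul]
            push_cast
            ring
          · apply Finset.sum_eq_zero
            intro a _
            apply T_L
            have hji : i ≠ j := fun h => hj h.symm
            rw [map_sub, L_sv, L_sv, if_neg hji, if_neg hji, Ne, sub_eq_zero, z_eq_iff n hn]
            have e : m - ((a i : ℕ) : ℤ) - (m' - ((a i : ℕ) : ℤ)) = m - m' := by ring
            rw [e]
            exact hd
        unfold FF
        rw [Finset.sum_congr rfl (fun j _ => key j), Finset.sum_ite_eq' Finset.univ i, if_pos (Finset.mem_univ i)]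
        have h4 : (n : ℝ) ^ g ≠ 0 := pow_ne_zero _ hnR
        field_simp
      orr := by
        intro hodd m m' h1 h2
        apply FF_zero_of
        intro j a
        apply T_fst
        exact tt_add_ne_zero n hodd m m'
      ors := by
        intro hodd m i m' h1
        apply FF_zero_of
        intro j a
        by_cases hj : j = i
        · apply T_H
          rw [map_add, ev_rv, ev_sv, if_pos hj, zero_add]
          exact hH.one m'
        · apply T_L
          rw [map_add, L_rv, L_sv, if_neg (fun h => hj h.symm), zero_add]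
          exact z_ne_zero n _
      oss := by
        intro hodd i k m m'
        apply FF_zero_of
        intro j a
        by_cases hi : j = i
        · apply T_H
          rw [map_add, ev_sv, ev_sv, if_pos hi]
          by_cases hk : j = k
          · rw [if_pos hk]
            exact hH.sum hodd m m'
          · rw [if_neg hk, add_zero]
            exact hH.one m
        · by_cases hk : j = k
          · apply T_H
            rw [map_add, ev_sv, ev_sv, if_neg hi, if_pos hk, zero_add]
            exact hH.one m'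
          · apply T_L
            rw [map_add, L_sv, L_sv, if_neg (fun h => hi h.symm), if_neg (fun h => hk h.symm)]
            exact z_add_ne_zero n hodd _ _
      er := by
        intro h4 m h1
        apply FF_zero_of
        intro j a
        apply T_fst
        exact tt_ne_zero n (by omega) m
      es := by
        intro h4 i m
        apply FF_zero_of
        intro j a
        by_cases hj : j = i
        · apply T_H
          rw [ev_sv, if_pos hj]
          exact hH.one m
        · apply T_L
          rw [L_sv, if_neg (fun h => hj h.symm)]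
          exact z_ne_zero n _ }
  · exact
    { kr := by
        intro m m' h1 h2
        apply FF_zero_of
        intro j a
        apply T_H
        rw [map_sub, ev_dl, ev_rv, sub_zero]
        exact hz0 m
      ks := by
        intro m i m' h1
        apply FF_zero_of
        intro j a
        apply T_fst
        show -z n m - 0 ≠ 0
        rw [sub_zero, Ne, neg_eq_zero]
        exact z_ne_zero n m
      kk := by
        intro m m' h1 h2
        apply FF_zero_of
        intro j a
        apply T_fst
        show -(z n m - z n m') ≠ 0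
        rw [Ne, neg_eq_zero, sub_eq_zero, z_eq_iff n hn]
        exact h1
      okr := by
        intro hodd m m' h1 h2
        apply FF_zero_of
        intro j a
        apply T_H
        rw [map_add, ev_dl, ev_rv, add_zero]
        exact hz0 m
      oks := by
        intro hodd m i m' h1
        apply FF_zero_of
        intro j a
        apply T_fst
        show -z n m + 0 ≠ 0
        rw [add_zero, Ne, neg_eq_zero]
        exact z_ne_zero n m
      okk := by
        intro hodd m m' h1
        apply FF_zero_of
        intro j a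
        apply T_fst
        show -(z n m + z n m') ≠ 0
        rw [Ne, neg_eq_zero]
        exact z_add_ne_zero n hodd m m'
      ek := by
        intro h4 m h1
        apply FF_zero_of
        intro j a
        apply T_fst
        show -z n m ≠ 0
        rw [Ne, neg_eq_zero]
        exact z_ne_zero n m }

end PathMix2
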