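import Pool.Agent.PathMix2.Asm
import Pool.Agent.PathMix2.Ext
import Pool.Agent.PathMix2.Slice
import Pool.Agent.PathMix2.Psi2
import Pool.Agent.PathMix2.Rho
import Pool.Agent.PathMix2.Sig
import Pool.Agent.PathMix2.GG
import Pool.Agent.PathMix2.DM
import Pool.Agent.PathMix2.DPX
import Pool.Agent.PathMix2.X0
import Pool.Agent.PathMix2.X1
import Pool.Agent.PathMix2.C2
import Pool.Agent.PathMix2.C1
import Pool.Agent.PathMix2.Prod
import Pool.Agent.PathMix2.Case
import Pool.Agent.PathMix2.Des2b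
import Pool.Agent.PathMix2.Base
import Pool.Agent.PathMix2.S35
import Pool.Agent.PathMix2.PartB
import Pool.Agent.PathMix2.Top2
import Pool.Agent.PathMix2.Top01
import Pool.Agent.PathMix2.Link
import Pool.Agent.PathMix2.Fin
set_option autoImplicit false

/-! The classification: which paths have a rank one averaged mixing matrix for some density. -/

namespace PathMix2

theorem classification (n : ℕ) (hn : 5 ≤ n) :
    (∃ f : ℝ → ℝ, PathMix.IsDensity f ∧ (PathMix.Mavg n f).rank = 1) ↔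
      ¬ (6 ∣ n + 1 ∧ n + 1 ≠ 6) ∧ ¬ 15 ∣ n + 1 ∧ ¬ 21 ∣ n + 1 := by
  have hE := ext
  have hS := slice hE
  have h4 := d4 hS
  have hR := rho hE e2 h4
  have hG := gg hE hR
  have hSig := sig hE e2
  have hDM0 := dm0 hG
  have hDM1 := dm1 hDM0 e2
  have hDM2 := dm2 hDM1 h4
  have hDP := dp hSig
  have hDX := dx hR h4
  have hX0 := x0 hR
  have hX1 := x1 hR
  have hC2 := c2 hR
  have hC1 := c1 hR
  have hK1 := case1 (psi1 hS)
  have hP2 := psi2 hE
  have hK2 := case2 hP2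
  have hpp := pp_small (des1_3 hC1 prod hDM0 hK1) (des1_0 hX0 hC2 prod hDM0 hK1)
    (des1_1 hX0 hC2 prod prod0 hDM1 hDP hK1) (des1_2 hX0 hC2 prod prod0 hDM2 hDX hK1)
    (des2_0 hX0 hC2 prod hDM0 hK2) (des2_3 hX1 hC2 prod hDM0 hK2) (des2_39 hX0 hC2 prod hDM0 hK2)
    (des2_1 hX0 hC2 prod prod0 hDM1 hDP hK2) (des2_2 hX0 hX1 hC2 prod0 prodT hDM2 hDX hK2)
    base3 (base1 hP2) (base2 hP2) (base4 hP2) (s35 hE) (s70 hE) (s140 hE)
  exact classification_of (fun N hN h6 h15 h21 =>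
    fin2_of_pp (fun Q s hs hA => hpp Q s hs hA) (partB hS hR hC1 hDM1 h4) (top0 e2) (top1 hG e2 h4)
      (top2 hS (p1 hX0 hDM1 hDP)) N hN h6 h15 h21) (fin link) n hn

end PathMix2
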