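import Pool.Agent.PathMix2.Defs
set_option autoImplicit false

open Finset

namespace PathMix2

namespace PD

variable {G H : Type*} [AddCommGroup G] [AddCommGroup H]

/-- indexed form -/
lemma pos' {f : G → ℝ} (hf : PD f) {ι : Type*} [Fintype ι] (x : ι → G) (c : ι → ℝ) :
    0 ≤ ∑ i, ∑ j, c i * c j * f (x i - x j) := by
  classical
  have e := (Fintype.equivFin ι).symm
  have := hf.pos (Fintype.card ι) (fun i => x (e i)) (fun i => c (e i))
  rw [← e.sum_comp]
  refine this.trans (le_of_eq ?_)
  apply Finset.sum_congr rfl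
  intro i _
  rw [← e.sum_comp]

lemma pos_finset {f : G → ℝ} (hf : PD f) {ι : Type*} (s : Finset ι) (x : ι → G) (c : ι → ℝ) :
    0 ≤ ∑ i ∈ s, ∑ j ∈ s, c i * c j * f (x i - x j) := by
  have := hf.pos' (fun i : s => x i) (fun i : s => c i)
  rw [← Finset.sum_coe_sort]
  refine this.trans (le_of_eq ?_)
  apply Finset.sum_congr rfl
  intro i _
  rw [← Finset.sum_coe_sort s (fun j => c i * c j * f (x i - x j))]

lemma comp {f : G → ℝ} (hf : PD f) (φ : H →+ G) : PD (fun x => f (φ x)) where
  even x := by rw [map_neg, hf.even]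
  pos k x c := by
    have := hf.pos k (fun i => φ (x i)) c
    simpa only [← map_sub] using this

lemma nonneg {f : G → ℝ} (hf : PD f) : 0 ≤ f 0 := by
  have := hf.pos 1 (fun _ => 0) (fun _ => 1)
  simpa using this

lemma congr {f g : G → ℝ} (hf : PD f) (h : ∀ x, g x = f x) : PD g := by
  have : g = f := funext h
  rw [this]; exact hf

lemma add {f g : G → ℝ} (hf : PD f) (hg : PD g) : PD (fun x => f x + g x) where
  even x := by rw [hf.even, hg.even]
  pos k x c := by
    have h1 := hf.pos k x c
    have h2 := hg.pos k x c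
    have h3 : ∑ i, ∑ j, c i * c j * (f (x i - x j) + g (x i - x j)) =
        (∑ i, ∑ j, c i * c j * f (x i - x j)) + ∑ i, ∑ j, c i * c j * g (x i - x j) := by
      rw [← Finset.sum_add_distrib]
      apply Finset.sum_congr rfl
      intro i _
      rw [← Finset.sum_add_distrib]
      apply Finset.sum_congr rfl
      intro j _
      ring
    rw [h3]
    exact add_nonneg h1 h2

lemma smul {f : G → ℝ} (hf : PD f) (a : ℝ) (ha : 0 ≤ a) : PD (fun x => a * f x) where
  even x := by rw [hf.even]
  pos k x c := by
    have h1 := hf.pos k x c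
    have h3 : ∑ i, ∑ j, c i * c j * (a * f (x i - x j)) = a * ∑ i, ∑ j, c i * c j * f (x i - x j) := by
      rw [Finset.mul_sum]
      apply Finset.sum_congr rfl
      intro i _
      rw [Finset.mul_sum]
      apply Finset.sum_congr rfl
      intro j _
      ring
    rw [h3]
    exact mul_nonneg ha h1

lemma zero : PD (fun _ : G => (0 : ℝ)) where
  even x := rfl
  pos k x c := by simp

lemma sum {ι : Type*} (s : Finset ι) (f : ι → G → ℝ) (hf : ∀ i ∈ s, PD (f i)) :
    PD (fun x => ∑ i ∈ s, f i x) := by
  classical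
  induction s using Finset.induction_on with
  | empty => simpa using (zero : PD (fun _ : G => (0 : ℝ)))
  | insert a s ha ih =>
    have h1 := hf a (Finset.mem_insert_self _ _)
    have h2 := ih (fun i hi => hf i (Finset.mem_insert_of_mem hi))
    refine (h1.add h2).congr ?_
    intro x
    rw [Finset.sum_insert ha]

lemma mul {f g : G → ℝ} (hf : PD f) (hg : PD g) : PD (fun x => f x * g x) where
  even x := by rw [hf.even, hg.even]
  pos k x c := by
    have key : ∀ {f : G → ℝ}, PD f → (Matrix.of fun i j : Fin k => f (x i - x j)).PosSemidef := by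
      intro f hf
      rw [Matrix.posSemidef_iff_dotProduct_mulVec]
      refine ⟨?_, ?_⟩
      · ext i j
        simp only [Matrix.conjTranspose_apply, Matrix.of_apply, star_trivial]
        rw [← hf.even, neg_sub]
      · intro c
        have := hf.pos k x c
        refine this.trans (le_of_eq ?_)
        simp only [dotProduct, Matrix.mulVec, Matrix.of_apply, star_trivial, Pi.star_apply]
        apply Finset.sum_congr rfl
        intro i _
        rw [Finset.mul_sum]
        apply Finset.sum_congr rfl
        intro j _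
        ring
    have h := (key hf).hadamard (key hg)
    rw [Matrix.posSemidef_iff_dotProduct_mulVec] at h
    have h2 := h.2 c
    refine h2.trans (le_of_eq ?_)
    simp only [dotProduct, Matrix.mulVec, Matrix.hadamard_apply, Matrix.of_apply, star_trivial, Pi.star_apply]
    apply Finset.sum_congr rfl
    intro i _
    rw [Finset.mul_sum]
    apply Finset.sum_congr rfl
    intro j _
    ring

lemma one : PD (fun _ : G => (1 : ℝ)) where
  even x := rfl
  pos k x c := by
    have : ∑ i, ∑ j, c i * c j * 1 = (∑ i, c i) * ∑ j, c j := by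
      rw [Finset.sum_mul_sum]
      simp
    rw [this]
    exact mul_self_nonneg _

lemma prod {ι : Type*} (s : Finset ι) (f : ι → G → ℝ) (hf : ∀ i ∈ s, PD (f i)) :
    PD (fun x => ∏ i ∈ s, f i x) := by
  classical
  induction s using Finset.induction_on with
  | empty => simpa using (one : PD (fun _ : G => (1 : ℝ)))
  | insert a s ha ih =>
    have h1 := hf a (Finset.mem_insert_self _ _)
    have h2 := ih (fun i hi => hf i (Finset.mem_insert_of_mem hi))
    refine (h1.mul h2).congr ?_
    intro x
    rw [Finset.prod_insert ha]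

/-- sums of squares -/
lemma sq_sum {τ : Type*} (T : Finset τ) (k : ℕ) (u : τ → Fin k → ℝ) (c : Fin k → ℝ) :
    ∑ i, ∑ j, c i * c j * (∑ t ∈ T, u t i * u t j) =
      ∑ t ∈ T, (∑ i, c i * u t i) * ∑ j, c j * u t j := by
  simp_rw [Finset.sum_mul_sum, Finset.mul_sum]
  have h1 : ∀ i, ∑ j, ∑ t ∈ T, c i * c j * (u t i * u t j) = ∑ t ∈ T, ∑ j, c i * c j * (u t i * u t j) :=
    fun i => Finset.sum_comm
  rw [Finset.sum_congr rfl (fun i _ => h1 i), Finset.sum_comm]
  apply Finset.sum_congr rfl
  intro t _
  apply Finset.sum_congr rfl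
  intro i _
  apply Finset.sum_congr rfl
  intro j _
  ring

/-- a function of the form `f (x_i - x_j) = ∑_t u_t(i) u_t(j)` on finite families is positive
definite -/
lemma of_sq {f : G → ℝ} (heven : ∀ x, f (-x) = f x)
    (h : ∀ (k : ℕ) (x : Fin k → G), ∃ (τ : Type) (T : Finset τ) (u : τ → Fin k → ℝ),
      ∀ i j, f (x i - x j) = ∑ t ∈ T, u t i * u t j) : PD f where
  even := heven
  pos k x c := by
    obtain ⟨τ, T, u, hu⟩ := h k x
    simp_rw [hu]
    rw [sq_sum]
    exact Finset.sum_nonneg (fun t _ => mul_self_nonneg _)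

/-- indicator of the kernel of a homomorphism -/
lemma ind [DecidableEq H] (φ : G →+ H) : PD (fun x => if φ x = 0 then (1 : ℝ) else 0) where
  even x := by simp
  pos k x c := by
    have h1 : ∀ i j, (if φ (x i - x j) = 0 then (1 : ℝ) else 0) =
        ∑ b ∈ Finset.univ.image (fun i => φ (x i)),
          (if φ (x i) = b then (1 : ℝ) else 0) * (if φ (x j) = b then (1 : ℝ) else 0) := by
      intro i j
      rw [Finset.sum_eq_single (φ (x i))]
      · simp only [if_true, map_sub, sub_eq_zero, one_mul]
        simp only [eq_comm]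
      · intro b _ hb
        rw [if_neg (fun h => hb h.symm)]
        simp
      · intro hb
        exact absurd (Finset.mem_image_of_mem (fun i => φ (x i)) (Finset.mem_univ i)) hb
    simp_rw [h1]
    rw [sq_sum (Finset.univ.image (fun i => φ (x i))) k (fun b i => if φ (x i) = b then (1 : ℝ) else 0) c]
    exact Finset.sum_nonneg (fun t _ => mul_self_nonneg _)

lemma ind0 [DecidableEq G] : PD (fun x : G => if x = 0 then (1 : ℝ) else 0) :=
  PD.ind (AddMonoidHom.id G)

/-- autocorrelations on a finite group -/
lemma auto [Fintype H] (φ : G →+ H) (g : H → ℝ) : PD (fun x => ∑ y, g y * g (y + φ x)) where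
  even x := by
    rw [← Equiv.sum_comp (Equiv.addRight (φ x)) (fun y => g y * g (y + φ (-x)))]
    apply Finset.sum_congr rfl
    intro y _
    simp only [Equiv.coe_addRight, map_neg, add_neg_cancel_right]
    ring
  pos k x c := by
    have h1 : ∀ i j, (∑ y, g y * g (y + φ (x i - x j))) =
        ∑ y, g (y + φ (x i)) * g (y + φ (x j)) := by
      intro i j
      rw [← Equiv.sum_comp (Equiv.addRight (φ (x j))) (fun y => g y * g (y + φ (x i - x j)))]
      apply Finset.sum_congr rfl
      intro y _
      simp only [Equiv.coe_addRight, map_sub, add_assoc, add_sub_cancel]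
      ring
    simp_rw [h1]
    rw [sq_sum Finset.univ k (fun y i => g (y + φ (x i))) c]
    exact Finset.sum_nonneg (fun t _ => mul_self_nonneg _)

lemma cos (φ : G →+ ℝ) : PD (fun x => Real.cos (φ x)) where
  even x := by simp
  pos k x c := by
    have : ∑ i, ∑ j, c i * c j * Real.cos (φ (x i - x j)) =
        (∑ i, c i * Real.cos (φ (x i))) * (∑ j, c j * Real.cos (φ (x j))) +
        (∑ i, c i * Real.sin (φ (x i))) * (∑ j, c j * Real.sin (φ (x j))) := by
      simp_rw [Finset.sum_mul_sum, ← Finset.sum_add_distrib]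
      apply Finset.sum_congr rfl
      intro i _
      apply Finset.sum_congr rfl
      intro j _
      rw [map_sub, Real.cos_sub]
      ring
    rw [this]
    exact add_nonneg (mul_self_nonneg _) (mul_self_nonneg _)

end PD

open Classical in
/-- the uniform positive definite function of a homomorphism to a finite group with `K`
elements: `1` on the kernel and `-1/(K-1)` off the kernel -/
noncomputable def FB {G B : Type*} [AddCommGroup G] [AddCommGroup B] [Fintype B] (φ : G →+ B) (x : G) : ℝ :=
  if φ x = 0 then 1 else -1 / ((Fintype.card B : ℝ) - 1)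

lemma PD.FB {G B : Type*} [AddCommGroup G] [AddCommGroup B] [Fintype B] (hB : 2 ≤ Fintype.card B)
    (φ : G →+ B) : PD (FB φ) := by
  classical
  set K : ℝ := (Fintype.card B : ℝ) with hK
  have hK2 : (2 : ℝ) ≤ K := by rw [hK]; exact_mod_cast hB
  -- autocorrelation of `K δ_0 - 1`
  have h := (PD.auto φ (fun b => (if b = 0 then K else 0) - 1)).smul (1 / (K * (K - 1)))
    (by have : 0 < K - 1 := by linarith
        positivity)
  refine h.congr ?_
  intro x
  have h1 : ∑ y : B, ((if y = 0 then K else 0) - 1) * ((if y + φ x = 0 then K else 0) - 1) =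
      (if φ x = 0 then K * K else 0) - K := by
    have e : ∀ y : B, ((if y = 0 then K else 0) - 1) * ((if y + φ x = 0 then K else 0) - 1) =
        (if y = 0 then K * (if y + φ x = 0 then K else 0) else 0) - (if y = 0 then K else 0)
          - (if y = - φ x then K else 0) + 1 := by
      intro y
      have e2 : (y + φ x = 0) ↔ (y = - φ x) := by
        constructor
        · intro h; exact eq_neg_of_add_eq_zero_left h
        · intro h; rw [h]; simp
      simp only [e2]
      split_ifs <;> ring
    rw [Finset.sum_congr rfl (fun y _ => e y), Finset.sum_add_distrib, Finset.sum_sub_distrib,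
      Finset.sum_sub_distrib]
    rw [Finset.sum_ite_eq' Finset.univ 0, Finset.sum_ite_eq' Finset.univ 0, Finset.sum_ite_eq' Finset.univ (-φ x)]
    simp only [Finset.mem_univ, if_true, zero_add, Finset.sum_const, Finset.card_univ, nsmul_eq_mul, mul_one, ← hK]
    split_ifs <;> ring
  rw [h1]
  unfold PathMix2.FB
  have : K - 1 ≠ 0 := by linarith
  have : K ≠ 0 := by linarith
  split_ifs
  · field_simp
  · rw [← hK]; field_simp; ring

lemma FB_zero {G B : Type*} [AddCommGroup G] [AddCommGroup B] [Fintype B] (φ : G →+ B) {x : G}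
    (h : φ x = 0) : FB φ x = 1 := by
  unfold FB; rw [if_pos h]

lemma FB_ne {G B : Type*} [AddCommGroup G] [AddCommGroup B] [Fintype B] (φ : G →+ B) {x : G}
    (h : φ x ≠ 0) : FB φ x = -1 / ((Fintype.card B : ℝ) - 1) := by
  unfold FB; rw [if_neg h]

/-- the positive definite function `(1, 0, -1/2, -1/2, 0)` on `ℤ/5` -/
noncomputable def v0 (x : ZMod 5) : ℝ := if x = 0 then 1 else if x = 2 ∨ x = 3 then -1 / 2 else 0

lemma PD.v0 {G : Type*} [AddCommGroup G] (φ : G →+ ZMod 5) : PD (fun x => v0 (φ x)) := by
  have h := (PD.auto φ (fun b => (if b = 0 then 1 else 0) - (if b = 2 then 1 else 0))).smul (1 / 2) (by norm_num)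
  refine h.congr ?_
  intro x
  have key : ∀ a : ZMod 5, PathMix2.v0 a = 1 / 2 * ∑ y : ZMod 5,
      ((if y = 0 then (1 : ℝ) else 0) - (if y = 2 then 1 else 0)) *
      ((if y + a = 0 then (1 : ℝ) else 0) - (if y + a = 2 then 1 else 0)) := by
    intro a
    have hs : ∀ f : ZMod 5 → ℝ, ∑ y, f y = f 0 + f 1 + f 2 + f 3 + f 4 := by
      intro f
      exact Fin.sum_univ_five f
    rw [hs]
    unfold PathMix2.v0
    have h5 : a = 0 ∨ a = 1 ∨ a = 2 ∨ a = 3 ∨ a = 4 := by revert a; decide
    rcases h5 with rfl | rfl | rfl | rfl | rfl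
    all_goals
      simp only [show (1 : ZMod 5) ≠ 0 by decide, show (2 : ZMod 5) ≠ 0 by decide, show (3 : ZMod 5) ≠ 0 by decide,
        show (4 : ZMod 5) ≠ 0 by decide, show (0 : ZMod 5) ≠ 2 by decide, show (1 : ZMod 5) ≠ 2 by decide,
        show (3 : ZMod 5) ≠ 2 by decide, show (4 : ZMod 5) ≠ 2 by decide, show (0 : ZMod 5) ≠ 3 by decide,
        show (1 : ZMod 5) ≠ 3 by decide, show (2 : ZMod 5) ≠ 3 by decide, show (4 : ZMod 5) ≠ 3 by decide,
        show (0 : ZMod 5) + 0 = 0 by decide, show (1 : ZMod 5) + 0 = 1 by decide, show (2 : ZMod 5) + 0 = 2 by decide,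
        show (3 : ZMod 5) + 0 = 3 by decide, show (4 : ZMod 5) + 0 = 4 by decide,
        show (0 : ZMod 5) + 1 = 1 by decide, show (1 : ZMod 5) + 1 = 2 by decide, show (2 : ZMod 5) + 1 = 3 by decide,
        show (3 : ZMod 5) + 1 = 4 by decide, show (4 : ZMod 5) + 1 = 0 by decide,
        show (0 : ZMod 5) + 2 = 2 by decide, show (1 : ZMod 5) + 2 = 3 by decide, show (2 : ZMod 5) + 2 = 4 by decide,
        show (3 : ZMod 5) + 2 = 0 by decide, show (4 : ZMod 5) + 2 = 1 by decide,
        show (0 : ZMod 5) + 3 = 3 by decide, show (1 : ZMod 5) + 3 = 4 by decide, show (2 : ZMod 5) + 3 = 0 by decide,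
        show (3 : ZMod 5) + 3 = 1 by decide, show (4 : ZMod 5) + 3 = 2 by decide,
        show (0 : ZMod 5) + 4 = 4 by decide, show (1 : ZMod 5) + 4 = 0 by decide, show (2 : ZMod 5) + 4 = 1 by decide,
        show (3 : ZMod 5) + 4 = 2 by decide, show (4 : ZMod 5) + 4 = 3 by decide,
        if_true, if_false, or_true, true_or, or_self]
      norm_num
  exact key (φ x)

end PathMix2
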