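import Pool.Agent.PathMix2.Alg
import Pool.Agent.PathMix.Fejer
set_option autoImplicit false

/-! Statements of the modules of the classification (MP_261efc_co).  A module proves the
proposition `S_xxx`, possibly from other propositions `S_yyy` as hypotheses. -/

open Finset

namespace PathMix2

/-! ### Algebra of the roots of unity -/

/-- extension theorem: a periodic function with vanishing prime line sums extends to a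
homomorphism on `A n` -/
def S_EXT : Prop := ∀ (n : ℕ), 0 < n → ∀ (T : Type) [AddCommGroup T] (f : ℤ → T), ZL n f →
  ∃ X : A n →+ T, ∀ m, X (z n m) = f m

/-- slices: if every prime factor of `d` divides `n` then the exponents `≡ i mod d` form a slice -/
def S_SLICE : Prop := ∀ (d n : ℕ), 0 < d → 0 < n → (∀ q : ℕ, q.Prime → q ∣ d → q ∣ n) → ∀ i : ℤ,
  ∃ X : A (d * n) →+ A n, ∀ m, X (z (d * n) m) = if (d : ℤ) ∣ m - i then z n ((m - i) / d) else 0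

/-- `A (2 M) = A M` for odd `M` -/
def S_E2 : Prop := ∀ (M : ℕ), M % 2 = 1 → ∃ X : A (2 * M) →+ A M, ∀ m,
  X (z (2 * M) m) = if m % 2 = 0 then z M (m / 2) else -z M ((m + M) / 2)

/-- `A (4 M) = A (2 M) + i A (2 M)` for odd `M` -/
def S_D4 : Prop := ∀ (M : ℕ), M % 2 = 1 → ∃ X Y : A (4 * M) →+ A (2 * M), ∀ m,
  X (z (4 * M) m) = (if m % 2 = 0 then z (2 * M) (m / 2) else 0) ∧
  Y (z (4 * M) m) = (if m % 2 = 0 then 0 else z (2 * M) ((m - M) / 2))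

/-- Case I decomposition of the real numbers `tt (p n) m` -/
def S_PSI1 : Prop := ∀ (p n h : ℕ), p.Prime → p = 2 * h + 1 → 0 < n → p ∣ n →
  ∃ Ψ : A (p * n) →+ SG n h,
    (∀ m, ok (p * n) m → (∃ a, ok n a ∧ Ψ (tt (p * n) m) = rv n h a) ∨
      ∃ i a, Ψ (tt (p * n) m) = sv n h i a) ∧
    (∀ m m', Ψ (tt (p * n) m) = Ψ (tt (p * n) m') → tt (p * n) m = tt (p * n) m')

/-- Case II decomposition of the real numbers `tt (p n) m` -/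
def S_PSI2 : Prop := ∀ (p n h : ℕ), p.Prime → 5 ≤ p → p = 2 * h + 1 → 0 < n → ¬ p ∣ n →
  ∃ Ψ : A (p * n) →+ (Fin h → A n),
    (∀ m, ok (p * n) m → (∃ a, ok n a ∧ Ψ (tt (p * n) m) = fun _ => -tt n a) ∨
      ∃ i a, Ψ (tt (p * n) m) = Pi.single i (z n a)) ∧
    (∀ m m', Ψ (tt (p * n) m) = Ψ (tt (p * n) m') → tt (p * n) m = tt (p * n) m')

/-! ### Arrays -/

def S_RHO : Prop := ∀ n : ℕ, 0 < n → ¬ 8 ∣ n → ∃ ρ : A n →+ ℤ, Rho n ρ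

def S_SIG : Prop := ∀ n : ℕ, 0 < n → ¬ 3 ∣ n → ¬ 4 ∣ n → ∃ σ : A n →+ ZMod 5,
  (∀ m, σ (z n m) = 1 ∨ σ (z n m) = -1) ∧ ∀ m, σ (z n (-m)) = σ (z n m)

def S_GG : Prop := ∀ M : ℕ, M % 2 = 1 → ∃ (B : Type) (_ : AddCommGroup B) (_ : Fintype B) (G : A M →+ B),
  Fintype.card B = M ∧ (∀ m m', G (z M m) = G (z M m') → (M : ℤ) ∣ m - m') ∧
  ∀ m, G (z M (-m)) = -G (z M m)

/-! ### Functions on a slice -/

def S_DM0 : Prop := ∀ M : ℕ, M % 2 = 1 → 3 ≤ M →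
  ∃ H, InSl M H (fun _ => 1 / ((M : ℝ) - 1)) ∧ RK M H

def S_DM1 : Prop := ∀ M : ℕ, M % 2 = 1 → 3 ≤ M →
  ∃ H, InSl (2 * M) H (fun l => if l % 2 = 0 then 1 / ((M : ℝ) - 1) else 0) ∧ RK (2 * M) H

def S_DM2 : Prop := ∀ M : ℕ, M % 2 = 1 → 3 ≤ M →
  ∃ H, InSl (4 * M) H (fun l => if l % 4 = 0 then 1 / ((M : ℝ) - 1) else 0)

def S_DP : Prop := ∀ M : ℕ, M % 2 = 1 → ¬ 3 ∣ M →
  ∃ H, InSl (2 * M) H (fun l => if l % 2 = 0 then 0 else 1 / (2 * (M : ℝ)))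

def S_DX : Prop := ∀ M : ℕ, M % 2 = 1 →
  ∃ H, InSl (4 * M) H (fun l => if l % 2 = 0 then 0 else 1 / (4 * (M : ℝ)))

/-! ### Functions on the model group -/

def S_X0 : Prop := ∀ n g n0 : ℕ, 0 < n → ¬ 8 ∣ n → 1 ≤ g → n0 % 2 = 1 → 3 ≤ n0 → g ≤ n0 →
  ∃ F, Vals n g F (((n0 : ℝ) - 1) * n) 0 0 1 (fun _ => 0) ∧
    ((¬ 3 ∣ n ∨ ∀ a : Fin g → ℤ, ∑ i, z n (a i) ≠ 0) → Kill n g F)

def S_X1 : Prop := ∀ (n g n0 : ℕ) (H : A n → ℝ) (h3 : ℤ → ℝ), 0 < n → ¬ 8 ∣ n → 2 ≤ g →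
  n0 % 2 = 1 → 3 ≤ n0 → g - 1 ≤ n0 → InSl n H h3 →
  ∃ F, Vals n g F (g * ((n0 : ℝ) - 1) * n) 0 0 (g - 2) (fun l => ((n0 : ℝ) - 1) * n * h3 l) ∧
    Kill n g F

def S_C2 : Prop := ∀ n g : ℕ, 0 < n → ¬ 8 ∣ n → 2 ≤ g →
  ∃ F, Vals n g F ((g : ℝ) * n / 2) 0 1 (SS n / (((g : ℝ) - 1) * n)) (fun l => -ind n l) ∧
    (4 ≤ g → Kill n g F)

def S_C1 : Prop := ∀ n g : ℕ, 0 < n → ¬ 4 ∣ n → 1 ≤ g →
  ∃ F, Vals n g F ((g : ℝ) * n) 0 1 0 (fun l => -ind n l)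

def S_PROD : Prop := ∀ (n g : ℕ) (w : ℝ) (H : A n → ℝ) (h3 : ℤ → ℝ), 0 < n → 1 ≤ g → PP n w →
  InSl n H h3 → ∃ F, Vals n g F w 1 0 0 (fun l => w * h3 l) ∧ (2 ≤ g → RK n H → Kill n g F)

def S_PROD0 : Prop := ∀ (n g : ℕ) (H : A n → ℝ) (h3 : ℤ → ℝ), 0 < n → 1 ≤ g →
  InSl n H h3 → ∃ F, Vals n g F 1 0 0 0 h3 ∧ (2 ≤ g → Kill n g F)

def S_PRODT : Prop := ∀ (n g : ℕ) (w : ℝ) (H : A n → ℝ) (h3 : ℤ → ℝ), 0 < n → 2 ≤ g → PP n w →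
  InSl n H h3 → ∃ F, Vals n g F w 1 0 0 (fun l => ((g : ℝ) - 1) / g * w * h3 l) ∧ Kill n g F

/-! ### Reductions -/

def S_CASE1 : Prop := ∀ (p n h : ℕ) (F : SG n h → ℝ) (w : ℝ), p.Prime → p = 2 * h + 1 → 0 < n →
  p ∣ n → Vals n h F w 1 1 1 (fun _ => 1) → PP (p * n) w

def S_CASE2 : Prop := ∀ (p n g : ℕ) (F : SG n g → ℝ) (w : ℝ), p.Prime → p = 2 * g + 3 → 2 ≤ g →
  0 < n → ¬ p ∣ n →
  Vals n g F w 1 (((g : ℝ) + 1) / g) (((g : ℝ) + 1) / (g - 1)) (fun _ => ((g : ℝ) + 1) / g) →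
  Kill n g F → PP (p * n) w

/-! ### Designs -/

/-- Case I, odd level, `p = 3` -/
def S_DES1_3 : Prop := ∀ M : ℕ, M % 2 = 1 → 3 ∣ M → PP M (M - 2) → PP (3 * M) (3 * M - 2)

/-- Case I, odd level, `p ≥ 5` -/
def S_DES1_0 : Prop := ∀ p M : ℕ, p.Prime → 5 ≤ p → M % 2 = 1 → p ∣ M → PP M (M - 2) →
  PP (p * M) (p * M - 2)

/-- Case I, level `2 M` -/
def S_DES1_1 : Prop := ∀ p M : ℕ, p.Prime → 5 ≤ p → M % 2 = 1 → ¬ 3 ∣ M → p ∣ M →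
  PP (2 * M) (2 * M - 2) → PP (p * (2 * M)) (p * (2 * M) - 2)

/-- Case I, level `4 M` -/
def S_DES1_2 : Prop := ∀ p M : ℕ, p.Prime → 5 ≤ p → M % 2 = 1 → ¬ 3 ∣ M → p ∣ M →
  PP (4 * M) (4 * M - 2) → PP (p * (4 * M)) (p * (4 * M) - 2)

/-- Case II, odd level not divisible by `3` -/
def S_DES2_0 : Prop := ∀ p M : ℕ, p.Prime → 11 ≤ p → M % 2 = 1 → 3 ≤ M → ¬ 3 ∣ M → ¬ p ∣ M →
  PP M (M - 2) → PP (p * M) (p * M - 2)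

/-- Case II, odd level divisible by `3` -/
def S_DES2_3 : Prop := ∀ p M : ℕ, p.Prime → 11 ≤ p → p ≠ 13 → M % 2 = 1 → 3 ∣ M → ¬ p ∣ M →
  PP M (M - 2) → PP (p * M) (p * M - 2)

/-- Case II, `n = 39` -/
def S_DES2_39 : Prop := PP 3 1 → PP 39 37

/-- Case II, level `2 M` -/
def S_DES2_1 : Prop := ∀ p M : ℕ, p.Prime → 11 ≤ p → M % 2 = 1 → 3 ≤ M → ¬ 3 ∣ M → ¬ p ∣ M →
  PP (2 * M) (2 * M - 2) → PP (p * (2 * M)) (p * (2 * M) - 2)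

/-- Case II, level `4 M` -/
def S_DES2_2 : Prop := ∀ p M : ℕ, p.Prime → 11 ≤ p → M % 2 = 1 → 3 ≤ M → ¬ 3 ∣ M → ¬ p ∣ M →
  PP (4 * M) (4 * M - 2) → PP (p * (4 * M)) (p * (4 * M) - 2)

/-! ### Base cases -/

def S_BASE3 : Prop := PP 3 1
def S_BASE1 : Prop := ∀ p : ℕ, p.Prime → 5 ≤ p → PP p (p - 2)
def S_BASE2 : Prop := ∀ p : ℕ, p.Prime → 5 ≤ p → PP (2 * p) (2 * p - 2)
def S_BASE4 : Prop := ∀ p : ℕ, p.Prime → 5 ≤ p → PP (4 * p) (4 * p - 2)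
def S_35 : Prop := PP 35 33
def S_70 : Prop := PP 70 68
def S_140 : Prop := PP 140 138

/-! ### 2-powers and the odd class -/

def S_PARTB : Prop := ∀ s Q : ℕ, 3 ≤ s → Q % 2 = 1 → 5 ≤ Q → ¬ 3 ∣ Q → PP (4 * Q) (4 * Q - 2) →
  PP (2 ^ s * Q) (2 ^ s * Q - 2)

/-- the odd class at `N = 4 m1 Q` -/
def S_P1 : Prop := ∀ Q m1 : ℕ, Q % 2 = 1 → 5 ≤ Q → ¬ 3 ∣ Q → (m1 = 1 ∨ (2 ≤ m1 ∧ m1 % 2 = 0)) →
  ∃ F : (Fin m1 → A (2 * Q)) → ℝ, PD F ∧ F 0 = 4 * m1 * Q - 2 ∧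
    (∀ i m, F (Pi.single i (z (2 * Q) m)) = 0) ∧
    (∀ i j m m', (Pi.single i (z (2 * Q) m) : Fin m1 → A (2 * Q)) ≠ Pi.single j (z (2 * Q) m') →
      F (Pi.single i (z (2 * Q) m) - Pi.single j (z (2 * Q) m')) = -1)

/-! ### The end of the argument -/

/-- a positive definite function on `A (2 N)` with the required values at the differences of the
eigenvalues `tt (2 N) k = 2 cos (π k / N)`, `1 ≤ k < N` -/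
def Fin2 (N : ℕ) : Prop := ∃ F : A (2 * N) → ℝ, PD F ∧ F 0 = N - 2 ∧
  ∀ p q : ℕ, 1 ≤ p → p < N → 1 ≤ q → q < N → p ≠ q →
    F (tt (2 * N) p - tt (2 * N) q) = if p % 2 = q % 2 then -1 else 0

def S_TOP0 : Prop := ∀ N : ℕ, N % 2 = 1 → 3 ≤ N → PP N (N - 2) → Fin2 N
def S_TOP1 : Prop := ∀ Q : ℕ, Q % 2 = 1 → 3 ≤ Q → PP (2 * Q) (2 * Q - 2) → Fin2 (2 * Q)
def S_TOP2 : Prop := ∀ a Q : ℕ, 2 ≤ a → Q % 2 = 1 → 5 ≤ Q → ¬ 3 ∣ Q →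
  PP (2 ^ a * Q) (2 ^ a * Q - 2) → Fin2 (2 ^ a * Q)

/-- link to densities -/
def S_LINK : Prop := ∀ (n : ℕ) (F : A n → ℝ), PD F → F 0 = 1 → ∀ (W : Finset ℝ) (a : W → A n),
  (∀ w, ((a w : A n) : ℂ) = ((w : ℝ) : ℂ)) → (fun w => F (a w)) ∈ closure (PathMix.momSet W)

def S_FIN : Prop := ∀ n : ℕ, 4 ≤ n → Fin2 (n + 1) →
  ∃ f : ℝ → ℝ, PathMix.IsDensity f ∧ (PathMix.Mavg n f).rank = 1

end PathMix2
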